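import Pool.Agent.Helper52.CS.Defs

/-! CS-1. Khintchine's inequality with constant 2.
PROOF. Write `S = ∑ ε_i a_i`, `σ² = nsq I a`. Averages over signs: avg S² = σ², avg S⁴ ≤ 3 σ⁴ (induction on `I`, or expand).
For every real `x`: `|x| ≥ (3/4) x² - (1/16) x⁴` (for `x ≥ 0`: `1 - (3/4) x + x³/16 ≥ 0`, minimum 0 at `x = 2`). Apply it to `S / σ`
and average: `avg |S| ≥ σ (3/4 - 3/16) ≥ σ / 2`. `σ = 0` is trivial. (`avgOn_insert` below is the recursion for proofs by induction.) -/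

set_option autoImplicit false

namespace Pool.Agent.Helper52.CS

open Finset

/-- Averaging over one more sign. -/
theorem avgOn_insert (I : Finset ℕ) (j : ℕ) (hj : j ∉ I) (F : (ℕ → ℝ) → ℝ) :
    avgOn (insert j I) F =
      (avgOn I F + avgOn I (fun ε => F (fun i => if i = j then 1 else ε i))) / 2 := by
  unfold avgOn
  rw [Finset.sum_powerset_insert hj, Finset.card_insert_of_notMem hj, pow_succ, ← add_div,
    div_div]
  congr 2
  refine Finset.sum_congr rfl fun T _ => ?_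
  congr 1
  funext i
  unfold sgn
  by_cases h : i = j <;> simp [h]

private theorem avgOn_congr' {I : Finset ℕ} {F G : (ℕ → ℝ) → ℝ}
    (h : ∀ T, T ⊆ I → F (sgn T) = G (sgn T)) : avgOn I F = avgOn I G := by
  unfold avgOn
  congr 1
  exact Finset.sum_congr rfl fun T hT => h T (Finset.mem_powerset.mp hT)

private theorem avgOn_add' (I : Finset ℕ) (F G : (ℕ → ℝ) → ℝ) :
    avgOn I (fun ε => F ε + G ε) = avgOn I F + avgOn I G := by
  unfold avgOn
  rw [Finset.sum_add_distrib, add_div]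

private theorem avgOn_mul' (I : Finset ℕ) (c : ℝ) (F : (ℕ → ℝ) → ℝ) :
    avgOn I (fun ε => c * F ε) = c * avgOn I F := by
  unfold avgOn
  rw [← Finset.mul_sum, mul_div_assoc]

private theorem avgOn_const' (I : Finset ℕ) (c : ℝ) : avgOn I (fun _ => c) = c := by
  unfold avgOn
  rw [Finset.sum_const, Finset.card_powerset, nsmul_eq_mul]
  push_cast
  have : (2 : ℝ) ^ I.card ≠ 0 := by positivity
  field_simp

private theorem avgOn_mono' {I : Finset ℕ} {F G : (ℕ → ℝ) → ℝ} (h : ∀ ε, F ε ≤ G ε) :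
    avgOn I F ≤ avgOn I G := by
  unfold avgOn
  exact div_le_div_of_nonneg_right (Finset.sum_le_sum fun T _ => h _) (by positivity)

private theorem sum_insert_sgn {I T : Finset ℕ} {j : ℕ} (hj : j ∉ I) (hT : T ⊆ I) (a : ℕ → ℝ) :
    ∑ i ∈ insert j I, sgn T i * a i = (∑ i ∈ I, sgn T i * a i) - a j := by
  rw [Finset.sum_insert hj]
  have : sgn T j = -1 := by
    unfold sgn
    rw [if_neg fun h => hj (hT h)]
  rw [this]
  ring

private theorem sum_insert_sgn' {I : Finset ℕ} {j : ℕ} (hj : j ∉ I) (ε a : ℕ → ℝ) :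
    ∑ i ∈ insert j I, (if i = j then 1 else ε i) * a i = (∑ i ∈ I, ε i * a i) + a j := by
  rw [Finset.sum_insert hj, if_pos rfl, one_mul, add_comm]
  congr 1
  refine Finset.sum_congr rfl fun i hi => ?_
  rw [if_neg]
  rintro rfl
  exact hj hi

/-- Second moment. -/
theorem avgOn_sq (I : Finset ℕ) (a : ℕ → ℝ) :
    avgOn I (fun ε => (∑ i ∈ I, ε i * a i) ^ 2) = nsq I a := by
  induction I using Finset.induction_on with
  | empty => simp [avgOn, nsq]
  | insert j I hj ih =>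
    rw [avgOn_insert I j hj]
    have h1 : avgOn I (fun ε => (∑ i ∈ insert j I, ε i * a i) ^ 2)
        = avgOn I (fun ε => ((∑ i ∈ I, ε i * a i) - a j) ^ 2) :=
      avgOn_congr' fun T hT => by rw [sum_insert_sgn hj hT]
    have h2 : avgOn I (fun ε => (∑ i ∈ insert j I, (if i = j then 1 else ε i) * a i) ^ 2)
        = avgOn I (fun ε => ((∑ i ∈ I, ε i * a i) + a j) ^ 2) :=
      avgOn_congr' fun T _ => by rw [sum_insert_sgn' hj]
    rw [h1, h2, ← avgOn_add']
    have h3 : avgOn I (fun ε => ((∑ i ∈ I, ε i * a i) - a j) ^ 2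
        + ((∑ i ∈ I, ε i * a i) + a j) ^ 2)
        = avgOn I (fun ε => 2 * (∑ i ∈ I, ε i * a i) ^ 2 + 2 * a j ^ 2) :=
      avgOn_congr' fun T _ => by ring
    rw [h3, avgOn_add', avgOn_mul', avgOn_const', ih]
    unfold nsq
    rw [Finset.sum_insert hj]
    ring

private theorem nsq_nonneg' (I : Finset ℕ) (a : ℕ → ℝ) : 0 ≤ nsq I a :=
  Finset.sum_nonneg fun _ _ => sq_nonneg _

/-- Fourth moment. -/
private theorem avgOn_four (I : Finset ℕ) (a : ℕ → ℝ) :
    avgOn I (fun ε => (∑ i ∈ I, ε i * a i) ^ 4) ≤ 3 * nsq I a ^ 2 := by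
  induction I using Finset.induction_on with
  | empty => simp [avgOn, nsq]
  | insert j I hj ih =>
    rw [avgOn_insert I j hj]
    have h1 : avgOn I (fun ε => (∑ i ∈ insert j I, ε i * a i) ^ 4)
        = avgOn I (fun ε => ((∑ i ∈ I, ε i * a i) - a j) ^ 4) :=
      avgOn_congr' fun T hT => by rw [sum_insert_sgn hj hT]
    have h2 : avgOn I (fun ε => (∑ i ∈ insert j I, (if i = j then 1 else ε i) * a i) ^ 4)
        = avgOn I (fun ε => ((∑ i ∈ I, ε i * a i) + a j) ^ 4) :=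
      avgOn_congr' fun T _ => by rw [sum_insert_sgn' hj]
    rw [h1, h2, ← avgOn_add']
    have h3 : avgOn I (fun ε => ((∑ i ∈ I, ε i * a i) - a j) ^ 4
        + ((∑ i ∈ I, ε i * a i) + a j) ^ 4)
        = avgOn I (fun ε => 2 * (∑ i ∈ I, ε i * a i) ^ 4 +
          (12 * a j ^ 2 * (∑ i ∈ I, ε i * a i) ^ 2 + 2 * a j ^ 4)) :=
      avgOn_congr' fun T _ => by ring
    rw [h3, avgOn_add', avgOn_mul', avgOn_add', avgOn_mul', avgOn_const', avgOn_sq]
    have h4 : nsq (insert j I) a = a j ^ 2 + nsq I a := by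
      unfold nsq
      rw [Finset.sum_insert hj]
    rw [h4]
    have h5 : 0 ≤ a j ^ 4 := by positivity
    nlinarith [ih, h5]

theorem khin (I : Finset ℕ) (a : ℕ → ℝ) :
    Real.sqrt (nsq I a) ≤ 2 * avgOn I (fun ε => |∑ i ∈ I, ε i * a i|) := by
  set s := Real.sqrt (nsq I a) with hs
  have hs2 : s ^ 2 = nsq I a := Real.sq_sqrt (nsq_nonneg' I a)
  rcases (Real.sqrt_nonneg (nsq I a)).eq_or_lt with h0 | h0
  · rw [hs, ← h0]
    have h1 : (fun _ : ℕ → ℝ => (0 : ℝ)) ≤ fun ε => |∑ i ∈ I, ε i * a i| :=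
      fun ε => abs_nonneg _
    have h2 := avgOn_mono' (I := I) h1
    rw [avgOn_const'] at h2
    linarith
  rw [← hs] at h0
  have key : ∀ ε : ℕ → ℝ, 3 / (4 * s) * (∑ i ∈ I, ε i * a i) ^ 2
      + (-(1 / (16 * s ^ 3))) * (∑ i ∈ I, ε i * a i) ^ 4 ≤ |∑ i ∈ I, ε i * a i| := by
    intro ε
    set S := ∑ i ∈ I, ε i * a i with hS
    have h1 : S ^ 2 = |S| ^ 2 := (sq_abs S).symm
    have h2 : S ^ 4 = |S| ^ 4 := by
      have : S ^ 4 = (S ^ 2) ^ 2 := by ring
      rw [this, h1]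
      ring
    rw [h1, h2]
    have hx : 0 ≤ |S| := abs_nonneg S
    set x := |S| with hxdef
    have h3 : x - (3 / (4 * s) * x ^ 2 + (-(1 / (16 * s ^ 3))) * x ^ 4)
        = x * (x - 2 * s) ^ 2 * (x + 4 * s) / (16 * s ^ 3) := by
      field_simp
      ring
    have h4 : 0 ≤ x * (x - 2 * s) ^ 2 * (x + 4 * s) / (16 * s ^ 3) := by positivity
    linarith
  have h1 := avgOn_mono' (I := I) key
  rw [avgOn_add', avgOn_mul', avgOn_mul', avgOn_sq, ← hs2] at h1
  have h2 := avgOn_four I a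
  rw [← hs2] at h2
  have h3 : 3 / (4 * s) * s ^ 2 = 3 / 4 * s := by
    field_simp
  have h4 : -(1 / (16 * s ^ 3)) * (3 * (s ^ 2) ^ 2) = -(3 / 16 * s) := by
    field_simp
  have h5 : -(1 / (16 * s ^ 3)) * (3 * (s ^ 2) ^ 2)
      ≤ -(1 / (16 * s ^ 3)) * avgOn I (fun ε => (∑ i ∈ I, ε i * a i) ^ 4) := by
    have h6 : 0 ≤ 1 / (16 * s ^ 3) := by positivity
    nlinarith
  rw [h3] at h1
  rw [h4] at h5
  linarith

end Pool.Agent.Helper52.CS
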