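import Pool.Agent.Helper52.CS.Defs

/-! CS-11. Elementary facts on a good kernel (a symmetric idempotent matrix on `I`) and on `rop`. -/

set_option autoImplicit false

namespace Pool.Agent.Helper52.CS

open Finset

variable {I : Finset ℕ} {d : ℕ} {C0 : ℝ} {q : ℕ → ℕ → ℝ}

theorem Good.adj (h : Good I d C0 q) (z x : ℕ → ℝ) :
    ∑ i ∈ I, z i * ap I q x i = ∑ i ∈ I, ap I q z i * x i := by
  unfold ap
  simp only [Finset.mul_sum, Finset.sum_mul]
  rw [Finset.sum_comm]
  refine Finset.sum_congr rfl fun i hi => Finset.sum_congr rfl fun j hj => ?_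
  rw [h.symm i hi j hj]
  ring

theorem Good.ap_ap (h : Good I d C0 q) (x : ℕ → ℝ) (i : ℕ) (hi : i ∈ I) :
    ap I q (ap I q x) i = ap I q x i := by
  unfold ap
  simp only [Finset.mul_sum]
  rw [Finset.sum_comm]
  refine Finset.sum_congr rfl fun k hk => ?_
  rw [← h.idem i hi k hk, Finset.sum_mul]
  exact Finset.sum_congr rfl fun j _ => by ring

theorem Good.nsq_le (h : Good I d C0 q) (x : ℕ → ℝ) : nsq I (ap I q x) ≤ nsq I x := by
  have h1 : nsq I (ap I q x) = ∑ i ∈ I, ap I q x i * x i := by
    have h2 := h.adj (ap I q x) x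
    have h3 : ∑ i ∈ I, ap I q (ap I q x) i * x i = ∑ i ∈ I, ap I q x i * x i :=
      Finset.sum_congr rfl fun i hi => by rw [h.ap_ap x i hi]
    rw [← h3, ← h2]
    unfold nsq
    exact Finset.sum_congr rfl fun i _ => by ring
  have h2 : ∑ i ∈ I, ap I q x i * x i ≤ (nsq I (ap I q x) + nsq I x) / 2 := by
    unfold nsq
    rw [← Finset.sum_add_distrib, Finset.sum_div]
    refine Finset.sum_le_sum fun i _ => ?_
    nlinarith [sq_nonneg (ap I q x i - x i)]
  linarith

private theorem ap_sub' (x y : ℕ → ℝ) (i : ℕ) :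
    ap I q (fun j => x j - y j) i = ap I q x i - ap I q y i := by
  unfold ap
  rw [← Finset.sum_sub_distrib]
  exact Finset.sum_congr rfl fun j _ => by ring

private theorem ap_add' (x y : ℕ → ℝ) (i : ℕ) :
    ap I q (fun j => x j + y j) i = ap I q x i + ap I q y i := by
  unfold ap
  rw [← Finset.sum_add_distrib]
  exact Finset.sum_congr rfl fun j _ => by ring

theorem Good.rop_mem (h : Good I d C0 q) (S : Finset ℕ) (x : ℕ → ℝ) (i : ℕ) (hi : i ∈ I) :
    ap I q (rop I q S x) i = 0 := by
  have h1 : ap I q (rop I q S x) i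
      = ap I q x i - ap I q (fun l => if l ∈ S then 0 else ap I q x l) i
        - ap I q (ap I q (fun l => if l ∈ S then ap I q x l else 0)) i := by
    rw [← ap_sub', ← ap_sub']
    rfl
  rw [h1, h.ap_ap _ i hi]
  have h2 : ap I q (fun l => if l ∈ S then 0 else ap I q x l) i
      + ap I q (fun l => if l ∈ S then ap I q x l else 0) i = ap I q (ap I q x) i := by
    rw [← ap_add']
    congr 1
    funext l
    split_ifs <;> simp
  rw [h.ap_ap x i hi] at h2
  linarith

theorem rop_id (S : Finset ℕ) (x : ℕ → ℝ) (hx : ∀ i ∈ I, ap I q x i = 0) (i : ℕ) (hi : i ∈ I) :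
    rop I q S x i = x i := by
  unfold rop
  rw [hx i hi]
  have h1 : ap I q (fun l => if l ∈ S then ap I q x l else 0) i = 0 := by
    have : ap I q (fun l => if l ∈ S then ap I q x l else 0) i
        = ∑ j ∈ I, q i j * (if j ∈ S then ap I q x j else 0) := rfl
    rw [this]
    refine Finset.sum_eq_zero fun j hj => ?_
    rw [hx j hj]
    simp
  rw [h1]
  simp

private theorem ap_expand (x : ℕ → ℝ) (k : ℕ) :
    ap I q x k = ∑ l ∈ I, x l * ap I q (fun j => if j = l then 1 else 0) k := by
  unfold ap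
  refine Finset.sum_congr rfl fun l hl => ?_
  simp only [mul_ite, mul_one, mul_zero]
  rw [Finset.sum_ite_eq' I l, if_pos hl]
  ring

/-- `rop` is linear: expansion over unit vectors. -/
theorem rop_expand (S : Finset ℕ) (x : ℕ → ℝ) (i : ℕ) (hi : i ∈ I) :
    rop I q S x i = ∑ l ∈ I, x l * rop I q S (fun j => if j = l then 1 else 0) i := by
  unfold rop
  simp only [mul_sub, Finset.sum_sub_distrib]
  congr 1
  · congr 1
    · simp only [mul_ite, mul_one, mul_zero]
      rw [Finset.sum_ite_eq I i, if_pos hi]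
    · split_ifs with h
      · simp
      · exact ap_expand x i
  · have h1 : (fun l => if l ∈ S then ap I q x l else 0)
        = fun k => ∑ l ∈ I, x l * (if k ∈ S then ap I q (fun j => if j = l then 1 else 0) k
          else 0) := by
      funext k
      split_ifs with h
      · exact ap_expand x k
      · simp
    rw [h1]
    have h2 : ∀ y : ℕ → ℝ, ap I q y i = ∑ j ∈ I, q i j * y j := fun _ => rfl
    rw [h2]
    simp only [h2 (fun l_1 => if l_1 ∈ S then _ else 0), Finset.mul_sum]
    rw [Finset.sum_comm]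
    refine Finset.sum_congr rfl fun l _ => Finset.sum_congr rfl fun j _ => ?_
    ring

/-- Pairing with `rop`. -/
theorem Good.pair_rop (h : Good I d C0 q) (S : Finset ℕ) (z x : ℕ → ℝ) :
    ∑ i ∈ I, z i * rop I q S x i = ∑ i ∈ I, z i * x i -
      ∑ i ∈ I.filter (fun i => i ∉ S), z i * ap I q x i -
      ∑ i ∈ I.filter (fun i => i ∈ S), ap I q z i * ap I q x i := by
  unfold rop
  simp only [mul_sub, Finset.sum_sub_distrib]
  congr 1
  · congr 1
    rw [Finset.sum_filter]
    refine Finset.sum_congr rfl fun i _ => ?_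
    by_cases hS : i ∈ S <;> simp [hS]
  · rw [h.adj, Finset.sum_filter]
    refine Finset.sum_congr rfl fun i _ => ?_
    by_cases hS : i ∈ S <;> simp [hS]

end Pool.Agent.Helper52.CS
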