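import Pool.Agent.Helper52.CS.Defs

/-! CS-10. Splitting of the vectors in the range of a good kernel into a part with small level sets and a small top.
PROOF. Let `N = I.card`, `c = d / N`, `λ_a = L0^{-(2a+1)}`. Facts on `ell t = t (1 + log (1/t))` on `(0,1]`: increasing, `ell t ≤ 1`, `ell 0 = 0`.
(1) If `w = ap I q x`, `β² N = nsq I w` and `j` = number of `i ∈ I` with `|w i| > h β` (`h ≥ 1`) then (flat) `j h² β² ≤ C0 (c + ell (j/N)) β² N`, so if `β ≠ 0`:
`(j/N) h² ≤ C0 c + C0 ell (j/N)`.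
(2) If moreover `h² ≥ 2 C0 (1 + log (1/λ))` and `j / N > λ` then `ell (j/N) ≤ (j/N)(1 + log (1/λ))`, so `j/N ≤ 2 C0 c / h²`.
Choose `a0` with `4^a ≥ 2 C0 (1 + (2a+1) log L0)` for all `a ≥ a0`, and `c1` with `2 C0 c1 ≤ 4^{a0} λ_{a0}`, `c1 ≤ 1/2`. The sequence `4^a λ_a` is
decreasing to 0 (`L0² > 4`), so there is a largest `a* ≥ a0` with `2 C0 c ≤ 4^{a*} λ_{a*}`. Put `t = 2^{a*}`. By (2) with `λ = λ_a`, `h = 2^a`, `a0 ≤ a ≤ a*`, the number of
`i` with `|w i| > 2^a β` is at most `λ_a N` (if `β = 0`, `w = 0` on `I` and everything is 0); for `a ≥ a*` the set in the first claim is empty. `t² c ≤ 1` because `2 C0 c ≤ 4^{a*} λ_{a*} ≤ 4^{-a*}`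
(`L0 ≥ 4`). Top: at most `λ_{a*} N` indices with `|w i| > t β`, and `λ_{a*} = L0² λ_{a*+1} ≤ L0² 2 C0 c`; by flat and monotonicity of ell the top has square sum at most
`C0 (c + ell (min 1 (2 C0 L0² c))) nsq I w ≤ Ct c (1 + log (1/c)) nsq I w`. -/

set_option autoImplicit false

namespace Pool.Agent.Helper52.CS

open Finset

private theorem ell_one : ell 1 = 1 := by simp [ell]

private theorem ell_zero : ell 0 = 0 := by simp [ell]

private theorem ell_mono {a b : ℝ} (ha : 0 ≤ a) (hab : a ≤ b) (hb : b ≤ 1) : ell a ≤ ell b := by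
  rcases ha.eq_or_lt with rfl | ha
  · rw [ell_zero]
    have : 0 ≤ Real.negMulLog b := Real.negMulLog_nonneg hab hb
    unfold ell; linarith
  · have hb0 : 0 < b := lt_of_lt_of_le ha hab
    unfold ell Real.negMulLog
    have h1 : Real.log (b / a) ≤ b / a - 1 := Real.log_le_sub_one_of_pos (by positivity)
    rw [Real.log_div hb0.ne' ha.ne'] at h1
    have h2 : a * (Real.log b - Real.log a) ≤ b - a := by
      have := mul_le_mul_of_nonneg_left h1 ha.le
      have h3 : a * (b / a - 1) = b - a := by field_simp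
      linarith
    have h4 : Real.log b ≤ 0 := Real.log_nonpos hb0.le hb
    nlinarith [mul_nonneg (sub_nonneg.2 hab) (neg_nonneg.2 h4)]

private theorem ell_top {K c v : ℝ} (hK : 1 ≤ K) (hc : 0 < c) (hc1 : c ≤ 1) (hv : 0 ≤ v)
    (hv1 : v ≤ 1) (hvK : v ≤ K * c) : ell v ≤ K * (c * (1 + Real.log (1 / c))) := by
  have hlog : 0 ≤ Real.log (1 / c) := Real.log_nonneg (by rw [le_div_iff₀ hc]; linarith)
  by_cases h : K * c ≤ 1
  · have h1 := ell_mono hv hvK h
    have h2 : ell (K * c) ≤ K * (c * (1 + Real.log (1 / c))) := by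
      unfold ell Real.negMulLog
      have h3 : Real.log (1 / c) = - Real.log c := by rw [one_div, Real.log_inv]
      have h4 : Real.log c ≤ Real.log (K * c) :=
        Real.log_le_log hc (by nlinarith)
      rw [h3]
      have h5 : 0 ≤ K * c := by positivity
      nlinarith [mul_nonneg h5 (sub_nonneg.2 h4)]
    exact h1.trans h2
  · push Not at h
    have h1 := ell_mono hv hv1 le_rfl
    rw [ell_one] at h1
    have h5 : 0 ≤ K * c := by positivity
    nlinarith [mul_nonneg h5 hlog]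

private theorem exists_a0 (L0 : ℕ) (C0 : ℝ) : ∃ a0 : ℕ, ∀ a : ℕ, a0 ≤ a →
    2 * C0 * (1 + (2 * a + 1) * Real.log L0) ≤ 4 ^ a := by
  have h1 := tendsto_pow_const_div_const_pow_of_one_lt 1 (r := (4 : ℝ)) (by norm_num)
  have h0 := tendsto_pow_const_div_const_pow_of_one_lt 0 (r := (4 : ℝ)) (by norm_num)
  have h2 : Filter.Tendsto (fun n : ℕ => 2 * C0 * (1 + Real.log L0) * ((n : ℝ) ^ 0 / 4 ^ n) +
      4 * C0 * Real.log L0 * ((n : ℝ) ^ 1 / 4 ^ n)) Filter.atTop (nhds 0) := by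
    have := (h0.const_mul (2 * C0 * (1 + Real.log L0))).add (h1.const_mul (4 * C0 * Real.log L0))
    simpa using this
  have h3 := h2.eventually (Iic_mem_nhds (show (0 : ℝ) < 1 by norm_num))
  obtain ⟨a0, ha0⟩ := Filter.eventually_atTop.1 h3
  refine ⟨a0, fun a ha => ?_⟩
  have h4 : 2 * C0 * (1 + Real.log L0) * ((a : ℝ) ^ 0 / 4 ^ a) +
      4 * C0 * Real.log L0 * ((a : ℝ) ^ 1 / 4 ^ a) ≤ 1 := ha0 a ha
  have hp : (0 : ℝ) < 4 ^ a := by positivity
  have h5 := mul_le_mul_of_nonneg_right h4 hp.le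
  have h6 : (2 * C0 * (1 + Real.log L0) * ((a : ℝ) ^ 0 / 4 ^ a) +
      4 * C0 * Real.log L0 * ((a : ℝ) ^ 1 / 4 ^ a)) * 4 ^ a =
      2 * C0 * (1 + (2 * a + 1) * Real.log L0) := by
    field_simp
    ring
  rw [h6] at h5
  linarith

/-- `4 ^ a / L0 ^ (2 a + 1)` -/
private noncomputable def mu (L0 : ℕ) (a : ℕ) : ℝ := 4 ^ a / (L0 : ℝ) ^ (2 * a + 1)

private theorem mu_pos (L0 : ℕ) (hL : 4 ≤ L0) (a : ℕ) : 0 < mu L0 a := by
  unfold mu
  have : (0 : ℝ) < L0 := by exact_mod_cast (by omega : 0 < L0)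
  positivity

private theorem mu_succ (L0 : ℕ) (hL : 4 ≤ L0) (a : ℕ) : mu L0 (a + 1) ≤ mu L0 a / 4 := by
  unfold mu
  have h4 : (4 : ℝ) ≤ L0 := by exact_mod_cast hL
  have h0 : (0 : ℝ) < L0 := by linarith
  rw [div_div, div_le_div_iff₀ (by positivity) (by positivity)]
  have : (L0 : ℝ) ^ (2 * (a + 1) + 1) = (L0 : ℝ) ^ (2 * a + 1) * (L0 : ℝ) ^ 2 := by ring
  rw [this]
  have h16 : (16 : ℝ) ≤ (L0 : ℝ) ^ 2 := by nlinarith
  have hp : (0 : ℝ) < 4 ^ a * (L0 : ℝ) ^ (2 * a + 1) := by positivity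
  calc (4 : ℝ) ^ (a + 1) * ((L0 : ℝ) ^ (2 * a + 1) * 4)
      = (4 ^ a * (L0 : ℝ) ^ (2 * a + 1)) * 16 := by ring
    _ ≤ (4 ^ a * (L0 : ℝ) ^ (2 * a + 1)) * (L0 : ℝ) ^ 2 := by
        exact mul_le_mul_of_nonneg_left h16 hp.le
    _ = 4 ^ a * ((L0 : ℝ) ^ (2 * a + 1) * (L0 : ℝ) ^ 2) := by ring

private theorem mu_anti (L0 : ℕ) (hL : 4 ≤ L0) : Antitone (mu L0) := by
  refine antitone_nat_of_succ_le (fun a => ?_)
  have := mu_succ L0 hL a
  have := mu_pos L0 hL a
  linarith

private theorem mu_le (L0 : ℕ) (hL : 4 ≤ L0) (a : ℕ) : mu L0 a ≤ (1 / 4) ^ (a + 1) := by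
  induction a with
  | zero =>
    unfold mu
    have h4 : (4 : ℝ) ≤ L0 := by exact_mod_cast hL
    simp only [pow_zero, mul_zero, zero_add, pow_one]
    exact one_div_le_one_div_of_le (by norm_num) h4
  | succ a ih =>
    have := mu_succ L0 hL a
    rw [pow_succ]
    linarith

/-- the largest index -/
private theorem exists_astar (L0 : ℕ) (hL : 4 ≤ L0) (a0 : ℕ) (y : ℝ) (hy : 0 < y)
    (h0 : y ≤ mu L0 a0) : ∃ a : ℕ, a0 ≤ a ∧ y ≤ mu L0 a ∧ mu L0 (a + 1) < y := by
  classical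
  have hex : ∃ b : ℕ, mu L0 (a0 + b) < y := by
    obtain ⟨n, hn⟩ := exists_pow_lt_of_lt_one hy (show (1 / 4 : ℝ) < 1 by norm_num)
    refine ⟨n, lt_of_le_of_lt ((mu_anti L0 hL (Nat.le_add_left n a0)).trans (mu_le L0 hL n)) ?_⟩
    refine lt_of_le_of_lt ?_ hn
    rw [pow_succ]
    have : (0 : ℝ) < (1 / 4) ^ n := by positivity
    linarith
  have hspec := Nat.find_spec hex
  have hmin := fun m (hm : m < Nat.find hex) => Nat.find_min hex hm
  have hne : Nat.find hex ≠ 0 := by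
    intro h
    rw [h, add_zero] at hspec
    linarith
  obtain ⟨b, hb⟩ := Nat.exists_eq_succ_of_ne_zero hne
  refine ⟨a0 + b, Nat.le_add_right _ _, ?_, ?_⟩
  · have := hmin b (by omega)
    linarith
  · rw [hb] at hspec
    exact hspec

private theorem level_card (I : Finset ℕ) (d : ℕ) (C0 : ℝ) (q : ℕ → ℕ → ℝ) (hG : Good I d C0 q)
    (hI : 0 < I.card) (x : ℕ → ℝ) (β h : ℝ) (hβ : 0 < β) (hh : 0 ≤ h)
    (hN : β ^ 2 * I.card = nsq I (ap I q x)) :
    (((I.filter (fun i => h * β < |ap I q x i|)).card : ℝ) / I.card) * h ^ 2 ≤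
      C0 * ((d : ℝ) / I.card +
        ell (((I.filter (fun i => h * β < |ap I q x i|)).card : ℝ) / I.card)) := by
  set F := I.filter (fun i => h * β < |ap I q x i|) with hF
  have hI' : (0 : ℝ) < I.card := by exact_mod_cast hI
  have h1 := hG.flat x F (Finset.filter_subset _ _)
  have h2 : (F.card : ℝ) * (h * β) ^ 2 ≤ nsq F (ap I q x) := by
    unfold nsq
    rw [← nsmul_eq_mul]
    refine Finset.card_nsmul_le_sum _ _ _ (fun i hi => ?_)
    have h3 := (Finset.mem_filter.1 hi).2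
    rw [← sq_abs (ap I q x i)]
    exact pow_le_pow_left₀ (by positivity) h3.le 2
  rw [← hN] at h1
  have h3 := h2.trans h1
  have hb2 : 0 < β ^ 2 * I.card := by positivity
  have h4 : ((F.card : ℝ) / I.card * h ^ 2) * (β ^ 2 * I.card) ≤
      (C0 * ((d : ℝ) / I.card + ell ((F.card : ℝ) / I.card))) * (β ^ 2 * I.card) := by
    calc ((F.card : ℝ) / I.card * h ^ 2) * (β ^ 2 * I.card) = (F.card : ℝ) * (h * β) ^ 2 := by
          field_simp
      _ ≤ _ := by linarith
  exact le_of_mul_le_mul_right h4 hb2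

theorem split (L0 : ℕ) (hL : 4 ≤ L0) (C0 : ℝ) (hC : 1 ≤ C0) : ∃ (a0 : ℕ) (Ct c1 : ℝ),
    0 < Ct ∧ 0 < c1 ∧ ∀ (I : Finset ℕ) (d : ℕ) (q : ℕ → ℕ → ℝ), Good I d C0 q → 0 < d →
      (d : ℝ) ≤ c1 * I.card → ∃ t : ℝ, 1 ≤ t ∧ t ^ 2 * d ≤ I.card ∧
        ∀ (x : ℕ → ℝ) (β : ℝ), 0 ≤ β → β ^ 2 * I.card = nsq I (ap I q x) →
          (∀ a, a0 ≤ a → (I.filter (fun i => 2 ^ a * β < |ap I q x i| ∧
            |ap I q x i| ≤ t * β)).card * L0 ^ (2 * a + 1) ≤ I.card) ∧
          nsq (I.filter (fun i => t * β < |ap I q x i|)) (ap I q x) ≤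
            Ct * ((d : ℝ) / I.card) * (1 + Real.log ((I.card : ℝ) / d)) * nsq I (ap I q x) := by
  obtain ⟨a0, ha0⟩ := exists_a0 L0 C0
  have hLr : (4 : ℝ) ≤ L0 := by exact_mod_cast hL
  have hL0 : (0 : ℝ) < L0 := by linarith
  have hC0 : 0 < C0 := by linarith
  have hmu0 := mu_pos L0 hL a0
  refine ⟨a0, C0 * (1 + 2 * C0 * (L0 : ℝ) ^ 2), min (mu L0 a0 / (2 * C0)) (1 / 2), by positivity,
    by positivity, ?_⟩
  intro I d q hG hd hdI
  have hd' : (0 : ℝ) < d := by exact_mod_cast hd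
  have hI' : (0 : ℝ) < I.card := by
    by_contra hcon
    have h0 : (I.card : ℝ) = 0 := le_antisymm (not_lt.1 hcon) (Nat.cast_nonneg _)
    rw [h0, mul_zero] at hdI
    linarith
  have hI : 0 < I.card := by exact_mod_cast hI'
  set c : ℝ := (d : ℝ) / I.card with hc
  have hc0 : 0 < c := by positivity
  have hcle : c ≤ min (mu L0 a0 / (2 * C0)) (1 / 2) := by
    rw [hc, div_le_iff₀ hI']; exact hdI
  have hc12 : c ≤ 1 / 2 := hcle.trans (min_le_right _ _)
  have hc3 : 2 * C0 * c ≤ mu L0 a0 := by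
    have := hcle.trans (min_le_left _ _)
    rw [le_div_iff₀ (by positivity)] at this
    linarith
  obtain ⟨as, has0, has1, has2⟩ := exists_astar L0 hL a0 (2 * C0 * c) (by positivity) hc3
  have hmule : ∀ a, 4 ^ a / (L0 : ℝ) ^ (2 * a + 1) = mu L0 a := fun a => rfl
  have ht2 : ((2 : ℝ) ^ as) ^ 2 = 4 ^ as := by
    rw [← pow_mul, mul_comm, pow_mul]; norm_num
  have hcard : ∀ (F : Finset ℕ), F ⊆ I → (F.card : ℝ) / I.card ≤ 1 := by
    intro F hF
    rw [div_le_one hI']
    exact_mod_cast Finset.card_le_card hF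
  -- the key estimate of level sets
  have key : ∀ (x : ℕ → ℝ) (β : ℝ), 0 < β → β ^ 2 * I.card = nsq I (ap I q x) → ∀ a, a0 ≤ a →
      a ≤ as → ((I.filter (fun i => 2 ^ a * β < |ap I q x i|)).card : ℝ) / I.card ≤
        1 / (L0 : ℝ) ^ (2 * a + 1) := by
    intro x β hβ hN a ha ha'
    set F := I.filter (fun i => 2 ^ a * β < |ap I q x i|) with hF
    by_contra hcon
    push Not at hcon
    have h1 := level_card I d C0 q hG hI x β (2 ^ a) hβ (by positivity) hN
    rw [← hF, ← hc] at h1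
    set j : ℝ := (F.card : ℝ) / I.card with hj
    have hj0 : 0 < j := lt_trans (by positivity) hcon
    have hj1 : j ≤ 1 := hcard F (Finset.filter_subset _ _)
    have h2 : ell j ≤ j * (1 + (2 * a + 1) * Real.log L0) := by
      unfold ell Real.negMulLog
      have h3 : Real.log (1 / (L0 : ℝ) ^ (2 * a + 1)) ≤ Real.log j :=
        Real.log_le_log (by positivity) hcon.le
      rw [one_div, Real.log_inv, Real.log_pow] at h3
      push_cast at h3
      nlinarith [mul_le_mul_of_nonneg_left h3 hj0.le]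
    have h4 := ha0 a ha
    have h5 : ((2 : ℝ) ^ a) ^ 2 = 4 ^ a := by
      rw [← pow_mul, mul_comm, pow_mul]; norm_num
    rw [h5] at h1
    have h6 : C0 * ell j ≤ j * 4 ^ a / 2 := by
      have h7 := mul_le_mul_of_nonneg_left h2 hC0.le
      have h8 := mul_le_mul_of_nonneg_left h4 hj0.le
      nlinarith
    have h9 : j * 4 ^ a ≤ 2 * C0 * c := by nlinarith
    have h10 : 2 * C0 * c ≤ mu L0 a := has1.trans (mu_anti L0 hL ha')
    have h11 : j * 4 ^ a ≤ (1 / (L0 : ℝ) ^ (2 * a + 1)) * 4 ^ a := by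
      calc j * 4 ^ a ≤ mu L0 a := h9.trans h10
        _ = (1 / (L0 : ℝ) ^ (2 * a + 1)) * 4 ^ a := by unfold mu; ring
    have h12 := le_of_mul_le_mul_right h11 (by positivity)
    linarith
  refine ⟨2 ^ as, one_le_pow₀ (by norm_num), ?_, ?_⟩
  · rw [ht2]
    have h1 : 4 ^ as * c ≤ 1 := by
      have h2 : mu L0 as ≤ (1 / 4) ^ (as + 1) := mu_le L0 hL as
      have h3 : c ≤ (1 / 4) ^ (as + 1) := by
        have : c ≤ 2 * C0 * c := by nlinarith
        linarith
      calc 4 ^ as * c ≤ 4 ^ as * (1 / 4) ^ (as + 1) :=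
            mul_le_mul_of_nonneg_left h3 (by positivity)
        _ = (4 * (1 / 4)) ^ as * (1 / 4) := by rw [pow_succ, mul_pow]; ring
        _ ≤ 1 := by norm_num
    have h4 := mul_le_mul_of_nonneg_right h1 hI'.le
    have h5 : 4 ^ as * c * I.card = 4 ^ as * d := by rw [hc]; field_simp
    rw [h5] at h4
    linarith
  · intro x β hβ hN
    rcases hβ.eq_or_lt with hβ0 | hβ
    · -- β = 0
      have hz : nsq I (ap I q x) = 0 := by rw [← hN, ← hβ0]; ring
      have hz' : ∀ i ∈ I, ap I q x i = 0 := by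
        intro i hi
        have := (Finset.sum_eq_zero_iff_of_nonneg (fun i _ => sq_nonneg (ap I q x i))).1 hz i hi
        exact pow_eq_zero_iff (two_ne_zero) |>.1 this
      have he : ∀ (h : ℝ), I.filter (fun i => h * β < |ap I q x i|) = ∅ := by
        intro h
        rw [Finset.filter_eq_empty_iff]
        intro i hi
        rw [hz' i hi, ← hβ0]; simp
      refine ⟨fun a _ => ?_, ?_⟩
      · have : I.filter (fun i => 2 ^ a * β < |ap I q x i| ∧ |ap I q x i| ≤ 2 ^ as * β) = ∅ := by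
          rw [Finset.filter_eq_empty_iff]
          intro i hi
          rw [hz' i hi, ← hβ0]; simp
        rw [this]; simp
      · rw [he, hz, mul_zero]; simp [nsq]
    · refine ⟨fun a ha => ?_, ?_⟩
      · by_cases haa : a ≤ as
        · have h1 := key x β hβ hN a ha haa
          have h2 : ((I.filter (fun i => 2 ^ a * β < |ap I q x i| ∧
              |ap I q x i| ≤ 2 ^ as * β)).card : ℝ) ≤
              ((I.filter (fun i => 2 ^ a * β < |ap I q x i|)).card : ℝ) := by
            norm_cast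
            refine Finset.card_le_card (fun i hi => ?_)
            rw [Finset.mem_filter] at hi ⊢
            exact ⟨hi.1, hi.2.1⟩
          rw [div_le_iff₀ hI'] at h1
          have hp : (0 : ℝ) < (L0 : ℝ) ^ (2 * a + 1) := by positivity
          have h3 := mul_le_mul_of_nonneg_right (h2.trans h1) hp.le
          have h4 : 1 / (L0 : ℝ) ^ (2 * a + 1) * I.card * (L0 : ℝ) ^ (2 * a + 1) = I.card := by
            field_simp
          rw [h4] at h3
          exact_mod_cast h3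
        · have : I.filter (fun i => 2 ^ a * β < |ap I q x i| ∧ |ap I q x i| ≤ 2 ^ as * β) = ∅ := by
            rw [Finset.filter_eq_empty_iff]
            rintro i hi ⟨h1, h2⟩
            have h3 : (2 : ℝ) ^ as ≤ 2 ^ a := pow_le_pow_right₀ (by norm_num) (by omega)
            nlinarith
          rw [this]; simp
      · set F := I.filter (fun i => 2 ^ as * β < |ap I q x i|) with hF
        have h1 := key x β hβ hN as has0 le_rfl
        rw [← hF] at h1
        have hFs : F ⊆ I := Finset.filter_subset _ _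
        have h2 := hG.flat x F hFs
        have h3 : (F.card : ℝ) / I.card ≤ (2 * C0 * (L0 : ℝ) ^ 2) * c := by
          refine h1.trans ?_
          have h4 : 1 / (L0 : ℝ) ^ (2 * as + 1) = (L0 : ℝ) ^ 2 * (mu L0 (as + 1) / 4 ^ (as + 1)) := by
            unfold mu
            have : (L0 : ℝ) ^ (2 * (as + 1) + 1) = (L0 : ℝ) ^ (2 * as + 1) * (L0 : ℝ) ^ 2 := by ring
            rw [this]
            field_simp
          rw [h4]
          have h5 : mu L0 (as + 1) / 4 ^ (as + 1) ≤ 2 * C0 * c := by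
            have h6 := mu_pos L0 hL (as + 1)
            have h7 : (1 : ℝ) ≤ 4 ^ (as + 1) := one_le_pow₀ (by norm_num)
            exact (div_le_self h6.le h7).trans has2.le
          have h8 := mul_le_mul_of_nonneg_left h5 (by positivity : (0 : ℝ) ≤ (L0 : ℝ) ^ 2)
          linarith
        have h4 := ell_top (K := 2 * C0 * (L0 : ℝ) ^ 2) (by nlinarith) hc0 (by linarith)
          (by positivity) (hcard F hFs) h3
        have h5 : Real.log ((I.card : ℝ) / d) = Real.log (1 / c) := by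
          rw [hc]; congr 1; field_simp
        rw [h5]
        rw [← hc] at h2
        have hlog : 0 ≤ Real.log (1 / c) :=
          Real.log_nonneg (by rw [le_div_iff₀ hc0]; linarith)
        have hns : 0 ≤ nsq I (ap I q x) := by unfold nsq; positivity
        refine h2.trans ?_
        refine mul_le_mul_of_nonneg_right ?_ hns
        have h6 : c ≤ c * (1 + Real.log (1 / c)) := by nlinarith [mul_nonneg hc0.le hlog]
        calc C0 * (c + ell ((F.card : ℝ) / I.card)) ≤
            C0 * (c * (1 + Real.log (1 / c)) +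
              2 * C0 * (L0 : ℝ) ^ 2 * (c * (1 + Real.log (1 / c)))) := by
              exact mul_le_mul_of_nonneg_left (by linarith) hC0.le
          _ = C0 * (1 + 2 * C0 * (L0 : ℝ) ^ 2) * c * (1 + Real.log (1 / c)) := by ring

end Pool.Agent.Helper52.CS
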