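import Pool.Agent.Helper52.CS.ParBasics
import Pool.Agent.Helper52.CS.Split
import Pool.Agent.Helper52.CS.Proj
import Pool.Agent.Helper52.CS.Khin

/-! CS-17. The average norm of the projection of a random sign vector.
PROOF. `I = bl s n`, `φ = N (rs I 1)`, `N_n = card`. `N (rs I (ε - Qε)) ≤ N (rs I ε) + N (rs I w)`, `w = ap ε`, `N (rs I ε) ≤ C φ`. Split `w` by `split L0 C0` (with any `L0 ≥ 4`,
e.g. 4) with `β = sqrt (nsq w / N_n)`, threshold `t`: the part `|w| ≤ t β` has norm `≤ C t β φ`, the top part has norm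
`≤ C^4 sqrt (nsq top) ≤ C^4 sqrt (Ct (d/N_n)(1 + log (N_n/d))) sqrt (nsq w)` (upper2). Average over the signs: avg nsq w = ∑_i ∑_j (q i j)² = ∑ q i i ≤ d (avgOn_sq for each `i`, symm, idem, trace),
so avg sqrt (nsq w) ≤ sqrt d (Cauchy-Schwarz). First: `C t sqrt (d / N_n) φ ≤ C φ` (`t² d ≤ N_n`). Second: `C^4 sqrt Ct · sqrt (d/N_n · 29 g) sqrt d = C^4 sqrt (29 Ct g) (d / N_n) sqrt N_n
≤ C^4 sqrt (29 Ct g) 2 g^{-28} sqrt Λ g^16 φ` by f_hi, c_le. `G0` large: `d ≤ c1 N_n` as in ExtBound. -/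

set_option autoImplicit false

namespace Pool.Agent.Helper52.CS

open Finset

variable {N : F0 → ℝ} {C C0 Λ : ℝ}

private theorem avgOn_mono {I : Finset ℕ} {F G : (ℕ → ℝ) → ℝ} (hFG : ∀ T ⊆ I, F (sgn T) ≤ G (sgn T)) :
    avgOn I F ≤ avgOn I G := by
  unfold avgOn
  refine div_le_div_of_nonneg_right (Finset.sum_le_sum (fun T hT => ?_)) (by positivity)
  exact hFG T (Finset.mem_powerset.1 hT)

private theorem avgOn_affine (I : Finset ℕ) (a A : ℝ) (F : (ℕ → ℝ) → ℝ) :
    avgOn I (fun ε => a + A * F ε) = a + A * avgOn I F := by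
  unfold avgOn
  rw [Finset.sum_add_distrib, Finset.sum_const, nsmul_eq_mul, Finset.card_powerset,
    ← Finset.mul_sum]
  push_cast
  field_simp

private theorem avgOn_sum (I J : Finset ℕ) (F : ℕ → (ℕ → ℝ) → ℝ) :
    avgOn I (fun ε => ∑ i ∈ J, F i ε) = ∑ i ∈ J, avgOn I (F i) := by
  unfold avgOn
  rw [Finset.sum_comm, Finset.sum_div]

private theorem avg_nsq_ap {I : Finset ℕ} {d : ℕ} {q : ℕ → ℕ → ℝ} (hq : Good I d C0 q) :
    avgOn I (fun ε => nsq I (ap I q ε)) ≤ d := by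
  have h1 : avgOn I (fun ε => nsq I (ap I q ε)) = ∑ i ∈ I, avgOn I (fun ε => (ap I q ε i) ^ 2) := by
    unfold nsq
    exact avgOn_sum I I (fun i ε => (ap I q ε i) ^ 2)
  have h2 : ∀ i ∈ I, avgOn I (fun ε => (ap I q ε i) ^ 2) = q i i := by
    intro i hi
    have h3 : (fun ε : ℕ → ℝ => (ap I q ε i) ^ 2) = fun ε => (∑ j ∈ I, ε j * q i j) ^ 2 := by
      funext ε
      unfold ap
      congr 1
      exact Finset.sum_congr rfl (fun j _ => mul_comm _ _)
    rw [h3, avgOn_sq I (fun j => q i j)]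
    unfold nsq
    rw [← hq.idem i hi i hi]
    refine Finset.sum_congr rfl (fun j hj => ?_)
    rw [hq.symm j hj i hi]
    ring
  rw [h1, Finset.sum_congr rfl h2]
  exact hq.trace

private theorem rs_sub' (J : Finset ℕ) (x y : ℕ → ℝ) :
    rs J (fun i => x i - y i) = rs J x + (-1 : ℝ) • rs J y := by
  ext i
  rw [Finsupp.add_apply, Finsupp.smul_apply, rs_apply, rs_apply, rs_apply, smul_eq_mul]
  split_ifs <;> ring

private theorem rs_const (J : Finset ℕ) (t : ℝ) :
    rs J (fun _ => t) = t • rs J (fun _ => 1) := by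
  ext i
  rw [Finsupp.smul_apply, rs_apply, rs_apply, smul_eq_mul]
  split_ifs <;> ring

theorem LNorm.avg_proj (h : LNorm N C) (hC0 : 1 ≤ C0) (hΛ : 1 ≤ Λ) : ∃ (K3 : ℝ) (G0 : ℕ), 0 ≤ K3 ∧
    ∀ (s g d : ℕ → ℕ) (q : ℕ → ℕ → ℕ → ℝ), Par N C0 Λ s g d q → (∀ m, G0 ≤ g m) → ∀ n : ℕ,
      avgOn (bl s n) (fun ε => N (rs (bl s n) (fun i => ε i - ap (bl s n) (q n) ε i))) ≤
        K3 * N (rs (bl s n) (fun _ => 1)) := by
  classical
  obtain ⟨a0, Ct, c1, hCt, hc1, hsplit⟩ := split 4 le_rfl C0 hC0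
  have hC1 : 1 ≤ C := h.one_le
  obtain ⟨G1, hG1⟩ := exists_nat_ge (2 / c1)
  refine ⟨2 * C + 2 * C ^ 4 * Real.sqrt (29 * Ct) * Real.sqrt Λ, G1, by positivity, ?_⟩
  intro s g d q hP hg n
  have hcard : (0 : ℝ) < (bl s n).card := by exact_mod_cast hP.card_pos n
  have hgR : (1 : ℝ) ≤ g n := hP.g_pos n
  have hg0 : (0 : ℝ) < g n := by linarith
  have hdpos : 0 < d n := lt_of_lt_of_le (by norm_num) (hP.d_big n)
  have hdR : (0 : ℝ) < d n := by exact_mod_cast hdpos
  have hdc : (d n : ℝ) ≤ c1 * (bl s n).card := by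
    have h1 := hP.c_le n
    have h2 : (2 : ℝ) ≤ c1 * (g n : ℝ) ^ 28 := by
      have h3 : 2 / c1 ≤ (g n : ℝ) := hG1.trans (by exact_mod_cast hg n)
      have h4 : (g n : ℝ) ≤ (g n : ℝ) ^ 28 := le_self_pow₀ hgR (by norm_num)
      have h5 : 2 / c1 ≤ (g n : ℝ) ^ 28 := h3.trans h4
      rw [div_le_iff₀ hc1] at h5
      linarith
    have h3 : 0 < (g n : ℝ) ^ 28 := by positivity
    have h4 : (d n : ℝ) / (bl s n).card * (g n : ℝ) ^ 28 ≤ c1 * (g n : ℝ) ^ 28 := h1.trans h2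
    have h5 := le_of_mul_le_mul_right h4 h3
    rwa [div_le_iff₀ hcard] at h5
  obtain ⟨t, ht1, ht2, ht3⟩ := hsplit (bl s n) (d n) (q n) (hP.good n) hdpos hdc
  set I : Finset ℕ := bl s n with hI
  set Nn : ℝ := (I.card : ℝ) with hNn
  set φ : ℝ := N (rs I (fun _ => 1)) with hφ
  have hφ0 : 0 ≤ φ := h.nonneg _
  set D : ℝ := Real.sqrt (d n) with hD
  have hD0 : 0 < D := Real.sqrt_pos.2 hdR
  have hD2 : D ^ 2 = d n := Real.sq_sqrt hdR.le
  set R : ℝ := Ct * ((d n : ℝ) / Nn) * (1 + Real.log (Nn / d n)) with hR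
  have hlog := hP.log_le n
  rw [← hI, ← hNn] at hlog
  have hR0 : 0 ≤ R := by
    have : 0 ≤ 1 + Real.log (Nn / d n) := by linarith [hlog.1]
    positivity
  set A : ℝ := C * t * φ / Real.sqrt Nn + C ^ 4 * Real.sqrt R with hA
  have hsN : 0 < Real.sqrt Nn := Real.sqrt_pos.2 hcard
  have hA0 : 0 ≤ A := by positivity
  -- pointwise estimate
  have hpt : ∀ T ⊆ I, N (rs I (fun i => sgn T i - ap I (q n) (sgn T) i)) ≤
      C * φ + A / 2 * D + A / (2 * D) * nsq I (ap I (q n) (sgn T)) := by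
    intro T _
    set ε : ℕ → ℝ := sgn T with hε
    set w : ℕ → ℝ := ap I (q n) ε with hw
    have hnw : 0 ≤ nsq I w := Finset.sum_nonneg (fun i _ => sq_nonneg _)
    set β : ℝ := Real.sqrt (nsq I w / Nn) with hβ
    have hβ0 : 0 ≤ β := Real.sqrt_nonneg _
    have hβ2 : β ^ 2 * I.card = nsq I w := by
      rw [hβ, Real.sq_sqrt (div_nonneg hnw hcard.le), ← hNn, div_mul_cancel₀ _ hcard.ne']
    have htop := (ht3 ε β hβ0 hβ2).2
    rw [← hw] at htop
    -- the sign vector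
    have e1 : N (rs I ε) ≤ C * φ := by
      refine h.uncond I ε (fun _ => 1) (fun i _ => ?_)
      rw [hε]
      unfold sgn
      split_ifs <;> norm_num
    -- small part
    have e2 : N (rs I (fun i => if t * β < |w i| then 0 else w i)) ≤ C * (t * β * φ) := by
      have e3 : N (rs I (fun _ => t * β)) = t * β * φ := by
        rw [rs_const, h.smul, abs_of_nonneg (by positivity)]
      rw [← e3]
      refine h.uncond I _ _ (fun i _ => ?_)
      rw [abs_of_nonneg (show 0 ≤ t * β by positivity)]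
      split_ifs with hc
      · rw [abs_zero]
        positivity
      · exact not_lt.1 hc
    -- top part
    have e4 : N (rs (I.filter (fun i => t * β < |w i|)) w) ≤ C ^ 4 * (Real.sqrt R * Real.sqrt (nsq I w)) := by
      refine (h.upper2 _ w).trans ?_
      rw [← Real.sqrt_mul hR0]
      gcongr
    have e5 : rs I w = rs I (fun i => if t * β < |w i| then 0 else w i) +
        rs (I.filter (fun i => t * β < |w i|)) w := by
      ext i
      rw [Finsupp.add_apply, rs_apply, rs_apply, rs_apply]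
      by_cases hi : i ∈ I
      · by_cases hc : t * β < |w i|
        · simp [hi, hc]
        · simp [hi, hc]
      · simp [hi]
    have e6 : N (rs I (fun i => ε i - w i)) ≤ N (rs I ε) + N (rs I w) := by
      rw [rs_sub']
      refine (h.add _ _).trans ?_
      rw [h.smul]
      simp
    have e7 : N (rs I w) ≤ C * (t * β * φ) + C ^ 4 * (Real.sqrt R * Real.sqrt (nsq I w)) := by
      rw [e5]
      exact (h.add _ _).trans (add_le_add e2 e4)
    have e8 : β = Real.sqrt (nsq I w) / Real.sqrt Nn := by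
      rw [hβ, Real.sqrt_div hnw]
    have e9 : N (rs I (fun i => ε i - w i)) ≤ C * φ + A * Real.sqrt (nsq I w) := by
      refine e6.trans ((add_le_add e1 e7).trans (le_of_eq ?_))
      rw [e8, hA]
      ring
    have e10 : Real.sqrt (nsq I w) ≤ D / 2 + nsq I w / (2 * D) := by
      have e11 : 0 ≤ (Real.sqrt (nsq I w) - D) ^ 2 := sq_nonneg _
      have e12 : Real.sqrt (nsq I w) ^ 2 = nsq I w := Real.sq_sqrt hnw
      have e13 : D / 2 + nsq I w / (2 * D) = (D ^ 2 + nsq I w) / (2 * D) := by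
        field_simp
      rw [e13, le_div_iff₀ (by positivity)]
      nlinarith
    calc N (rs I (fun i => ε i - w i)) ≤ C * φ + A * Real.sqrt (nsq I w) := e9
      _ ≤ C * φ + A * (D / 2 + nsq I w / (2 * D)) := by gcongr
      _ = C * φ + A / 2 * D + A / (2 * D) * nsq I w := by
          field_simp
          ring
  -- averaging
  have hav : avgOn I (fun ε => N (rs I (fun i => ε i - ap I (q n) ε i))) ≤ C * φ + A * D := by
    refine (avgOn_mono (G := fun ε => (C * φ + A / 2 * D) + A / (2 * D) * nsq I (ap I (q n) ε))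
      hpt).trans ?_
    rw [avgOn_affine]
    have e1 := avg_nsq_ap (hP.good n)
    rw [← hI, ← hD2] at e1
    calc C * φ + A / 2 * D + A / (2 * D) * avgOn I (fun ε => nsq I (ap I (q n) ε))
        ≤ C * φ + A / 2 * D + A / (2 * D) * D ^ 2 := by gcongr
      _ = C * φ + A * D := by
          field_simp
          ring
  refine hav.trans ?_
  -- the size of `A * D`
  have hAD1 : C * t * φ / Real.sqrt Nn * D ≤ C * φ := by
    have e1 : t * D ≤ Real.sqrt Nn := by
      rw [← Real.sqrt_sq (show 0 ≤ t by linarith), hD, ← Real.sqrt_mul (sq_nonneg t)]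
      exact Real.sqrt_le_sqrt (by rw [hNn]; exact ht2)
    calc C * t * φ / Real.sqrt Nn * D = C * φ * (t * D / Real.sqrt Nn) := by ring
      _ ≤ C * φ * 1 := by
          gcongr
          rw [div_le_one hsN]
          exact e1
      _ = C * φ := mul_one _
  have hAD2 : C ^ 4 * Real.sqrt R * D ≤ 2 * C ^ 4 * Real.sqrt (29 * Ct) * Real.sqrt Λ * φ := by
    -- R ≤ 29 Ct g (d / N)
    have e1 : R ≤ (29 * Ct) * (g n * (d n / Nn)) := by
      calc R = Ct * ((d n : ℝ) / Nn) * (1 + Real.log (Nn / d n)) := rfl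
        _ ≤ Ct * ((d n : ℝ) / Nn) * (29 * g n) := by
            have := hlog.2
            gcongr
        _ = (29 * Ct) * (g n * (d n / Nn)) := by ring
    have e2 : Real.sqrt R * D ≤ Real.sqrt (29 * Ct) * (Real.sqrt (g n) * (d n / Real.sqrt Nn)) := by
      have e3 : Real.sqrt R ≤ Real.sqrt (29 * Ct) * (Real.sqrt (g n) * (D / Real.sqrt Nn)) := by
        refine (Real.sqrt_le_sqrt e1).trans (le_of_eq ?_)
        rw [Real.sqrt_mul (by positivity), Real.sqrt_mul hg0.le, Real.sqrt_div hdR.le]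
      calc Real.sqrt R * D ≤ Real.sqrt (29 * Ct) * (Real.sqrt (g n) * (D / Real.sqrt Nn)) * D := by
            gcongr
        _ = Real.sqrt (29 * Ct) * (Real.sqrt (g n) * (D ^ 2 / Real.sqrt Nn)) := by ring
        _ = _ := by rw [hD2]
    have e4 : Real.sqrt (g n) ≤ g n := by
      rw [Real.sqrt_le_left (by linarith)]
      nlinarith
    have e5 : (d n : ℝ) / Real.sqrt Nn * (g n : ℝ) ^ 28 ≤ 2 * Real.sqrt Nn := by
      have e6 := hP.c_le n
      rw [← hI, ← hNn] at e6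
      have e7 : (d n : ℝ) / Real.sqrt Nn = (d n : ℝ) / Nn * Real.sqrt Nn := by
        have e8 : Nn = Real.sqrt Nn * Real.sqrt Nn := (Real.mul_self_sqrt hcard.le).symm
        rw [div_mul_eq_mul_div, div_eq_div_iff hsN.ne' hcard.ne']
        rw [mul_assoc, ← e8]
      rw [e7]
      calc (d n : ℝ) / Nn * Real.sqrt Nn * (g n : ℝ) ^ 28
          = ((d n : ℝ) / Nn * (g n : ℝ) ^ 28) * Real.sqrt Nn := by ring
        _ ≤ 2 * Real.sqrt Nn := by gcongr
    have e6 : Real.sqrt Nn ≤ Real.sqrt Λ * (g n : ℝ) ^ 16 * φ := by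
      have e7 := hP.f_hi n
      rw [← hI, ← hNn, ← hφ] at e7
      rw [Real.sqrt_le_left (by positivity)]
      refine e7.trans (le_of_eq ?_)
      rw [mul_pow, mul_pow, Real.sq_sqrt (by linarith)]
      ring
    have e7 : Real.sqrt (g n) * (d n / Real.sqrt Nn) ≤ 2 * (Real.sqrt Λ * φ) := by
      have e8 : 0 ≤ (d n : ℝ) / Real.sqrt Nn := by positivity
      have e9 : (d n : ℝ) / Real.sqrt Nn * (g n : ℝ) ^ 28 ≤ 2 * (Real.sqrt Λ * (g n : ℝ) ^ 16 * φ) :=
        e5.trans (by linarith)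
      have e10 : (g n : ℝ) ^ 17 ≤ (g n : ℝ) ^ 28 := pow_le_pow_right₀ hgR (by norm_num)
      have e11 : (g n : ℝ) * (d n / Real.sqrt Nn) * (g n : ℝ) ^ 16 ≤
          2 * (Real.sqrt Λ * φ) * (g n : ℝ) ^ 16 := by
        calc (g n : ℝ) * (d n / Real.sqrt Nn) * (g n : ℝ) ^ 16
            = (d n / Real.sqrt Nn) * (g n : ℝ) ^ 17 := by ring
          _ ≤ (d n / Real.sqrt Nn) * (g n : ℝ) ^ 28 := by gcongr
          _ ≤ 2 * (Real.sqrt Λ * (g n : ℝ) ^ 16 * φ) := e9
          _ = 2 * (Real.sqrt Λ * φ) * (g n : ℝ) ^ 16 := by ring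
      have e12 := le_of_mul_le_mul_right e11 (by positivity)
      calc Real.sqrt (g n) * (d n / Real.sqrt Nn) ≤ g n * (d n / Real.sqrt Nn) := by gcongr
        _ ≤ 2 * (Real.sqrt Λ * φ) := e12
    calc C ^ 4 * Real.sqrt R * D = C ^ 4 * (Real.sqrt R * D) := by ring
      _ ≤ C ^ 4 * (Real.sqrt (29 * Ct) * (Real.sqrt (g n) * (d n / Real.sqrt Nn))) := by gcongr
      _ ≤ C ^ 4 * (Real.sqrt (29 * Ct) * (2 * (Real.sqrt Λ * φ))) := by gcongr
      _ = 2 * C ^ 4 * Real.sqrt (29 * Ct) * Real.sqrt Λ * φ := by ring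
  calc C * φ + A * D = C * φ + (C * t * φ / Real.sqrt Nn * D + C ^ 4 * Real.sqrt R * D) := by
        rw [hA]
        ring
    _ ≤ C * φ + (C * φ + 2 * C ^ 4 * Real.sqrt (29 * Ct) * Real.sqrt Λ * φ) := by gcongr
    _ = (2 * C + 2 * C ^ 4 * Real.sqrt (29 * Ct) * Real.sqrt Λ) * φ := by ring

end Pool.Agent.Helper52.CS
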