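import Pool.Agent.Helper52.CS.Defs

/-! CS-2. Basic facts on an `LNorm`. -/

set_option autoImplicit false

namespace Pool.Agent.Helper52.CS

open Finset

variable {N : F0 → ℝ} {C : ℝ}

theorem LNorm.zero (h : LNorm N C) : N 0 = 0 := by
  have := h.smul 0 0
  simpa using this

theorem LNorm.nonneg (h : LNorm N C) (a : F0) : 0 ≤ N a := by
  have h1 := h.add a ((-1 : ℝ) • a)
  have h2 : a + (-1 : ℝ) • a = 0 := by simp
  rw [h2, h.zero, h.smul, abs_neg, abs_one, one_mul] at h1
  linarith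

theorem LNorm.sum_le (h : LNorm N C) {ι : Type} (I : Finset ι) (x : ι → F0) :
    N (∑ i ∈ I, x i) ≤ ∑ i ∈ I, N (x i) := by
  classical
  induction I using Finset.induction_on with
  | empty => simp [h.zero]
  | insert a s ha ih =>
    rw [Finset.sum_insert ha, Finset.sum_insert ha]
    exact (h.add _ _).trans (by linarith)

theorem rs_apply (J : Finset ℕ) (x : ℕ → ℝ) (i : ℕ) : rs J x i = if i ∈ J then x i else 0 := by
  unfold rs
  rw [Finsupp.finset_sum_apply]
  simp only [Finsupp.single_apply]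
  rw [Finset.sum_ite_eq' J i x]

theorem LNorm.rs_mono (h : LNorm N C) (J J' : Finset ℕ) (hJ : J ⊆ J') (x : ℕ → ℝ) :
    N (rs J x) ≤ C * N (rs J' x) := by
  classical
  have h1 : rs J x = rs J' (fun i => if i ∈ J then x i else 0) := by
    ext i
    rw [rs_apply, rs_apply]
    by_cases hi : i ∈ J
    · rw [if_pos hi, if_pos (hJ hi)]
    · simp [hi]
  rw [h1]
  apply h.uncond
  intro i _
  by_cases hi : i ∈ J
  · rw [if_pos hi]
  · rw [if_neg hi, abs_zero]; exact abs_nonneg _

private theorem single_eq (i : ℕ) (t : ℝ) : (Finsupp.single i t : F0) = t • Finsupp.single i 1 := by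
  rw [Finsupp.smul_single, smul_eq_mul, mul_one]

theorem LNorm.unit_le (h : LNorm N C) (i : ℕ) (t : ℝ) :
    N (Finsupp.single i t) ≤ C ^ 2 * |t| ∧ |t| ≤ C ^ 2 * N (Finsupp.single i t) := by
  have hC : 1 ≤ C := h.one_le
  have h1 := h.spread 1 (fun _ => i) (by
    intro a b hab
    exact absurd hab (by omega)) (fun _ => 1)
  simp only [Finset.univ_unique, Fin.default_eq_zero, Fin.val_zero, Finset.sum_singleton] at h1
  have h2 : N (Finsupp.single i 1) ≤ C ^ 2 := by
    calc N (Finsupp.single i 1) ≤ C * N (Finsupp.single 0 1) := h1.1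
      _ ≤ C * C := by
          have := h.single_le
          gcongr
      _ = C ^ 2 := by ring
  have h3 : 1 ≤ C ^ 2 * N (Finsupp.single i 1) := by
    calc (1 : ℝ) ≤ C * N (Finsupp.single 0 1) := h.le_single
      _ ≤ C * (C * N (Finsupp.single i 1)) := by
          have := h1.2
          gcongr
      _ = C ^ 2 * N (Finsupp.single i 1) := by ring
  rw [single_eq, h.smul]
  constructor
  · rw [mul_comm]
    exact mul_le_mul_of_nonneg_right h2 (abs_nonneg _)
  · calc |t| = |t| * 1 := (mul_one _).symm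
      _ ≤ |t| * (C ^ 2 * N (Finsupp.single i 1)) := by gcongr
      _ = C ^ 2 * (|t| * N (Finsupp.single i 1)) := by ring

theorem LNorm.coord (h : LNorm N C) (J : Finset ℕ) (x : ℕ → ℝ) (i : ℕ) (hi : i ∈ J) :
    |x i| ≤ C ^ 3 * N (rs J x) := by
  have hC : 1 ≤ C := h.one_le
  have h1 : N (rs {i} x) ≤ C * N (rs J x) := h.rs_mono _ _ (Finset.singleton_subset_iff.2 hi) x
  have h2 : rs {i} x = Finsupp.single i (x i) := by unfold rs; simp
  rw [h2] at h1
  calc |x i| ≤ C ^ 2 * N (Finsupp.single i (x i)) := (h.unit_le i (x i)).2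
    _ ≤ C ^ 2 * (C * N (rs J x)) := by gcongr
    _ = C ^ 3 * N (rs J x) := by ring

private theorem sgn_abs (T : Finset ℕ) (i : ℕ) : |sgn T i| = 1 := by
  unfold sgn; split_ifs <;> simp

private theorem sgn_sq (T : Finset ℕ) (i : ℕ) : sgn T i ^ 2 = 1 := by
  unfold sgn; split_ifs <;> norm_num

/-- An average is at least a lower bound of the terms. -/
private theorem le_avgOn (I : Finset ℕ) (F : (ℕ → ℝ) → ℝ) (c : ℝ) (hc : ∀ T ∈ I.powerset, c ≤ F (sgn T)) :
    c ≤ avgOn I F := by
  unfold avgOn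
  rw [le_div_iff₀ (by positivity)]
  calc c * 2 ^ I.card = ∑ T ∈ I.powerset, c := by
        rw [Finset.sum_const, Finset.card_powerset, nsmul_eq_mul]
        push_cast; ring
    _ ≤ _ := Finset.sum_le_sum hc

private theorem avgOn_le (I : Finset ℕ) (F : (ℕ → ℝ) → ℝ) (c : ℝ) (hc : ∀ T ∈ I.powerset, F (sgn T) ≤ c) :
    avgOn I F ≤ c := by
  unfold avgOn
  rw [div_le_iff₀ (by positivity)]
  calc _ ≤ ∑ T ∈ I.powerset, c := Finset.sum_le_sum hc
    _ = c * 2 ^ I.card := by
        rw [Finset.sum_const, Finset.card_powerset, nsmul_eq_mul]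
        push_cast; ring

private theorem avgOn_mono (I : Finset ℕ) (F G : (ℕ → ℝ) → ℝ) (hc : ∀ T ∈ I.powerset, F (sgn T) ≤ G (sgn T)) :
    avgOn I F ≤ avgOn I G := by
  unfold avgOn
  gcongr with T hT
  exact hc T hT

theorem LNorm.upper2 (h : LNorm N C) (J : Finset ℕ) (x : ℕ → ℝ) :
    N (rs J x) ≤ C ^ 4 * Real.sqrt (nsq J x) := by
  have hC : 1 ≤ C := h.one_le
  have h1 := h.type2 J (fun l => Finsupp.single l (x l))
  have h2 : N (rs J x) ^ 2 ≤ C ^ 2 * avgOn J (fun ε => N (∑ l ∈ J, ε l • Finsupp.single l (x l)) ^ 2) := by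
    have h3 : N (rs J x) ^ 2 / C ^ 2 ≤
        avgOn J (fun ε => N (∑ l ∈ J, ε l • Finsupp.single l (x l)) ^ 2) := by
      apply le_avgOn
      intro T _
      have h4 : ∑ l ∈ J, sgn T l • (Finsupp.single l (x l) : F0) = rs J (fun l => sgn T l * x l) := by
        unfold rs
        apply Finset.sum_congr rfl
        intro l _
        rw [Finsupp.smul_single, smul_eq_mul]
      rw [h4]
      have h5 : N (rs J x) ≤ C * N (rs J (fun l => sgn T l * x l)) := by
        apply h.uncond
        intro i _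
        rw [abs_mul, sgn_abs, one_mul]
      rw [div_le_iff₀ (by positivity)]
      calc N (rs J x) ^ 2 ≤ (C * N (rs J (fun l => sgn T l * x l))) ^ 2 := by
            have := h.nonneg (rs J x)
            gcongr
        _ = _ := by ring
    rw [div_le_iff₀ (by positivity)] at h3
    linarith
  have h3 : ∑ l ∈ J, N (Finsupp.single l (x l)) ^ 2 ≤ C ^ 4 * nsq J x := by
    unfold nsq
    rw [Finset.mul_sum]
    apply Finset.sum_le_sum
    intro l _
    calc N (Finsupp.single l (x l)) ^ 2 ≤ (C ^ 2 * |x l|) ^ 2 := by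
          have := h.nonneg (Finsupp.single l (x l))
          have := (h.unit_le l (x l)).1
          gcongr
      _ = C ^ 4 * x l ^ 2 := by rw [mul_pow, sq_abs]; ring
  have h4 : N (rs J x) ^ 2 ≤ C ^ 8 * nsq J x := by
    calc N (rs J x) ^ 2 ≤ C ^ 2 * (C ^ 2 * ∑ l ∈ J, N (Finsupp.single l (x l)) ^ 2) := by
          refine h2.trans ?_
          gcongr
      _ ≤ C ^ 2 * (C ^ 2 * (C ^ 4 * nsq J x)) := by gcongr
      _ = C ^ 8 * nsq J x := by ring
  calc N (rs J x) = Real.sqrt (N (rs J x) ^ 2) := (Real.sqrt_sq (h.nonneg _)).symm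
    _ ≤ Real.sqrt (C ^ 8 * nsq J x) := Real.sqrt_le_sqrt h4
    _ = C ^ 4 * Real.sqrt (nsq J x) := by
        rw [Real.sqrt_mul (by positivity)]
        congr 1
        rw [show C ^ 8 = (C ^ 4) ^ 2 by ring, Real.sqrt_sq (by positivity)]

theorem LNorm.dual (h : LNorm N C) (z : ℕ → ℝ) (hz : Dual N z) (J : Finset ℕ) :
    nsq J z ≤ C ^ 8 := by
  have hC : 1 ≤ C := h.one_le
  have h0 : 0 ≤ nsq J z := Finset.sum_nonneg (fun i _ => sq_nonneg _)
  have h1 : nsq J z ≤ C ^ 4 * Real.sqrt (nsq J z) := by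
    calc nsq J z = |∑ i ∈ J, z i * z i| := by
          rw [abs_of_nonneg (Finset.sum_nonneg (fun i _ => mul_self_nonneg _))]
          unfold nsq
          apply Finset.sum_congr rfl
          intro i _; ring
      _ ≤ N (rs J z) := hz J z
      _ ≤ _ := h.upper2 J z
  set r := Real.sqrt (nsq J z) with hr
  have hr0 : 0 ≤ r := Real.sqrt_nonneg _
  have hr2 : nsq J z = r ^ 2 := (Real.sq_sqrt h0).symm
  rw [hr2] at h1 ⊢
  rcases eq_or_lt_of_le hr0 with h2 | h2
  · rw [← h2]
    have : 0 < C := lt_of_lt_of_le one_pos hC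
    have h4 : 0 < C ^ 8 := by positivity
    simpa using h4.le
  · have h3 : r ≤ C ^ 4 := by
      have : r * r ≤ C ^ 4 * r := by nlinarith
      exact le_of_mul_le_mul_right this h2
    calc r ^ 2 ≤ (C ^ 4) ^ 2 := by gcongr
      _ = C ^ 8 := by ring

end Pool.Agent.Helper52.CS
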