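import Pool.Agent.Helper52.CS.Defs

/-! CS-35. Binomial coefficients and `ell`.
PROOF. choose_le: `C(N,j) ≤ N^j / j!` and `j! ≥ (j/e)^j`, so `C(N,j) ≤ (eN/j)^j = exp (N ell (j/N))` for `1 ≤ j ≤ N`; `j = 0` trivial. card_le: `N ell (j/N) = j (1 + log (N/j)) ≥ j`.
ell_mono: derivative `log (1/t) ≥ 0` (or concavity of negMulLog). ell_le_one: ell_mono and `ell 1 = 1`. -/

set_option autoImplicit false

namespace Pool.Agent.Helper52.CS

open Finset

theorem ell_nonneg (t : ℝ) (h0 : 0 ≤ t) (h1 : t ≤ 1) : 0 ≤ ell t := by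
  unfold ell
  have := Real.negMulLog_nonneg h0 h1
  linarith

theorem ell_mono (t u : ℝ) (h0 : 0 ≤ t) (h : t ≤ u) (h1 : u ≤ 1) : ell t ≤ ell u := by
  have hm : MonotoneOn ell (Set.Icc (0 : ℝ) 1) := by
    apply monotoneOn_of_deriv_nonneg (convex_Icc 0 1)
    · unfold ell
      exact (continuous_id.add Real.continuous_negMulLog).continuousOn
    · intro x hx
      rw [interior_Icc] at hx
      have hx0 : x ≠ 0 := hx.1.ne'
      have h1 : HasDerivAt ell (1 + (-Real.log x - 1)) x :=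
        (hasDerivAt_id x).add (Real.hasDerivAt_negMulLog hx0)
      exact h1.differentiableAt.differentiableWithinAt
    · intro x hx
      rw [interior_Icc] at hx
      have hx0 : x ≠ 0 := hx.1.ne'
      have h1 : HasDerivAt ell (1 + (-Real.log x - 1)) x :=
        (hasDerivAt_id x).add (Real.hasDerivAt_negMulLog hx0)
      rw [h1.deriv]
      have := Real.log_nonpos hx.1.le hx.2.le
      linarith
  exact hm ⟨h0, h.trans h1⟩ ⟨h0.trans h, h1⟩ h

theorem choose_le (N j : ℕ) (hj : j ≤ N) :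
    ((N.choose j : ℕ) : ℝ) ≤ Real.exp (N * ell ((j : ℝ) / N)) := by
  rcases Nat.eq_zero_or_pos j with h0 | h0
  · subst h0
    simp [ell]
  have hN : 0 < N := lt_of_lt_of_le h0 hj
  have hN' : (0 : ℝ) < N := by exact_mod_cast hN
  have hj' : (0 : ℝ) < j := by exact_mod_cast h0
  have e1 : (N : ℝ) * ell ((j : ℝ) / N) = j + j * Real.log ((N : ℝ) / j) := by
    unfold ell Real.negMulLog
    have : Real.log ((N : ℝ) / j) = - Real.log ((j : ℝ) / N) := by
      rw [← Real.log_inv, inv_div]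
    rw [this]
    field_simp
  rw [e1, Real.exp_add]
  have e2 : Real.exp ((j : ℝ) * Real.log ((N : ℝ) / j)) = ((N : ℝ) / j) ^ j := by
    rw [mul_comm, Real.exp_mul, Real.exp_log (by positivity), Real.rpow_natCast]
  rw [e2]
  have e3 : ((N.choose j : ℕ) : ℝ) ≤ (N : ℝ) ^ j / (j.factorial : ℝ) := Nat.choose_le_pow_div j N
  have e4 : (j : ℝ) ^ j / (j.factorial : ℝ) ≤ Real.exp j :=
    Real.pow_div_factorial_le_exp _ hj'.le j
  have e5 : (N : ℝ) ^ j / (j.factorial : ℝ) =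
      (j : ℝ) ^ j / (j.factorial : ℝ) * ((N : ℝ) / j) ^ j := by
    rw [div_pow]
    field_simp
  calc ((N.choose j : ℕ) : ℝ) ≤ (N : ℝ) ^ j / (j.factorial : ℝ) := e3
    _ = (j : ℝ) ^ j / (j.factorial : ℝ) * ((N : ℝ) / j) ^ j := e5
    _ ≤ Real.exp j * ((N : ℝ) / j) ^ j := by
        apply mul_le_mul_of_nonneg_right e4
        positivity

theorem card_le_ell (N j : ℕ) (hj : j ≤ N) (hN : 1 ≤ N) : (j : ℝ) ≤ N * ell ((j : ℝ) / N) := by
  have hN' : (0 : ℝ) < N := by exact_mod_cast hN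
  have hj' : (j : ℝ) ≤ N := by exact_mod_cast hj
  unfold ell
  have h1 : 0 ≤ Real.negMulLog ((j : ℝ) / N) :=
    Real.negMulLog_nonneg (by positivity) ((div_le_one hN').2 hj')
  have h2 : (N : ℝ) * ((j : ℝ) / N) = j := by field_simp
  rw [mul_add, h2]
  have h3 : 0 ≤ (N : ℝ) * Real.negMulLog ((j : ℝ) / N) := by positivity
  linarith

end Pool.Agent.Helper52.CS
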