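import Pool.Agent.Helper52.CS.Defs

/-! CS-33. Nets of the Euclidean unit sphere.
PROOF. In `EuclideanSpace ℝ ι`: a maximal `η`-separated subset `T` of the unit sphere (finite by compactness or by the volume bound); the balls of radius `η/2` around its points are disjoint and contained in the ball of radius `1 + η/2`, so
`card T (η/2)^n ≤ (1 + η/2)^n`, `card T ≤ (1 + 2/η)^n ≤ (3/η)^n` (`MeasureTheory.Measure.addHaar_ball`). Maximality gives the net property. -/

set_option autoImplicit false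

namespace Pool.Agent.Helper52.CS

open Finset

private lemma net_card (ι : Type) [Fintype ι] (η : ℝ) (h0 : 0 < η) (h1 : η ≤ 1)
    (T : Finset (EuclideanSpace ℝ ι)) (hT : ∀ t ∈ T, ‖t‖ = 1)
    (hsep : ∀ x ∈ T, ∀ y ∈ T, x ≠ y → η ≤ dist x y) :
    (T.card : ℝ) ≤ (3 / η) ^ Fintype.card ι := by
  classical
  let μ : MeasureTheory.Measure (EuclideanSpace ℝ ι) := MeasureTheory.volume
  have hB0 : μ (Metric.ball 0 1) ≠ 0 := (Metric.measure_ball_pos μ 0 one_pos).ne'
  have hBt : μ (Metric.ball 0 1) ≠ ⊤ := MeasureTheory.measure_ball_lt_top.ne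
  have hη2 : 0 < η / 2 := by positivity
  have hdisj : (T : Set (EuclideanSpace ℝ ι)).PairwiseDisjoint
      (fun t => Metric.ball t (η / 2)) := by
    intro x hx y hy hxy
    apply Metric.ball_disjoint_ball
    have := hsep x hx y hy hxy
    linarith
  have h2 : ∑ t ∈ T, μ (Metric.ball t (η / 2)) ≤ μ (Metric.ball 0 (1 + η / 2)) := by
    rw [← MeasureTheory.measure_biUnion_finset hdisj (fun t _ => Metric.isOpen_ball.measurableSet)]
    apply MeasureTheory.measure_mono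
    intro x hx
    rw [Set.mem_iUnion₂] at hx
    obtain ⟨t, ht, hx⟩ := hx
    rw [mem_ball_zero_iff]
    rw [mem_ball_iff_norm] at hx
    calc ‖x‖ = ‖t + (x - t)‖ := by congr 1; abel
      _ ≤ ‖t‖ + ‖x - t‖ := norm_add_le _ _
      _ < 1 + η / 2 := by rw [hT t ht]; linarith
  have h3 : ∀ t : EuclideanSpace ℝ ι, μ (Metric.ball t (η / 2)) =
      ENNReal.ofReal ((η / 2) ^ Fintype.card ι) * μ (Metric.ball 0 1) := by
    intro t
    rw [MeasureTheory.Measure.addHaar_ball_of_pos μ t hη2, finrank_euclideanSpace]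
  have h4 : μ (Metric.ball 0 (1 + η / 2)) =
      ENNReal.ofReal ((1 + η / 2) ^ Fintype.card ι) * μ (Metric.ball 0 1) := by
    rw [MeasureTheory.Measure.addHaar_ball_of_pos μ _ (by positivity), finrank_euclideanSpace]
  rw [Finset.sum_congr rfl (fun t _ => h3 t), Finset.sum_const, nsmul_eq_mul, h4,
    ← mul_assoc, ENNReal.mul_le_mul_iff_left hB0 hBt] at h2
  have h5 : (T.card : ℝ) * (η / 2) ^ Fintype.card ι ≤ (1 + η / 2) ^ Fintype.card ι := by
    have h6 : (T.card : ENNReal) = ENNReal.ofReal (T.card : ℝ) := by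
      rw [ENNReal.ofReal_natCast]
    rw [h6, ← ENNReal.ofReal_mul (Nat.cast_nonneg _),
      ENNReal.ofReal_le_ofReal_iff (by positivity)] at h2
    exact h2
  rw [← le_div_iff₀ (by positivity), ← div_pow] at h5
  refine h5.trans (pow_le_pow_left₀ (by positivity) ?_ _)
  rw [div_le_div_iff₀ hη2 h0]
  nlinarith

private lemma net_euclid (ι : Type) [Fintype ι] (η : ℝ) (h0 : 0 < η) (h1 : η ≤ 1) :
    ∃ T : Finset (EuclideanSpace ℝ ι), (T.card : ℝ) ≤ (3 / η) ^ Fintype.card ι ∧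
      (∀ t ∈ T, ‖t‖ = 1) ∧ ∀ v : EuclideanSpace ℝ ι, ‖v‖ = 1 → ∃ t ∈ T, dist v t ≤ η := by
  classical
  let P : ℕ → Prop := fun m => ∃ T : Finset (EuclideanSpace ℝ ι), (∀ t ∈ T, ‖t‖ = 1) ∧
    (∀ x ∈ T, ∀ y ∈ T, x ≠ y → η ≤ dist x y) ∧ T.card = m
  obtain ⟨N, hN⟩ := exists_nat_ge ((3 / η) ^ Fintype.card ι)
  have hP0 : P 0 := ⟨∅, by simp, by simp, by simp⟩
  have hPb : ∀ m, P m → m ≤ N := by
    rintro m ⟨T, hT, hs, rfl⟩
    exact_mod_cast (net_card ι η h0 h1 T hT hs).trans hN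
  have hm := Nat.findGreatest_spec (P := P) (Nat.zero_le N) hP0
  obtain ⟨T, hT, hs, hc⟩ := hm
  refine ⟨T, net_card ι η h0 h1 T hT hs, hT, fun v hv => ?_⟩
  by_contra hcon
  push Not at hcon
  have hvT : v ∉ T := by
    intro h
    have := hcon v h
    rw [dist_self] at this
    linarith
  have hP1 : P (Nat.findGreatest P N + 1) := by
    refine ⟨insert v T, ?_, ?_, ?_⟩
    · intro t ht
      rcases Finset.mem_insert.1 ht with rfl | ht
      · exact hv
      · exact hT t ht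
    · intro x hx y hy hxy
      rcases Finset.mem_insert.1 hx with hx1 | hx1
      · rcases Finset.mem_insert.1 hy with hy1 | hy1
        · exact absurd (hx1.trans hy1.symm) hxy
        · rw [hx1]; exact (hcon y hy1).le
      · rcases Finset.mem_insert.1 hy with hy1 | hy1
        · rw [hy1, dist_comm]; exact (hcon x hx1).le
        · exact hs x hx1 y hy1 hxy
    · rw [Finset.card_insert_of_notMem hvT, hc]
  have h2 := Nat.le_findGreatest (hPb _ hP1) hP1
  omega

theorem net (ι : Type) [Fintype ι] (η : ℝ) (h0 : 0 < η) (h1 : η ≤ 1) :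
    ∃ T : Finset (ι → ℝ), (T.card : ℝ) ≤ (3 / η) ^ Fintype.card ι ∧
      (∀ t ∈ T, ∑ i, t i ^ 2 = 1) ∧
      ∀ v : ι → ℝ, ∑ i, v i ^ 2 = 1 → ∃ t ∈ T, ∑ i, (v i - t i) ^ 2 ≤ η ^ 2 := by
  classical
  obtain ⟨T, hc, hT, hn⟩ := net_euclid ι η h0 h1
  have hnorm : ∀ x : EuclideanSpace ℝ ι, ‖x‖ = 1 → ∑ i, x i ^ 2 = 1 := by
    intro x hx
    have := EuclideanSpace.real_norm_sq_eq x
    rw [hx, one_pow] at this
    exact this.symm
  refine ⟨T.image (fun x => (fun i => x i)), ?_, ?_, ?_⟩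
  · refine le_trans ?_ hc
    exact_mod_cast Finset.card_image_le
  · intro t ht
    obtain ⟨x, hx, rfl⟩ := Finset.mem_image.1 ht
    exact hnorm x (hT x hx)
  · intro v hv
    have hv1 : ‖(WithLp.toLp 2 v : EuclideanSpace ℝ ι)‖ = 1 := by
      have h := EuclideanSpace.real_norm_sq_eq (WithLp.toLp 2 v : EuclideanSpace ℝ ι)
      have h' : ‖(WithLp.toLp 2 v : EuclideanSpace ℝ ι)‖ ^ 2 = 1 := by rw [h]; exact hv
      nlinarith [norm_nonneg (WithLp.toLp 2 v : EuclideanSpace ℝ ι)]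
    obtain ⟨t, ht, hd⟩ := hn _ hv1
    refine ⟨fun i => t i, Finset.mem_image.2 ⟨t, ht, rfl⟩, ?_⟩
    have h := EuclideanSpace.real_norm_sq_eq ((WithLp.toLp 2 v : EuclideanSpace ℝ ι) - t)
    have h2 : ∑ i, (v i - t i) ^ 2 = ‖(WithLp.toLp 2 v : EuclideanSpace ℝ ι) - t‖ ^ 2 := by
      rw [h]; rfl
    rw [h2, ← dist_eq_norm]
    exact pow_le_pow_left₀ dist_nonneg hd 2

end Pool.Agent.Helper52.CS
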