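import Pool.Agent.Helper52.CS.Defs

/-! CS-34. Norm bounds from bounds on a net.
PROOF. Work in `EuclideanSpace ℝ ι`, `EuclideanSpace ℝ κ` with the continuous linear map `B` of matrix `a`. up: let `S = ‖B‖` (attained sup on the sphere); for a unit vector `v` and `t ∈ T` near it
`‖B v‖ ≤ ‖B t‖ + ‖B‖ /2 ≤ M + S/2`, so `S ≤ 2M`. lo: `‖B v‖ ≥ ‖B t‖ - L η ≥ m/2`. Both scale to all `v` (`v = 0` trivial). -/

set_option autoImplicit false

namespace Pool.Agent.Helper52.CS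

open Finset

/-- The continuous linear map of a matrix. -/
private noncomputable def matCLM {κ ι : Type} [Fintype κ] [Fintype ι] (a : κ → ι → ℝ) :
    EuclideanSpace ℝ ι →L[ℝ] EuclideanSpace ℝ κ :=
  LinearMap.toContinuousLinearMap
    { toFun := fun v => WithLp.toLp 2 (fun l => ∑ i, a l i * v i)
      map_add' := by
        intro v w
        ext l
        simp [mul_add, Finset.sum_add_distrib]
      map_smul' := by
        intro c v
        ext l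
        simp only [PiLp.smul_apply, smul_eq_mul, RingHom.id_apply, Finset.mul_sum]
        exact Finset.sum_congr rfl fun i _ => by ring }

private theorem matCLM_apply {κ ι : Type} [Fintype κ] [Fintype ι] (a : κ → ι → ℝ) (v : EuclideanSpace ℝ ι) (l : κ) :
    matCLM a v l = ∑ i, a l i * v i := rfl

private theorem norm_matCLM_sq {κ ι : Type} [Fintype κ] [Fintype ι] (a : κ → ι → ℝ) (v : EuclideanSpace ℝ ι) :
    ‖matCLM a v‖ ^ 2 = ∑ l, (∑ i, a l i * v i) ^ 2 := by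
  rw [EuclideanSpace.real_norm_sq_eq]
  rfl

/-- A unit vector is near the net. -/
private theorem exists_near {ι : Type} [Fintype ι] (T : Finset (ι → ℝ)) {η : ℝ} (hη : 0 ≤ η)
    (hT : ∀ v : ι → ℝ, ∑ i, v i ^ 2 = 1 → ∃ t ∈ T, ∑ i, (v i - t i) ^ 2 ≤ η ^ 2)
    (v : EuclideanSpace ℝ ι) (hv : v ≠ 0) :
    ∃ t ∈ T, ‖‖v‖⁻¹ • v - WithLp.toLp 2 t‖ ≤ η := by
  have hn : ‖v‖ ≠ 0 := norm_ne_zero_iff.2 hv
  have h1 : ∑ i, (‖v‖⁻¹ • v) i ^ 2 = 1 := by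
    rw [← EuclideanSpace.real_norm_sq_eq, norm_smul, norm_inv, norm_norm, inv_mul_cancel₀ hn, one_pow]
  obtain ⟨t, ht, h2⟩ := hT (fun i => (‖v‖⁻¹ • v) i) h1
  refine ⟨t, ht, ?_⟩
  refine abs_le_of_sq_le_sq' (a := ‖‖v‖⁻¹ • v - WithLp.toLp 2 t‖) ?_ hη |>.2
  rw [EuclideanSpace.real_norm_sq_eq]
  exact h2

theorem up_of_net {κ ι : Type} [Fintype κ] [Fintype ι] (a : κ → ι → ℝ) (T : Finset (ι → ℝ))
    (hT : ∀ v : ι → ℝ, ∑ i, v i ^ 2 = 1 → ∃ t ∈ T, ∑ i, (v i - t i) ^ 2 ≤ (1 / 2) ^ 2)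
    (M : ℝ) (hM : 0 ≤ M) (hTM : ∀ t ∈ T, ∑ l, (∑ i, a l i * t i) ^ 2 ≤ M ^ 2) (v : ι → ℝ) :
    ∑ l, (∑ i, a l i * v i) ^ 2 ≤ (2 * M) ^ 2 * ∑ i, v i ^ 2 := by
  have hB0 : 0 ≤ ‖matCLM a‖ := norm_nonneg _
  have h1 : ‖matCLM a‖ ≤ M + ‖matCLM a‖ * (1 / 2) := by
    refine ContinuousLinearMap.opNorm_le_bound _ (by positivity) fun w => ?_
    by_cases hw : w = 0
    · simp [hw]
    · have hn : 0 < ‖w‖ := norm_pos_iff.2 hw
      obtain ⟨t, ht, h2⟩ := exists_near T (by norm_num : (0 : ℝ) ≤ 1 / 2) hT w hw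
      have h3 : ‖matCLM a (WithLp.toLp 2 t)‖ ≤ M := by
        refine (abs_le_of_sq_le_sq' ?_ hM).2
        rw [norm_matCLM_sq]
        exact hTM t ht
      have h4 : ‖matCLM a (‖w‖⁻¹ • w)‖ ≤ M + ‖matCLM a‖ * (1 / 2) := by
        have h5 : matCLM a (‖w‖⁻¹ • w) =
            matCLM a (WithLp.toLp 2 t) + matCLM a (‖w‖⁻¹ • w - WithLp.toLp 2 t) := by
          rw [← map_add]
          congr 1
          abel
        rw [h5]
        refine (norm_add_le _ _).trans (add_le_add h3 ?_)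
        exact ((matCLM a).le_opNorm _).trans (mul_le_mul_of_nonneg_left h2 hB0)
      rw [map_smul, norm_smul, norm_inv, norm_norm, inv_mul_le_iff₀ hn] at h4
      linarith
  have h2 : ‖matCLM a‖ ≤ 2 * M := by linarith
  have h3 := (matCLM a).le_of_opNorm_le h2 (WithLp.toLp 2 v)
  have h4 := pow_le_pow_left₀ (norm_nonneg _) h3 2
  rw [mul_pow, norm_matCLM_sq, EuclideanSpace.real_norm_sq_eq] at h4
  exact h4

theorem lo_of_net {κ ι : Type} [Fintype κ] [Fintype ι] (a : κ → ι → ℝ) (T : Finset (ι → ℝ))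
    (η : ℝ) (hη : 0 ≤ η)
    (hT : ∀ v : ι → ℝ, ∑ i, v i ^ 2 = 1 → ∃ t ∈ T, ∑ i, (v i - t i) ^ 2 ≤ η ^ 2)
    (m L : ℝ) (hm : 0 ≤ m) (hL : 0 ≤ L) (hLη : L * η ≤ m / 2)
    (hTm : ∀ t ∈ T, m ^ 2 ≤ ∑ l, (∑ i, a l i * t i) ^ 2)
    (hup : ∀ v : ι → ℝ, ∑ l, (∑ i, a l i * v i) ^ 2 ≤ L ^ 2 * ∑ i, v i ^ 2) (v : ι → ℝ) :
    (m / 2) ^ 2 * ∑ i, v i ^ 2 ≤ ∑ l, (∑ i, a l i * v i) ^ 2 := by
  have key : ∀ w : EuclideanSpace ℝ ι, m / 2 * ‖w‖ ≤ ‖matCLM a w‖ := by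
    intro w
    by_cases hw : w = 0
    · simp [hw]
    · have hn : 0 < ‖w‖ := norm_pos_iff.2 hw
      obtain ⟨t, ht, h2⟩ := exists_near T hη hT w hw
      have h3 : m ≤ ‖matCLM a (WithLp.toLp 2 t)‖ := by
        refine (abs_le_of_sq_le_sq' ?_ (norm_nonneg _)).2
        rw [norm_matCLM_sq]
        exact hTm t ht
      have h4 : ‖matCLM a (‖w‖⁻¹ • w - WithLp.toLp 2 t)‖ ≤ L * η := by
        have h5 : ‖matCLM a (‖w‖⁻¹ • w - WithLp.toLp 2 t)‖ ≤ L * ‖‖w‖⁻¹ • w - WithLp.toLp 2 t‖ := by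
          refine (abs_le_of_sq_le_sq' ?_ (mul_nonneg hL (norm_nonneg _))).2
          rw [mul_pow, norm_matCLM_sq, EuclideanSpace.real_norm_sq_eq]
          exact hup _
        exact h5.trans (mul_le_mul_of_nonneg_left h2 hL)
      have h6 : m / 2 ≤ ‖matCLM a (‖w‖⁻¹ • w)‖ := by
        have h5 : matCLM a (WithLp.toLp 2 t) =
            matCLM a (‖w‖⁻¹ • w) - matCLM a (‖w‖⁻¹ • w - WithLp.toLp 2 t) := by
          rw [← map_sub]
          congr 1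
          abel
        have h7 := norm_sub_le (matCLM a (‖w‖⁻¹ • w)) (matCLM a (‖w‖⁻¹ • w - WithLp.toLp 2 t))
        rw [← h5] at h7
        linarith
      rw [map_smul, norm_smul, norm_inv, norm_norm, le_inv_mul_iff₀ hn] at h6
      linarith
  have h3 := key (WithLp.toLp 2 v)
  have h4 := pow_le_pow_left₀ (by positivity) h3 2
  rw [mul_pow, norm_matCLM_sq, EuclideanSpace.real_norm_sq_eq] at h4
  exact h4

end Pool.Agent.Helper52.CS
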