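import Pool.Agent.Helper52.CS.TailLo
import Pool.Agent.Helper52.CS.Net
import Pool.Agent.Helper52.CS.NormNet
import Pool.Agent.Helper52.CS.ChooseLe

/-! CS-38. Most sign matrices satisfy the lower bounds for sparse vectors.
PROOF. `s = 0` trivial. It is enough to treat `F` with `F.card = s` (enlarge `F`). For such `F` let `T_F` be an `η`-net of the sphere of `ℝ^F`, `η = 1/40`, `card ≤ 120^s`. For `G` with UpG, `GV G v ≤ 64 (d + d/100) |v|² ≤ 65 d |v|²` on `ℝ^F`, `L = sqrt (65 d)`, `L η ≤ sqrt d / 4`; if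
`GV G t ≥ d/4` on `T_F` then `GV G v ≥ (d/16) |v|²` on `ℝ^F` (lo_of_net). Number of bad `G`: at most `C(N,s) 120^s exp (-d/10) 2^(dN) ≤ exp (d/100 + 4.8 d/100 - d/10) 2^(dN)` as `s ≤ N ell (s/N) ≤ d/100`, `120 ≤ exp 4.8`; and `exp (-4.2) ≤ 1/10` for `d ≥ 100`. -/

set_option autoImplicit false

namespace Pool.Agent.Helper52.CS

open Finset

/-- Extension by zero. -/
private noncomputable def exz {N : ℕ} (F : Finset (Fin N)) (t : F → ℝ) (i : Fin N) : ℝ :=
  if h : i ∈ F then t ⟨i, h⟩ else 0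

private theorem exz_sum {N : ℕ} (F : Finset (Fin N)) (t : F → ℝ) (f : Fin N → ℝ → ℝ)
    (hf : ∀ i, f i 0 = 0) :
    ∑ i, f i (exz F t i) = ∑ i : F, f i (t i) := by
  classical
  have h1 : ∑ i ∈ F, f i (exz F t i) = ∑ i, f i (exz F t i) := by
    apply Finset.sum_subset (Finset.subset_univ F)
    intro i _ hi
    rw [exz, dif_neg hi, hf]
  rw [← h1, ← Finset.sum_coe_sort F (fun i => f i (exz F t i))]
  apply Finset.sum_congr rfl
  intro i _
  rw [exz, dif_pos i.2]

private theorem exz_res {N : ℕ} (F : Finset (Fin N)) (v : Fin N → ℝ) (hv : ∀ i, i ∉ F → v i = 0) :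
    exz F (fun i : F => v i) = v := by
  funext i
  unfold exz
  split_ifs with h
  · rfl
  · exact (hv i h).symm

private theorem GV_exz {d N : ℕ} (G : Fin d → Fin N → Bool) (F : Finset (Fin N)) (t : F → ℝ) :
    GV G (exz F t) = ∑ l, (∑ i : F, sb (G l i) * t i) ^ 2 := by
  unfold GV
  apply Finset.sum_congr rfl
  intro l _
  rw [exz_sum F t (fun i x => sb (G l i) * x) (fun i => mul_zero _)]

private theorem sq_exz {N : ℕ} (F : Finset (Fin N)) (t : F → ℝ) :
    ∑ i, exz F t i ^ 2 = ∑ i : F, t i ^ 2 :=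
  exz_sum F t (fun _ x => x ^ 2) (fun _ => by norm_num)

private theorem lo_step {d N s : ℕ} (hs2 : N * ell ((s : ℝ) / N) ≤ d / 100)
    (G : Fin d → Fin N → Bool) (hG : UpG d N G) (F : Finset (Fin N)) (hF : F.card = s)
    (T : Finset (F → ℝ))
    (hT : ∀ v : F → ℝ, ∑ i, v i ^ 2 = 1 → ∃ t ∈ T, ∑ i, (v i - t i) ^ 2 ≤ (1 / 40 : ℝ) ^ 2)
    (hbad : ∀ t ∈ T, (d : ℝ) / 4 < GV G (exz F t)) (v : Fin N → ℝ) (hv : ∀ i, i ∉ F → v i = 0) :
    (d : ℝ) / 16 * ∑ i, v i ^ 2 ≤ GV G v := by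
  have hd0 : (0 : ℝ) ≤ d := Nat.cast_nonneg d
  have hsd := Real.sq_sqrt hd0
  have hsd0 := Real.sqrt_nonneg (d : ℝ)
  have h65 : Real.sqrt 65 ≤ 10 := by
    rw [show (10 : ℝ) = Real.sqrt (10 ^ 2) by rw [Real.sqrt_sq (by norm_num)]]
    exact Real.sqrt_le_sqrt (by norm_num)
  have key := lo_of_net (fun (l : Fin d) (i : F) => sb (G l i)) T (1 / 40) (by norm_num) hT
    (Real.sqrt d / 2) (Real.sqrt 65 * Real.sqrt d) (by positivity) (by positivity)
    (by nlinarith) ?_ ?_ (fun i : F => v i)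
  · have e1 : (Real.sqrt d / 2 / 2) ^ 2 = (d : ℝ) / 16 := by
      rw [div_pow, div_pow, hsd]; ring
    rw [e1] at key
    have e2 := GV_exz G F (fun i : F => v i)
    have e3 := sq_exz F (fun i : F => v i)
    rw [exz_res F v hv] at e2 e3
    rw [e2, e3]
    exact key
  · intro t ht
    have h1 := hbad t ht
    rw [GV_exz] at h1
    rw [div_pow, hsd]
    linarith
  · intro w
    have h1 := hG (exz F w) F (fun i hi => by rw [exz, dif_neg hi])
    rw [GV_exz, sq_exz, hF] at h1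
    refine h1.trans ?_
    rw [mul_pow, hsd, Real.sq_sqrt (by norm_num : (0 : ℝ) ≤ 65)]
    apply mul_le_mul_of_nonneg_right _ (Finset.sum_nonneg fun i _ => sq_nonneg _)
    nlinarith

private theorem exp48 : (120 : ℝ) ≤ Real.exp (24 / 5) := by
  have h1 := Real.exp_one_gt_d9
  have h2 : (120 : ℝ) ^ 5 ≤ Real.exp (24 / 5) ^ 5 := by
    rw [← Real.exp_nat_mul]
    have h3 : ((5 : ℕ) : ℝ) * (24 / 5) = ((24 : ℕ) : ℝ) * 1 := by norm_num
    rw [h3, Real.exp_nat_mul]
    have h4 : (2.7182818283 : ℝ) ^ 24 ≤ Real.exp 1 ^ 24 :=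
      pow_le_pow_left₀ (by norm_num) h1.le 24
    exact le_trans (by norm_num) h4
  exact le_of_pow_le_pow_left₀ (by norm_num) (Real.exp_pos _).le h2

theorem ev_lo (d N s : ℕ) (hd : 100 ≤ d) (hN : 100 * d ≤ N) (hs : s ≤ N)
    (hs2 : N * ell ((s : ℝ) / N) ≤ d / 100) :
    (({G : Fin d → Fin N → Bool | UpG d N G ∧ ¬ LoG d N s G} : Set (Fin d → Fin N → Bool)).ncard
      : ℝ) ≤ 1 / 10 * 2 ^ (d * N) := by
  classical
  have hd' : (100 : ℝ) ≤ d := by exact_mod_cast hd
  have hnet : ∀ F : Finset (Fin N), ∃ T : Finset (F → ℝ), (T.card : ℝ) ≤ 120 ^ F.card ∧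
      (∀ t ∈ T, ∑ i, t i ^ 2 = 1) ∧
      ∀ v : F → ℝ, ∑ i, v i ^ 2 = 1 → ∃ t ∈ T, ∑ i, (v i - t i) ^ 2 ≤ (1 / 40 : ℝ) ^ 2 := by
    intro F
    obtain ⟨T, h1, h2, h3⟩ := net F (1 / 40) (by norm_num) (by norm_num)
    refine ⟨T, ?_, h2, h3⟩
    rw [Fintype.card_coe] at h1
    refine h1.trans_eq ?_
    norm_num
  choose T hT1 hT2 hT3 using hnet
  have hsub : ({G : Fin d → Fin N → Bool | UpG d N G ∧ ¬ LoG d N s G} :
      Set (Fin d → Fin N → Bool)) ⊆
      (((univ.powersetCard s : Finset (Finset (Fin N))).biUnion fun F =>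
        (T F).biUnion fun t => univ.filter fun G : Fin d → Fin N → Bool =>
          GV G (exz F t) ≤ (Fintype.card (Fin d) : ℝ) / 4 : Finset (Fin d → Fin N → Bool)) :
          Set (Fin d → Fin N → Bool)) := by
    rintro G ⟨hG1, hG2⟩
    by_contra hcon
    apply hG2
    intro v F' hF' hv
    obtain ⟨F, hF'F, hF⟩ := Finset.exists_superset_card_eq (s := F') (n := s) hF'
      (by rw [Fintype.card_fin]; exact hs)
    refine lo_step hs2 G hG1 F hF (T F) (hT3 F) ?_ v (fun i hi => hv i fun h => hi (hF'F h))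
    intro t ht
    by_contra hle
    apply hcon
    simp only [Finset.coe_biUnion, Set.mem_iUnion, Finset.coe_filter, Finset.mem_coe,
      Set.mem_ofPred_eq, Finset.mem_univ, true_and]
    refine ⟨F, ?_, t, ht, ?_⟩
    · rw [Finset.mem_powersetCard]
      exact ⟨Finset.subset_univ _, hF⟩
    · rw [Fintype.card_fin]
      exact not_lt.1 hle
  have h1 := Set.ncard_le_ncard hsub (Set.toFinite _)
  rw [Set.ncard_coe_finset] at h1
  have h2 : ((((univ.powersetCard s : Finset (Finset (Fin N))).biUnion fun F =>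
        (T F).biUnion fun t => univ.filter fun G : Fin d → Fin N → Bool =>
          GV G (exz F t) ≤ (Fintype.card (Fin d) : ℝ) / 4 : Finset (Fin d → Fin N → Bool))).card : ℝ)
      ≤ ∑ F ∈ (univ.powersetCard s : Finset (Finset (Fin N))), ∑ t ∈ T F,
        Real.exp (-((d : ℝ) / 10)) * 2 ^ (d * N) := by
    refine le_trans (Nat.cast_le.2 Finset.card_biUnion_le) ?_
    rw [Nat.cast_sum]
    apply Finset.sum_le_sum
    intro F _
    refine le_trans (Nat.cast_le.2 Finset.card_biUnion_le) ?_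
    rw [Nat.cast_sum]
    apply Finset.sum_le_sum
    intro t ht
    have h3 := tail_lo (κ := Fin d) (ι := Fin N) (exz F t) (by rw [sq_exz]; exact hT2 F t ht)
    rw [Fintype.card_fin, Fintype.card_fin] at h3
    refine le_trans (le_of_eq ?_) h3
    rw [Nat.cast_inj, ← Set.ncard_coe_finset]
    congr 1
    ext G
    simp
  have h4 : ∑ F ∈ (univ.powersetCard s : Finset (Finset (Fin N))), ∑ t ∈ T F,
        Real.exp (-((d : ℝ) / 10)) * 2 ^ (d * N) ≤
      (N.choose s : ℝ) * (120 ^ s * (Real.exp (-((d : ℝ) / 10)) * 2 ^ (d * N))) := by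
    have h5 : ∀ F ∈ (univ.powersetCard s : Finset (Finset (Fin N))), ∑ t ∈ T F,
        Real.exp (-((d : ℝ) / 10)) * 2 ^ (d * N) ≤
        120 ^ s * (Real.exp (-((d : ℝ) / 10)) * 2 ^ (d * N)) := by
      intro F hF
      rw [Finset.sum_const, nsmul_eq_mul]
      apply mul_le_mul_of_nonneg_right _ (by positivity)
      have := hT1 F
      rwa [(Finset.mem_powersetCard.1 hF).2] at this
    refine le_trans (Finset.sum_le_sum h5) ?_
    rw [Finset.sum_const, nsmul_eq_mul, Finset.card_powersetCard, Finset.card_univ,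
      Fintype.card_fin]
  have h6 : (({G : Fin d → Fin N → Bool | UpG d N G ∧ ¬ LoG d N s G} :
      Set (Fin d → Fin N → Bool)).ncard : ℝ) ≤
      (N.choose s : ℝ) * (120 ^ s * (Real.exp (-((d : ℝ) / 10)) * 2 ^ (d * N))) :=
    le_trans (Nat.cast_le.2 h1) (h2.trans h4)
  refine h6.trans ?_
  have h7 := choose_le N s hs
  have h8 := card_le_ell N s hs (by omega)
  have h9 : (s : ℝ) ≤ d / 100 := h8.trans hs2
  have h10 : (120 : ℝ) ^ s ≤ Real.exp (24 / 5 * (d / 100)) := by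
    calc (120 : ℝ) ^ s ≤ Real.exp (24 / 5) ^ s := pow_le_pow_left₀ (by norm_num) exp48 s
      _ = Real.exp (s * (24 / 5)) := by rw [Real.exp_nat_mul]
      _ ≤ _ := Real.exp_le_exp.2 (by nlinarith)
  have h11 : (N.choose s : ℝ) ≤ Real.exp (d / 100) := h7.trans (Real.exp_le_exp.2 hs2)
  have h12 : (N.choose s : ℝ) * (120 ^ s * (Real.exp (-((d : ℝ) / 10)) * 2 ^ (d * N))) ≤
      Real.exp (d / 100) * (Real.exp (24 / 5 * (d / 100)) *
        (Real.exp (-((d : ℝ) / 10)) * 2 ^ (d * N))) := by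
    apply mul_le_mul h11 _ (by positivity) (Real.exp_pos _).le
    exact mul_le_mul_of_nonneg_right h10 (by positivity)
  refine h12.trans ?_
  have h13 : Real.exp ((d : ℝ) / 100) * (Real.exp (24 / 5 * (d / 100)) *
        (Real.exp (-((d : ℝ) / 10)) * 2 ^ (d * N))) =
      Real.exp (d / 100 + 24 / 5 * (d / 100) + -((d : ℝ) / 10)) * 2 ^ (d * N) := by
    rw [Real.exp_add, Real.exp_add]; ring
  rw [h13]
  apply mul_le_mul_of_nonneg_right _ (by positivity)
  have h14 : Real.exp (d / 100 + 24 / 5 * (d / 100) + -((d : ℝ) / 10)) ≤ Real.exp (-4) :=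
    Real.exp_le_exp.2 (by linarith)
  refine h14.trans ?_
  rw [Real.exp_neg, inv_eq_one_div]
  apply one_div_le_one_div_of_le (by norm_num)
  have h15 := Real.exp_one_gt_d9
  have h16 : (2.7182818283 : ℝ) ^ 4 ≤ Real.exp 1 ^ 4 := pow_le_pow_left₀ (by norm_num) h15.le 4
  have h17 : Real.exp 1 ^ 4 = Real.exp 4 := by rw [← Real.exp_nat_mul]; norm_num
  rw [← h17]
  exact le_trans (by norm_num) h16

end Pool.Agent.Helper52.CS
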