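import Pool.Agent.Helper52.CS.TailLo
import Pool.Agent.Helper52.CS.Net
import Pool.Agent.Helper52.CS.NormNet
import Pool.Agent.Helper52.CS.ChooseLe

/-! CS-37. Most sign matrices satisfy the lower bound for the transpose.
PROOF. Let `η = 1/46`, `T` an `η`-net of the sphere of `ℝ^d`, `card ≤ 138^d`. For `G` with UpG (with `F = univ`, `ell 1 = 1`): `GV G v ≤ 64 (d + N) |v|² ≤ 65 N |v|²` so also `GT G b ≤ 65 N |b|²` (the transpose has the same norm:
`GT G b = ⟨b, G (G^T b)⟩ ≤ |b| sqrt (65 N) |G^T b|`), `L = sqrt (65 N) ≤ 8.1 sqrt N`, `L η ≤ sqrt N / 4 = m / 2` with `m = sqrt N / 2`; so if `GT G t ≥ N/4` for all `t ∈ T` then TrG (lo_of_net). By tail_lo for the transposed matrix (`κ = Fin N`, `ι = Fin d`; transposing is a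
bijection of the sign matrices) the number of bad `G` is at most `138^d exp (-N/10) 2^(dN)`, and `138 ≤ e^5`, `5 d ≤ N / 20`, `N ≥ 10^4`. -/

set_option autoImplicit false

namespace Pool.Agent.Helper52.CS

open Finset

/-- The square of the norm of the transpose. -/
theorem GT_le_of_UpG {d N : ℕ} (hd : 100 ≤ d) (hN : 100 * d ≤ N) {G : Fin d → Fin N → Bool}
    (hU : UpG d N G) (b : Fin d → ℝ) : GT G b ≤ 65 * N * ∑ l, b l ^ 2 := by
  have hNpos : (0 : ℝ) < N := by
    have : 0 < N := by omega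
    exact_mod_cast this
  have hdN : (100 : ℝ) * d ≤ N := by exact_mod_cast hN
  -- upper bound for all vectors
  have hup : ∀ v : Fin N → ℝ, GV G v ≤ 65 * N * ∑ i, v i ^ 2 := by
    intro v
    have h1 := hU v univ (fun i hi => absurd (mem_univ i) hi)
    have h2 : ell (((univ : Finset (Fin N)).card : ℝ) / N) = 1 := by
      rw [card_univ, Fintype.card_fin, div_self hNpos.ne']
      unfold ell; simp [Real.negMulLog]
    rw [h2] at h1
    have h3 : (0 : ℝ) ≤ ∑ i, v i ^ 2 := sum_nonneg (fun i _ => sq_nonneg _)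
    refine h1.trans (mul_le_mul_of_nonneg_right ?_ h3)
    linarith
  set w : Fin N → ℝ := fun i => ∑ l, sb (G l i) * b l with hw
  have hA : GT G b = ∑ i, w i ^ 2 := rfl
  have hA0 : 0 ≤ GT G b := by rw [hA]; exact sum_nonneg (fun i _ => sq_nonneg _)
  have hB0 : (0 : ℝ) ≤ ∑ l, b l ^ 2 := sum_nonneg (fun i _ => sq_nonneg _)
  have h1 : GT G b = ∑ l, b l * ∑ i, sb (G l i) * w i := by
    rw [hA]
    have : ∀ i, w i ^ 2 = ∑ l, b l * (sb (G l i) * w i) := by
      intro i
      rw [sq]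
      nth_rewrite 1 [hw]
      simp only
      rw [sum_mul]
      apply sum_congr rfl
      intro l _; ring
    rw [sum_congr rfl (fun i _ => this i), sum_comm]
    apply sum_congr rfl
    intro l _
    rw [mul_sum]
  have h2 : GT G b ^ 2 ≤ (∑ l, b l ^ 2) * GV G w := by
    rw [h1]
    exact sum_mul_sq_le_sq_mul_sq univ b (fun l => ∑ i, sb (G l i) * w i)
  have h3 : GT G b ^ 2 ≤ (65 * N * ∑ l, b l ^ 2) * GT G b := by
    calc GT G b ^ 2 ≤ (∑ l, b l ^ 2) * GV G w := h2
      _ ≤ (∑ l, b l ^ 2) * (65 * N * ∑ i, w i ^ 2) := mul_le_mul_of_nonneg_left (hup w) hB0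
      _ = (65 * N * ∑ l, b l ^ 2) * GT G b := by rw [hA]; ring
  by_cases h0 : GT G b = 0
  · rw [h0]; positivity
  · have hpos : 0 < GT G b := lt_of_le_of_ne hA0 (Ne.symm h0)
    rw [sq] at h3
    exact le_of_mul_le_mul_right h3 hpos

theorem trG_of_net {d N : ℕ} (hd : 100 ≤ d) (hN : 100 * d ≤ N) {G : Fin d → Fin N → Bool}
    (hU : UpG d N G) (T : Finset (Fin d → ℝ))
    (hT : ∀ v : Fin d → ℝ, ∑ i, v i ^ 2 = 1 → ∃ t ∈ T, ∑ i, (v i - t i) ^ 2 ≤ (1 / 46) ^ 2)
    (hTm : ∀ t ∈ T, (N : ℝ) / 4 ≤ GT G t) : TrG d N G := by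
  intro b
  have hNpos : (0 : ℝ) < N := by
    have : 0 < N := by omega
    exact_mod_cast this
  have hs : Real.sqrt N ^ 2 = N := Real.sq_sqrt hNpos.le
  have hL : Real.sqrt (65 * N) ^ 2 = 65 * N := Real.sq_sqrt (by positivity)
  have h := lo_of_net (κ := Fin N) (ι := Fin d) (fun i l => sb (G l i)) T (1 / 46) (by norm_num)
    hT (Real.sqrt N / 2) (Real.sqrt (65 * N)) (by positivity) (by positivity) (by
      have h1 : Real.sqrt (65 * N) ≤ 23 / 2 * Real.sqrt N := by
        rw [Real.sqrt_le_left (by positivity), mul_pow, hs]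
        nlinarith
      linarith) (by
      intro t ht
      have := hTm t ht
      have h2 : (Real.sqrt N / 2) ^ 2 = (N : ℝ) / 4 := by rw [div_pow, hs]; norm_num
      rw [h2]
      exact this) (by
      intro v
      rw [hL]
      exact GT_le_of_UpG hd hN hU v) b
  have h2 : (Real.sqrt N / 2 / 2) ^ 2 = (N : ℝ) / 16 := by
    rw [div_div, div_pow, hs]; norm_num
  rw [h2] at h
  exact h

theorem ev_tr (d N : ℕ) (hd : 100 ≤ d) (hN : 100 * d ≤ N) :
    (({G : Fin d → Fin N → Bool | UpG d N G ∧ ¬ TrG d N G} : Set (Fin d → Fin N → Bool)).ncard : ℝ)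
      ≤ 1 / 10 * 2 ^ (d * N) := by
  classical
  obtain ⟨T, hTc, hT1, hT2⟩ := net (Fin d) (1 / 46) (by norm_num) (by norm_num)
  rw [Fintype.card_fin] at hTc
  have hTc' : (T.card : ℝ) ≤ 138 ^ d := by
    have : (3 : ℝ) / (1 / 46) = 138 := by norm_num
    rwa [this] at hTc
  -- the bad sets
  have hsub : {G : Fin d → Fin N → Bool | UpG d N G ∧ ¬ TrG d N G} ⊆
      ⋃ t ∈ T, {G : Fin d → Fin N → Bool | GT G t ≤ N / 4} := by
    rintro G ⟨hU, hTr⟩
    by_contra hcon
    apply hTr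
    apply trG_of_net hd hN hU T hT2
    intro t ht
    by_contra hlt
    push Not at hlt
    apply hcon
    simp only [Set.mem_iUnion]
    exact ⟨t, ht, hlt.le⟩
  have hbad : ∀ t ∈ T, (({G : Fin d → Fin N → Bool | GT G t ≤ N / 4} :
      Set (Fin d → Fin N → Bool)).ncard : ℝ) ≤ Real.exp (-(N / 10)) * 2 ^ (d * N) := by
    intro t ht
    have h1 := tail_lo (κ := Fin N) (ι := Fin d) t (hT1 t ht)
    rw [Fintype.card_fin, Fintype.card_fin] at h1
    have h2 : ({G : Fin d → Fin N → Bool | GT G t ≤ N / 4} : Set (Fin d → Fin N → Bool)).ncard =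
        ({G : Fin N → Fin d → Bool | GV G t ≤ N / 4} : Set (Fin N → Fin d → Bool)).ncard := by
      refine Set.ncard_congr (fun G _ => fun i l => G l i) (fun G hG => hG) ?_ ?_
      · intro G G' _ _ h
        funext l i
        exact congrFun (congrFun h i) l
      · intro G hG
        exact ⟨fun l i => G i l, hG, rfl⟩
    rw [h2, mul_comm d N]
    exact h1
  have hfin : (⋃ t ∈ T, {G : Fin d → Fin N → Bool | GT G t ≤ N / 4}).Finite := Set.toFinite _
  have h1 : (({G : Fin d → Fin N → Bool | UpG d N G ∧ ¬ TrG d N G} :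
      Set (Fin d → Fin N → Bool)).ncard : ℝ) ≤
      ∑ t ∈ T, (({G : Fin d → Fin N → Bool | GT G t ≤ N / 4} :
        Set (Fin d → Fin N → Bool)).ncard : ℝ) := by
    have := (Set.ncard_le_ncard hsub hfin).trans
      (Finset.set_ncard_biUnion_le T (fun t => {G : Fin d → Fin N → Bool | GT G t ≤ N / 4}))
    exact_mod_cast this
  have h2 : ∑ t ∈ T, (({G : Fin d → Fin N → Bool | GT G t ≤ N / 4} :
        Set (Fin d → Fin N → Bool)).ncard : ℝ) ≤
      138 ^ d * (Real.exp (-(N / 10)) * 2 ^ (d * N)) := by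
    refine (sum_le_sum hbad).trans ?_
    rw [sum_const, nsmul_eq_mul]
    exact mul_le_mul_of_nonneg_right hTc' (by positivity)
  have hdN : (100 : ℝ) * d ≤ N := by exact_mod_cast hN
  have hd' : (100 : ℝ) ≤ d := by exact_mod_cast hd
  have h3 : (138 : ℝ) ^ d ≤ Real.exp (N / 20) := by
    have h4 : (138 : ℝ) ≤ Real.exp 5 := by
      have h5 : Real.exp 5 = Real.exp 1 ^ 5 := by
        rw [← Real.exp_nat_mul]; norm_num
      rw [h5]
      have h6 : (2.7182818283 : ℝ) ≤ Real.exp 1 := Real.exp_one_gt_d9.le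
      calc (138 : ℝ) ≤ 2.7182818283 ^ 5 := by norm_num
        _ ≤ Real.exp 1 ^ 5 := pow_le_pow_left₀ (by norm_num) h6 5
    calc (138 : ℝ) ^ d ≤ Real.exp 5 ^ d := pow_le_pow_left₀ (by norm_num) h4 d
      _ = Real.exp (d * 5) := by rw [← Real.exp_nat_mul]
      _ ≤ Real.exp (N / 20) := Real.exp_le_exp.2 (by linarith)
  have h4 : Real.exp (N / 20) * Real.exp (-(N / 10)) ≤ 1 / 10 := by
    rw [← Real.exp_add]
    have h5 : (N : ℝ) / 20 + -(N / 10) = -(N / 20) := by ring
    rw [h5, Real.exp_neg]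
    rw [one_div]
    apply inv_anti₀ (by norm_num)
    have := Real.add_one_le_exp ((N : ℝ) / 20)
    linarith
  calc (({G : Fin d → Fin N → Bool | UpG d N G ∧ ¬ TrG d N G} :
      Set (Fin d → Fin N → Bool)).ncard : ℝ) ≤ 138 ^ d * (Real.exp (-(N / 10)) * 2 ^ (d * N)) :=
        h1.trans h2
    _ ≤ Real.exp (N / 20) * (Real.exp (-(N / 10)) * 2 ^ (d * N)) :=
        mul_le_mul_of_nonneg_right h3 (by positivity)
    _ = (Real.exp (N / 20) * Real.exp (-(N / 10))) * 2 ^ (d * N) := by ring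
    _ ≤ 1 / 10 * 2 ^ (d * N) := mul_le_mul_of_nonneg_right h4 (by positivity)

end Pool.Agent.Helper52.CS
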