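import Pool.Agent.Helper52.CS.Defs

/-! CS-40. The kernel has large `ℓ_1` norms.
PROOF. Sort the coordinates by decreasing modulus and cut them into consecutive groups `T_0, T_1, ...` of `s` (the last may be smaller). `∑_{i≥1} |x_{T_i}|_2 ≤ ∑_{i ≥ 1} |x_{T_{i-1}}|_1 / sqrt s ≤ |x|_1 / sqrt s` (each entry of `T_i` is at most the mean modulus over `T_{i-1}`).
`G x = 0`: `(sqrt d / 4) |x_{T_0}| ≤ |G x_{T_0}| ≤ ∑_{i≥1} |G x_{T_i}| ≤ sqrt (65 d) ∑_{i≥1} |x_{T_i}|` so `|x_{T_0}| ≤ 33 |x|_1 / sqrt s`, `|x|_2 ≤ 34 |x|_1 / sqrt s`, `34² ≤ 1200`. -/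

set_option autoImplicit false

namespace Pool.Agent.Helper52.CS

open Finset

/-- The `s` largest values of a function on a finite set. -/
private lemma exists_top {ι : Type*} [DecidableEq ι] (f : ι → ℝ) (R : Finset ι) :
    ∀ s : ℕ, s ≤ R.card → ∃ T ⊆ R, T.card = s ∧ ∀ i ∈ T, ∀ j ∈ R \ T, f j ≤ f i := by
  intro s
  induction s with
  | zero => intro _; exact ⟨∅, Finset.empty_subset _, rfl, by simp⟩
  | succ s ih =>
    intro hs
    obtain ⟨T, hTR, hTc, hT⟩ := ih (by omega)
    have hne : (R \ T).Nonempty := by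
      rw [← Finset.card_pos, Finset.card_sdiff_of_subset hTR]
      omega
    obtain ⟨i0, hi0, hmax⟩ := Finset.exists_max_image (R \ T) f hne
    rw [Finset.mem_sdiff] at hi0
    refine ⟨insert i0 T, Finset.insert_subset hi0.1 hTR, ?_, ?_⟩
    · rw [Finset.card_insert_of_notMem hi0.2, hTc]
    · intro i hi j hj
      rw [Finset.mem_sdiff, Finset.mem_insert, not_or] at hj
      have hj' : j ∈ R \ T := Finset.mem_sdiff.2 ⟨hj.1, hj.2.2⟩
      rcases Finset.mem_insert.1 hi with rfl | hi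
      · exact hmax j hj'
      · exact hT i hi j hj'

/-- Cutting a vector into pieces with at most `s` coordinates. -/
private lemma cut_bound {N : ℕ} (s : ℕ) (hs : 1 ≤ s) (K : ℝ) (hK : 0 ≤ K)
    (p : (Fin N → ℝ) → ℝ) (hp : ∀ v w, p (v + w) ≤ p v + p w)
    (hps : ∀ (v : Fin N → ℝ) (F : Finset (Fin N)), F.card ≤ s → (∀ i, i ∉ F → v i = 0) →
      p v ≤ K * √(∑ i, v i ^ 2)) (x : Fin N → ℝ) :
    ∀ (m : ℕ) (R : Finset (Fin N)), R.card ≤ m → ∀ b : ℝ, 0 ≤ b → (∀ i ∈ R, |x i| ≤ b) →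
      p (fun i => if i ∈ R then x i else 0) ≤ K * (√s * b + (∑ i ∈ R, |x i|) / √s) := by
  classical
  have hs0 : (0 : ℝ) < s := by exact_mod_cast hs
  have hss : (0 : ℝ) < √s := Real.sqrt_pos.2 hs0
  -- a piece with at most `s` coordinates
  have hpiece : ∀ (T : Finset (Fin N)) (b : ℝ), T.card ≤ s → 0 ≤ b → (∀ i ∈ T, |x i| ≤ b) →
      p (fun i => if i ∈ T then x i else 0) ≤ K * (√s * b) := by
    intro T b hT hb hTb
    refine (hps _ T hT (fun i hi => if_neg hi)).trans (mul_le_mul_of_nonneg_left ?_ hK)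
    have h1 : ∑ i, (if i ∈ T then x i else 0) ^ 2 ≤ s * b ^ 2 := by
      calc ∑ i, (if i ∈ T then x i else 0) ^ 2 = ∑ i ∈ T, x i ^ 2 := by
            rw [← Finset.sum_filter_add_sum_filter_not Finset.univ (fun i => i ∈ T)]
            have e1 : ∑ i ∈ Finset.univ.filter (fun i => i ∉ T),
                (if i ∈ T then x i else 0) ^ 2 = 0 := by
              refine Finset.sum_eq_zero fun i hi => ?_
              rw [Finset.mem_filter] at hi
              rw [if_neg hi.2]
              ring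
            rw [e1, add_zero]
            have e2 : Finset.univ.filter (fun i => i ∈ T) = T := by ext i; simp
            rw [e2]
            exact Finset.sum_congr rfl fun i hi => by rw [if_pos hi]
        _ ≤ ∑ i ∈ T, b ^ 2 := by
            refine Finset.sum_le_sum fun i hi => ?_
            rw [← sq_abs]
            exact pow_le_pow_left₀ (abs_nonneg _) (hTb i hi) 2
        _ = T.card * b ^ 2 := by rw [Finset.sum_const, nsmul_eq_mul]
        _ ≤ s * b ^ 2 := by
            refine mul_le_mul_of_nonneg_right ?_ (sq_nonneg _)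
            exact_mod_cast hT
    calc √(∑ i, (if i ∈ T then x i else 0) ^ 2) ≤ √(s * b ^ 2) := Real.sqrt_le_sqrt h1
      _ = √s * b := by rw [Real.sqrt_mul hs0.le, Real.sqrt_sq hb]
  intro m
  induction m with
  | zero =>
    intro R hR b hb hRb
    have hR0 : R = ∅ := Finset.card_eq_zero.1 (by omega)
    subst hR0
    have := hpiece ∅ b (by simp) hb (by simp)
    simp only [Finset.sum_empty, zero_div, add_zero]
    exact this
  | succ m ih =>
    intro R hR b hb hRb
    by_cases hc : R.card ≤ s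
    · refine (hpiece R b hc hb hRb).trans (mul_le_mul_of_nonneg_left ?_ hK)
      have : 0 ≤ (∑ i ∈ R, |x i|) / √s := by positivity
      linarith
    · push Not at hc
      obtain ⟨T, hTR, hTc, hT⟩ := exists_top (fun i => |x i|) R s hc.le
      have hTne : T.Nonempty := by rw [← Finset.card_pos]; omega
      -- the bound on the remaining coordinates
      set b' : ℝ := (∑ i ∈ T, |x i|) / s with hb'
      have hb'0 : 0 ≤ b' := by positivity
      have hrest : ∀ j ∈ R \ T, |x j| ≤ b' := by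
        intro j hj
        rw [hb', le_div_iff₀ hs0]
        have h1 : ∑ i ∈ T, |x j| ≤ ∑ i ∈ T, |x i| := Finset.sum_le_sum fun i hi => hT i hi j hj
        rw [Finset.sum_const, hTc, nsmul_eq_mul] at h1
        linarith
      have hcard : (R \ T).card ≤ m := by
        rw [Finset.card_sdiff_of_subset hTR]
        omega
      have h2 := ih (R \ T) hcard b' hb'0 hrest
      have h3 := hpiece T b hTc.le hb (fun i hi => hRb i (hTR hi))
      have h4 : (fun i => if i ∈ R then x i else 0) =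
          (fun i => if i ∈ T then x i else 0) + (fun i => if i ∈ R \ T then x i else 0) := by
        funext i
        rw [Pi.add_apply]
        by_cases hiT : i ∈ T
        · have hiR := hTR hiT
          simp [hiT, hiR]
        · by_cases hiR : i ∈ R
          · simp [hiT, hiR]
          · simp [hiT, hiR]
      rw [h4]
      refine (hp _ _).trans ((add_le_add h3 h2).trans ?_)
      rw [← mul_add]
      refine mul_le_mul_of_nonneg_left ?_ hK
      have h5 : √(s : ℝ) * b' = (∑ i ∈ T, |x i|) / √s := by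
        rw [hb', mul_div_assoc', div_eq_div_iff hs0.ne' hss.ne']
        have := Real.mul_self_sqrt hs0.le
        linear_combination (∑ i ∈ T, |x i|) * this
      have h6 : ∑ i ∈ R, |x i| = ∑ i ∈ T, |x i| + ∑ i ∈ R \ T, |x i| := by
        rw [add_comm, Finset.sum_sdiff hTR]
      rw [h5, h6, add_div]

/-- The Euclidean norm of `G v`. -/
private noncomputable def nG {d N : ℕ} (G : Fin d → Fin N → Bool) (v : Fin N → ℝ) : ℝ :=
  ‖(WithLp.toLp 2 (fun l => ∑ i, sb (G l i) * v i) : EuclideanSpace ℝ (Fin d))‖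

private lemma nG_sq {d N : ℕ} (G : Fin d → Fin N → Bool) (v : Fin N → ℝ) :
    nG G v ^ 2 = GV G v := by
  rw [nG, EuclideanSpace.real_norm_sq_eq]
  rfl

private lemma nG_add {d N : ℕ} (G : Fin d → Fin N → Bool) (v w : Fin N → ℝ) :
    nG G (v + w) ≤ nG G v + nG G w := by
  have h : (WithLp.toLp 2 (fun l => ∑ i, sb (G l i) * (v + w) i) : EuclideanSpace ℝ (Fin d)) =
      WithLp.toLp 2 (fun l => ∑ i, sb (G l i) * v i) +
        WithLp.toLp 2 (fun l => ∑ i, sb (G l i) * w i) := by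
    ext l
    simp only [PiLp.add_apply, Pi.add_apply, mul_add, Finset.sum_add_distrib]
  rw [nG, h]
  exact norm_add_le _ _

private lemma nG_neg {d N : ℕ} (G : Fin d → Fin N → Bool) (v : Fin N → ℝ) :
    nG G (-v) = nG G v := by
  have h : (WithLp.toLp 2 (fun l => ∑ i, sb (G l i) * (-v) i) : EuclideanSpace ℝ (Fin d)) =
      - WithLp.toLp 2 (fun l => ∑ i, sb (G l i) * v i) := by
    ext l
    simp only [PiLp.neg_apply, Pi.neg_apply, mul_neg, Finset.sum_neg_distrib]
  rw [nG, h, norm_neg]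
  rfl

/-- The Euclidean norm. -/
private noncomputable def n2 {N : ℕ} (v : Fin N → ℝ) : ℝ :=
  ‖(WithLp.toLp 2 v : EuclideanSpace ℝ (Fin N))‖

private lemma n2_eq {N : ℕ} (v : Fin N → ℝ) : n2 v = √(∑ i, v i ^ 2) := by
  rw [n2, EuclideanSpace.norm_eq]
  simp

private lemma n2_add {N : ℕ} (v w : Fin N → ℝ) : n2 (v + w) ≤ n2 v + n2 w := by
  have h : (WithLp.toLp 2 (v + w) : EuclideanSpace ℝ (Fin N)) =
      WithLp.toLp 2 v + WithLp.toLp 2 w := rfl
  rw [n2, h]
  exact norm_add_le _ _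

theorem kash_G (d N s : ℕ) (hd : 1 ≤ d) (hs : 1 ≤ s) (hsN : s ≤ N)
    (hs2 : N * ell ((s : ℝ) / N) ≤ d / 100) (G : Fin d → Fin N → Bool) (hU : UpG d N G)
    (hL : LoG d N s G) (x : Fin N → ℝ) (hx : ∀ l, ∑ i, sb (G l i) * x i = 0) :
    ∑ i, x i ^ 2 ≤ 1200 / s * (∑ i, |x i|) ^ 2 := by
  classical
  have hs0 : (0 : ℝ) < s := by exact_mod_cast hs
  have hss : (0 : ℝ) < √s := Real.sqrt_pos.2 hs0
  have hd0 : (0 : ℝ) < d := by exact_mod_cast hd
  -- the upper bound for pieces
  have hup : ∀ (v : Fin N → ℝ) (F : Finset (Fin N)), F.card ≤ s → (∀ i, i ∉ F → v i = 0) →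
      nG G v ≤ √(65 * d) * √(∑ i, v i ^ 2) := by
    intro v F hF hv
    obtain ⟨F', hFF', hF'⟩ := Finset.exists_superset_card_eq hF (by simpa using hsN)
    have h1 := hU v F' (fun i hi => hv i (fun h => hi (hFF' h)))
    rw [hF'] at h1
    have hv0 : 0 ≤ ∑ i, v i ^ 2 := Finset.sum_nonneg fun i _ => sq_nonneg _
    have h2 : GV G v ≤ 65 * d * ∑ i, v i ^ 2 := by
      refine h1.trans (mul_le_mul_of_nonneg_right ?_ hv0)
      linarith
    rw [← Real.sqrt_mul (by positivity), ← nG_sq] at *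
    exact Real.le_sqrt_of_sq_le (by rw [nG_sq] at *; exact h2)
  have hN : s ≤ (Finset.univ : Finset (Fin N)).card := by simpa using hsN
  obtain ⟨T, hTR, hTc, hT⟩ := exists_top (fun i => |x i|) Finset.univ s hN
  set b : ℝ := (∑ i ∈ T, |x i|) / s with hb
  have hb0 : 0 ≤ b := by positivity
  have hrest : ∀ j ∈ Finset.univ \ T, |x j| ≤ b := by
    intro j hj
    rw [hb, le_div_iff₀ hs0]
    have h1 : ∑ i ∈ T, |x j| ≤ ∑ i ∈ T, |x i| := Finset.sum_le_sum fun i hi => hT i hi j hj
    rw [Finset.sum_const, hTc, nsmul_eq_mul] at h1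
    linarith
  set xT : Fin N → ℝ := fun i => if i ∈ T then x i else 0 with hxT
  set xR : Fin N → ℝ := fun i => if i ∈ Finset.univ \ T then x i else 0 with hxR
  have hsum : √(s : ℝ) * b + (∑ i ∈ Finset.univ \ T, |x i|) / √s = (∑ i, |x i|) / √s := by
    have h5 : √(s : ℝ) * b = (∑ i ∈ T, |x i|) / √s := by
      rw [hb, mul_div_assoc', div_eq_div_iff hs0.ne' hss.ne']
      have := Real.mul_self_sqrt hs0.le
      linear_combination (∑ i ∈ T, |x i|) * this
    rw [h5, ← add_div, add_comm, Finset.sum_sdiff hTR]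
  have hR1 : nG G xR ≤ √(65 * d) * ((∑ i, |x i|) / √s) := by
    rw [← hsum]
    exact cut_bound s hs (√(65 * d)) (Real.sqrt_nonneg _) (nG G) (nG_add G) hup x _
      (Finset.univ \ T) le_rfl b hb0 hrest
  have hR2 : n2 xR ≤ (∑ i, |x i|) / √s := by
    have h1 := cut_bound s hs 1 zero_le_one n2 n2_add
      (fun v F _ _ => by rw [one_mul, n2_eq]) x _ (Finset.univ \ T) le_rfl b hb0 hrest
    rw [hsum, one_mul] at h1
    exact h1
  -- `G x = 0`
  have hneg : nG G xT = nG G xR := by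
    rw [← nG_neg G xR]
    unfold nG
    congr 2
    funext l
    have h1 := hx l
    have h2 : ∀ i, sb (G l i) * x i = sb (G l i) * xT i + sb (G l i) * xR i := by
      intro i
      simp only [hxT, hxR]
      by_cases hi : i ∈ T
      · simp [hi]
      · simp [hi]
    rw [Finset.sum_congr rfl (fun i _ => h2 i), Finset.sum_add_distrib] at h1
    have h3 : ∑ i, sb (G l i) * (-xR) i = - ∑ i, sb (G l i) * xR i := by
      rw [← Finset.sum_neg_distrib]
      exact Finset.sum_congr rfl fun i _ => by rw [Pi.neg_apply]; ring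
    rw [h3]
    linarith
  have hlow := hL xT T hTc.le (fun i hi => if_neg hi)
  rw [← nG_sq, hneg] at hlow
  set S : ℝ := ∑ i, |x i| with hS
  have hS0 : 0 ≤ S := Finset.sum_nonneg fun i _ => abs_nonneg _
  have hnG0 : 0 ≤ nG G xR := norm_nonneg _
  have h7 : nG G xR ^ 2 ≤ 65 * d * (S ^ 2 / s) := by
    have h8 := pow_le_pow_left₀ hnG0 hR1 2
    rw [mul_pow, Real.sq_sqrt (by positivity), div_pow, Real.sq_sqrt hs0.le] at h8
    exact h8
  have h9 : ∑ i, xT i ^ 2 ≤ 1040 * (S ^ 2 / s) := by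
    have h10 : (d : ℝ) / 16 * ∑ i, xT i ^ 2 ≤ (d : ℝ) / 16 * (1040 * (S ^ 2 / s)) := by
      refine (hlow.trans h7).trans (le_of_eq ?_)
      ring
    exact le_of_mul_le_mul_left h10 (by positivity)
  have h11 : ∑ i, xR i ^ 2 ≤ S ^ 2 / s := by
    have h12 : 0 ≤ ∑ i, xR i ^ 2 := Finset.sum_nonneg fun i _ => sq_nonneg _
    have h13 := pow_le_pow_left₀ (norm_nonneg _) hR2 2
    have h14 : n2 xR ^ 2 = ∑ i, xR i ^ 2 := by rw [n2_eq, Real.sq_sqrt h12]
    change n2 xR ^ 2 ≤ _ at h13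
    rw [h14, div_pow, Real.sq_sqrt hs0.le] at h13
    exact h13
  have h15 : ∑ i, x i ^ 2 = ∑ i, xT i ^ 2 + ∑ i, xR i ^ 2 := by
    rw [← Finset.sum_add_distrib]
    refine Finset.sum_congr rfl fun i _ => ?_
    simp only [hxT, hxR]
    by_cases hi : i ∈ T
    · simp [hi]
    · simp [hi]
  have h16 : 1200 / (s : ℝ) * S ^ 2 = 1200 * (S ^ 2 / s) := by ring
  have h17 : 0 ≤ S ^ 2 / s := by positivity
  rw [h15, h16]
  linarith

end Pool.Agent.Helper52.CS
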