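import Pool.Agent.Helper52.CS.ChooseLe

/-! CS-41. The sparsity level.
PROOF. `θ = 1/1000`, `L = log (N/d) ≥ 0`, `s = ⌊θ d / (1 + L)⌋`. If `1 ≤ s`: `N ell (s/N) = s (1 + log (N/s))`, increasing in real `s`, so at most the value at `s' = θ d/(1+L)`:
`log (N/s') = L + log ((1+L)/θ) ≤ L + log 1000 + L`, `θ (1 + 2L + log 1000) / (1 + L) ≤ θ (2 + log 1000) ≤ 9/1000` (`log 1000 ≤ 7`). And `s ≥ s'/2`. -/

set_option autoImplicit false

namespace Pool.Agent.Helper52.CS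

open Finset

theorem nums_log_thousand : Real.log 1000 ≤ 7 := by
  rw [Real.log_le_iff_le_exp (by norm_num)]
  have he : (2.7182818283 : ℝ) < Real.exp 1 := Real.exp_one_gt_d9
  have : Real.exp 7 = Real.exp 1 ^ 7 := by
    rw [← Real.exp_nat_mul]; norm_num
  rw [this]
  calc (1000 : ℝ) ≤ 2.7182818283 ^ 7 := by norm_num
    _ ≤ Real.exp 1 ^ 7 := pow_le_pow_left₀ (by norm_num) he.le 7

theorem num_s (d N : ℕ) (hd : 1 ≤ d) (hN : d ≤ N) :
    ∃ s : ℕ, s ≤ N ∧ N * ell ((s : ℝ) / N) ≤ d / 100 ∧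
      (s = 0 → (d : ℝ) ≤ 1000 * (1 + Real.log ((N : ℝ) / d))) ∧
      (1 ≤ s → (d : ℝ) ≤ 2000 * (1 + Real.log ((N : ℝ) / d)) * s) := by
  have hd0 : (0 : ℝ) < d := by exact_mod_cast hd
  have hNd : (d : ℝ) ≤ N := by exact_mod_cast hN
  have hN0 : (0 : ℝ) < N := hd0.trans_le hNd
  set L : ℝ := Real.log ((N : ℝ) / d) with hL
  have hL0 : 0 ≤ L := Real.log_nonneg (by rw [le_div_iff₀ hd0]; linarith)
  set s' : ℝ := d / (1000 * (1 + L)) with hs'
  have hs'0 : 0 < s' := by positivity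
  have hs'd : s' ≤ d := div_le_self hd0.le (by nlinarith)
  have hs'e : s' * (1000 * (1 + L)) = d := by
    rw [hs']; field_simp
  refine ⟨⌊s'⌋₊, ?_, ?_, ?_, ?_⟩
  · exact Nat.floor_le_of_le (hs'd.trans hNd)
  · have h1 : (⌊s'⌋₊ : ℝ) ≤ s' := Nat.floor_le hs'0.le
    have h2 : ell ((⌊s'⌋₊ : ℝ) / N) ≤ ell (s' / N) :=
      ell_mono _ _ (by positivity) (div_le_div_of_nonneg_right h1 hN0.le)
        (by rw [div_le_one hN0]; exact hs'd.trans hNd)
    have h3 : N * ell (s' / N) = s' * (1 + Real.log ((N : ℝ) / s')) := by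
      unfold ell Real.negMulLog
      have e1 : Real.log ((N : ℝ) / s') = -Real.log (s' / N) := by
        rw [← Real.log_inv, inv_div]
      rw [e1]
      field_simp
    have h4 : (N : ℝ) / s' = (N / d) * ((1 + L) * 1000) := by
      rw [hs']; field_simp
    have h5 : Real.log ((N : ℝ) / s') ≤ 2 * L + 7 := by
      rw [h4, Real.log_mul (by positivity) (by positivity), Real.log_mul (by positivity)
        (by norm_num)]
      have h6 : Real.log (1 + L) ≤ L := by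
        have := Real.log_le_sub_one_of_pos (show (0 : ℝ) < 1 + L by linarith)
        linarith
      have := nums_log_thousand
      linarith
    calc (N : ℝ) * ell ((⌊s'⌋₊ : ℝ) / N) ≤ N * ell (s' / N) :=
          mul_le_mul_of_nonneg_left h2 hN0.le
      _ = s' * (1 + Real.log ((N : ℝ) / s')) := h3
      _ ≤ s' * (8 * (1 + L)) := mul_le_mul_of_nonneg_left (by linarith) hs'0.le
      _ = (s' * (1000 * (1 + L))) * (8 / 1000) := by ring
      _ = d * (8 / 1000) := by rw [hs'e]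
      _ ≤ d / 100 := by linarith
  · intro h0
    have h1 : s' < 1 := by rwa [Nat.floor_eq_zero] at h0
    rw [← hs'e]
    nlinarith
  · intro h1
    have h2 : s' < (⌊s'⌋₊ : ℝ) + 1 := Nat.lt_floor_add_one s'
    have h3 : (1 : ℝ) ≤ (⌊s'⌋₊ : ℝ) := by exact_mod_cast h1
    have h4 : s' ≤ 2 * (⌊s'⌋₊ : ℝ) := by linarith
    calc (d : ℝ) = s' * (1000 * (1 + L)) := hs'e.symm
      _ ≤ 2 * (⌊s'⌋₊ : ℝ) * (1000 * (1 + L)) := mul_le_mul_of_nonneg_right h4 (by positivity)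
      _ = 2000 * (1 + L) * (⌊s'⌋₊ : ℝ) := by ring

end Pool.Agent.Helper52.CS
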