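import Pool.Agent.Helper52.CS.Defs

/-! CS-39. The orthogonal projection onto the row space.
PROOF. `A` = matrix of `a`, `A A^T` is invertible (positive definite by hinj), `q = A^T (A A^T)⁻¹ A`. -/

set_option autoImplicit false

namespace Pool.Agent.Helper52.CS

open Finset

theorem proj_exists (d N : ℕ) (a : Fin d → Fin N → ℝ)
    (hinj : ∀ b : Fin d → ℝ, ∑ i, (∑ l, a l i * b l) ^ 2 = 0 → b = 0) :
    ∃ q : Fin N → Fin N → ℝ, (∀ i j, q i j = q j i) ∧ (∀ i k, ∑ j, q i j * q j k = q i k) ∧
      ∑ i, q i i = d ∧ (∀ x : Fin N → ℝ, ∃ b : Fin d → ℝ, ∀ i, ∑ j, q i j * x j = ∑ l, a l i * b l) ∧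
      ∀ x : Fin N → ℝ, (∀ i, ∑ j, q i j * x j = 0) → ∀ l, ∑ i, a l i * x i = 0 := by
  classical
  let A : Matrix (Fin d) (Fin N) ℝ := Matrix.of a
  have hTv : ∀ (b : Fin d → ℝ) (i : Fin N), (A.transpose.mulVec b) i = ∑ l, a l i * b l :=
    fun b i => rfl
  have hAv : ∀ (x : Fin N → ℝ) (l : Fin d), (A.mulVec x) l = ∑ i, a l i * x i := fun x l => rfl
  have hker : ∀ b : Fin d → ℝ, (A * A.transpose).mulVec b = 0 → b = 0 := by
    intro b hb
    apply hinj
    have h1 : dotProduct b ((A * A.transpose).mulVec b) = 0 := by rw [hb, dotProduct_zero]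
    rw [← Matrix.mulVec_mulVec, Matrix.dotProduct_mulVec, ← Matrix.mulVec_transpose] at h1
    have h2 : dotProduct (A.transpose.mulVec b) (A.transpose.mulVec b) =
        ∑ i, (∑ l, a l i * b l) ^ 2 := by
      unfold dotProduct
      refine Finset.sum_congr rfl fun i _ => ?_
      rw [hTv, sq]
    rw [← h2]
    exact h1
  have hu : IsUnit (A * A.transpose) := by
    rw [← Matrix.mulVec_injective_iff_isUnit]
    intro b b' hb
    have h1 : (A * A.transpose).mulVec (b - b') = 0 := by
      rw [Matrix.mulVec_sub]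
      exact sub_eq_zero.2 hb
    exact sub_eq_zero.1 (hker _ h1)
  have hdet : IsUnit (A * A.transpose).det := (Matrix.isUnit_iff_isUnit_det _).1 hu
  set M : Matrix (Fin d) (Fin d) ℝ := (A * A.transpose)⁻¹ with hM
  have hM1 : M * (A * A.transpose) = 1 := Matrix.nonsing_inv_mul _ hdet
  have hM2 : (A * A.transpose) * M = 1 := Matrix.mul_nonsing_inv _ hdet
  have hMT : M.transpose = M := by
    rw [hM, Matrix.transpose_nonsing_inv, Matrix.transpose_mul, Matrix.transpose_transpose]
  set q : Matrix (Fin N) (Fin N) ℝ := A.transpose * M * A with hq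
  have hqT : q.transpose = q := by
    rw [hq, Matrix.transpose_mul, Matrix.transpose_mul, Matrix.transpose_transpose, hMT,
      Matrix.mul_assoc]
  have hAq : A * q = A := by
    rw [hq, ← Matrix.mul_assoc, ← Matrix.mul_assoc, hM2, Matrix.one_mul]
  have hqq : q * q = q := by
    have h1 : q * q = A.transpose * M * (A * q) := by
      rw [hq]
      simp only [Matrix.mul_assoc]
    rw [h1, hAq]
  refine ⟨q, ?_, ?_, ?_, ?_, ?_⟩
  · intro i j
    have := congrFun (congrFun hqT j) i
    exact this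
  · intro i k
    have := congrFun (congrFun hqq i) k
    rw [← this]
    rfl
  · have h1 : ∑ i, q i i = q.trace := rfl
    rw [h1, hq, Matrix.trace_mul_comm, ← Matrix.mul_assoc, hM2, Matrix.trace_one]
    simp
  · intro x
    refine ⟨M.mulVec (A.mulVec x), fun i => ?_⟩
    rw [← hTv]
    have h1 : ∑ j, q i j * x j = (q.mulVec x) i := rfl
    rw [h1, hq, ← Matrix.mulVec_mulVec, ← Matrix.mulVec_mulVec]
  · intro x hx l
    have h1 : q.mulVec x = 0 := by
      funext i
      exact hx i
    rw [← hAv, ← hAq, ← Matrix.mulVec_mulVec, h1, Matrix.mulVec_zero]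
    rfl

end Pool.Agent.Helper52.CS
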