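import Pool.Agent.Helper52.CS.EvUp
import Pool.Agent.Helper52.CS.EvTr
import Pool.Agent.Helper52.CS.EvLo
import Pool.Agent.Helper52.CS.ProjG
import Pool.Agent.Helper52.CS.KashG
import Pool.Agent.Helper52.CS.NumS

/-! CS-42. Existence of good kernels.
PROOF. `k = N`, `s` from num_s. By ev_up, ev_tr, ev_lo some `G` satisfies UpG, TrG, LoG (total number is `2^(dN)`, bad ones at most `3/10` of it). `q` from proj_exists for `a l i = sb (G l i)`, transported to `Ico a (a+k)` (`q' (a+i) (a+j) = q i j`).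
flat: `w = G^T b`; for `F ⊆ Fin N`: `nsq F w = ⟨w, w_F⟩ = ⟨b, G w_F⟩ ≤ |b| sqrt (64 (d + N ell (|F|/N))) |w_F|` so `nsq F w ≤ 64 (d + N ell) |b|² ≤ 1024 (d/N + ell) nsq w` (TrG). kash: if `s ≥ 1` kash_G: `1200/s ≤ 1200 · 2000 (1 + L)/d`;
if `s = 0`: `nsq x ≤ (∑|x|)²` and `1 ≤ 1000 (1+L)/d`. `C0 = 2400000`. -/

set_option autoImplicit false

namespace Pool.Agent.Helper52.CS

open Finset

private lemma sum_Ico_fin (a N : ℕ) (f : ℕ → ℝ) :
    ∑ i ∈ Finset.Ico a (a + N), f i = ∑ i : Fin N, f (a + i) := by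
  rw [Finset.sum_Ico_eq_sum_range, Nat.add_sub_cancel_left, Finset.sum_range]

/-- Some sign matrix has all three properties. -/
private lemma exists_good_matrix (d N s : ℕ) (hd : 100 ≤ d) (hN : 100 * d ≤ N) (hs : s ≤ N)
    (hs2 : N * ell ((s : ℝ) / N) ≤ d / 100) :
    ∃ G : Fin d → Fin N → Bool, UpG d N G ∧ TrG d N G ∧ LoG d N s G := by
  classical
  have h1 := ev_up d N (by omega) (by omega)
  have h2 := ev_tr d N hd hN
  have h3 := ev_lo d N s hd hN hs hs2
  by_contra hcon
  push Not at hcon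
  set A : Set (Fin d → Fin N → Bool) := {G | ¬ UpG d N G}
  set B : Set (Fin d → Fin N → Bool) := {G | UpG d N G ∧ ¬ TrG d N G}
  set D : Set (Fin d → Fin N → Bool) := {G | UpG d N G ∧ ¬ LoG d N s G}
  have hun : (Set.univ : Set (Fin d → Fin N → Bool)) ⊆ A ∪ (B ∪ D) := by
    intro G _
    by_cases hU : UpG d N G
    · by_cases hT : TrG d N G
      · exact Or.inr (Or.inr ⟨hU, hcon G hU hT⟩)
      · exact Or.inr (Or.inl ⟨hU, hT⟩)
    · exact Or.inl hU
  have hc1 : (Set.univ : Set (Fin d → Fin N → Bool)).ncard ≤ (A ∪ (B ∪ D)).ncard :=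
    Set.ncard_le_ncard hun (Set.toFinite _)
  have hc2 : (A ∪ (B ∪ D)).ncard ≤ A.ncard + (B.ncard + D.ncard) :=
    (Set.ncard_union_le _ _).trans (Nat.add_le_add_left (Set.ncard_union_le _ _) _)
  have hc3 : (Set.univ : Set (Fin d → Fin N → Bool)).ncard = 2 ^ (d * N) := by
    rw [Set.ncard_univ, Nat.card_eq_fintype_card]
    simp only [Fintype.card_fun, Fintype.card_bool, Fintype.card_fin]
    rw [← pow_mul, mul_comm]
  have hc4 : (2 : ℝ) ^ (d * N) ≤ A.ncard + (B.ncard + D.ncard) := by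
    have := hc1.trans hc2
    rw [hc3] at this
    exact_mod_cast this
  have hpos : (0 : ℝ) < 2 ^ (d * N) := by positivity
  linarith

theorem block_exists : ∃ C0 : ℝ, 1 ≤ C0 ∧ BlockExists C0 := by
  classical
  refine ⟨2400000, by norm_num, ?_⟩
  intro a N d hd hN
  have hd0 : (0 : ℝ) < d := by
    have : 0 < d := by omega
    exact_mod_cast this
  have hN0 : (0 : ℝ) < N := by
    have : 0 < N := by omega
    exact_mod_cast this
  obtain ⟨s, hsN, hs2, hs0, hs1⟩ := num_s d N (by omega) (by omega)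
  obtain ⟨G, hU, hT, hL⟩ := exists_good_matrix d N s hd hN hsN hs2
  have hinj : ∀ b : Fin d → ℝ, ∑ i, (∑ l, sb (G l i) * b l) ^ 2 = 0 → b = 0 := by
    intro b hb
    have h1 := hT b
    unfold GT at h1
    rw [hb] at h1
    have h2 : ∑ l, b l ^ 2 ≤ 0 := by
      by_contra hne
      push Not at hne
      have : 0 < (N : ℝ) / 16 * ∑ l, b l ^ 2 := by positivity
      linarith
    have h3 : ∑ l, b l ^ 2 = 0 := le_antisymm h2 (Finset.sum_nonneg fun l _ => sq_nonneg _)
    rw [Finset.sum_eq_zero_iff_of_nonneg (fun l _ => sq_nonneg _)] at h3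
    funext l
    have := h3 l (Finset.mem_univ l)
    simpa using this
  obtain ⟨q, hsymm, hidem, htr, hrange, hker⟩ := proj_exists d N (fun l i => sb (G l i)) hinj
  set qe : ℕ → ℕ → ℝ := fun i j =>
    if h : i - a < N ∧ j - a < N then q ⟨i - a, h.1⟩ ⟨j - a, h.2⟩ else 0 with hqe
  have hval : ∀ i j : Fin N, qe (a + i) (a + j) = q i j := by
    intro i j
    have h : a + (i : ℕ) - a < N ∧ a + (j : ℕ) - a < N := by
      rw [Nat.add_sub_cancel_left, Nat.add_sub_cancel_left]
      exact ⟨i.2, j.2⟩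
    simp only [hqe, dif_pos h]
    congr 1 <;> exact Fin.ext (Nat.add_sub_cancel_left _ _)
  have hmem : ∀ i ∈ Finset.Ico a (a + N), ∃ i' : Fin N, i = a + i' := by
    intro i hi
    rw [Finset.mem_Ico] at hi
    exact ⟨⟨i - a, by omega⟩, by simp only; omega⟩
  have hcard : ((Finset.Ico a (a + N)).card : ℝ) = N := by
    rw [Nat.card_Ico, Nat.add_sub_cancel_left]
  have hap : ∀ (x : ℕ → ℝ) (i : Fin N), ap (Finset.Ico a (a + N)) qe x (a + i) =
      ∑ j, q i j * x (a + j) := by
    intro x i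
    unfold ap
    rw [sum_Ico_fin]
    exact Finset.sum_congr rfl fun j _ => by rw [hval]
  refine ⟨qe, ?_, ?_, ?_, ?_, ?_⟩
  · intro i hi j hj
    obtain ⟨i', rfl⟩ := hmem i hi
    obtain ⟨j', rfl⟩ := hmem j hj
    rw [hval, hval, hsymm]
  · intro i hi k hk
    obtain ⟨i', rfl⟩ := hmem i hi
    obtain ⟨k', rfl⟩ := hmem k hk
    rw [sum_Ico_fin, hval, ← hidem i' k']
    exact Finset.sum_congr rfl fun j _ => by rw [hval, hval]
  · rw [sum_Ico_fin, ← htr]
    exact le_of_eq (Finset.sum_congr rfl fun j _ => by rw [hval])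
  · intro x F hF
    rw [hcard]
    obtain ⟨b, hb⟩ := hrange (fun j => x (a + j))
    set W : Fin N → ℝ := fun i => ∑ j, q i j * x (a + j) with hW
    have hWb : ∀ i, W i = ∑ l, sb (G l i) * b l := hb
    have hfull : nsq (Finset.Ico a (a + N)) (ap (Finset.Ico a (a + N)) qe x) = ∑ i, W i ^ 2 := by
      unfold nsq
      rw [sum_Ico_fin]
      exact Finset.sum_congr rfl fun i _ => by rw [hap]
    set F' : Finset (Fin N) := Finset.univ.filter (fun i : Fin N => a + (i : ℕ) ∈ F) with hF'
    have hinj' : Set.InjOn (fun i : Fin N => a + (i : ℕ)) F' := by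
      intro i _ j _ hij
      exact Fin.ext (Nat.add_left_cancel hij)
    have himage : F = F'.image (fun i : Fin N => a + (i : ℕ)) := by
      ext i
      rw [Finset.mem_image]
      constructor
      · intro hi
        obtain ⟨i', rfl⟩ := hmem i (hF hi)
        exact ⟨i', by rw [hF', Finset.mem_filter]; exact ⟨Finset.mem_univ _, hi⟩, rfl⟩
      · rintro ⟨i', hi', rfl⟩
        rw [hF', Finset.mem_filter] at hi'
        exact hi'.2
    have hcF : F.card = F'.card := by
      conv_lhs => rw [himage]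
      exact Finset.card_image_of_injOn hinj'
    have hpart : nsq F (ap (Finset.Ico a (a + N)) qe x) = ∑ i ∈ F', W i ^ 2 := by
      unfold nsq
      conv_lhs => rw [himage]
      rw [Finset.sum_image hinj']
      exact Finset.sum_congr rfl fun i _ => by rw [hap]
    set A : ℝ := ∑ i ∈ F', W i ^ 2 with hA
    have hA0 : 0 ≤ A := Finset.sum_nonneg fun i _ => sq_nonneg _
    set wF : Fin N → ℝ := fun i => if i ∈ F' then W i else 0 with hwF
    have hA1 : ∑ i, wF i ^ 2 = A := by
      rw [hA, ← Finset.sum_filter_add_sum_filter_not Finset.univ (fun i => i ∈ F')]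
      have e1 : ∑ i ∈ Finset.univ.filter (fun i => i ∉ F'), wF i ^ 2 = 0 := by
        refine Finset.sum_eq_zero fun i hi => ?_
        rw [Finset.mem_filter] at hi
        simp only [hwF, if_neg hi.2]
        ring
      have e2 : Finset.univ.filter (fun i => i ∈ F') = F' := by ext i; simp
      rw [e1, add_zero, e2]
      exact Finset.sum_congr rfl fun i hi => congrArg (fun t => t ^ 2) (if_pos hi)
    have hA2 : A = ∑ l, b l * ∑ i, sb (G l i) * wF i := by
      have e1 : A = ∑ i, W i * wF i := by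
        rw [← hA1]
        refine Finset.sum_congr rfl fun i _ => ?_
        by_cases hi : i ∈ F'
        · simp only [hwF, if_pos hi]; ring
        · simp only [hwF, if_neg hi]; ring
      rw [e1]
      calc ∑ i, W i * wF i = ∑ i, ∑ l, sb (G l i) * b l * wF i := by
            refine Finset.sum_congr rfl fun i _ => ?_
            rw [hWb, Finset.sum_mul]
        _ = ∑ l, ∑ i, sb (G l i) * b l * wF i := Finset.sum_comm
        _ = _ := by
            refine Finset.sum_congr rfl fun l _ => ?_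
            rw [Finset.mul_sum]
            exact Finset.sum_congr rfl fun i _ => by ring
    have hB0 : 0 ≤ ∑ l, b l ^ 2 := Finset.sum_nonneg fun l _ => sq_nonneg _
    have hCS : A ^ 2 ≤ (∑ l, b l ^ 2) * GV G wF := by
      rw [hA2]
      exact Finset.sum_mul_sq_le_sq_mul_sq _ _ _
    have hUw := hU wF F' (fun i hi => if_neg hi)
    rw [hA1] at hUw
    have hcF' : (F'.card : ℝ) / N ≤ 1 := by
      rw [div_le_one hN0]
      have : F'.card ≤ N := by
        have := Finset.card_le_univ F'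
        rwa [Fintype.card_fin] at this
      exact_mod_cast this
    have hell : 0 ≤ ell ((F'.card : ℝ) / N) := ell_nonneg _ (div_nonneg (Nat.cast_nonneg _) hN0.le) hcF'
    have hTb := hT b
    have hGT : GT G b = ∑ i, W i ^ 2 := by
      unfold GT
      exact Finset.sum_congr rfl fun i _ => by rw [hWb]
    rw [hGT] at hTb
    rw [hpart, hfull, hcF]
    have hWs0 : 0 ≤ ∑ i, W i ^ 2 := Finset.sum_nonneg fun i _ => sq_nonneg _
    have hfac : 0 ≤ (d : ℝ) / N + ell ((F'.card : ℝ) / N) :=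
      add_nonneg (div_nonneg hd0.le hN0.le) hell
    have hfac2 : 0 ≤ 64 * ((d : ℝ) + N * ell ((F'.card : ℝ) / N)) :=
      mul_nonneg (by norm_num) (add_nonneg hd0.le (mul_nonneg hN0.le hell))
    -- `A ≤ 64 (d + N ell) |b|²`
    have hA3 : A ≤ 64 * (d + N * ell ((F'.card : ℝ) / N)) * ∑ l, b l ^ 2 := by
      rcases hA0.eq_or_lt with h0 | hpos
      · rw [← h0]
        exact mul_nonneg hfac2 hB0
      · have h1 : A * A ≤ (64 * (d + N * ell ((F'.card : ℝ) / N)) * ∑ l, b l ^ 2) * A := by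
          calc A * A = A ^ 2 := by ring
            _ ≤ (∑ l, b l ^ 2) * GV G wF := hCS
            _ ≤ (∑ l, b l ^ 2) * (64 * (d + N * ell ((F'.card : ℝ) / N)) * A) :=
                mul_le_mul_of_nonneg_left hUw hB0
            _ = _ := by ring
        exact le_of_mul_le_mul_right h1 hpos
    have hb2 : ∑ l, b l ^ 2 ≤ 16 / N * ∑ i, W i ^ 2 := by
      rw [div_mul_eq_mul_div, le_div_iff₀ hN0]
      nlinarith [hTb]
    calc A ≤ 64 * (d + N * ell ((F'.card : ℝ) / N)) * ∑ l, b l ^ 2 := hA3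
      _ ≤ 64 * (d + N * ell ((F'.card : ℝ) / N)) * (16 / N * ∑ i, W i ^ 2) :=
          mul_le_mul_of_nonneg_left hb2 hfac2
      _ = 1024 * ((d : ℝ) / N + ell ((F'.card : ℝ) / N)) * ∑ i, W i ^ 2 := by
          field_simp
          ring
      _ ≤ 2400000 * ((d : ℝ) / N + ell ((F'.card : ℝ) / N)) * ∑ i, W i ^ 2 := by
          refine mul_le_mul_of_nonneg_right ?_ hWs0
          exact mul_le_mul_of_nonneg_right (by norm_num) hfac
  · intro x hx
    rw [hcard]
    have hx1 : ∀ i : Fin N, ∑ j, q i j * x (a + j) = 0 := by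
      intro i
      rw [← hap]
      refine hx _ ?_
      rw [Finset.mem_Ico]
      exact ⟨by omega, by have := i.2; omega⟩
    have hx2 := hker (fun j => x (a + j)) hx1
    unfold nsq
    rw [sum_Ico_fin, sum_Ico_fin a N (fun i => |x i|)]
    set S : ℝ := ∑ i : Fin N, |x (a + i)| with hS
    have hS0 : 0 ≤ S := Finset.sum_nonneg fun i _ => abs_nonneg _
    set Lg : ℝ := Real.log ((N : ℝ) / d) with hLg
    have hLg0 : 0 ≤ Lg := by
      refine Real.log_nonneg ?_
      rw [le_div_iff₀ hd0, one_mul]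
      have : d ≤ N := by omega
      exact_mod_cast this
    rcases Nat.eq_zero_or_pos s with h0 | hpos
    · have h1 := hs0 h0
      have h2 : ∑ i : Fin N, x (a + i) ^ 2 ≤ S ^ 2 := by
        have h3 : ∑ i : Fin N, |x (a + i)| ^ 2 ≤ S ^ 2 :=
          Finset.sum_sq_le_sq_sum_of_nonneg (fun i _ => abs_nonneg _)
        simpa only [sq_abs] using h3
      have h4 : (1 : ℝ) ≤ 2400000 * (1 + Lg) / d := by
        rw [le_div_iff₀ hd0]
        nlinarith
      calc ∑ i : Fin N, x (a + i) ^ 2 ≤ 1 * S ^ 2 := by rw [one_mul]; exact h2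
        _ ≤ 2400000 * (1 + Lg) / d * S ^ 2 := mul_le_mul_of_nonneg_right h4 (sq_nonneg _)
    · have h1 := hs1 hpos
      have hs' : (0 : ℝ) < s := by exact_mod_cast hpos
      have h2 := kash_G d N s (by omega) hpos hsN hs2 G hU hL (fun i => x (a + i)) hx2
      have h4 : (1200 : ℝ) / s ≤ 2400000 * (1 + Lg) / d := by
        rw [div_le_div_iff₀ hs' hd0]
        nlinarith
      exact h2.trans (mul_le_mul_of_nonneg_right h4 (sq_nonneg _))

end Pool.Agent.Helper52.CS
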