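import Pool.Agent.Helper52.CS.Khin
import Pool.Agent.Helper52.CS.Basic

/-! CS-3. Square functions.
PROOF. `y i := sqrt (nsq K (x · i)) ≤ 2 avg |∑_l ε_l x_l(i)|` (khin, at each `i`). So `N (rs J y) ≤ C N (rs J (2 avg ...))
≤ 2 C avg N (rs J |∑ ε_l x_l|) ≤ 2 C² avg N (rs J (∑ ε_l x_l))` (triangle inequality for the average; uncond). For convex2: Cauchy-Schwarz
`avg N ≤ sqrt (avg N²)` and type 2 for the vectors `rs J (x l)`. -/

set_option autoImplicit false

namespace Pool.Agent.Helper52.CS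

open Finset

variable {N : F0 → ℝ} {C : ℝ}

private theorem rs_sum_fun {ι : Type} (P : Finset ι) (J : Finset ℕ) (f : ι → ℕ → ℝ) :
    rs J (fun i => ∑ t ∈ P, f t i) = ∑ t ∈ P, rs J (f t) := by
  ext i
  rw [Finsupp.finsetSum_apply, rs_apply]
  by_cases hi : i ∈ J
  · simp [rs_apply, hi]
  · simp [rs_apply, hi]

private theorem rs_smul_fun (J : Finset ℕ) (c : ℝ) (f : ℕ → ℝ) :
    rs J (fun i => c * f i) = c • rs J f := by
  ext i
  rw [Finsupp.smul_apply, rs_apply, rs_apply]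
  by_cases hi : i ∈ J <;> simp [hi]

theorem LNorm.square_le_avg (h : LNorm N C) (J K : Finset ℕ) (x : ℕ → ℕ → ℝ) :
    N (rs J (fun i => Real.sqrt (nsq K (fun l => x l i)))) ≤
      2 * C ^ 2 * avgOn K (fun ε => N (rs J (fun i => ∑ l ∈ K, ε l * x l i))) := by
  have hC0 : 0 ≤ C := le_trans zero_le_one h.one_le
  have h2 : (0 : ℝ) < 2 ^ K.card := by positivity
  set c : ℝ := 2 / 2 ^ K.card with hc
  have hc0 : 0 ≤ c := by positivity
  set g : Finset ℕ → ℕ → ℝ := fun T i => ∑ l ∈ K, sgn T l * x l i with hg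
  have step1 : N (rs J (fun i => Real.sqrt (nsq K (fun l => x l i)))) ≤
      C * N (rs J (fun i => ∑ T ∈ K.powerset, c * |g T i|)) := by
    apply h.uncond
    intro i _
    have hk := khin K (fun l => x l i)
    have e : 2 * avgOn K (fun ε => |∑ l ∈ K, ε l * x l i|) = ∑ T ∈ K.powerset, c * |g T i| := by
      rw [avgOn, ← Finset.mul_sum, hc]
      ring
    rw [e] at hk
    rw [abs_of_nonneg (Real.sqrt_nonneg _)]
    exact hk.trans (le_abs_self _)
  have step2 : N (rs J (fun i => ∑ T ∈ K.powerset, c * |g T i|)) ≤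
      ∑ T ∈ K.powerset, c * (C * N (rs J (g T))) := by
    rw [rs_sum_fun]
    refine (h.sum_le _ _).trans (Finset.sum_le_sum fun T _ => ?_)
    rw [rs_smul_fun, h.smul, abs_of_nonneg hc0]
    apply mul_le_mul_of_nonneg_left _ hc0
    apply h.uncond
    intro i _
    rw [abs_abs]
  calc N (rs J (fun i => Real.sqrt (nsq K (fun l => x l i))))
      ≤ C * N (rs J (fun i => ∑ T ∈ K.powerset, c * |g T i|)) := step1
    _ ≤ C * ∑ T ∈ K.powerset, c * (C * N (rs J (g T))) := mul_le_mul_of_nonneg_left step2 hC0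
    _ = 2 * C ^ 2 * avgOn K (fun ε => N (rs J (fun i => ∑ l ∈ K, ε l * x l i))) := by
        rw [avgOn, ← Finset.mul_sum, ← Finset.mul_sum, hc]
        ring

private theorem avgOn_le_sqrt (K : Finset ℕ) (F : (ℕ → ℝ) → ℝ) :
    avgOn K F ≤ Real.sqrt (avgOn K (fun ε => F ε ^ 2)) := by
  apply Real.le_sqrt_of_sq_le
  have h2 : (0 : ℝ) < 2 ^ K.card := by positivity
  have hcs := sq_sum_le_card_mul_sum_sq (s := K.powerset) (f := fun T => F (sgn T))
  rw [Finset.card_powerset] at hcs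
  push_cast at hcs
  rw [avgOn, avgOn, div_pow, div_le_div_iff₀ (by positivity) h2]
  calc (∑ T ∈ K.powerset, F (sgn T)) ^ 2 * 2 ^ K.card
      ≤ (2 ^ K.card * ∑ T ∈ K.powerset, F (sgn T) ^ 2) * 2 ^ K.card :=
        mul_le_mul_of_nonneg_right hcs h2.le
    _ = (∑ T ∈ K.powerset, F (sgn T) ^ 2) * (2 ^ K.card) ^ 2 := by ring

theorem LNorm.convex2 (h : LNorm N C) (J K : Finset ℕ) (x : ℕ → ℕ → ℝ) :
    N (rs J (fun i => Real.sqrt (nsq K (fun l => x l i)))) ≤
      2 * C ^ 3 * Real.sqrt (∑ l ∈ K, N (rs J (x l)) ^ 2) := by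
  have hC0 : 0 ≤ C := le_trans zero_le_one h.one_le
  have h1 := h.square_le_avg J K x
  have h2 := avgOn_le_sqrt K (fun ε => N (rs J (fun i => ∑ l ∈ K, ε l * x l i)))
  have h3 : avgOn K (fun ε => N (rs J (fun i => ∑ l ∈ K, ε l * x l i)) ^ 2) ≤
      C ^ 2 * ∑ l ∈ K, N (rs J (x l)) ^ 2 := by
    have ht := h.type2 K (fun l => rs J (x l))
    have e : (fun ε : ℕ → ℝ => N (rs J (fun i => ∑ l ∈ K, ε l * x l i)) ^ 2) =
        (fun ε : ℕ → ℝ => N (∑ l ∈ K, ε l • rs J (x l)) ^ 2) := by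
      funext ε
      congr 2
      rw [rs_sum_fun K J (fun l i => ε l * x l i)]
      exact Finset.sum_congr rfl fun l _ => rs_smul_fun J (ε l) (x l)
    rw [e]
    exact ht
  have h4 : Real.sqrt (avgOn K (fun ε => N (rs J (fun i => ∑ l ∈ K, ε l * x l i)) ^ 2)) ≤
      C * Real.sqrt (∑ l ∈ K, N (rs J (x l)) ^ 2) := by
    refine (Real.sqrt_le_sqrt h3).trans ?_
    rw [Real.sqrt_mul (by positivity), Real.sqrt_sq hC0]
  calc N (rs J (fun i => Real.sqrt (nsq K (fun l => x l i))))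
      ≤ 2 * C ^ 2 * avgOn K (fun ε => N (rs J (fun i => ∑ l ∈ K, ε l * x l i))) := h1
    _ ≤ 2 * C ^ 2 * (C * Real.sqrt (∑ l ∈ K, N (rs J (x l)) ^ 2)) :=
        mul_le_mul_of_nonneg_left (h2.trans h4) (by positivity)
    _ = 2 * C ^ 3 * Real.sqrt (∑ l ∈ K, N (rs J (x l)) ^ 2) := by ring

end Pool.Agent.Helper52.CS
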