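import Pool.Agent.Helper52.CS.Basic

/-! CS-23. Coordinate functionals.
PROOF. By coord, `|a i| ≤ C³ ‖linearCombination e a‖` for all `a` (`a = rs a.support a`; if `i` is not in the support trivial). So the linear functional `v a ↦ a i` on the range `p` of
`linearCombination ℝ e` is well defined (the map is injective by the same bound) and bounded by `C³`; extend by Hahn-Banach (`exists_extension_norm_eq`). -/

set_option autoImplicit false

namespace Pool.Agent.Helper52.CS

open Finset

variable {X : Type*} [NormedAddCommGroup X] [NormedSpace ℝ X]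

theorem coordf_abs_le (e : ℕ → X) (C : ℝ) (h : LNorm (nrm e) C) (a : F0) (i : ℕ) :
    |a i| ≤ C ^ 3 * ‖Finsupp.linearCombination ℝ e a‖ := by
  have hC : 0 ≤ C := zero_le_one.trans h.one_le
  by_cases hi : i ∈ a.support
  · have h1 := h.coord a.support a i hi
    have h2 : rs a.support a = a := by
      ext j
      rw [rs_apply]
      by_cases hj : j ∈ a.support
      · rw [if_pos hj]
      · rw [if_neg hj, Finsupp.notMem_support_iff.1 hj]
    rw [h2] at h1
    exact h1
  · rw [Finsupp.notMem_support_iff.1 hi, abs_zero]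
    positivity

theorem coord_functional (e : ℕ → X) (C : ℝ) (h : LNorm (nrm e) C) :
    ∃ ξ : ℕ → (X →L[ℝ] ℝ), ∀ i, ‖ξ i‖ ≤ C ^ 3 ∧
      ∀ a : F0, ξ i (Finsupp.linearCombination ℝ e a) = a i := by
  have hC : 0 ≤ C := zero_le_one.trans h.one_le
  have hinj : Function.Injective (Finsupp.linearCombination ℝ e) := by
    rw [injective_iff_map_eq_zero]
    intro a ha
    ext i
    have h1 := coordf_abs_le e C h a i
    rw [ha, norm_zero, mul_zero] at h1
    exact abs_eq_zero.1 (le_antisymm h1 (abs_nonneg _))
  let E := LinearEquiv.ofInjective (Finsupp.linearCombination ℝ e) hinj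
  have hE : ∀ y, Finsupp.linearCombination ℝ e (E.symm y) = y := by
    intro y
    have h1 := E.apply_symm_apply y
    exact congrArg Subtype.val h1
  have hex : ∀ i : ℕ, ∃ ξ : X →L[ℝ] ℝ, ‖ξ‖ ≤ C ^ 3 ∧
      ∀ a : F0, ξ (Finsupp.linearCombination ℝ e a) = a i := by
    intro i
    let f : LinearMap.range (Finsupp.linearCombination ℝ e) →ₗ[ℝ] ℝ :=
      (Finsupp.lapply i).comp E.symm.toLinearMap
    have hf : ∀ y, ‖f y‖ ≤ C ^ 3 * ‖y‖ := by
      intro y
      have h1 := coordf_abs_le e C h (E.symm y) i
      rw [hE] at h1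
      exact h1
    obtain ⟨g, hg1, hg2⟩ := exists_extension_norm_eq
      (LinearMap.range (Finsupp.linearCombination ℝ e)) (f.mkContinuous (C ^ 3) hf)
    refine ⟨g, ?_, fun a => ?_⟩
    · rw [hg2]
      exact LinearMap.mkContinuous_norm_le _ (by positivity) _
    · have h2 := hg1 ⟨Finsupp.linearCombination ℝ e a, LinearMap.mem_range_self _ a⟩
      have h3 : (⟨Finsupp.linearCombination ℝ e a, LinearMap.mem_range_self _ a⟩ :
          LinearMap.range (Finsupp.linearCombination ℝ e)) = E a := rfl
      rw [LinearMap.mkContinuous_apply] at h2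
      have h4 : f (E a) = a i := by
        change (E.symm (E a)) i = a i
        rw [LinearEquiv.symm_apply_apply]
      rw [h3, h4] at h2
      exact h2
  choose ξ hξ using hex
  exact ⟨ξ, hξ⟩

end Pool.Agent.Helper52.CS
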