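import Mathlib

/-! Subsymmetric sequences of type 2 (towards MP_c423d7_an): definitions. -/

set_option autoImplicit false

namespace Pool.Agent.Helper52.CS

open Finset

/-- Finitely supported real sequences. -/
abbrev F0 : Type := ℕ →₀ ℝ

/-- The sign function of a set: `1` on `T`, `-1` off `T`. -/
def sgn (T : Finset ℕ) (i : ℕ) : ℝ := if i ∈ T then 1 else -1

/-- Average over all choices of signs on the finite index set `I`. -/
noncomputable def avgOn (I : Finset ℕ) (F : (ℕ → ℝ) → ℝ) : ℝ :=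
  (∑ T ∈ I.powerset, F (sgn T)) / 2 ^ I.card

/-- The finitely supported sequence with value `x i` at `i ∈ J`. -/
noncomputable def rs (J : Finset ℕ) (x : ℕ → ℝ) : F0 := ∑ i ∈ J, Finsupp.single i (x i)

/-- `N` is (the norm of the span of) a `C`-subsymmetric sequence of type 2: `C`-unconditional,
`C`-equivalent to all its subsequences, almost normalised, type 2 with constant `C`. -/
structure LNorm (N : F0 → ℝ) (C : ℝ) : Prop where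
  one_le : 1 ≤ C
  add : ∀ a b : F0, N (a + b) ≤ N a + N b
  smul : ∀ (t : ℝ) (a : F0), N (t • a) = |t| * N a
  uncond : ∀ (J : Finset ℕ) (x y : ℕ → ℝ), (∀ i ∈ J, |x i| ≤ |y i|) →
    N (rs J x) ≤ C * N (rs J y)
  spread : ∀ (k : ℕ) (p : Fin k → ℕ), StrictMono p → ∀ c : Fin k → ℝ,
    N (∑ l, Finsupp.single (p l) (c l)) ≤ C * N (∑ l : Fin k, Finsupp.single (l : ℕ) (c l)) ∧
    N (∑ l : Fin k, Finsupp.single (l : ℕ) (c l)) ≤ C * N (∑ l, Finsupp.single (p l) (c l))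
  single_le : N (Finsupp.single 0 1) ≤ C
  le_single : 1 ≤ C * N (Finsupp.single 0 1)
  type2 : ∀ (I : Finset ℕ) (x : ℕ → F0),
    avgOn I (fun ε => N (∑ l ∈ I, ε l • x l) ^ 2) ≤ C ^ 2 * ∑ l ∈ I, N (x l) ^ 2

/-- Lower estimates: `L0 ^ r` disjoint vectors of norm at least one have a sum of norm at least
`2 ^ r / C`. -/
def Low (N : F0 → ℝ) (C : ℝ) (L0 : ℕ) : Prop :=
  4 ≤ L0 ∧ ∀ (r : ℕ) (K : Finset ℕ) (J : ℕ → Finset ℕ) (x : ℕ → ℝ), L0 ^ r ≤ K.card →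
    (∀ l ∈ K, ∀ l' ∈ K, l ≠ l' → Disjoint (J l) (J l')) → (∀ l ∈ K, 1 ≤ N (rs (J l) x)) →
    2 ^ r ≤ C * N (rs (K.biUnion J) x)

/-- The `m`-th block. -/
def bl (s : ℕ → ℕ) (m : ℕ) : Finset ℕ := Finset.Ico (s m) (s (m + 1))

/-- Union of the blocks with index in `M`. -/
def bu (s : ℕ → ℕ) (M : Finset ℕ) : Finset ℕ := M.biUnion (bl s)

/-- `t (1 + log (1 / t))`. -/
noncomputable def ell (t : ℝ) : ℝ := t + Real.negMulLog t

/-- Sum of squares over `I`. -/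
def nsq (I : Finset ℕ) (x : ℕ → ℝ) : ℝ := ∑ i ∈ I, x i ^ 2

/-- Apply the kernel `q` on the finite set `I`. -/
def ap (I : Finset ℕ) (q : ℕ → ℕ → ℝ) (x : ℕ → ℝ) (i : ℕ) : ℝ := ∑ j ∈ I, q i j * x j

/-- `q` is the kernel of an orthogonal projection of `ℝ^I` of rank at most `d`, whose range consists
of flat vectors and whose kernel has large `ℓ_1` norms. -/
structure Good (I : Finset ℕ) (d : ℕ) (C0 : ℝ) (q : ℕ → ℕ → ℝ) : Prop where
  symm : ∀ i ∈ I, ∀ j ∈ I, q i j = q j i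
  idem : ∀ i ∈ I, ∀ k ∈ I, ∑ j ∈ I, q i j * q j k = q i k
  trace : ∑ i ∈ I, q i i ≤ d
  flat : ∀ (x : ℕ → ℝ) (F : Finset ℕ), F ⊆ I →
    nsq F (ap I q x) ≤ C0 * ((d : ℝ) / I.card + ell ((F.card : ℝ) / I.card)) * nsq I (ap I q x)
  kash : ∀ x : ℕ → ℝ, (∀ i ∈ I, ap I q x i = 0) →
    nsq I x ≤ C0 * (1 + Real.log ((I.card : ℝ) / d)) / d * (∑ i ∈ I, |x i|) ^ 2

/-- The linear map `x ↦ P (x + 1_S Q x)`, `P = 1 - Q`, on the block `I`. -/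
noncomputable def rop (I : Finset ℕ) (q : ℕ → ℕ → ℝ) (S : Finset ℕ) (x : ℕ → ℝ) (i : ℕ) : ℝ :=
  x i - (if i ∈ S then 0 else ap I q x i) - ap I q (fun l => if l ∈ S then ap I q x l else 0) i

/-- Parameters of the construction. -/
structure Par (N : F0 → ℝ) (C0 Λ : ℝ) (s g d : ℕ → ℕ) (q : ℕ → ℕ → ℕ → ℝ) : Prop where
  mono : StrictMono s
  g_lo : ∀ m, 16 ^ (m + 1) ≤ g m
  g_s : ∀ m, s m ≤ g m
  f_lo : ∀ m, (g m : ℝ) ^ 32 * N (rs (bl s m) (fun _ => 1)) ^ 2 ≤ (bl s m).card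
  f_hi : ∀ m, ((bl s m).card : ℝ) ≤ Λ * (g m : ℝ) ^ 32 * N (rs (bl s m) (fun _ => 1)) ^ 2
  d_lo : ∀ m, (bl s m).card ≤ d m * g m ^ 28
  d_hi : ∀ m, d m * g m ^ 28 ≤ 2 * (bl s m).card
  d_big : ∀ m, 100 ≤ d m
  d_small : ∀ m, 100 * d m ≤ (bl s m).card
  good : ∀ m, Good (bl s m) (d m) C0 (q m)

/-- Existence of good kernels on all intervals (proved in `BlockEx`). -/
def BlockExists (C0 : ℝ) : Prop :=
  ∀ a k d : ℕ, 100 ≤ d → 100 * d ≤ k → ∃ q : ℕ → ℕ → ℝ, Good (Finset.Ico a (a + k)) d C0 q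

/-- `z` has coefficients of a functional of norm at most one. -/
def Dual (N : F0 → ℝ) (z : ℕ → ℝ) : Prop :=
  ∀ (J : Finset ℕ) (x : ℕ → ℝ), |∑ i ∈ J, z i * x i| ≤ N (rs J x)

/-- The algebraic sum of the subspaces `E_m = ker (q m)`, `m ∈ A`. -/
def Yalg (s : ℕ → ℕ) (q : ℕ → ℕ → ℕ → ℝ) (A : Set ℕ) : Set F0 :=
  {a | (∀ i, a i ≠ 0 → ∃ m ∈ A, i ∈ bl s m) ∧ ∀ m, ∀ i ∈ bl s m, ap (bl s m) (q m) a i = 0}

/-- The identity of `E_n` factors, up to arbitrarily small errors, through the closed sum of the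
`E_m`, `m ∈ B`, with constant `K`. -/
def Fac (N : F0 → ℝ) (s : ℕ → ℕ) (q : ℕ → ℕ → ℕ → ℝ) (n : ℕ) (B : Set ℕ) (K : ℝ) : Prop :=
  ∃ z : ℕ → ℕ → ℝ,
    (∀ j ∈ bl s n, ∀ (J : Finset ℕ) (x : ℕ → ℝ), |∑ i ∈ J, z j i * x i| ≤ K * N (rs J x)) ∧
    (∀ y ∈ Yalg s q B, ∀ i ∈ bl s n,
      ap (bl s n) (q n) (fun j => ∑ l ∈ y.support, z j l * y l) i = 0) ∧
    ∀ η : ℝ, 0 < η → ∃ b : ℕ → F0, (∀ i ∈ bl s n, b i ∈ Yalg s q B) ∧
      (∀ i ∈ bl s n, ∀ j ∈ bl s n,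
        |∑ l ∈ (b i).support, z j l * b i l - ((if i = j then 1 else 0) - q n j i)| ≤ η) ∧
      ∀ a : ℕ → ℝ, N (∑ i ∈ bl s n, a i • b i) ≤
        K * N (rs (bl s n) (fun i => a i - ap (bl s n) (q n) a i)) + η * ∑ i ∈ bl s n, |a i|

/-! ### Random sign matrices -/

/-- Sign of a bit. -/
def sb (b : Bool) : ℝ := if b then 1 else -1

/-- `|G v|^2` for a sign matrix `G`. -/
def GV {κ ι : Type} [Fintype κ] [Fintype ι] (G : κ → ι → Bool) (v : ι → ℝ) : ℝ :=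
  ∑ l, (∑ i, sb (G l i) * v i) ^ 2

/-- `|G^T b|^2` for a sign matrix `G`. -/
def GT {κ ι : Type} [Fintype κ] [Fintype ι] (G : κ → ι → Bool) (b : κ → ℝ) : ℝ :=
  ∑ i, (∑ l, sb (G l i) * b l) ^ 2

/-- Upper bounds for sparse vectors. -/
def UpG (d N : ℕ) (G : Fin d → Fin N → Bool) : Prop :=
  ∀ (v : Fin N → ℝ) (F : Finset (Fin N)), (∀ i, i ∉ F → v i = 0) →
    GV G v ≤ 64 * (d + N * ell ((F.card : ℝ) / N)) * ∑ i, v i ^ 2

/-- Lower bounds for vectors with at most `s` nonzero coordinates. -/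
def LoG (d N s : ℕ) (G : Fin d → Fin N → Bool) : Prop :=
  ∀ (v : Fin N → ℝ) (F : Finset (Fin N)), F.card ≤ s → (∀ i, i ∉ F → v i = 0) →
    (d : ℝ) / 16 * ∑ i, v i ^ 2 ≤ GV G v

/-- Lower bound for the transpose. -/
def TrG (d N : ℕ) (G : Fin d → Fin N → Bool) : Prop :=
  ∀ b : Fin d → ℝ, (N : ℝ) / 16 * ∑ l, b l ^ 2 ≤ GT G b

/-! ### The Banach space side -/

/-- A sequence in a Banach space is subsymmetric with constant `C`: it is unconditional and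
equivalent to all its subsequences, uniformly, and it is not zero. -/
structure Subsym {X : Type*} [NormedAddCommGroup X] [NormedSpace ℝ X] (e : ℕ → X) (C : ℝ) : Prop where
  ne_zero : e 0 ≠ 0
  uncond : ∀ (J : Finset ℕ) (x θ : ℕ → ℝ), (∀ i, θ i = 1 ∨ θ i = -1) →
    ‖∑ i ∈ J, (θ i * x i) • e i‖ ≤ C * ‖∑ i ∈ J, x i • e i‖
  spread : ∀ (k : ℕ) (p : Fin k → ℕ), StrictMono p → ∀ c : Fin k → ℝ,
    ‖∑ l, c l • e (p l)‖ ≤ C * ‖∑ l : Fin k, c l • e l‖ ∧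
    ‖∑ l : Fin k, c l • e l‖ ≤ C * ‖∑ l, c l • e (p l)‖

/-- Type 2 with constant `T` of a subspace `V`: the average over all signs of `‖∑ ± x_l‖ ^ 2` is at
most `T ^ 2 ∑ ‖x_l‖ ^ 2`. -/
def Type2 {X : Type*} [NormedAddCommGroup X] [NormedSpace ℝ X] (V : Submodule ℝ X) (T : ℝ) : Prop :=
  ∀ (I : Finset ℕ) (x : ℕ → X), (∀ l, x l ∈ V) →
    (∑ S ∈ I.powerset, ‖∑ l ∈ I, (if l ∈ S then (1 : ℝ) else -1) • x l‖ ^ 2) / 2 ^ I.card ≤
      T ^ 2 * ∑ l ∈ I, ‖x l‖ ^ 2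

/-- The norm on finitely supported sequences defined by a sequence of vectors. -/
noncomputable def nrm {X : Type*} [NormedAddCommGroup X] [NormedSpace ℝ X] (e : ℕ → X) (a : F0) : ℝ :=
  ‖Finsupp.linearCombination ℝ e a‖

/-- The closed subspace `Y_A`. -/
noncomputable def Ysub {X : Type*} [NormedAddCommGroup X] [NormedSpace ℝ X] (e : ℕ → X) (s : ℕ → ℕ)
    (q : ℕ → ℕ → ℕ → ℝ) (A : Set ℕ) : Submodule ℝ X :=
  (Submodule.span ℝ ((Finsupp.linearCombination ℝ e) '' Yalg s q A)).topologicalClosure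

end Pool.Agent.Helper52.CS
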