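import Pool.Agent.Helper52.CS.Flats

/-! CS-9. Domination of vectors with small level sets by block constant vectors.
PROOF. On `bu s M`: `|r i| ≤ 2^{a0} β i + ∑_{a0 ≤ a < A} 2^{a+1} β i 1[2^a β i < |r i|]` for `A` large (all the sets in the hypothesis are empty once
`L0^(2a+1) > card`; if `β i = 0` then `r i = 0` for the same reason). So (uncond, triangle inequality, homogeneity)
`N (rs r) ≤ C (2^{a0} N (rs β) + ∑_a 2^{a+1} N (rs (⋃_m F_a m) β))`, `F_a m = {i ∈ bl s m : 2^a β i < |r i|}`, and by flats with `r := 2a+1`: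
`N (rs (⋃ F_a m) β) ≤ C⁴ 2^{-(2a+1)} N (rs (bu s M) β)`; the sum over `a` of `2^{a+1} 2^{-(2a+1)} = 2^{-a}` is at most 2. `K = C (2^{a0} + 2 C⁴)`. -/

set_option autoImplicit false

namespace Pool.Agent.Helper52.CS

open Finset

variable {N : F0 → ℝ} {C : ℝ} {L0 : ℕ}

private theorem dom_point (b ρ : ℝ) (hb : 0 ≤ b) (a0 : ℕ) (A : ℕ) (hA : a0 ≤ A)
    (h : ρ ≤ 2 ^ A * b) :
    ρ ≤ 2 ^ a0 * b + ∑ a ∈ Ico a0 A, 2 ^ (a + 1) * (if 2 ^ a * b < ρ then b else 0) := by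
  induction A, hA using Nat.le_induction with
  | base => simpa using h
  | succ A hA ih =>
    rw [Finset.sum_Ico_succ_top hA]
    have hnn : 0 ≤ ∑ a ∈ Ico a0 A, (2 : ℝ) ^ (a + 1) * (if 2 ^ a * b < ρ then b else 0) :=
      sum_nonneg (fun a _ => mul_nonneg (by positivity) (by split_ifs <;> simp [hb]))
    by_cases hc : 2 ^ A * b < ρ
    · rw [if_pos hc]
      have h2 : 0 ≤ (2 : ℝ) ^ a0 * b := mul_nonneg (by positivity) hb
      linarith
    · rw [if_neg hc]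
      have h3 := ih (not_lt.1 hc)
      linarith

theorem LNorm.dom (h : LNorm N C) (hL : Low N C L0) (a0 : ℕ) : ∃ K : ℝ, 0 ≤ K ∧
    ∀ (s : ℕ → ℕ), StrictMono s → ∀ (M : Finset ℕ) (r β : ℕ → ℝ),
      (∀ m ∈ M, ∀ i ∈ bl s m, 0 ≤ β i ∧ ∀ j ∈ bl s m, β i = β j) →
      (∀ m ∈ M, ∀ a, a0 ≤ a → ((bl s m).filter (fun i => 2 ^ a * β i < |r i|)).card *
        L0 ^ (2 * a + 1) ≤ (bl s m).card) →
      N (rs (bu s M) r) ≤ K * N (rs (bu s M) β) := by
  have hC1 := h.one_le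
  have hC0 : 0 ≤ C := by linarith
  refine ⟨C * (2 ^ a0 + 2 * C ^ 4), by positivity, ?_⟩
  intro s hs M r β hβ hcard
  have hL4 : 4 ≤ L0 := hL.1
  -- choice of A
  obtain ⟨A, hA0, hA⟩ : ∃ A, a0 ≤ A ∧ ∀ m ∈ M, (bl s m).card < L0 ^ (2 * A + 1) := by
    refine ⟨a0 + ∑ m ∈ M, (bl s m).card, Nat.le_add_right _ _, fun m hm => ?_⟩
    have h1 : (bl s m).card ≤ ∑ m ∈ M, (bl s m).card :=
      Finset.single_le_sum (f := fun m => (bl s m).card) (fun _ _ => Nat.zero_le _) hm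
    have h2 : ∀ k : ℕ, k < L0 ^ k := fun k => Nat.lt_pow_self (by omega)
    calc (bl s m).card ≤ 2 * (a0 + ∑ m ∈ M, (bl s m).card) + 1 := by omega
      _ < L0 ^ (2 * (a0 + ∑ m ∈ M, (bl s m).card) + 1) := h2 _
  have hmem : ∀ i, i ∈ bu s M ↔ ∃ m ∈ M, i ∈ bl s m := fun i => by simp [bu]
  have hβ0 : ∀ i ∈ bu s M, 0 ≤ β i := by
    intro i hi
    obtain ⟨m, hm, him⟩ := (hmem i).1 hi
    exact (hβ m hm i him).1
  have htop : ∀ i ∈ bu s M, |r i| ≤ 2 ^ A * β i := by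
    intro i hi
    obtain ⟨m, hm, him⟩ := (hmem i).1 hi
    by_contra hcon
    push Not at hcon
    have h1 := hcard m hm A hA0
    have h2 : 1 ≤ ((bl s m).filter (fun i => 2 ^ A * β i < |r i|)).card :=
      Finset.card_pos.2 ⟨i, Finset.mem_filter.2 ⟨him, hcon⟩⟩
    have h3 := hA m hm
    have h4 : L0 ^ (2 * A + 1) ≤ ((bl s m).filter (fun i => 2 ^ A * β i < |r i|)).card *
      L0 ^ (2 * A + 1) := Nat.le_mul_of_pos_left _ h2
    omega
  set Fa : ℕ → ℕ → Finset ℕ := fun a m => (bl s m).filter (fun i => 2 ^ a * β i < |r i|) with hFa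
  set R : ℕ → ℝ := fun i => 2 ^ a0 * β i + ∑ a ∈ Ico a0 A, 2 ^ (a + 1) *
    (if 2 ^ a * β i < |r i| then β i else 0) with hR
  have hpt : ∀ i ∈ bu s M, |r i| ≤ |R i| := by
    intro i hi
    have h1 := dom_point (β i) |r i| (hβ0 i hi) a0 A hA0 (htop i hi)
    exact h1.trans (le_abs_self _)
  have h1 : N (rs (bu s M) r) ≤ C * N (rs (bu s M) R) := h.uncond _ _ _ hpt
  have hdec : rs (bu s M) R = (2 : ℝ) ^ a0 • rs (bu s M) β +
      ∑ a ∈ Ico a0 A, (2 : ℝ) ^ (a + 1) • rs (M.biUnion (Fa a)) β := by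
    ext i
    rw [Finsupp.add_apply, Finsupp.smul_apply, Finsupp.finsetSum_apply]
    simp only [Finsupp.smul_apply, rs_apply, smul_eq_mul]
    by_cases hi : i ∈ bu s M
    · rw [if_pos hi, if_pos hi]
      simp only [hR]
      congr 1
      refine sum_congr rfl (fun a _ => ?_)
      congr 1
      obtain ⟨m, hm, him⟩ := (hmem i).1 hi
      by_cases hc : 2 ^ a * β i < |r i|
      · rw [if_pos hc, if_pos]
        exact Finset.mem_biUnion.2 ⟨m, hm, Finset.mem_filter.2 ⟨him, hc⟩⟩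
      · rw [if_neg hc, if_neg]
        intro hcon
        obtain ⟨m', _, hm'⟩ := Finset.mem_biUnion.1 hcon
        exact hc (Finset.mem_filter.1 hm').2
    · rw [if_neg hi, if_neg hi]
      have : ∀ a, i ∉ M.biUnion (Fa a) := by
        intro a hcon
        obtain ⟨m, hm, hm'⟩ := Finset.mem_biUnion.1 hcon
        exact hi ((hmem i).2 ⟨m, hm, (Finset.mem_filter.1 hm').1⟩)
      simp [this]
  have hNβ : 0 ≤ N (rs (bu s M) β) := h.nonneg _
  have h2 : N (rs (bu s M) R) ≤ 2 ^ a0 * N (rs (bu s M) β) +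
      ∑ a ∈ Ico a0 A, 2 ^ (a + 1) * N (rs (M.biUnion (Fa a)) β) := by
    rw [hdec]
    refine (h.add _ _).trans ?_
    rw [h.smul, abs_of_nonneg (by positivity)]
    refine add_le_add (le_refl _) ((h.sum_le _ _).trans (le_of_eq ?_))
    refine sum_congr rfl (fun a _ => ?_)
    rw [h.smul, abs_of_nonneg (by positivity)]
  have h3 : ∀ a ∈ Ico a0 A, 2 ^ (a + 1) * N (rs (M.biUnion (Fa a)) β) ≤
      C ^ 4 * N (rs (bu s M) β) * (1 / 2) ^ a := by
    intro a ha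
    have h4 := h.flats hL s hs M (2 * a + 1) (Fa a) (fun m _ => Finset.filter_subset _ _)
      (fun m hm => hcard m hm a (Finset.mem_Ico.1 ha).1) β (fun m hm i hi j hj => (hβ m hm i hi).2 j hj)
    have h5 : (2 : ℝ) ^ (2 * a + 1) = 2 ^ (a + 1) * 2 ^ a := by
      rw [← pow_add]; congr 1; ring
    rw [h5] at h4
    have h6 : (0 : ℝ) < 2 ^ a := by positivity
    have h7 : 2 ^ (a + 1) * N (rs (M.biUnion (Fa a)) β) = (2 ^ (a + 1) * 2 ^ a *
        N (rs (M.biUnion (Fa a)) β)) * (1 / 2) ^ a := by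
      rw [one_div, inv_pow]
      field_simp
    rw [h7]
    exact mul_le_mul_of_nonneg_right h4 (by positivity)
  have h8 : ∑ a ∈ Ico a0 A, 2 ^ (a + 1) * N (rs (M.biUnion (Fa a)) β) ≤
      2 * C ^ 4 * N (rs (bu s M) β) := by
    refine (sum_le_sum h3).trans ?_
    rw [← mul_sum]
    have h9 : ∑ a ∈ Ico a0 A, ((1 : ℝ) / 2) ^ a ≤ 2 := by
      refine le_trans (sum_le_sum_of_subset_of_nonneg (t := range A) ?_ (fun _ _ _ => by positivity))
        (sum_geometric_two_le A)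
      intro a ha
      exact Finset.mem_range.2 (Finset.mem_Ico.1 ha).2
    have h10 : 0 ≤ C ^ 4 * N (rs (bu s M) β) := by positivity
    nlinarith
  calc N (rs (bu s M) r) ≤ C * N (rs (bu s M) R) := h1
    _ ≤ C * (2 ^ a0 * N (rs (bu s M) β) + 2 * C ^ 4 * N (rs (bu s M) β)) :=
        mul_le_mul_of_nonneg_left (h2.trans (by linarith)) hC0
    _ = C * (2 ^ a0 + 2 * C ^ 4) * N (rs (bu s M) β) := by ring

end Pool.Agent.Helper52.CS
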