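import Pool.Agent.Helper52.CS.TailUp
import Pool.Agent.Helper52.CS.Net
import Pool.Agent.Helper52.CS.NormNet
import Pool.Agent.Helper52.CS.ChooseLe

/-! CS-36. Most sign matrices satisfy the upper bounds for sparse vectors.
PROOF. For a nonempty `F ⊆ Fin N`, `j = F.card`, let `T_F` be a 1/2-net of the sphere of `ℝ^F`, `card ≤ 6^j` (net with `ι = F`, extended by 0 to `Fin N`). Put `u_j = 4 N ell (j/N) + 2`. If `GV G t < 4 (d + u_j)` for all `F` and `t ∈ T_F` then (up_of_net, matrix restricted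
to the columns in `F`, `M² = 4 (d + u_j)`) `GV G v ≤ 16 (d + 4 N ell + 2) |v|² ≤ 64 (d + N ell) |v|²` (`d ≥ 1`) for `v` supported in `F`; `F = ∅` trivial. The number of bad `G` is at most
`∑_{j=1}^N C(N,j) 6^j exp (-u_j) 2^(dN) ≤ ∑_j exp (N ell + 2 N ell - 4 N ell - 2) 2^(dN) ≤ ∑_j exp (-j - 2) 2^(dN) ≤ (1/10) 2^(dN)` (`6 ≤ e²`, tail_up, choose_le, card_le_ell). -/

set_option autoImplicit false

namespace Pool.Agent.Helper52.CS

open Finset

/-- extension by zero -/
noncomputable def evup_ezero {N : ℕ} (F : Finset (Fin N)) (t : F → ℝ) (i : Fin N) : ℝ :=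
  if h : i ∈ F then t ⟨i, h⟩ else 0

theorem evup_sum_ezero {N : ℕ} (F : Finset (Fin N)) (g : Fin N → ℝ) (h : ∀ i, i ∉ F → g i = 0) :
    ∑ i, g i = ∑ i : F, g i := by
  rw [← Finset.sum_subset (Finset.subset_univ F) fun i _ hi => h i hi]
  exact (Finset.sum_coe_sort F g).symm

theorem evup_ezero_sq {N : ℕ} (F : Finset (Fin N)) (t : F → ℝ) :
    ∑ i, evup_ezero F t i ^ 2 = ∑ i, t i ^ 2 := by
  rw [evup_sum_ezero F]
  · refine Finset.sum_congr rfl fun i _ => ?_
    simp [evup_ezero]
  · intro i hi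
    simp [evup_ezero, hi]

theorem evup_GV_ezero {d N : ℕ} (G : Fin d → Fin N → Bool) (F : Finset (Fin N)) (t : F → ℝ) :
    GV G (evup_ezero F t) = ∑ l, (∑ i : F, sb (G l i) * t i) ^ 2 := by
  unfold GV
  refine Finset.sum_congr rfl fun l _ => ?_
  congr 1
  rw [evup_sum_ezero F]
  · refine Finset.sum_congr rfl fun i _ => ?_
    simp [evup_ezero]
  · intro i hi
    simp [evup_ezero, hi]

theorem evup_exp_geo (N : ℕ) : ∑ j ∈ Finset.range (N + 1), (if j = 0 then (0 : ℝ) else
    Real.exp (-((j : ℝ) + 2))) ≤ 1 / 10 := by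
  rw [Finset.sum_range_succ']
  simp only [Nat.add_eq_zero_iff, one_ne_zero, and_false, if_false, if_true, add_zero]
  have h1 : ∀ j : ℕ, Real.exp (-(((j + 1 : ℕ) : ℝ) + 2)) = Real.exp (-3) * Real.exp (-1) ^ j := by
    intro j
    rw [← Real.exp_nat_mul, ← Real.exp_add]
    congr 1
    push_cast
    ring
  simp_rw [h1]
  rw [← Finset.mul_sum]
  have he : (2.7182818283 : ℝ) < Real.exp 1 := Real.exp_one_gt_d9
  have h2 : Real.exp (-1) ≤ 0.3679 := by
    rw [Real.exp_neg]
    have : (0.3679 : ℝ)⁻¹ ≤ Real.exp 1 := by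
      refine le_trans ?_ he.le
      norm_num
    exact inv_le_of_inv_le₀ (by norm_num) this
  have h20 : 0 ≤ Real.exp (-1) := (Real.exp_pos _).le
  have h3 : Real.exp (-3) ≤ 0.05 := by
    have : Real.exp (-3) = Real.exp (-1) ^ 3 := by
      rw [← Real.exp_nat_mul]; congr 1; norm_num
    rw [this]
    calc Real.exp (-1) ^ 3 ≤ 0.3679 ^ 3 := pow_le_pow_left₀ h20 h2 3
      _ ≤ 0.05 := by norm_num
  have h4 : ∑ j ∈ Finset.range N, Real.exp (-1) ^ j ≤ 2 := by
    have h5 : ∑ j ∈ Finset.range N, Real.exp (-1) ^ j ≤ ∑ j ∈ Finset.range N, (1 / 2 : ℝ) ^ j :=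
      Finset.sum_le_sum fun j _ => pow_le_pow_left₀ h20 (h2.trans (by norm_num)) j
    refine h5.trans ?_
    have h6 := geom_sum_eq (show (1 / 2 : ℝ) ≠ 1 by norm_num) N
    rw [h6]
    have h7 : (0 : ℝ) ≤ (1 / 2) ^ N := by positivity
    have : ((1 / 2 : ℝ) ^ N - 1) / (1 / 2 - 1) = 2 - 2 * (1 / 2) ^ N := by ring
    rw [this]
    linarith
  have h8 : 0 ≤ ∑ j ∈ Finset.range N, Real.exp (-1) ^ j :=
    Finset.sum_nonneg fun j _ => pow_nonneg h20 j
  nlinarith [Real.exp_pos (-3)]

theorem ev_up (d N : ℕ) (hd : 1 ≤ d) (hN : 1 ≤ N) :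
    (({G : Fin d → Fin N → Bool | ¬ UpG d N G} : Set (Fin d → Fin N → Bool)).ncard : ℝ) ≤
      1 / 10 * 2 ^ (d * N) := by
  classical
  have hN0 : (0 : ℝ) < N := by exact_mod_cast hN
  have hd1 : (1 : ℝ) ≤ d := by exact_mod_cast hd
  -- nets
  have hnet : ∀ F : Finset (Fin N), ∃ T : Finset (F → ℝ), (T.card : ℝ) ≤ 6 ^ F.card ∧
      (∀ t ∈ T, ∑ i, t i ^ 2 = 1) ∧
      ∀ v : F → ℝ, ∑ i, v i ^ 2 = 1 → ∃ t ∈ T, ∑ i, (v i - t i) ^ 2 ≤ (1 / 2) ^ 2 := by
    intro F
    obtain ⟨T, h1, h2, h3⟩ := net F (1 / 2) (by norm_num) (by norm_num)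
    refine ⟨T, h1.trans ?_, h2, h3⟩
    rw [Fintype.card_coe]
    norm_num
  choose T hT1 hT2 hT3 using hnet
  set u : ℕ → ℝ := fun j => 4 * (N * ell ((j : ℝ) / N)) + 2 with hu
  have hell : ∀ j : ℕ, j ≤ N → 0 ≤ ell ((j : ℝ) / N) := fun j hj =>
    ell_nonneg _ (by positivity) (by rw [div_le_one hN0]; exact_mod_cast hj)
  set B : Finset (Fin N) → Finset (Fin d → Fin N → Bool) := fun F =>
    if F.card = 0 then ∅ else (T F).biUnion fun t =>
      Finset.univ.filter fun G => 4 * ((d : ℝ) + u F.card) ≤ GV G (evup_ezero F t) with hB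
  have hsub : (Finset.univ.filter fun G : Fin d → Fin N → Bool => ¬ UpG d N G) ⊆
      (Finset.univ.powerset).biUnion B := by
    intro G hG
    rw [Finset.mem_filter] at hG
    by_contra hcon
    refine hG.2 fun v F hvF => ?_
    have hFN : F.card ≤ N := by simpa using Finset.card_le_univ F
    by_cases hF : F.card = 0
    · have hF0 : F = ∅ := Finset.card_eq_zero.1 hF
      have hv0 : v = fun _ => 0 := by
        funext i
        exact hvF i (by rw [hF0]; exact Finset.notMem_empty i)
      rw [hv0]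
      simp [GV]
    · have h1 : ∀ t ∈ T F, GV G (evup_ezero F t) < 4 * ((d : ℝ) + u F.card) := by
        intro t ht
        by_contra h2
        push Not at h2
        refine hcon (Finset.mem_biUnion.2 ⟨F, Finset.mem_powerset.2 (Finset.subset_univ F), ?_⟩)
        simp only [hB, if_neg hF]
        exact Finset.mem_biUnion.2 ⟨t, ht, Finset.mem_filter.2 ⟨Finset.mem_univ G, h2⟩⟩
      have hu0 : 0 ≤ u F.card := by
        have := hell F.card hFN
        simp only [hu]; positivity
      have h3 := up_of_net (fun (l : Fin d) (i : F) => sb (G l i)) (T F) (hT3 F)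
        (Real.sqrt (4 * ((d : ℝ) + u F.card))) (Real.sqrt_nonneg _) (fun t ht => by
          rw [Real.sq_sqrt (by positivity), ← evup_GV_ezero G F t]
          exact (h1 t ht).le) (fun i => v i)
      have h4 : GV G v = ∑ l, (∑ i : F, sb (G l i) * v i) ^ 2 := by
        have h5 : v = evup_ezero F (fun i => v i) := by
          funext i
          by_cases hi : i ∈ F
          · simp [evup_ezero, hi]
          · simp [evup_ezero, hi, hvF i hi]
        conv_lhs => rw [h5]
        exact evup_GV_ezero G F _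
      have h6 : ∑ i, v i ^ 2 = ∑ i : F, v i ^ 2 := by
        refine evup_sum_ezero F (fun i => v i ^ 2) fun i hi => ?_
        simp [hvF i hi]
      rw [h4, h6]
      refine h3.trans (mul_le_mul_of_nonneg_right ?_ (Finset.sum_nonneg fun i _ => sq_nonneg _))
      rw [mul_pow, Real.sq_sqrt (by positivity)]
      simp only [hu]
      linarith
  have hset : (({G : Fin d → Fin N → Bool | ¬ UpG d N G} : Set (Fin d → Fin N → Bool)).ncard) =
      (Finset.univ.filter fun G : Fin d → Fin N → Bool => ¬ UpG d N G).card := by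
    rw [← Set.ncard_coe_finset]
    congr 1
    ext G
    simp
  rw [hset]
  have hcard : ∀ F : Finset (Fin N), ((B F).card : ℝ) ≤
      (if F.card = 0 then (0 : ℝ) else 6 ^ F.card * Real.exp (-(u F.card))) * 2 ^ (d * N) := by
    intro F
    by_cases hF : F.card = 0
    · simp only [hB, if_pos hF, Finset.card_empty, Nat.cast_zero, zero_mul, le_refl]
    · simp only [hB, if_neg hF]
      have h1 : (((T F).biUnion fun t => Finset.univ.filter fun G : Fin d → Fin N → Bool =>
          4 * ((d : ℝ) + u F.card) ≤ GV G (evup_ezero F t)).card : ℝ) ≤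
          ∑ t ∈ T F, ((Finset.univ.filter fun G : Fin d → Fin N → Bool =>
          4 * ((d : ℝ) + u F.card) ≤ GV G (evup_ezero F t)).card : ℝ) := by
        exact_mod_cast Finset.card_biUnion_le
      refine h1.trans ?_
      have h2 : ∀ t ∈ T F, ((Finset.univ.filter fun G : Fin d → Fin N → Bool =>
          4 * ((d : ℝ) + u F.card) ≤ GV G (evup_ezero F t)).card : ℝ) ≤
          Real.exp (-(u F.card)) * 2 ^ (d * N) := by
        intro t ht
        have h3 := tail_up (κ := Fin d) (ι := Fin N) (evup_ezero F t)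
          (by rw [evup_ezero_sq, hT2 F t ht]) (u F.card)
        rw [Fintype.card_fin, Fintype.card_fin] at h3
        refine le_trans (le_of_eq ?_) h3
        congr 1
        rw [← Set.ncard_coe_finset]
        congr 1
        ext G
        simp
      refine (Finset.sum_le_sum h2).trans ?_
      rw [Finset.sum_const, nsmul_eq_mul, mul_assoc]
      exact mul_le_mul_of_nonneg_right (hT1 F) (by positivity)
  have hbound : ∀ j : ℕ, j ≤ N → (N.choose j : ℝ) * (if j = 0 then (0 : ℝ) else
      6 ^ j * Real.exp (-(u j))) ≤ (if j = 0 then (0 : ℝ) else Real.exp (-((j : ℝ) + 2))) := by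
    intro j hj
    by_cases hj0 : j = 0
    · simp [hj0]
    · rw [if_neg hj0, if_neg hj0]
      have h1 := choose_le N j hj
      have h2 := card_le_ell N j hj hN
      have h3 : (6 : ℝ) ^ j ≤ Real.exp (2 * (N * ell ((j : ℝ) / N))) := by
        have h4 : (6 : ℝ) ≤ Real.exp 2 := by
          have he : (2.7182818283 : ℝ) < Real.exp 1 := Real.exp_one_gt_d9
          have : Real.exp 2 = Real.exp 1 ^ 2 := by
            rw [← Real.exp_nat_mul]; norm_num
          rw [this]
          nlinarith
        calc (6 : ℝ) ^ j ≤ Real.exp 2 ^ j := pow_le_pow_left₀ (by norm_num) h4 j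
          _ = Real.exp (j * 2) := by rw [← Real.exp_nat_mul]
          _ ≤ Real.exp (2 * (N * ell ((j : ℝ) / N))) := Real.exp_le_exp.2 (by linarith)
      calc (N.choose j : ℝ) * (6 ^ j * Real.exp (-(u j)))
          ≤ Real.exp (N * ell ((j : ℝ) / N)) * (Real.exp (2 * (N * ell ((j : ℝ) / N))) *
              Real.exp (-(u j))) := by
            refine mul_le_mul h1 (mul_le_mul_of_nonneg_right h3 (Real.exp_pos _).le)
              (by positivity) (Real.exp_pos _).le
        _ = Real.exp (-(N * ell ((j : ℝ) / N)) - 2) := by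
            rw [← Real.exp_add, ← Real.exp_add]
            congr 1
            simp only [hu]
            ring
        _ ≤ Real.exp (-((j : ℝ) + 2)) := Real.exp_le_exp.2 (by linarith)
  calc ((Finset.univ.filter fun G : Fin d → Fin N → Bool => ¬ UpG d N G).card : ℝ)
      ≤ (((Finset.univ.powerset).biUnion B).card : ℝ) := by
        exact_mod_cast Finset.card_le_card hsub
    _ ≤ ∑ F ∈ (Finset.univ : Finset (Fin N)).powerset, ((B F).card : ℝ) := by
        exact_mod_cast Finset.card_biUnion_le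
    _ ≤ ∑ F ∈ (Finset.univ : Finset (Fin N)).powerset,
        (if F.card = 0 then (0 : ℝ) else 6 ^ F.card * Real.exp (-(u F.card))) * 2 ^ (d * N) :=
        Finset.sum_le_sum fun F _ => hcard F
    _ = (∑ j ∈ Finset.range (N + 1), (N.choose j : ℝ) *
        (if j = 0 then (0 : ℝ) else 6 ^ j * Real.exp (-(u j)))) * 2 ^ (d * N) := by
        rw [← Finset.sum_mul]
        congr 1
        have h := Finset.sum_powerset_apply_card (x := (Finset.univ : Finset (Fin N)))
          (fun j => if j = 0 then (0 : ℝ) else 6 ^ j * Real.exp (-(u j)))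
        rw [h]
        simp only [Finset.card_univ, Fintype.card_fin, nsmul_eq_mul]
    _ ≤ (∑ j ∈ Finset.range (N + 1), (if j = 0 then (0 : ℝ) else
        Real.exp (-((j : ℝ) + 2)))) * 2 ^ (d * N) := by
        refine mul_le_mul_of_nonneg_right (Finset.sum_le_sum fun j hj => ?_) (by positivity)
        exact hbound j (Nat.lt_succ_iff.1 (Finset.mem_range.1 hj))
    _ ≤ 1 / 10 * 2 ^ (d * N) :=
        mul_le_mul_of_nonneg_right (evup_exp_geo N) (by positivity)

end Pool.Agent.Helper52.CS
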