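import Pool.Agent.Helper52.CS.Reloc
import Pool.Agent.Helper52.CS.Convex

/-! CS-8. Averaging over cyclic shifts of the blocks.
PROOF of shift. Let `N_m = card (bl s m)`, `T = ∏_{m ∈ M} N_m` (positive). For `t < T` let `x^t (s m + j) = x (s m + (j + t) % N_m)` for `j < N_m`, `m ∈ M`. For each `m`
the residue `t % N_m` is equidistributed over `t < T`, so `∑_{t<T} (x^t i)² = (T / N_m) nsq (bl s m) x = T (β i)²` for `i ∈ bl s m`. By convex2 with the
vectors `x^t / sqrt T`, `t ∈ range T`, and uncond: `N (rs (bu s M) β) ≤ C · 2 C³ · max_t N (rs (bu s M) x^t)`. Finally `x^t` is the sum of its part on the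
`j` with `j + t % N_m < N_m` and its part on the other `j`; each of the two is an order preserving relocation (reloc) of the restriction of `x` to a subset of
`bu s M`, so has norm `≤ C² · C · N (rs (bu s M) x)`; total `2 C³`. So the constant is `2 C⁴ · 2 C³ = 4 C⁷`.
l2_le: the case of one block (`s i = a + k i`, `M = {0}`, `β` constant). -/

set_option autoImplicit false

namespace Pool.Agent.Helper52.CS

open Finset

variable {N : F0 → ℝ} {C : ℝ}

private theorem rs_cmul (J : Finset ℕ) (c : ℝ) (x : ℕ → ℝ) :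
    rs J (fun i => c * x i) = c • rs J x := by
  ext i
  rw [Finsupp.smul_apply, rs_apply, rs_apply]
  split_ifs <;> simp

/-- index of the block of `i` -/
private def blk' (s : ℕ → ℕ) (i : ℕ) : ℕ := Nat.findGreatest (fun m => s m ≤ i) i

private theorem blk'_eq {s : ℕ → ℕ} (hs : StrictMono s) {m i : ℕ} (hi : i ∈ bl s m) :
    blk' s i = m := by
  rw [bl, Finset.mem_Ico] at hi
  have hmi : m ≤ i := (hs.id_le m).trans hi.1
  apply le_antisymm
  · by_contra hcon
    push Not at hcon
    have h0 : 0 < blk' s i := by omega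
    have h1 : s (blk' s i) ≤ i := Nat.findGreatest_of_ne_zero (m := blk' s i) rfl (by omega)
    have h2 : s (m + 1) ≤ s (blk' s i) := hs.monotone hcon
    omega
  · exact Nat.le_findGreatest hmi hi.1

private theorem sum_shift (n : ℕ) (g : ℕ → ℝ) (c : ℕ) :
    ∑ t ∈ range n, g ((c + t) % n) = ∑ t ∈ range n, g t := by
  induction c with
  | zero =>
    refine sum_congr rfl (fun t ht => ?_)
    rw [Nat.zero_add, Nat.mod_eq_of_lt (Finset.mem_range.1 ht)]
  | succ c ih =>
    have h1 : ∑ t ∈ range (n + 1), g ((c + t) % n) =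
        ∑ t ∈ range n, g ((c + t) % n) + g ((c + n) % n) := Finset.sum_range_succ _ _
    have h2 : ∑ t ∈ range (n + 1), g ((c + t) % n) =
        ∑ t ∈ range n, g ((c + (t + 1)) % n) + g ((c + 0) % n) := Finset.sum_range_succ' _ _
    rw [Nat.add_mod_right] at h1
    simp only [Nat.add_zero] at h2
    have h3 : ∑ t ∈ range n, g ((c + 1 + t) % n) = ∑ t ∈ range n, g ((c + (t + 1)) % n) :=
      sum_congr rfl (fun t _ => by congr 2; ring)
    rw [h3, ← ih]
    linarith

private theorem sum_shift_mul (n q : ℕ) (g : ℕ → ℝ) (c : ℕ) :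
    ∑ t ∈ range (n * q), g ((c + t) % n) = q * ∑ t ∈ range n, g t := by
  induction q with
  | zero => simp
  | succ q ih =>
    rw [Nat.mul_succ, Finset.sum_range_add, ih]
    have h1 : ∑ t ∈ range n, g ((c + (n * q + t)) % n) = ∑ t ∈ range n, g ((c + t) % n) :=
      sum_congr rfl (fun t _ => by
        congr 1
        have : c + (n * q + t) = (c + t) + n * q := by ring
        rw [this, Nat.add_mul_mod_self_left])
    rw [h1, sum_shift]
    push_cast
    ring

/-- the source of the coordinate `i` in the shift by `t` -/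
private def src (s : ℕ → ℕ) (t i : ℕ) : ℕ :=
  s (blk' s i) + ((i - s (blk' s i)) + t) % (bl s (blk' s i)).card

private theorem src_val {s : ℕ → ℕ} (hs : StrictMono s) {m i : ℕ} (hi : i ∈ bl s m) (t : ℕ) :
    src s t i = s m + ((i - s m) + t) % (bl s m).card := by
  simp only [src, blk'_eq hs hi]

private theorem card_bl (s : ℕ → ℕ) (m : ℕ) : (bl s m).card = s (m + 1) - s m := by simp [bl]

private theorem card_bl_pos {s : ℕ → ℕ} (hs : StrictMono s) (m : ℕ) : 0 < (bl s m).card := by
  rw [card_bl]; have := hs (Nat.lt_succ_self m); simp only [Nat.succ_eq_add_one] at this; omega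

private theorem src_mem {s : ℕ → ℕ} (hs : StrictMono s) {m i : ℕ} (hi : i ∈ bl s m) (t : ℕ) :
    src s t i ∈ bl s m := by
  rw [src_val hs hi]
  have h1 := Nat.mod_lt ((i - s m) + t) (card_bl_pos hs m)
  have h2 := hs (Nat.lt_succ_self m)
  rw [card_bl] at h1
  simp only [Nat.succ_eq_add_one] at h2
  rw [card_bl, bl, Finset.mem_Ico]
  omega

/-- the two possibilities for the source -/
private theorem src_cases {s : ℕ → ℕ} (hs : StrictMono s) {m i : ℕ} (hi : i ∈ bl s m) (t : ℕ) :
    (i ≤ src s t i → src s t i = i + t % (bl s m).card) ∧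
    (src s t i < i → src s t i + (bl s m).card = i + t % (bl s m).card) := by
  have hpos := card_bl_pos hs m
  rw [src_val hs hi]
  have hi' := hi
  rw [bl, Finset.mem_Ico] at hi'
  have hcard := card_bl s m
  have h1 : i - s m < (bl s m).card := by omega
  have h2 := Nat.mod_lt t hpos
  have h3 : ((i - s m) + t) % (bl s m).card = ((i - s m) + t % (bl s m).card) % (bl s m).card := by
    rw [Nat.add_mod_mod]
  rw [h3]
  rcases lt_or_ge ((i - s m) + t % (bl s m).card) (bl s m).card with hlt | hge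
  · rw [Nat.mod_eq_of_lt hlt]
    constructor
    · intro _; omega
    · intro h; omega
  · have h4 : ((i - s m) + t % (bl s m).card) % (bl s m).card
        = (i - s m) + t % (bl s m).card - (bl s m).card := by
      rw [Nat.mod_eq_sub_mod hge, Nat.mod_eq_of_lt (by omega)]
    rw [h4]
    constructor
    · intro h; omega
    · intro _; omega

private theorem src_mono {s : ℕ → ℕ} (hs : StrictMono s) (M : Finset ℕ) (t : ℕ) (U : Finset ℕ)
    (hU : U ⊆ bu s M) (hcase : (∀ i ∈ U, i ≤ src s t i) ∨ (∀ i ∈ U, src s t i < i)) :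
    StrictMonoOn (src s t) (U : Set ℕ) := by
  intro i hi j hj hij
  have hi' : i ∈ U := Finset.mem_coe.1 hi
  have hj' : j ∈ U := Finset.mem_coe.1 hj
  obtain ⟨m, hm, him⟩ := Finset.mem_biUnion.1 (hU hi')
  obtain ⟨m', hm', hjm'⟩ := Finset.mem_biUnion.1 (hU hj')
  have h1 := src_mem hs him t
  have h2 := src_mem hs hjm' t
  have h3 := src_cases hs him t
  have h4 := src_cases hs hjm' t
  have hmm' : m ≤ m' := by
    by_contra hcon
    push Not at hcon
    have : s (m' + 1) ≤ s m := hs.monotone hcon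
    rw [bl, Finset.mem_Ico] at him hjm'
    omega
  rcases hmm'.eq_or_lt with heq | hlt
  · subst heq
    rcases hcase with hcase | hcase
    · have h5 := h3.1 (hcase i hi')
      have h6 := h4.1 (hcase j hj')
      omega
    · have h5 := h3.2 (hcase i hi')
      have h6 := h4.2 (hcase j hj')
      omega
  · have : s (m + 1) ≤ s m' := hs.monotone hlt
    rw [bl, Finset.mem_Ico] at h1 h2
    omega

private theorem shift_one (h : LNorm N C) {s : ℕ → ℕ} (hs : StrictMono s) (M : Finset ℕ)
    (x : ℕ → ℝ) (t : ℕ) :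
    N (rs (bu s M) (fun i => x (src s t i))) ≤ 2 * C ^ 3 * N (rs (bu s M) x) := by
  have hC0 : 0 ≤ C := by linarith [h.one_le]
  have key : ∀ U : Finset ℕ, U ⊆ bu s M →
      ((∀ i ∈ U, i ≤ src s t i) ∨ (∀ i ∈ U, src s t i < i)) →
      N (rs U (fun i => x (src s t i))) ≤ C ^ 3 * N (rs (bu s M) x) := by
    intro U hU hcase
    have h1 := (h.reloc U (src s t) (src_mono hs M t U hU hcase) (fun i => x (src s t i)) x
      (fun i _ => rfl)).2
    have h2 : U.image (src s t) ⊆ bu s M := by
      intro y hy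
      obtain ⟨i, hi, hiy⟩ := Finset.mem_image.1 hy
      obtain ⟨m, hm, him⟩ := Finset.mem_biUnion.1 (hU hi)
      exact Finset.mem_biUnion.2 ⟨m, hm, hiy ▸ src_mem hs him t⟩
    have h3 := h.rs_mono _ _ h2 x
    calc N (rs U (fun i => x (src s t i))) ≤ C ^ 2 * N (rs (U.image (src s t)) x) := h1
      _ ≤ C ^ 2 * (C * N (rs (bu s M) x)) := mul_le_mul_of_nonneg_left h3 (by positivity)
      _ = C ^ 3 * N (rs (bu s M) x) := by ring
  have hsplit : rs (bu s M) (fun i => x (src s t i)) =
      rs ((bu s M).filter (fun i => i ≤ src s t i)) (fun i => x (src s t i)) +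
      rs ((bu s M).filter (fun i => src s t i < i)) (fun i => x (src s t i)) := by
    ext i
    rw [Finsupp.add_apply, rs_apply, rs_apply, rs_apply]
    simp only [Finset.mem_filter]
    by_cases hi : i ∈ bu s M
    · by_cases hle : i ≤ src s t i
      · simp [hi, hle, not_lt.2 hle]
      · simp [hi, hle, not_le.1 hle]
    · simp [hi]
  rw [hsplit]
  refine (h.add _ _).trans ?_
  have h1 := key _ (Finset.filter_subset _ _) (Or.inl (fun i hi => (Finset.mem_filter.1 hi).2) :
    (∀ i ∈ (bu s M).filter (fun i => i ≤ src s t i), i ≤ src s t i) ∨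
    (∀ i ∈ (bu s M).filter (fun i => i ≤ src s t i), src s t i < i))
  have h2 := key _ (Finset.filter_subset _ _) (Or.inr (fun i hi => (Finset.mem_filter.1 hi).2) :
    (∀ i ∈ (bu s M).filter (fun i => src s t i < i), i ≤ src s t i) ∨
    (∀ i ∈ (bu s M).filter (fun i => src s t i < i), src s t i < i))
  linarith

theorem LNorm.shift (h : LNorm N C) (s : ℕ → ℕ) (hs : StrictMono s) (M : Finset ℕ) (x β : ℕ → ℝ)
    (hβ : ∀ m ∈ M, ∀ i ∈ bl s m, β i ^ 2 * (bl s m).card = nsq (bl s m) x) :
    N (rs (bu s M) β) ≤ 4 * C ^ 7 * N (rs (bu s M) x) := by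
  have hC0 : 0 ≤ C := by linarith [h.one_le]
  have hNx : 0 ≤ N (rs (bu s M) x) := h.nonneg _
  obtain ⟨T, hT⟩ : ∃ T : ℕ, T = ∏ m ∈ M, (bl s m).card := ⟨_, rfl⟩
  have hTpos : 0 < T := by
    rw [hT]; exact Finset.prod_pos (fun m _ => card_bl_pos hs m)
  have hTr : (0 : ℝ) < T := by exact_mod_cast hTpos
  have hsum : ∀ i ∈ bu s M, ∑ t ∈ range T, x (src s t i) ^ 2 = T * β i ^ 2 := by
    intro i hi
    obtain ⟨m, hm, him⟩ := Finset.mem_biUnion.1 hi
    obtain ⟨q, hq⟩ : (bl s m).card ∣ T := by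
      rw [hT]; exact Finset.dvd_prod_of_mem _ hm
    have h1 : ∑ t ∈ range T, x (src s t i) ^ 2 =
        ∑ t ∈ range ((bl s m).card * q), (fun j => x (s m + j) ^ 2) (((i - s m) + t) %
          (bl s m).card) := by
      rw [hq]
      refine sum_congr rfl (fun t _ => ?_)
      rw [src_val hs him]
    rw [h1]
    refine (sum_shift_mul (bl s m).card q (fun j => x (s m + j) ^ 2) (i - s m)).trans ?_
    have h2 : ∑ t ∈ range (bl s m).card, (fun j => x (s m + j) ^ 2) t = nsq (bl s m) x := by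
      rw [card_bl]
      unfold nsq bl
      rw [Finset.sum_Ico_eq_sum_range]
    rw [h2, ← hβ m hm i him, hq]
    push_cast
    ring
  have hconv := h.convex2 (bu s M) (range T) (fun t i => (Real.sqrt T)⁻¹ * x (src s t i))
  have hsq : ∀ i ∈ bu s M, Real.sqrt (nsq (range T)
      (fun t => (Real.sqrt T)⁻¹ * x (src s t i))) = |β i| := by
    intro i hi
    have h1 : nsq (range T) (fun t => (Real.sqrt T)⁻¹ * x (src s t i)) = β i ^ 2 := by
      unfold nsq
      have h2 : ∀ t ∈ range T, ((Real.sqrt T)⁻¹ * x (src s t i)) ^ 2 =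
          (T : ℝ)⁻¹ * x (src s t i) ^ 2 := by
        intro t _
        rw [mul_pow, inv_pow, Real.sq_sqrt hTr.le]
      rw [sum_congr rfl h2, ← mul_sum, hsum i hi, ← mul_assoc, inv_mul_cancel₀ hTr.ne', one_mul]
    rw [h1, Real.sqrt_sq_eq_abs]
  have h1 : N (rs (bu s M) β) ≤ C * N (rs (bu s M) (fun i => Real.sqrt (nsq (range T)
      (fun t => (Real.sqrt T)⁻¹ * x (src s t i))))) := by
    refine h.uncond _ _ _ (fun i hi => ?_)
    rw [hsq i hi, abs_abs]
  have h2 : ∑ t ∈ range T, N (rs (bu s M) (fun i => (Real.sqrt T)⁻¹ * x (src s t i))) ^ 2 ≤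
      (2 * C ^ 3 * N (rs (bu s M) x)) ^ 2 := by
    have h3 : ∀ t ∈ range T, N (rs (bu s M) (fun i => (Real.sqrt T)⁻¹ * x (src s t i))) ^ 2 ≤
        (T : ℝ)⁻¹ * (2 * C ^ 3 * N (rs (bu s M) x)) ^ 2 := by
      intro t _
      rw [rs_cmul, h.smul, mul_pow, sq_abs, inv_pow, Real.sq_sqrt hTr.le]
      refine mul_le_mul_of_nonneg_left ?_ (inv_nonneg.2 hTr.le)
      exact pow_le_pow_left₀ (h.nonneg _) (shift_one h hs M x t) 2
    refine (sum_le_sum h3).trans (le_of_eq ?_)
    rw [Finset.sum_const, Finset.card_range, nsmul_eq_mul, ← mul_assoc, mul_inv_cancel₀ hTr.ne',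
      one_mul]
  have h4 : Real.sqrt (∑ t ∈ range T, N (rs (bu s M)
      (fun i => (Real.sqrt T)⁻¹ * x (src s t i))) ^ 2) ≤ 2 * C ^ 3 * N (rs (bu s M) x) := by
    refine (Real.sqrt_le_sqrt h2).trans (le_of_eq ?_)
    exact Real.sqrt_sq (by positivity)
  calc N (rs (bu s M) β) ≤ C * (2 * C ^ 3 * (2 * C ^ 3 * N (rs (bu s M) x))) := by
        refine h1.trans (mul_le_mul_of_nonneg_left (hconv.trans ?_) hC0)
        exact mul_le_mul_of_nonneg_left h4 (by positivity)
    _ = 4 * C ^ 7 * N (rs (bu s M) x) := by ring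

theorem LNorm.l2_le (h : LNorm N C) (a k : ℕ) (x : ℕ → ℝ) :
    Real.sqrt (nsq (Finset.Ico a (a + k)) x) * N (rs (Finset.Ico a (a + k)) (fun _ => 1)) ≤
      4 * C ^ 7 * Real.sqrt k * N (rs (Finset.Ico a (a + k)) x) := by
  rcases Nat.eq_zero_or_pos k with hk | hk
  · subst hk
    simp [nsq]
  have hkr : (0 : ℝ) < k := by exact_mod_cast hk
  set s : ℕ → ℕ := fun i => a + k * i with hsdef
  have hs : StrictMono s := by
    intro i j hij
    simp only [hsdef]
    have := Nat.mul_lt_mul_of_pos_left hij hk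
    omega
  have hbl : bl s 0 = Finset.Ico a (a + k) := by simp [bl, hsdef]
  have hbu : bu s {0} = Finset.Ico a (a + k) := by simp [bu, hbl]
  set b : ℝ := Real.sqrt (nsq (Finset.Ico a (a + k)) x / k) with hb
  have hns : 0 ≤ nsq (Finset.Ico a (a + k)) x := sum_nonneg (fun _ _ => sq_nonneg _)
  have h1 := h.shift s hs {0} x (fun _ => b) (by
    intro m hm i _
    rw [Finset.mem_singleton] at hm
    subst hm
    rw [hbl, Nat.card_Ico, Nat.add_sub_cancel_left, hb, Real.sq_sqrt (by positivity)]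
    field_simp)
  rw [hbu] at h1
  have h2 : rs (Finset.Ico a (a + k)) (fun _ => b) = b • rs (Finset.Ico a (a + k)) (fun _ => 1) := by
    rw [← rs_cmul]; simp
  rw [h2, h.smul, abs_of_nonneg (Real.sqrt_nonneg _)] at h1
  have h3 : Real.sqrt (nsq (Finset.Ico a (a + k)) x) = Real.sqrt k * b := by
    rw [hb, ← Real.sqrt_mul hkr.le]
    congr 1
    field_simp
  rw [h3]
  have h4 := mul_le_mul_of_nonneg_left h1 (Real.sqrt_nonneg (k : ℝ))
  calc Real.sqrt k * b * N (rs (Finset.Ico a (a + k)) (fun _ => 1))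
      = Real.sqrt k * (b * N (rs (Finset.Ico a (a + k)) (fun _ => 1))) := by ring
    _ ≤ Real.sqrt k * (4 * C ^ 7 * N (rs (Finset.Ico a (a + k)) x)) := h4
    _ = 4 * C ^ 7 * Real.sqrt k * N (rs (Finset.Ico a (a + k)) x) := by ring

end Pool.Agent.Helper52.CS
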