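import Pool.Agent.Helper52.CS.ParBasics
import Pool.Agent.Helper52.CS.Proj

/-! CS-13. The third term of the extension operator.
PROOF. `S' = {i ∈ bl s m : i ∈ S}`, `N_m = card`, `w = ap x`, `ζ = ap z`. Cauchy-Schwarz: `|∑_{S'} ζ w| ≤ sqrt (nsq S' ζ) sqrt (nsq S' w)`, and by flat, for both vectors
`nsq S' ≤ β² nsq`, `β² = C0 (d/N_m + ell (card S' / N_m))`. `d/N_m ≤ 2 g^{-28}`, `card S' / N_m ≤ u := C^8 g^{-19}`; if `G0` is such that `C^8 ≤ G0` then `u ≤ 1`
and (ell increasing on [0,1]) `ell ≤ ell u = u (1 + log (1/u)) ≤ u (1 + 19 log g) ≤ 20 C^8 g^{-18}`. So `β² ≤ 22 C0 C^8 g^{-18}`. Now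
`nsq ζ ≤ nsq z ≤ C^8` (nsq_le, dual) and `sqrt (nsq w) ≤ sqrt (nsq x) ≤ 4 C^7 sqrt Λ g^16 N(x)` (Par.l2). Total `≤ K g^{-2} N(x) ≤ K 4^{-(m+1)} N(x)`. -/

set_option autoImplicit false

namespace Pool.Agent.Helper52.CS

open Finset

variable {N : F0 → ℝ} {C C0 Λ : ℝ}

private theorem ell_mono {t u : ℝ} (ht : 0 ≤ t) (htu : t ≤ u) (hu : u ≤ 1) : ell t ≤ ell u := by
  unfold ell Real.negMulLog
  rcases ht.eq_or_lt with h0 | h0
  · rw [← h0]
    have hu0 : 0 ≤ u := h0 ▸ htu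
    have := mul_nonneg hu0 (neg_nonneg.mpr (Real.log_nonpos hu0 hu))
    simp only [neg_zero, zero_mul, add_zero]
    linarith
  · have hu0 : 0 < u := lt_of_lt_of_le h0 htu
    have h1 : Real.log (u / t) ≤ u / t - 1 := Real.log_le_sub_one_of_pos (by positivity)
    rw [Real.log_div hu0.ne' h0.ne'] at h1
    have h2 : t * (Real.log u - Real.log t) ≤ u - t := by
      have := mul_le_mul_of_nonneg_left h1 h0.le
      have h3 : t * (u / t - 1) = u - t := by field_simp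
      linarith
    have h4 : 0 ≤ (u - t) * (- Real.log u) :=
      mul_nonneg (by linarith) (neg_nonneg.mpr (Real.log_nonpos hu0.le hu))
    nlinarith

private theorem abs_sum_le (J : Finset ℕ) (a b : ℕ → ℝ) :
    |∑ i ∈ J, a i * b i| ≤ Real.sqrt (nsq J a) * Real.sqrt (nsq J b) := by
  unfold nsq
  rw [← Real.sqrt_mul (Finset.sum_nonneg fun i _ => sq_nonneg _)]
  apply Real.abs_le_sqrt
  exact Finset.sum_mul_sq_le_sq_mul_sq J a b

theorem LNorm.third (h : LNorm N C) (hC0 : 1 ≤ C0) (hΛ : 1 ≤ Λ) : ∃ (K : ℝ) (G0 : ℕ), 0 ≤ K ∧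
    ∀ (s g d : ℕ → ℕ) (q : ℕ → ℕ → ℕ → ℝ), Par N C0 Λ s g d q → (∀ m, G0 ≤ g m) →
      ∀ (m : ℕ) (S : Finset ℕ),
        ((((bl s m).filter (fun i => i ∈ S)).card : ℝ) * (g m : ℝ) ^ 19 ≤
          C ^ 8 * (bl s m).card) →
        ∀ (z x : ℕ → ℝ), Dual N z →
          |∑ i ∈ (bl s m).filter (fun i => i ∈ S), ap (bl s m) (q m) z i *
            ap (bl s m) (q m) x i| ≤ K / 4 ^ (m + 1) * N (rs (bl s m) x) := by
  have hC1 : 1 ≤ C := h.one_le
  have hCpos : 0 < C := by linarith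
  refine ⟨84 * C0 * C ^ 19 * Real.sqrt Λ, ⌈C ^ 8⌉₊, by positivity, ?_⟩
  intro s g d q hP hG m S hS z x hz
  have hg1 : (1 : ℝ) ≤ g m := hP.g_pos m
  have hgpos : (0 : ℝ) < g m := by linarith
  have hgC : C ^ 8 ≤ g m := le_trans (Nat.le_ceil _) (by exact_mod_cast hG m)
  have hNpos : (0 : ℝ) < (bl s m).card := by exact_mod_cast hP.card_pos m
  set I := bl s m with hI
  set S' := I.filter (fun i => i ∈ S) with hS'
  set Q := q m with hQ
  have hgood : Good I (d m) C0 Q := hP.good m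
  have hS'I : S' ⊆ I := Finset.filter_subset _ _
  -- the parameter
  set t : ℝ := (S'.card : ℝ) / I.card with ht
  set u : ℝ := C ^ 8 / (g m : ℝ) ^ 19 with hu
  have hupos : 0 < u := by positivity
  have ht0 : 0 ≤ t := by positivity
  have htu : t ≤ u := by
    rw [ht, hu, div_le_div_iff₀ hNpos (by positivity)]
    exact hS
  have hu1 : u ≤ 1 := by
    rw [hu, div_le_one (by positivity)]
    calc C ^ 8 ≤ g m := hgC
      _ = (g m : ℝ) ^ 1 := (pow_one _).symm
      _ ≤ (g m : ℝ) ^ 19 := pow_le_pow_right₀ hg1 (by norm_num)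
  have hellu : ell u ≤ 19 * C ^ 8 / (g m : ℝ) ^ 18 := by
    unfold ell Real.negMulLog
    have h1 : Real.log u = 8 * Real.log C - 19 * Real.log (g m) := by
      rw [hu, Real.log_div (by positivity) (by positivity), Real.log_pow, Real.log_pow]
      norm_num
    have h2 : 0 ≤ Real.log C := Real.log_nonneg hC1
    have h3 : Real.log (g m) ≤ g m - 1 := Real.log_le_sub_one_of_pos hgpos
    have h4 : 1 + (- Real.log u) ≤ 19 * g m := by
      rw [h1]; linarith
    have h5 : u + -u * Real.log u = u * (1 + (- Real.log u)) := by ring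
    rw [h5]
    calc u * (1 + (- Real.log u)) ≤ u * (19 * g m) := mul_le_mul_of_nonneg_left h4 hupos.le
      _ = 19 * C ^ 8 / (g m : ℝ) ^ 18 := by
          rw [hu]; field_simp
  have hell : ell t ≤ 19 * C ^ 8 / (g m : ℝ) ^ 18 := le_trans (ell_mono ht0 htu hu1) hellu
  have hd : (d m : ℝ) / I.card ≤ 2 * C ^ 8 / (g m : ℝ) ^ 18 := by
    have h1 := hP.c_le m
    rw [← hI] at h1
    have h0 : 0 ≤ (d m : ℝ) / I.card := by positivity
    rw [le_div_iff₀ (by positivity)]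
    calc (d m : ℝ) / I.card * (g m : ℝ) ^ 18 ≤ (d m : ℝ) / I.card * (g m : ℝ) ^ 28 :=
          mul_le_mul_of_nonneg_left (pow_le_pow_right₀ hg1 (by norm_num)) h0
      _ ≤ 2 := h1
      _ ≤ 2 * C ^ 8 := by
          have : 1 ≤ C ^ 8 := one_le_pow₀ hC1
          linarith
  set β : ℝ := C0 * ((d m : ℝ) / I.card + ell t) with hβ
  have hell0 : 0 ≤ ell t := by
    unfold ell Real.negMulLog
    have := mul_nonneg ht0 (neg_nonneg.mpr (Real.log_nonpos ht0 (htu.trans hu1)))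
    linarith
  have hβ0 : 0 ≤ β := by positivity
  have hβle : β ≤ 21 * C0 * C ^ 8 / (g m : ℝ) ^ 18 := by
    calc β ≤ C0 * (2 * C ^ 8 / (g m : ℝ) ^ 18 + 19 * C ^ 8 / (g m : ℝ) ^ 18) :=
          mul_le_mul_of_nonneg_left (add_le_add hd hell) (by linarith)
      _ = 21 * C0 * C ^ 8 / (g m : ℝ) ^ 18 := by ring
  -- the two norms
  have hz1 : nsq S' (ap I Q z) ≤ β * C ^ 8 := by
    refine le_trans (hgood.flat z S' hS'I) ?_
    refine mul_le_mul_of_nonneg_left ?_ hβ0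
    exact (hgood.nsq_le z).trans (h.dual z hz I)
  have hx1 : nsq S' (ap I Q x) ≤ β * nsq I x := by
    refine le_trans (hgood.flat x S' hS'I) ?_
    exact mul_le_mul_of_nonneg_left (hgood.nsq_le x) hβ0
  have hl2 := hP.l2 h hΛ m x
  rw [← hI] at hl2
  have hN0 : 0 ≤ N (rs I x) := h.nonneg _
  calc |∑ i ∈ S', ap I Q z i * ap I Q x i|
      ≤ Real.sqrt (nsq S' (ap I Q z)) * Real.sqrt (nsq S' (ap I Q x)) := abs_sum_le _ _ _
    _ ≤ Real.sqrt (β * C ^ 8) * Real.sqrt (β * nsq I x) :=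
        mul_le_mul (Real.sqrt_le_sqrt hz1) (Real.sqrt_le_sqrt hx1) (Real.sqrt_nonneg _)
          (Real.sqrt_nonneg _)
    _ = β * C ^ 4 * Real.sqrt (nsq I x) := by
        rw [Real.sqrt_mul hβ0, Real.sqrt_mul hβ0]
        have h8 : Real.sqrt (C ^ 8) = C ^ 4 := by
          rw [show C ^ 8 = (C ^ 4) ^ 2 by ring]
          exact Real.sqrt_sq (by positivity)
        rw [h8]
        have := Real.mul_self_sqrt hβ0
        calc Real.sqrt β * C ^ 4 * (Real.sqrt β * Real.sqrt (nsq I x))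
            = (Real.sqrt β * Real.sqrt β) * C ^ 4 * Real.sqrt (nsq I x) := by ring
          _ = _ := by rw [this]
    _ ≤ (21 * C0 * C ^ 8 / (g m : ℝ) ^ 18) * C ^ 4 *
          (4 * C ^ 7 * Real.sqrt Λ * (g m : ℝ) ^ 16 * N (rs I x)) := by
        refine mul_le_mul ?_ hl2 (Real.sqrt_nonneg _) (by positivity)
        exact mul_le_mul_of_nonneg_right hβle (by positivity)
    _ = 84 * C0 * C ^ 19 * Real.sqrt Λ / (g m : ℝ) ^ 2 * N (rs I x) := by
        field_simp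
        ring
    _ ≤ 84 * C0 * C ^ 19 * Real.sqrt Λ / 4 ^ (m + 1) * N (rs I x) := by
        refine mul_le_mul_of_nonneg_right ?_ hN0
        refine div_le_div_of_nonneg_left (by positivity) (by positivity) ?_
        have h16 : ((16 : ℝ)) ^ (m + 1) ≤ g m := by exact_mod_cast hP.g_lo m
        calc (4 : ℝ) ^ (m + 1) ≤ 16 ^ (m + 1) :=
              pow_le_pow_left₀ (by norm_num) (by norm_num) _
          _ ≤ g m := h16
          _ = (g m : ℝ) ^ 1 := (pow_one _).symm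
          _ ≤ (g m : ℝ) ^ 2 := pow_le_pow_right₀ hg1 (by norm_num)

end Pool.Agent.Helper52.CS
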