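import Pool.Agent.Helper52.CS.ParBasics
import Pool.Agent.Helper52.CS.Proj

/-! CS-14. The top part of the second term.
PROOF. Cauchy-Schwarz on `F ∩ T`: `≤ sqrt (nsq F z) sqrt (nsq T w)`, `w = ap x`. flat_small: `nsq F z ≤ C² g^{-6}`. `nsq T w ≤ Ct (d/N_m)(1 + log (N_m/d)) nsq w ≤
Ct · 2 g^{-28} · 29 g · nsq x`, `sqrt (nsq x) ≤ 4 C^7 sqrt Λ g^16 N(x)`. Product: `K g^{-3} g^{-27/2} g^{16} = K g^{-1/2} ≤ K 4^{-(m+1)}` as `g ≥ 16^{m+1}`. -/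

set_option autoImplicit false

namespace Pool.Agent.Helper52.CS

open Finset

variable {N : F0 → ℝ} {C C0 Λ : ℝ}

/-- The arithmetic of the estimate. -/
private theorem top_arith {G A W Y X n C Λ Ct c L : ℝ} (hG : 1 ≤ G) (hC : 1 ≤ C) (hΛ : 1 ≤ Λ)
    (hCt : 0 < Ct) (hA0 : 0 ≤ A) (hA : A * G ^ 6 ≤ C ^ 2) (hc0 : 0 ≤ c) (hc : c * G ^ 28 ≤ 2)
    (hL0 : 0 ≤ L) (hL : L ≤ 29 * G) (hY0 : 0 ≤ Y) (hW0 : 0 ≤ W) (hW : W ≤ Ct * c * L * Y)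
    (hY : Y ≤ (4 * C ^ 7 * Real.sqrt Λ * G ^ 16 * n) ^ 2) (hX : X ^ 2 ≤ A * W) :
    X ^ 2 * G ≤ 928 * Ct * Λ * C ^ 16 * n ^ 2 := by
  have hG0 : 0 < G := by linarith
  have hW2 : W * G ^ 27 ≤ 58 * Ct * Y := by
    have h1 : W ≤ Ct * c * (29 * G) * Y := by
      refine hW.trans ?_
      gcongr
    calc W * G ^ 27 ≤ Ct * c * (29 * G) * Y * G ^ 27 := by gcongr
      _ = 29 * Ct * Y * (c * G ^ 28) := by ring
      _ ≤ 29 * Ct * Y * 2 := by gcongr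
      _ = 58 * Ct * Y := by ring
  have hY2 : Y ≤ 16 * C ^ 14 * Λ * G ^ 32 * n ^ 2 := by
    refine hY.trans (le_of_eq ?_)
    have h1 : Real.sqrt Λ ^ 2 = Λ := Real.sq_sqrt (by linarith)
    calc (4 * C ^ 7 * Real.sqrt Λ * G ^ 16 * n) ^ 2
        = 16 * C ^ 14 * (Real.sqrt Λ ^ 2) * G ^ 32 * n ^ 2 := by ring
      _ = _ := by rw [h1]
  have h3 : (X ^ 2 * G) * G ^ 32 ≤ (928 * Ct * Λ * C ^ 16 * n ^ 2) * G ^ 32 := by
    calc (X ^ 2 * G) * G ^ 32 = X ^ 2 * G ^ 33 := by ring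
      _ ≤ A * W * G ^ 33 := by gcongr
      _ = (A * G ^ 6) * (W * G ^ 27) := by ring
      _ ≤ C ^ 2 * (58 * Ct * Y) := by gcongr
      _ ≤ C ^ 2 * (58 * Ct * (16 * C ^ 14 * Λ * G ^ 32 * n ^ 2)) := by gcongr
      _ = (928 * Ct * Λ * C ^ 16 * n ^ 2) * G ^ 32 := by ring
  exact le_of_mul_le_mul_right h3 (by positivity)

private theorem nsq_nonneg' (I : Finset ℕ) (x : ℕ → ℝ) : 0 ≤ nsq I x :=
  Finset.sum_nonneg fun _ _ => sq_nonneg _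

private theorem nsq_mono' {I J : Finset ℕ} (h : I ⊆ J) (x : ℕ → ℝ) : nsq I x ≤ nsq J x :=
  Finset.sum_le_sum_of_subset_of_nonneg h fun _ _ _ => sq_nonneg _

theorem LNorm.top_term (h : LNorm N C) (hC0 : 1 ≤ C0) (hΛ : 1 ≤ Λ) (Ct : ℝ) (hCt : 0 < Ct) :
    ∃ K : ℝ, 0 ≤ K ∧
    ∀ (s g d : ℕ → ℕ) (q : ℕ → ℕ → ℕ → ℝ), Par N C0 Λ s g d q →
      ∀ (m : ℕ) (F T : Finset ℕ), F ⊆ bl s m → T ⊆ bl s m →
        ∀ (z x : ℕ → ℝ), Dual N z → (∀ i ∈ F, z i ^ 2 * (bl s m).card ≤ (g m : ℝ) ^ 20) →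
          nsq T (ap (bl s m) (q m) x) ≤ Ct * ((d m : ℝ) / (bl s m).card) *
            (1 + Real.log (((bl s m).card : ℝ) / d m)) * nsq (bl s m) (ap (bl s m) (q m) x) →
          |∑ i ∈ F ∩ T, z i * ap (bl s m) (q m) x i| ≤
            K / 4 ^ (m + 1) * N (rs (bl s m) x) := by
  have hC1 := h.one_le
  refine ⟨Real.sqrt (928 * Ct * Λ) * C ^ 8, by positivity, ?_⟩
  intro s g d q hP m F T hF hT z x hz hz2 hT2
  have hg : (1 : ℝ) ≤ g m := hP.g_pos m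
  have hA := Par.flat_small h hP m z hz F hF hz2
  have hc := hP.c_le m
  obtain ⟨hL0, hL⟩ := hP.log_le m
  have hl2 := Par.l2 h hΛ hP m x
  have hcard : (0 : ℝ) < (bl s m).card := by exact_mod_cast hP.card_pos m
  have hc0 : 0 ≤ (d m : ℝ) / (bl s m).card := by positivity
  have hL1 : 0 ≤ 1 + Real.log (((bl s m).card : ℝ) / d m) := by linarith
  have hn : 0 ≤ N (rs (bl s m) x) := by
    by_contra hneg
    push Not at hneg
    have h1 : 0 < 4 * C ^ 7 * Real.sqrt Λ * (g m : ℝ) ^ 16 := by positivity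
    have h2 := mul_neg_of_pos_of_neg h1 hneg
    have h3 := Real.sqrt_nonneg (nsq (bl s m) x)
    linarith
  have hY := (Real.sqrt_le_iff.1 hl2).2
  have hW : nsq T (ap (bl s m) (q m) x) ≤ Ct * ((d m : ℝ) / (bl s m).card) *
      (1 + Real.log (((bl s m).card : ℝ) / d m)) * nsq (bl s m) x :=
    hT2.trans (mul_le_mul_of_nonneg_left ((hP.good m).nsq_le x) (by positivity))
  have hX : (∑ i ∈ F ∩ T, z i * ap (bl s m) (q m) x i) ^ 2 ≤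
      nsq F z * nsq T (ap (bl s m) (q m) x) := by
    refine (Finset.sum_mul_sq_le_sq_mul_sq _ _ _).trans ?_
    exact mul_le_mul (nsq_mono' Finset.inter_subset_left z)
      (nsq_mono' Finset.inter_subset_right _) (nsq_nonneg' _ _) (nsq_nonneg' _ _)
  have hfin := top_arith hg hC1 hΛ hCt (nsq_nonneg' F z) hA hc0 hc hL1 hL (nsq_nonneg' _ x)
    (nsq_nonneg' _ _) hW hY hX
  have hglo : ((4 : ℝ) ^ (m + 1)) ^ 2 ≤ g m := by
    have h1 : ((4 : ℝ) ^ (m + 1)) ^ 2 = ((16 ^ (m + 1) : ℕ) : ℝ) := by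
      push_cast
      rw [← pow_mul, mul_comm, pow_mul]
      norm_num
    rw [h1]
    exact_mod_cast hP.g_lo m
  set X := ∑ i ∈ F ∩ T, z i * ap (bl s m) (q m) x i with hXdef
  have h5 : (|X| * 4 ^ (m + 1)) ^ 2 ≤ (Real.sqrt (928 * Ct * Λ) * C ^ 8 * N (rs (bl s m) x)) ^ 2 := by
    calc (|X| * 4 ^ (m + 1)) ^ 2 = X ^ 2 * ((4 : ℝ) ^ (m + 1)) ^ 2 := by rw [mul_pow, sq_abs]
      _ ≤ X ^ 2 * g m := by gcongr
      _ ≤ 928 * Ct * Λ * C ^ 16 * N (rs (bl s m) x) ^ 2 := hfin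
      _ = (Real.sqrt (928 * Ct * Λ)) ^ 2 * C ^ 16 * N (rs (bl s m) x) ^ 2 := by
          rw [Real.sq_sqrt (by positivity)]
      _ = _ := by ring
  have h6 : |X| * 4 ^ (m + 1) ≤ Real.sqrt (928 * Ct * Λ) * C ^ 8 * N (rs (bl s m) x) :=
    (pow_le_pow_iff_left₀ (by positivity) (by positivity) (by norm_num)).1 h5
  rw [div_mul_eq_mul_div, le_div_iff₀ (by positivity)]
  exact h6

end Pool.Agent.Helper52.CS
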