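import Pool.Agent.Helper52.CS.Dom
import Pool.Agent.Helper52.CS.Split
import Pool.Agent.Helper52.CS.Third
import Pool.Agent.Helper52.CS.TopTerm
import Pool.Agent.Helper52.CS.Shift

/-! CS-15. The extension operator is bounded on functionals. -/

set_option autoImplicit false

namespace Pool.Agent.Helper52.CS

open Finset

variable {N : F0 → ℝ} {C C0 Λ : ℝ} {L0 : ℕ}

private theorem bl_unique {s : ℕ → ℕ} (hs : StrictMono s) {m m' i : ℕ} (h : i ∈ bl s m)
    (h' : i ∈ bl s m') : m = m' := by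
  unfold bl at h h'
  rw [Finset.mem_Ico] at h h'
  rcases lt_trichotomy m m' with hlt | heq | hgt
  · have : s (m + 1) ≤ s m' := hs.monotone (by omega)
    omega
  · exact heq
  · have : s (m' + 1) ≤ s m := hs.monotone (by omega)
    omega

private theorem pwd {s : ℕ → ℕ} (hs : StrictMono s) (M : Finset ℕ) :
    (M : Set ℕ).PairwiseDisjoint (bl s) := by
  intro m _ m' _ hne
  rw [Function.onFun, Finset.disjoint_left]
  intro i hi hi'
  exact hne (bl_unique hs hi hi')

private theorem sum_ite_bl {s : ℕ → ℕ} (hs : StrictMono s) (M : Finset ℕ) (f : ℕ → ℕ → ℝ)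
    {m i : ℕ} (hm : m ∈ M) (hi : i ∈ bl s m) :
    ∑ m' ∈ M, (if i ∈ bl s m' then f m' i else 0) = f m i := by
  rw [Finset.sum_eq_single m]
  · rw [if_pos hi]
  · intro b _ hb
    rw [if_neg]
    intro hib
    exact hb (bl_unique hs hib hi)
  · intro h; exact absurd hm h

private theorem geom_le (M : Finset ℕ) : ∑ m ∈ M, (1 : ℝ) / 4 ^ (m + 1) ≤ 1 := by
  have h1 : Summable (fun m : ℕ => (1 : ℝ) / 4 ^ (m + 1)) := by
    have : (fun m : ℕ => (1 : ℝ) / 4 ^ (m + 1)) = fun m => (1 / 4 : ℝ) * (1 / 4) ^ m := by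
      funext m
      rw [one_div_pow, pow_succ]
      field_simp
    rw [this]
    exact (summable_geometric_of_lt_one (by norm_num) (by norm_num)).mul_left _
  have h2 : ∑' m : ℕ, (1 : ℝ) / 4 ^ (m + 1) ≤ 1 := by
    have : (fun m : ℕ => (1 : ℝ) / 4 ^ (m + 1)) = fun m => (1 / 4 : ℝ) * (1 / 4) ^ m := by
      funext m
      rw [one_div_pow, pow_succ]
      field_simp
    rw [this, tsum_mul_left, tsum_geometric_of_lt_one (by norm_num) (by norm_num)]
    norm_num
  exact (h1.sum_le_tsum M (fun m _ => by positivity)).trans h2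

theorem LNorm.ext_bound (h : LNorm N C) (hL : Low N C L0) (hC0 : 1 ≤ C0) (hΛ : 1 ≤ Λ) :
    ∃ (K1 : ℝ) (G0 : ℕ), 0 ≤ K1 ∧
    ∀ (s g d : ℕ → ℕ) (q : ℕ → ℕ → ℕ → ℝ), Par N C0 Λ s g d q → (∀ m, G0 ≤ g m) →
      ∀ (n : ℕ) (M : Finset ℕ), (∀ m ∈ M, n < m) →
      ∀ z : ℕ → ℕ → ℝ, (∀ j ∈ bl s n, Dual N (z j)) →
        ∃ S : Finset ℕ, ∀ j ∈ bl s n, ∀ x : ℕ → ℝ,
          |∑ m ∈ M, ∑ i ∈ bl s m, z j i * rop (bl s m) (q m) S x i| ≤
            K1 * N (rs (bu s M) x) := by
  classical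
  obtain ⟨a0, Ct, c1, hCt, hc1, hsplit⟩ := split L0 hL.1 C0 hC0
  obtain ⟨Kd, hKd0, hdom⟩ := h.dom hL a0
  obtain ⟨K3, G3, hK30, hthird⟩ := h.third hC0 hΛ
  obtain ⟨Kt, hKt0, htop⟩ := h.top_term hC0 hΛ Ct hCt
  have hC1 : 1 ≤ C := h.one_le
  obtain ⟨G1, hG1⟩ := exists_nat_ge (2 / c1)
  refine ⟨1 + K3 * C + Kt * C + Kd * (C * (4 * C ^ 7)), max G3 G1, by positivity, ?_⟩
  intro s g d q hP hg n M hM z hz
  have hs := hP.mono
  have hg3 : ∀ m, G3 ≤ g m := fun m => (le_max_left _ _).trans (hg m)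
  have hg1 : ∀ m, G1 ≤ g m := fun m => (le_max_right _ _).trans (hg m)
  have hcard : ∀ m, (0 : ℝ) < (bl s m).card := fun m => by exact_mod_cast hP.card_pos m
  have hgR : ∀ m, (1 : ℝ) ≤ g m := hP.g_pos
  have hdpos : ∀ m, 0 < d m := fun m => lt_of_lt_of_le (by norm_num) (hP.d_big m)
  have hdc : ∀ m, (d m : ℝ) ≤ c1 * (bl s m).card := by
    intro m
    have h1 := hP.c_le m
    have h2 : (2 : ℝ) ≤ c1 * (g m : ℝ) ^ 28 := by
      have h3 : 2 / c1 ≤ (g m : ℝ) := hG1.trans (by exact_mod_cast hg1 m)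
      have h4 : (g m : ℝ) ≤ (g m : ℝ) ^ 28 := le_self_pow₀ (hgR m) (by norm_num)
      have h5 : 2 / c1 ≤ (g m : ℝ) ^ 28 := h3.trans h4
      rw [div_le_iff₀ hc1] at h5
      linarith
    have h3 : 0 < (g m : ℝ) ^ 28 := pow_pos (lt_of_lt_of_le one_pos (hgR m)) _
    have h4 : (d m : ℝ) / (bl s m).card * (g m : ℝ) ^ 28 ≤ c1 * (g m : ℝ) ^ 28 := h1.trans h2
    have h5 := le_of_mul_le_mul_right h4 h3
    rwa [div_le_iff₀ (hcard m)] at h5
  choose t ht1 ht2 ht3 using fun m =>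
    hsplit (bl s m) (d m) (q m) (hP.good m) (hdpos m) (hdc m)
  -- the set of peaks
  let Pk : ℕ → ℕ → Finset ℕ := fun m j =>
    (bl s m).filter (fun i => (g m : ℝ) ^ 20 < z j i ^ 2 * (bl s m).card)
  let S : Finset ℕ := M.biUnion (fun m => (bl s n).biUnion (fun j => Pk m j))
  have hSm : ∀ m ∈ M, ∀ i ∈ bl s m, (i ∈ S ↔ ∃ j ∈ bl s n, i ∈ Pk m j) := by
    intro m hm i hi
    simp only [S, Finset.mem_biUnion]
    constructor
    · rintro ⟨m', hm', j, hj, hij⟩
      have : m' = m := bl_unique hs (Finset.mem_filter.1 hij).1 hi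
      subst this
      exact ⟨j, hj, hij⟩
    · rintro ⟨j, hj, hij⟩
      exact ⟨m, hm, j, hj, hij⟩
  refine ⟨S, ?_⟩
  intro j hj x
  have hzj := hz j hj
  -- cardinality of the peaks
  have hScard : ∀ m ∈ M, (((bl s m).filter (fun i => i ∈ S)).card : ℝ) * (g m : ℝ) ^ 19 ≤
      C ^ 8 * (bl s m).card := by
    intro m hm
    have h1 : (bl s m).filter (fun i => i ∈ S) ⊆ (bl s n).biUnion (fun j => Pk m j) := by
      intro i hi
      rw [Finset.mem_filter] at hi
      obtain ⟨j', hj', hij⟩ := (hSm m hm i hi.1).1 hi.2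
      exact Finset.mem_biUnion.2 ⟨j', hj', hij⟩
    have h2 : (((bl s m).filter (fun i => i ∈ S)).card : ℝ) ≤ ∑ j' ∈ bl s n, ((Pk m j').card : ℝ) := by
      have := (Finset.card_le_card h1).trans Finset.card_biUnion_le
      exact_mod_cast this
    have h3 : (∑ j' ∈ bl s n, ((Pk m j').card : ℝ)) * (g m : ℝ) ^ 20 ≤
        (bl s n).card * (C ^ 8 * (bl s m).card) := by
      rw [Finset.sum_mul]
      calc ∑ j' ∈ bl s n, ((Pk m j').card : ℝ) * (g m : ℝ) ^ 20
          ≤ ∑ j' ∈ bl s n, (C ^ 8 * (bl s m).card) := by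
            apply Finset.sum_le_sum
            intro j' hj'
            exact hP.peaks h m (z j') (hz j' hj')
        _ = (bl s n).card * (C ^ 8 * (bl s m).card) := by
            rw [Finset.sum_const, nsmul_eq_mul]
    have h4 : ((bl s n).card : ℝ) ≤ g m := by
      have h5 : (bl s n).card ≤ s (n + 1) := by
        unfold bl; rw [Nat.card_Ico]; omega
      have h6 : s (n + 1) ≤ s m := hs.monotone (hM m hm)
      exact_mod_cast h5.trans (h6.trans (hP.g_s m))
    have h5 : 0 < (g m : ℝ) := lt_of_lt_of_le one_pos (hgR m)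
    have h6 : (((bl s m).filter (fun i => i ∈ S)).card : ℝ) * (g m : ℝ) ^ 20 ≤
        (g m : ℝ) * (C ^ 8 * (bl s m).card) := by
      calc (((bl s m).filter (fun i => i ∈ S)).card : ℝ) * (g m : ℝ) ^ 20
          ≤ (∑ j' ∈ bl s n, ((Pk m j').card : ℝ)) * (g m : ℝ) ^ 20 := by gcongr
        _ ≤ (bl s n).card * (C ^ 8 * (bl s m).card) := h3
        _ ≤ (g m : ℝ) * (C ^ 8 * (bl s m).card) := by gcongr
    have h7 : (g m : ℝ) * ((((bl s m).filter (fun i => i ∈ S)).card : ℝ) * (g m : ℝ) ^ 19) ≤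
        (g m : ℝ) * (C ^ 8 * (bl s m).card) := by
      calc (g m : ℝ) * ((((bl s m).filter (fun i => i ∈ S)).card : ℝ) * (g m : ℝ) ^ 19)
          = (((bl s m).filter (fun i => i ∈ S)).card : ℝ) * (g m : ℝ) ^ 20 := by ring
        _ ≤ _ := h6
    exact le_of_mul_le_mul_left h7 h5
  -- the norm of the restriction to a block
  set V : ℝ := N (rs (bu s M) x) with hV
  have hV0 : 0 ≤ V := h.nonneg _
  have hres : ∀ m ∈ M, N (rs (bl s m) x) ≤ C * V := by
    intro m hm
    exact h.rs_mono _ _ (Finset.subset_biUnion_of_mem (bl s) hm) x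
  -- notation
  let w : ℕ → ℕ → ℝ := fun m => ap (bl s m) (q m) x
  let b : ℕ → ℝ := fun m => Real.sqrt (nsq (bl s m) (w m) / (bl s m).card)
  have hnsq0 : ∀ (I : Finset ℕ) (y : ℕ → ℝ), 0 ≤ nsq I y := fun I y =>
    Finset.sum_nonneg (fun i _ => sq_nonneg _)
  have hb0 : ∀ m, 0 ≤ b m := fun m => Real.sqrt_nonneg _
  have hb2 : ∀ m, b m ^ 2 * (bl s m).card = nsq (bl s m) (w m) := by
    intro m
    simp only [b]
    rw [Real.sq_sqrt (div_nonneg (hnsq0 _ _) (hcard m).le), div_mul_cancel₀ _ (hcard m).ne']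
  let Tm : ℕ → Finset ℕ := fun m => (bl s m).filter (fun i => t m * b m < |w m i|)
  let Fm : ℕ → Finset ℕ := fun m => (bl s m).filter (fun i => i ∉ S)
  let ρ : ℕ → ℝ := fun i => ∑ m ∈ M, if i ∈ bl s m then (if i ∈ S ∨ i ∈ Tm m then 0 else w m i) else 0
  let β : ℕ → ℝ := fun i => ∑ m ∈ M, if i ∈ bl s m then b m else 0
  let b' : ℕ → ℝ := fun m => Real.sqrt (nsq (bl s m) x / (bl s m).card)
  let β' : ℕ → ℝ := fun i => ∑ m ∈ M, if i ∈ bl s m then b' m else 0
  have hρ : ∀ m ∈ M, ∀ i ∈ bl s m, ρ i = if i ∈ S ∨ i ∈ Tm m then 0 else w m i := by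
    intro m hm i hi
    exact sum_ite_bl hs M (fun m i => if i ∈ S ∨ i ∈ Tm m then 0 else w m i) hm hi
  have hβ : ∀ m ∈ M, ∀ i ∈ bl s m, β i = b m := by
    intro m hm i hi
    exact sum_ite_bl hs M (fun m _ => b m) hm hi
  have hβ' : ∀ m ∈ M, ∀ i ∈ bl s m, β' i = b' m := by
    intro m hm i hi
    exact sum_ite_bl hs M (fun m _ => b' m) hm hi
  -- first sum
  have hA : |∑ m ∈ M, ∑ i ∈ bl s m, z j i * x i| ≤ V := by
    have h1 : ∑ m ∈ M, ∑ i ∈ bl s m, z j i * x i = ∑ i ∈ bu s M, z j i * x i := by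
      unfold bu
      rw [Finset.sum_biUnion (pwd hs M)]
    rw [h1]
    exact hzj _ _
  -- third sum
  have hCs : |∑ m ∈ M, ∑ i ∈ (bl s m).filter (fun i => i ∈ S),
      ap (bl s m) (q m) (z j) i * ap (bl s m) (q m) x i| ≤ K3 * C * V := by
    calc |∑ m ∈ M, ∑ i ∈ (bl s m).filter (fun i => i ∈ S),
          ap (bl s m) (q m) (z j) i * ap (bl s m) (q m) x i|
        ≤ ∑ m ∈ M, |∑ i ∈ (bl s m).filter (fun i => i ∈ S),
          ap (bl s m) (q m) (z j) i * ap (bl s m) (q m) x i| := Finset.abs_sum_le_sum_abs _ _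
      _ ≤ ∑ m ∈ M, (1 / 4 ^ (m + 1)) * (K3 * C * V) := by
          apply Finset.sum_le_sum
          intro m hm
          have h1 := hthird s g d q hP hg3 m S (hScard m hm) (z j) x hzj
          calc _ ≤ K3 / 4 ^ (m + 1) * N (rs (bl s m) x) := h1
            _ ≤ K3 / 4 ^ (m + 1) * (C * V) := by
                gcongr
                exact hres m hm
            _ = (1 / 4 ^ (m + 1)) * (K3 * C * V) := by ring
      _ = (∑ m ∈ M, (1 : ℝ) / 4 ^ (m + 1)) * (K3 * C * V) := by rw [Finset.sum_mul]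
      _ ≤ 1 * (K3 * C * V) := by
          gcongr
          exact geom_le M
      _ = K3 * C * V := one_mul _
  -- the top part of the second sum
  have hTop : |∑ m ∈ M, ∑ i ∈ Fm m ∩ Tm m, z j i * w m i| ≤ Kt * C * V := by
    calc |∑ m ∈ M, ∑ i ∈ Fm m ∩ Tm m, z j i * w m i|
        ≤ ∑ m ∈ M, |∑ i ∈ Fm m ∩ Tm m, z j i * w m i| := Finset.abs_sum_le_sum_abs _ _
      _ ≤ ∑ m ∈ M, (1 / 4 ^ (m + 1)) * (Kt * C * V) := by
          apply Finset.sum_le_sum
          intro m hm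
          have h1 := htop s g d q hP m (Fm m) (Tm m) (Finset.filter_subset _ _)
            (Finset.filter_subset _ _) (z j) x hzj (by
              intro i hi
              have hi' := Finset.mem_filter.1 hi
              by_contra hcon
              apply hi'.2
              rw [hSm m hm i hi'.1]
              exact ⟨j, hj, Finset.mem_filter.2 ⟨hi'.1, not_le.1 hcon⟩⟩)
            (ht3 m x (b m) (hb0 m) (hb2 m)).2
          calc _ ≤ Kt / 4 ^ (m + 1) * N (rs (bl s m) x) := h1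
            _ ≤ Kt / 4 ^ (m + 1) * (C * V) := by
                gcongr
                exact hres m hm
            _ = (1 / 4 ^ (m + 1)) * (Kt * C * V) := by ring
      _ = (∑ m ∈ M, (1 : ℝ) / 4 ^ (m + 1)) * (Kt * C * V) := by rw [Finset.sum_mul]
      _ ≤ 1 * (Kt * C * V) := by
          gcongr
          exact geom_le M
      _ = Kt * C * V := one_mul _
  -- the rest of the second sum
  have hRest : |∑ m ∈ M, ∑ i ∈ bl s m, z j i * ρ i| ≤ Kd * (C * (4 * C ^ 7)) * V := by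
    have h1 : ∑ m ∈ M, ∑ i ∈ bl s m, z j i * ρ i = ∑ i ∈ bu s M, z j i * ρ i := by
      unfold bu
      rw [Finset.sum_biUnion (pwd hs M)]
    have h2 : N (rs (bu s M) ρ) ≤ Kd * N (rs (bu s M) β) := by
      apply hdom s hs M ρ β
      · intro m hm i hi
        refine ⟨by rw [hβ m hm i hi]; exact hb0 m, ?_⟩
        intro i' hi'
        rw [hβ m hm i hi, hβ m hm i' hi']
      · intro m hm a ha
        have h3 := (ht3 m x (b m) (hb0 m) (hb2 m)).1 a ha
        refine le_trans (Nat.mul_le_mul_right _ (Finset.card_le_card ?_)) h3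
        intro i hi
        rw [Finset.mem_filter] at hi ⊢
        refine ⟨hi.1, ?_⟩
        have h4 := hi.2
        rw [hβ m hm i hi.1, hρ m hm i hi.1] at h4
        by_cases hcase : i ∈ S ∨ i ∈ Tm m
        · rw [if_pos hcase, abs_zero] at h4
          have : 0 ≤ 2 ^ a * b m := by
            have := hb0 m
            positivity
          linarith
        · rw [if_neg hcase] at h4
          refine ⟨h4, ?_⟩
          by_contra hcon
          apply hcase
          right
          exact Finset.mem_filter.2 ⟨hi.1, not_le.1 hcon⟩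
    have h3 : N (rs (bu s M) β) ≤ C * N (rs (bu s M) β') := by
      apply h.uncond
      intro i hi
      unfold bu at hi
      obtain ⟨m, hm, him⟩ := Finset.mem_biUnion.1 hi
      rw [hβ m hm i him, hβ' m hm i him, abs_of_nonneg (hb0 m),
        abs_of_nonneg (Real.sqrt_nonneg _)]
      apply Real.sqrt_le_sqrt
      exact div_le_div_of_nonneg_right ((hP.good m).nsq_le x) (hcard m).le
    have h4 : N (rs (bu s M) β') ≤ 4 * C ^ 7 * V := by
      apply h.shift s hs M x β'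
      intro m hm i hi
      rw [hβ' m hm i hi]
      simp only [b']
      rw [Real.sq_sqrt (div_nonneg (hnsq0 _ _) (hcard m).le), div_mul_cancel₀ _ (hcard m).ne']
    rw [h1]
    calc |∑ i ∈ bu s M, z j i * ρ i| ≤ N (rs (bu s M) ρ) := hzj _ _
      _ ≤ Kd * N (rs (bu s M) β) := h2
      _ ≤ Kd * (C * N (rs (bu s M) β')) := by gcongr
      _ ≤ Kd * (C * (4 * C ^ 7 * V)) := by gcongr
      _ = Kd * (C * (4 * C ^ 7)) * V := by ring
  -- splitting of the second sum
  have hB : ∀ m ∈ M, ∑ i ∈ (bl s m).filter (fun i => i ∉ S), z j i * ap (bl s m) (q m) x i =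
      ∑ i ∈ Fm m ∩ Tm m, z j i * w m i + ∑ i ∈ bl s m, z j i * ρ i := by
    intro m hm
    have h1 : ∑ i ∈ bl s m, z j i * ρ i = ∑ i ∈ Fm m \ Tm m, z j i * w m i := by
      have hsub : Fm m \ Tm m ⊆ bl s m :=
        Finset.sdiff_subset.trans (Finset.filter_subset _ _)
      rw [← Finset.sum_subset hsub]
      · apply Finset.sum_congr rfl
        intro i hi
        have hi' := Finset.mem_sdiff.1 hi
        have hi1 := Finset.mem_filter.1 hi'.1
        rw [hρ m hm i hi1.1, if_neg]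
        rintro (h2 | h2)
        · exact hi1.2 h2
        · exact hi'.2 h2
      · intro i hi hni
        rw [hρ m hm i hi, if_pos, mul_zero]
        by_contra hcon
        apply hni
        rw [not_or] at hcon
        exact Finset.mem_sdiff.2 ⟨Finset.mem_filter.2 ⟨hi, hcon.1⟩, hcon.2⟩
    rw [h1]
    have h2 : Disjoint (Fm m ∩ Tm m) (Fm m \ Tm m) :=
      Finset.disjoint_sdiff_inter _ _ |>.symm
    rw [← Finset.sum_union h2]
    apply Finset.sum_congr _ (fun _ _ => rfl)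
    ext i
    simp only [Finset.mem_union, Finset.mem_inter, Finset.mem_sdiff]
    tauto
  -- assembly
  have hsum : ∑ m ∈ M, ∑ i ∈ bl s m, z j i * rop (bl s m) (q m) S x i =
      ∑ m ∈ M, ∑ i ∈ bl s m, z j i * x i - ∑ m ∈ M, ∑ i ∈ Fm m ∩ Tm m, z j i * w m i
      - ∑ m ∈ M, ∑ i ∈ bl s m, z j i * ρ i -
      ∑ m ∈ M, ∑ i ∈ (bl s m).filter (fun i => i ∈ S),
        ap (bl s m) (q m) (z j) i * ap (bl s m) (q m) x i := by
    rw [← Finset.sum_sub_distrib, ← Finset.sum_sub_distrib, ← Finset.sum_sub_distrib]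
    apply Finset.sum_congr rfl
    intro m hm
    rw [(hP.good m).pair_rop S (z j) x, hB m hm]
    ring
  rw [hsum]
  rw [abs_le] at hA hTop hRest hCs ⊢
  constructor
  · nlinarith [hA.1, hTop.2, hRest.2, hCs.2]
  · nlinarith [hA.2, hTop.1, hRest.1, hCs.1]

end Pool.Agent.Helper52.CS
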