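import Pool.Agent.Helper52.CS.Coord
import Pool.Agent.Helper52.CS.Proj

/-! CS-26. An isomorphism `Y_A ≃ Y_B` factors the identity of every `E_n`, `n ∈ A`, through `Y_B`.
PROOF. `v = linearCombination ℝ e`, `Φ : Y_A ≃ Y_B`, `ξ` from coord_functional. `z_j ∈ X*` is a Hahn-Banach extension of `y ↦ ξ_j (Φ⁻¹ y)`, `y ∈ Y_B`, norm `≤ C³ ‖Φ⁻¹‖`; `z j i := z_j (e i)`.
(1) `|∑_{i ∈ J} z j i x i| = |z_j (v (rs J x))| ≤ ‖z_j‖ nrm e (rs J x)`. (2) for `y ∈ Yalg B`: `∑ z j l y l = z_j (v y) = ξ_j u`, `u = Φ⁻¹ (v y) ∈ Y_A`; the set of `u ∈ X` with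
`∀ i ∈ bl s n, ap (bl s n) (q n) (fun j => ξ_j u) i = 0` is a closed subspace containing `v (Yalg A)`. (3) For `i ∈ bl s n` let `p_i = rs (bl s n) (l ↦ δ_{l i} - q n l i) ∈ Yalg A` (`n ∈ A`, Good), `φ_i = Φ (v p_i) ∈ Y_B`;
since `v (Yalg B)` is dense in `Y_B` (Yalg is closed under linear combinations) choose `b i ∈ Yalg B` with `‖v (b i) - φ_i‖ ≤ η / (1 + ‖z‖)`. Then `z_j (v (b i)) ≈ z_j φ_i = ξ_j (v p_i) = p_i j`. For `a : ℕ → ℝ`:
`∑ a_i p_i = rs (bl s n) (a - ap a)` (symm), so `‖v (∑ a_i b_i)‖ ≤ ‖Φ‖ nrm e (rs (a - ap a)) + η ∑ |a_i|`. `K = max` of the norms; it does not depend on `n`. -/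

set_option autoImplicit false

namespace Pool.Agent.Helper52.CS

open Finset

variable {X : Type*} [NormedAddCommGroup X] [NormedSpace ℝ X] [CompleteSpace X]

/-- `Yalg` as a submodule. -/
def foiYS (s : ℕ → ℕ) (q : ℕ → ℕ → ℕ → ℝ) (A : Set ℕ) : Submodule ℝ F0 where
  carrier := Yalg s q A
  add_mem' := by
    intro a b ha hb
    refine ⟨fun i hi => ?_, fun m i hi => ?_⟩
    · by_cases h1 : a i = 0
      · refine hb.1 i (fun h2 => hi ?_)
        rw [Finsupp.add_apply, h1, h2, add_zero]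
      · exact ha.1 i h1
    · have h1 := ha.2 m i hi
      have h2 := hb.2 m i hi
      unfold ap at h1 h2 ⊢
      simp only [Finsupp.coe_add, Pi.add_apply, mul_add, Finset.sum_add_distrib]
      rw [h1, h2, add_zero]
  zero_mem' := by
    refine ⟨fun i hi => absurd rfl hi, fun m i hi => ?_⟩
    simp [ap]
  smul_mem' := by
    intro c a ha
    refine ⟨fun i hi => ?_, fun m i hi => ?_⟩
    · refine ha.1 i (fun h1 => hi ?_)
      rw [Finsupp.smul_apply, h1, smul_zero]
    · have h1 := ha.2 m i hi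
      unfold ap at h1 ⊢
      have h2 : ∀ j, q m i j * (c • a) j = c * (q m i j * a j) := by
        intro j
        rw [Finsupp.smul_apply, smul_eq_mul]
        ring
      rw [Finset.sum_congr rfl (fun j _ => h2 j), ← Finset.mul_sum, h1, mul_zero]

omit [CompleteSpace X] in
theorem foi_Ysub_eq (e : ℕ → X) (s : ℕ → ℕ) (q : ℕ → ℕ → ℕ → ℝ) (A : Set ℕ) :
    Ysub e s q A =
      ((foiYS s q A).map (Finsupp.linearCombination ℝ e)).topologicalClosure := by
  unfold Ysub
  congr 1
  have h1 : (Finsupp.linearCombination ℝ e) '' Yalg s q A =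
      (((foiYS s q A).map (Finsupp.linearCombination ℝ e) : Submodule ℝ X) : Set X) := rfl
  rw [h1, Submodule.span_eq]

omit [CompleteSpace X] in
theorem foi_mem (e : ℕ → X) (s : ℕ → ℕ) (q : ℕ → ℕ → ℕ → ℝ) (A : Set ℕ) {a : F0}
    (ha : a ∈ Yalg s q A) : Finsupp.linearCombination ℝ e a ∈ Ysub e s q A :=
  Submodule.le_topologicalClosure _ (Submodule.subset_span ⟨a, ha, rfl⟩)

omit [CompleteSpace X] in
theorem foi_approx (e : ℕ → X) (s : ℕ → ℕ) (q : ℕ → ℕ → ℕ → ℝ) (A : Set ℕ) {x : X}
    (hx : x ∈ Ysub e s q A) {ε : ℝ} (hε : 0 < ε) :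
    ∃ b ∈ Yalg s q A, ‖Finsupp.linearCombination ℝ e b - x‖ ≤ ε := by
  rw [foi_Ysub_eq] at hx
  obtain ⟨y, ⟨b, hb, rfl⟩, hy⟩ := Metric.mem_closure_iff.1 hx ε hε
  refine ⟨b, hb, ?_⟩
  rw [dist_comm, dist_eq_norm] at hy
  exact hy.le

theorem foi_bl_disj {s : ℕ → ℕ} (hs : StrictMono s) {m n i : ℕ} (hm : i ∈ bl s m)
    (hn : i ∈ bl s n) : m = n := by
  unfold bl at hm hn
  rw [Finset.mem_Ico] at hm hn
  by_contra hne
  rcases lt_or_gt_of_ne hne with h1 | h1
  · have := hs.monotone (show m + 1 ≤ n from h1)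
    omega
  · have := hs.monotone (show n + 1 ≤ m from h1)
    omega

theorem fac_of_iso (e : ℕ → X) (C : ℝ) (h : LNorm (nrm e) C) (s d : ℕ → ℕ) (hs : StrictMono s)
    (C0 : ℝ) (q : ℕ → ℕ → ℕ → ℝ) (hq : ∀ m, Good (bl s m) (d m) C0 (q m)) (A B : Set ℕ)
    (Φ : Ysub e s q A ≃L[ℝ] Ysub e s q B) :
    ∃ K : ℝ, ∀ n ∈ A, Fac (nrm e) s q n B K := by
  classical
  have hC : 0 ≤ C := zero_le_one.trans h.one_le
  obtain ⟨ξ, hξ⟩ := coord_functional e C h
  set v := Finsupp.linearCombination ℝ e with hv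
  -- the inverse, as a map into `X`
  let Ψ : Ysub e s q B →L[ℝ] X := (Ysub e s q A).subtypeL.comp (Φ.symm : Ysub e s q B →L[ℝ] Ysub e s q A)
  have hΨ : ∀ y, Ψ y = (Φ.symm y : X) := fun y => rfl
  set K1 : ℝ := C ^ 3 * ‖Ψ‖ with hK1
  have hK1n : 0 ≤ K1 := by positivity
  have hex : ∀ j, ∃ z : X →L[ℝ] ℝ, (∀ y : Ysub e s q B, z y = ξ j (Ψ y)) ∧ ‖z‖ ≤ K1 := by
    intro j
    obtain ⟨z, hz1, hz2⟩ := exists_extension_norm_eq (Ysub e s q B) ((ξ j).comp Ψ)
    refine ⟨z, hz1, ?_⟩
    rw [hz2]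
    refine (ContinuousLinearMap.opNorm_comp_le _ _).trans ?_
    rw [hK1]
    gcongr
    exact (hξ j).1
  choose z hz1 hz2 using hex
  have hzv : ∀ j (J : Finset ℕ) (x : ℕ → ℝ), ∑ i ∈ J, z j (e i) * x i = z j (v (rs J x)) := by
    intro j J x
    rw [hv, rs, map_sum, map_sum]
    refine Finset.sum_congr rfl fun i _ => ?_
    rw [Finsupp.linearCombination_single, map_smul, smul_eq_mul, mul_comm]
  have hrs : ∀ a : F0, rs a.support a = a := by
    intro a
    ext j
    rw [rs_apply]
    by_cases hj : j ∈ a.support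
    · rw [if_pos hj]
    · rw [if_neg hj, Finsupp.notMem_support_iff.1 hj]
  set K : ℝ := max K1 ‖(Φ : Ysub e s q A →L[ℝ] Ysub e s q B)‖ with hK
  have hKK1 : K1 ≤ K := le_max_left _ _
  have hKΦ : ‖(Φ : Ysub e s q A →L[ℝ] Ysub e s q B)‖ ≤ K := le_max_right _ _
  refine ⟨K, fun n hn => ⟨fun j i => z j (e i), ?_, ?_, ?_⟩⟩
  · intro j _ J x
    rw [hzv]
    have h1 : |z j (v (rs J x))| ≤ ‖z j‖ * ‖v (rs J x)‖ := (z j).le_opNorm _
    refine h1.trans ?_
    change ‖z j‖ * ‖v (rs J x)‖ ≤ K * ‖v (rs J x)‖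
    exact mul_le_mul_of_nonneg_right ((hz2 j).trans hKK1) (norm_nonneg _)
  · intro y hy i hi
    have hW : ∀ u ∈ Ysub e s q A, ap (bl s n) (q n) (fun j => ξ j u) i = 0 := by
      intro u hu
      let L : X →L[ℝ] ℝ := ∑ j ∈ bl s n, q n i j • ξ j
      have hL : ∀ u, L u = ap (bl s n) (q n) (fun j => ξ j u) i := by
        intro u
        simp only [L, ap, _root_.sum_apply, _root_.smul_apply,
          smul_eq_mul]
      have hcl : Ysub e s q A ≤ LinearMap.ker (L : X →ₗ[ℝ] ℝ) := by
        apply Submodule.topologicalClosure_minimal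
        · rw [Submodule.span_le]
          rintro _ ⟨a, ha, rfl⟩
          change L (v a) = 0
          rw [hL]
          have h2 := ha.2 n i hi
          unfold ap at h2 ⊢
          rw [← h2]
          refine Finset.sum_congr rfl fun j _ => ?_
          change q n i j * ξ j (v a) = q n i j * a j
          rw [(hξ j).2 a]
        · exact L.isClosed_ker
      rw [← hL]
      exact hcl hu
    have h3 : ∀ j, ∑ l ∈ y.support, z j (e l) * y l =
        ξ j (Φ.symm ⟨v y, foi_mem e s q B hy⟩ : X) := by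
      intro j
      rw [hzv, hrs]
      exact hz1 j ⟨v y, foi_mem e s q B hy⟩
    have h4 : (fun j => ∑ l ∈ y.support, z j (e l) * y l) =
        fun j => ξ j (Φ.symm ⟨v y, foi_mem e s q B hy⟩ : X) := funext h3
    change ap (bl s n) (q n) (fun j => ∑ l ∈ y.support, z j (e l) * y l) i = 0
    rw [h4]
    exact hW _ (Φ.symm ⟨v y, foi_mem e s q B hy⟩).2
  · intro η hη
    -- the unit vectors of `E_n`
    let p : ℕ → F0 := fun i => rs (bl s n) (fun l => (if l = i then 1 else 0) - q n l i)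
    have hp : ∀ i ∈ bl s n, p i ∈ Yalg s q A := by
      intro i hi
      refine ⟨fun l hl => ⟨n, hn, ?_⟩, fun m l hl => ?_⟩
      · by_contra hcon
        apply hl
        simp only [p]
        rw [rs_apply, if_neg hcon]
      · by_cases hmn : m = n
        · subst hmn
          unfold ap
          have h1 : ∀ j ∈ bl s m, q m l j * p i j =
              (if j = i then q m l i else 0) - q m l j * q m j i := by
            intro j hj
            simp only [p]
            rw [rs_apply, if_pos hj]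
            by_cases hji : j = i
            · rw [if_pos hji, if_pos hji, hji]; ring
            · rw [if_neg hji, if_neg hji]; ring
          rw [Finset.sum_congr rfl h1, Finset.sum_sub_distrib, (hq m).idem l hl i hi,
            Finset.sum_ite_eq' (bl s m) i, if_pos hi, sub_self]
        · unfold ap
          apply Finset.sum_eq_zero
          intro j hj
          have h1 : j ∉ bl s n := fun h2 => hmn (foi_bl_disj hs hj h2)
          simp only [p]
          rw [rs_apply, if_neg h1, mul_zero]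
    have hη' : 0 < η / (1 + K1) := by positivity
    have hb : ∀ i, ∃ b : F0, i ∈ bl s n → (b ∈ Yalg s q B ∧
        ∀ hm : v (p i) ∈ Ysub e s q A, ‖v b - (Φ ⟨v (p i), hm⟩ : X)‖ ≤ η / (1 + K1)) := by
      intro i
      by_cases hi : i ∈ bl s n
      · obtain ⟨b, hb1, hb2⟩ := foi_approx e s q B
          (Φ ⟨v (p i), foi_mem e s q A (hp i hi)⟩).2 hη'
        exact ⟨b, fun _ => ⟨hb1, fun _ => hb2⟩⟩
      · exact ⟨0, fun h' => absurd h' hi⟩
    choose b hb using hb
    refine ⟨b, fun i hi => (hb i hi).1, ?_, ?_⟩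
    · intro i hi j hj
      have hm : v (p i) ∈ Ysub e s q A := foi_mem e s q A (hp i hi)
      have h1 := (hb i hi).2 hm
      have h2 : ∑ l ∈ (b i).support, z j (e l) * (b i) l = z j (v (b i)) := by
        rw [hzv, hrs]
      have h3 : z j (Φ ⟨v (p i), hm⟩ : X) = (if i = j then 1 else 0) - q n j i := by
        rw [hz1 j, hΨ, Φ.symm_apply_apply]
        change ξ j (v (p i)) = _
        rw [(hξ j).2]
        simp only [p]
        rw [rs_apply, if_pos hj]
        by_cases hij : i = j
        · rw [if_pos hij, if_pos hij.symm]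
        · rw [if_neg hij, if_neg (Ne.symm hij)]
      change |∑ l ∈ (b i).support, z j (e l) * (b i) l - _| ≤ η
      rw [h2, ← h3, ← map_sub]
      have h4 : |z j (v (b i) - (Φ ⟨v (p i), hm⟩ : X))| ≤
          ‖z j‖ * ‖v (b i) - (Φ ⟨v (p i), hm⟩ : X)‖ := (z j).le_opNorm _
      refine h4.trans ?_
      calc ‖z j‖ * ‖v (b i) - (Φ ⟨v (p i), hm⟩ : X)‖ ≤ K1 * (η / (1 + K1)) := by
            gcongr
            exact hz2 j
        _ ≤ (1 + K1) * (η / (1 + K1)) := by gcongr; linarith
        _ = η := by field_simp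
    · intro a
      have hsum : ∑ i ∈ bl s n, a i • p i =
          rs (bl s n) (fun i => a i - ap (bl s n) (q n) a i) := by
        ext l
        rw [Finsupp.finsetSum_apply, rs_apply]
        by_cases hl : l ∈ bl s n
        · rw [if_pos hl]
          have h1 : ∀ i ∈ bl s n, (a i • p i) l =
              (if l = i then a i else 0) - q n l i * a i := by
            intro i _
            rw [Finsupp.smul_apply, smul_eq_mul]
            simp only [p]
            rw [rs_apply, if_pos hl]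
            by_cases hli : l = i
            · rw [if_pos hli, if_pos hli]; ring
            · rw [if_neg hli, if_neg hli]; ring
          rw [Finset.sum_congr rfl h1, Finset.sum_sub_distrib, Finset.sum_ite_eq (bl s n) l,
            if_pos hl]
          rfl
        · rw [if_neg hl]
          apply Finset.sum_eq_zero
          intro i _
          rw [Finsupp.smul_apply]
          simp only [p]
          rw [rs_apply, if_neg hl, smul_zero]
      -- the vector `w = ∑ a_i v p_i` of `Y_A`
      let P : ℕ → Ysub e s q A := fun i =>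
        if hi : i ∈ bl s n then ⟨v (p i), foi_mem e s q A (hp i hi)⟩ else 0
      have hP : ∀ i ∈ bl s n, (P i : X) = v (p i) := by
        intro i hi
        simp only [P]
        rw [dif_pos hi]
      have hw : ((∑ i ∈ bl s n, a i • P i : Ysub e s q A) : X) =
          v (rs (bl s n) (fun i => a i - ap (bl s n) (q n) a i)) := by
        rw [← hsum, map_sum, Submodule.coe_sum]
        refine Finset.sum_congr rfl fun i hi => ?_
        rw [Submodule.coe_smul, hP i hi, map_smul]
      have hb' : ∀ i ∈ bl s n, ‖v (b i) - (Φ (P i) : X)‖ ≤ η := by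
        intro i hi
        have h1 := (hb i hi).2 (foi_mem e s q A (hp i hi))
        have h2 : P i = ⟨v (p i), foi_mem e s q A (hp i hi)⟩ := by
          simp only [P]
          rw [dif_pos hi]
        rw [h2]
        refine h1.trans ?_
        exact div_le_self hη.le (by linarith)
      have hdec : v (∑ i ∈ bl s n, a i • b i) =
          (Φ (∑ i ∈ bl s n, a i • P i) : X) + ∑ i ∈ bl s n, a i • (v (b i) - (Φ (P i) : X)) := by
        rw [map_sum, map_sum, Submodule.coe_sum, ← Finset.sum_add_distrib]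
        refine Finset.sum_congr rfl fun i _ => ?_
        rw [map_smul, map_smul, Submodule.coe_smul, ← smul_add, add_sub_cancel]
      change ‖v (∑ i ∈ bl s n, a i • b i)‖ ≤
        K * ‖v (rs (bl s n) (fun i => a i - ap (bl s n) (q n) a i))‖ + η * ∑ i ∈ bl s n, |a i|
      rw [hdec]
      refine (norm_add_le _ _).trans (add_le_add ?_ ?_)
      · rw [← hw]
        have h1 : ‖Φ (∑ i ∈ bl s n, a i • P i)‖ ≤
            ‖(Φ : Ysub e s q A →L[ℝ] Ysub e s q B)‖ * ‖∑ i ∈ bl s n, a i • P i‖ :=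
          (Φ : Ysub e s q A →L[ℝ] Ysub e s q B).le_opNorm _
        exact h1.trans (mul_le_mul_of_nonneg_right hKΦ (norm_nonneg _))
      · refine (norm_sum_le _ _).trans ?_
        rw [Finset.mul_sum]
        refine Finset.sum_le_sum fun i hi => ?_
        rw [norm_smul, Real.norm_eq_abs, mul_comm]
        exact mul_le_mul_of_nonneg_right (hb' i hi) (abs_nonneg _)

end Pool.Agent.Helper52.CS
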