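import Pool.Agent.Helper52.CS.Defs

/-! CS-25. Continuum many subsets of `ℕ` with pairwise infinite differences.
PROOF. For `f : ℕ → Bool` let `A f` be the set of codes of the finite initial segments of `f` (`Encodable.encode (List.ofFn fun i : Fin k => f i)`, `k ∈ ℕ`). `A f` is infinite and `A f ∩ A g` is finite for `f ≠ g`. Compose with an
injection `ℝ → (ℕ → Bool)` (`Cardinal.mk_real`, or binary cuts `r ↦ {n | rational number n < r}` - that is already an injection `ℝ → Set ℕ`). -/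

set_option autoImplicit false

namespace Pool.Agent.Helper52.CS

open Finset

theorem family : ∃ A : ℝ → Set ℕ, ∀ s t : ℝ, s ≠ t → (A s \ A t).Infinite := by
  refine ⟨fun r => Set.range (fun n : ℕ => Encodable.encode ((n, ⌊r * n⌋) : ℕ × ℤ)), ?_⟩
  intro s t hst
  have hpos : 0 < |s - t| := abs_pos.2 (sub_ne_zero.2 hst)
  obtain ⟨n0, hn0⟩ := exists_nat_ge (1 / |s - t|)
  have hn1 : 1 ≤ |s - t| * n0 := by
    rw [div_le_iff₀ hpos] at hn0
    linarith [mul_comm (|s - t|) (n0 : ℝ)]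
  refine Set.infinite_of_injective_forall_mem
    (f := fun n : ℕ => Encodable.encode ((n + n0, ⌊s * ((n + n0 : ℕ) : ℝ)⌋) : ℕ × ℤ)) ?_ ?_
  · intro a b hab
    have h1 := Encodable.encode_injective hab
    have h2 : a + n0 = b + n0 := (Prod.ext_iff.1 h1).1
    omega
  · intro n
    refine ⟨⟨n + n0, rfl⟩, ?_⟩
    rintro ⟨m, hm⟩
    have h1 := Encodable.encode_injective hm
    have h2 : m = n + n0 := (Prod.ext_iff.1 h1).1
    have h3 : ⌊t * (m : ℝ)⌋ = ⌊s * ((n + n0 : ℕ) : ℝ)⌋ := (Prod.ext_iff.1 h1).2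
    rw [h2] at h3
    have h4 := Int.abs_sub_lt_one_of_floor_eq_floor h3
    have h5 : t * ((n + n0 : ℕ) : ℝ) - s * ((n + n0 : ℕ) : ℝ) = -((s - t) * ((n + n0 : ℕ) : ℝ)) := by
      ring
    rw [h5, abs_neg, abs_mul] at h4
    have h6 : |((n + n0 : ℕ) : ℝ)| = (n : ℝ) + n0 := by
      rw [abs_of_nonneg (by positivity)]
      push_cast
      ring
    rw [h6] at h4
    have h7 : 0 ≤ |s - t| * (n : ℝ) := by positivity
    nlinarith

end Pool.Agent.Helper52.CS
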