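import Pool.Agent.Helper52.CS.Shift

/-! CS-24. If the fundamental function is at least `c sqrt k` then the closed span is isomorphic to `ℓ_2`.
PROOF. If `k < G Φ(k)²` for all `k ≥ 1`, `Φ(k) = N (rs (range k) 1)`, then l2_le with `a = 0` (`Ico 0 k = range k`) gives `sqrt (nsq (range k) x) Φ(k) ≤ 4 C^7 sqrt k N (rs (range k) x) ≤ 4 C^7 sqrt G Φ(k) N (rs (range k) x)`, so
`‖a‖_2 ≤ 4 C^7 sqrt G N a` for finitely supported `a`, and `N a ≤ C^4 ‖a‖_2` by upper2. The map `lp.single`-span → X, `a ↦ linearCombination e a` is bounded above and below for the `ℓ_2` norm, extends to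
`lp (fun _ => ℝ) 2 →L X` (series `∑ a i • e i`, Cauchy by the upper bound, or extend from the dense subspace), bounded below, with range the closure of the span. -/

set_option autoImplicit false

namespace Pool.Agent.Helper52.CS

open Finset

variable {X : Type*} [NormedAddCommGroup X] [NormedSpace ℝ X] [CompleteSpace X]

omit [CompleteSpace X] in
theorem l2iso_nrm_rs (e : ℕ → X) (J : Finset ℕ) (x : ℕ → ℝ) :
    nrm e (rs J x) = ‖∑ i ∈ J, x i • e i‖ := by
  simp only [nrm, rs, map_sum, Finsupp.linearCombination_single]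

omit [CompleteSpace X] in
theorem l2iso_lower (e : ℕ → X) (C : ℝ) (h : LNorm (nrm e) C) (G : ℕ)
    (hG : ∀ k : ℕ, 1 ≤ k → (k : ℝ) < G * nrm e (rs (Finset.range k) (fun _ => 1)) ^ 2)
    (k : ℕ) (x : ℕ → ℝ) :
    Real.sqrt (nsq (Finset.range k) x) ≤
      4 * C ^ 7 * Real.sqrt G * nrm e (rs (Finset.range k) x) := by
  have hC : 0 ≤ C := zero_le_one.trans h.one_le
  rcases Nat.eq_zero_or_pos k with rfl | hk
  · have h0 : 0 ≤ nrm e (rs (Finset.range 0) x) := h.nonneg _
    simp only [nsq, Finset.range_zero, Finset.sum_empty, Real.sqrt_zero]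
    positivity
  · have h1 := h.l2_le 0 k x
    rw [zero_add, ← Finset.range_eq_Ico] at h1
    have h2 := hG k hk
    have hΦ : 0 ≤ nrm e (rs (Finset.range k) (fun _ => 1)) := h.nonneg _
    set Φ := nrm e (rs (Finset.range k) (fun _ => 1)) with hΦdef
    have hN : 0 ≤ nrm e (rs (Finset.range k) x) := h.nonneg _
    have hkpos : (0 : ℝ) < k := by exact_mod_cast hk
    have hΦ' : 0 < Φ := by
      rcases hΦ.lt_or_eq with h3 | h3
      · exact h3
      · exfalso
        rw [← h3] at h2
        simp only [ne_eq, OfNat.ofNat_ne_zero, not_false_eq_true, zero_pow, mul_zero] at h2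
        linarith
    have h3 : Real.sqrt k ≤ Real.sqrt G * Φ := by
      have h4 : Real.sqrt G * Φ = Real.sqrt (G * Φ ^ 2) := by
        rw [Real.sqrt_mul (Nat.cast_nonneg G), Real.sqrt_sq hΦ]
      rw [h4]
      exact Real.sqrt_le_sqrt h2.le
    have h5 : Real.sqrt (nsq (Finset.range k) x) * Φ ≤
        (4 * C ^ 7 * Real.sqrt G * nrm e (rs (Finset.range k) x)) * Φ := by
      refine h1.trans ?_
      have h6 : 4 * C ^ 7 * Real.sqrt k * nrm e (rs (Finset.range k) x) ≤
          4 * C ^ 7 * (Real.sqrt G * Φ) * nrm e (rs (Finset.range k) x) := by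
        gcongr
      refine h6.trans (le_of_eq ?_)
      ring
    exact le_of_mul_le_mul_right h5 hΦ'

theorem l2_iso (e : ℕ → X) (C : ℝ) (h : LNorm (nrm e) C) (G : ℕ)
    (hG : ∀ k : ℕ, 1 ≤ k → (k : ℝ) < G * nrm e (rs (Finset.range k) (fun _ => 1)) ^ 2) :
    Nonempty ((Submodule.span ℝ (Set.range e)).topologicalClosure ≃L[ℝ]
      lp (fun _ : ℕ => ℝ) 2) := by
  have hC1 : 1 ≤ C := h.one_le
  have hC : 0 < C := zero_lt_one.trans_le hC1
  have hS : ∀ f : lp (fun _ : ℕ => ℝ) 2, HasSum (fun i => f i ^ 2) (‖f‖ ^ 2) := by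
    intro f
    have h1 := lp.hasSum_norm (p := 2) (by norm_num) f
    simpa using h1
  have hup : ∀ (J : Finset ℕ) (x : ℕ → ℝ),
      ‖∑ i ∈ J, x i • e i‖ ≤ C ^ 4 * Real.sqrt (nsq J x) := by
    intro J x
    rw [← l2iso_nrm_rs]
    exact h.upper2 J x
  have hsum : ∀ f : lp (fun _ : ℕ => ℝ) 2, Summable (fun i => f i • e i) := by
    intro f
    rw [summable_iff_vanishing_norm]
    intro ε hε
    have h1 := (hS f).summable
    obtain ⟨s, hs⟩ := (summable_iff_vanishing_norm.1 h1) ((ε / C ^ 4) ^ 2) (by positivity)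
    refine ⟨s, fun t ht => ?_⟩
    have h2 := hs t ht
    have h3 : nsq t f < (ε / C ^ 4) ^ 2 := (le_abs_self _).trans_lt h2
    have h4 : Real.sqrt (nsq t f) < ε / C ^ 4 := (Real.sqrt_lt' (by positivity)).2 h3
    calc ‖∑ i ∈ t, f i • e i‖ ≤ C ^ 4 * Real.sqrt (nsq t f) := hup t f
      _ < C ^ 4 * (ε / C ^ 4) := by gcongr
      _ = ε := by field_simp
  let T0 : lp (fun _ : ℕ => ℝ) 2 →ₗ[ℝ] X :=
    { toFun := fun f => ∑' i, f i • e i
      map_add' := by
        intro f g
        rw [← (hsum f).tsum_add (hsum g)]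
        congr 1
        ext i
        rw [lp.coeFn_add, Pi.add_apply, add_smul]
      map_smul' := by
        intro c f
        rw [RingHom.id_apply, ← (hsum f).tsum_const_smul c]
        congr 1
        ext i
        rw [lp.coeFn_smul, Pi.smul_apply, smul_eq_mul, mul_smul] }
  have hT0 : ∀ f, T0 f = ∑' i, f i • e i := fun f => rfl
  have hlim : ∀ f : lp (fun _ : ℕ => ℝ) 2,
      Filter.Tendsto (fun k => ∑ i ∈ Finset.range k, f i • e i) Filter.atTop (nhds (T0 f)) :=
    fun f => (hsum f).hasSum.tendsto_sum_nat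
  have hbd : ∀ f, ‖T0 f‖ ≤ C ^ 4 * ‖f‖ := by
    intro f
    refine le_of_tendsto' (hlim f).norm (fun k => ?_)
    refine (hup _ _).trans ?_
    have h1 : Real.sqrt (nsq (Finset.range k) f) ≤ ‖f‖ := by
      rw [Real.sqrt_le_iff]
      exact ⟨norm_nonneg _, sum_le_hasSum _ (fun i _ => sq_nonneg _) (hS f)⟩
    gcongr
  let T : lp (fun _ : ℕ => ℝ) 2 →L[ℝ] X := T0.mkContinuous (C ^ 4) hbd
  have hT : ∀ f, T f = T0 f := fun f => rfl
  have hlow : ∀ f, ‖f‖ ≤ 4 * C ^ 7 * Real.sqrt G * ‖T f‖ := by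
    intro f
    have h1 : Filter.Tendsto (fun k => Real.sqrt (nsq (Finset.range k) f)) Filter.atTop
        (nhds ‖f‖) := by
      have h2 := (Real.continuous_sqrt.tendsto _).comp (hS f).tendsto_sum_nat
      rw [Real.sqrt_sq (norm_nonneg _)] at h2
      exact h2
    refine le_of_tendsto_of_tendsto' h1 ((hlim f).norm.const_mul (4 * C ^ 7 * Real.sqrt G))
      (fun k => ?_)
    have h3 := l2iso_lower e C h G hG k f
    rw [l2iso_nrm_rs] at h3
    exact h3
  have hanti : AntilipschitzWith ⟨4 * C ^ 7 * Real.sqrt G, by positivity⟩ T :=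
    T.antilipschitz_of_bound hlow
  have hclo : IsClosed (Set.range T) := hanti.isClosed_range T.uniformContinuous
  have hr : T.range = (Submodule.span ℝ (Set.range e)).topologicalClosure := by
    apply le_antisymm
    · rintro _ ⟨f, rfl⟩
      exact mem_closure_of_tendsto (hlim f) (Filter.Eventually.of_forall fun k =>
        Submodule.sum_mem _ fun i _ => Submodule.smul_mem _ _ (Submodule.subset_span ⟨i, rfl⟩))
    · apply Submodule.topologicalClosure_minimal
      · rw [Submodule.span_le]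
        rintro _ ⟨i, rfl⟩
        refine ⟨lp.single 2 i 1, ?_⟩
        change ∑' j, (lp.single 2 i (1 : ℝ) : lp (fun _ : ℕ => ℝ) 2) j • e j = e i
        rw [tsum_eq_single i]
        · rw [lp.single_apply_self, one_smul]
        · intro j hj
          rw [lp.single_apply_ne _ _ _ hj, zero_smul]
      · exact hclo
  rw [← hr]
  exact ⟨(T.equivRange hanti.injective hclo).symm⟩

end Pool.Agent.Helper52.CS
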