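import Pool.Agent.Helper52.CS.Convex

/-! CS-16. The trace inequality.
PROOF. Let `σ s = sqrt (∑_{i ∈ I} (b i s)²)`. `∑_i ψ i s b i s ≤ sqrt (nsq I (ψ · s)) σ s ≤ sqrt κ (∑_{j ∈ I} |ψ j s|) σ s` (Cauchy-Schwarz, kashin hypothesis for the
vector `ψ · s`, which is killed by `ap I q`). Sum over `s ∈ U` and exchange: `∑_j ∑_s |ψ j s| σ s = ∑_j ∑_s ψ j s (± σ s) ≤ ∑_j K1 N (rs U (± σ)) ≤ card I · K1 · C · N (rs U σ)`, and
`N (rs U σ) ≤ 2 C² avg` by square_le_avg. -/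

set_option autoImplicit false

namespace Pool.Agent.Helper52.CS

open Finset

variable {N : F0 → ℝ} {C : ℝ}

theorem LNorm.trace_ineq (h : LNorm N C) (I U : Finset ℕ) (q : ℕ → ℕ → ℝ) (κ K1 : ℝ)
    (hκ : 0 ≤ κ) (hK1 : 0 ≤ K1)
    (hkash : ∀ x : ℕ → ℝ, (∀ i ∈ I, ap I q x i = 0) → nsq I x ≤ κ * (∑ i ∈ I, |x i|) ^ 2)
    (ψ : ℕ → ℕ → ℝ) (hψ : ∀ j ∈ I, ∀ x : ℕ → ℝ, |∑ l ∈ U, ψ j l * x l| ≤ K1 * N (rs U x))
    (hE : ∀ l ∈ U, ∀ i ∈ I, ap I q (fun j => ψ j l) i = 0) (b : ℕ → ℕ → ℝ) :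
    ∑ i ∈ I, ∑ l ∈ U, ψ i l * b i l ≤ 2 * C ^ 3 * K1 * Real.sqrt κ * I.card *
      avgOn I (fun ε => N (rs U (fun l => ∑ i ∈ I, ε i * b i l))) := by
  have hC : 1 ≤ C := h.one_le
  have hC0 : 0 ≤ C := by linarith
  obtain ⟨σ, hσ⟩ : ∃ σ : ℕ → ℝ, σ = fun l => Real.sqrt (nsq I (fun i => b i l)) := ⟨_, rfl⟩
  have hσ0 : ∀ l, 0 ≤ σ l := fun l => by rw [hσ]; exact Real.sqrt_nonneg _
  have hκs : 0 ≤ Real.sqrt κ := Real.sqrt_nonneg _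
  have step1 : ∀ l ∈ U, ∑ i ∈ I, ψ i l * b i l ≤
      Real.sqrt κ * ((∑ j ∈ I, |ψ j l|) * σ l) := by
    intro l hl
    have h1 : ∑ i ∈ I, ψ i l * b i l ≤
        Real.sqrt (∑ i ∈ I, ψ i l ^ 2) * Real.sqrt (∑ i ∈ I, b i l ^ 2) :=
      Real.sum_mul_le_sqrt_mul_sqrt _ _ _
    have h2 : Real.sqrt (∑ i ∈ I, ψ i l ^ 2) ≤ Real.sqrt κ * (∑ j ∈ I, |ψ j l|) := by
      have h3 := hkash (fun j => ψ j l) (hE l hl)
      have h4 : (0 : ℝ) ≤ ∑ j ∈ I, |ψ j l| := Finset.sum_nonneg (fun _ _ => abs_nonneg _)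
      calc Real.sqrt (∑ i ∈ I, ψ i l ^ 2) ≤ Real.sqrt (κ * (∑ j ∈ I, |ψ j l|) ^ 2) :=
            Real.sqrt_le_sqrt h3
        _ = Real.sqrt κ * (∑ j ∈ I, |ψ j l|) := by
            rw [Real.sqrt_mul hκ, Real.sqrt_sq h4]
    calc ∑ i ∈ I, ψ i l * b i l ≤
        Real.sqrt (∑ i ∈ I, ψ i l ^ 2) * Real.sqrt (∑ i ∈ I, b i l ^ 2) := h1
      _ ≤ (Real.sqrt κ * (∑ j ∈ I, |ψ j l|)) * Real.sqrt (∑ i ∈ I, b i l ^ 2) :=
          mul_le_mul_of_nonneg_right h2 (Real.sqrt_nonneg _)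
      _ = Real.sqrt κ * ((∑ j ∈ I, |ψ j l|) * σ l) := by
          rw [hσ]; unfold nsq; ring
  have step3 : ∀ j ∈ I, ∑ l ∈ U, |ψ j l| * σ l ≤ K1 * (C * N (rs U σ)) := by
    intro j hj
    have h1 : ∑ l ∈ U, |ψ j l| * σ l =
        ∑ l ∈ U, ψ j l * ((if 0 ≤ ψ j l then 1 else -1) * σ l) := by
      apply Finset.sum_congr rfl
      intro l _
      split_ifs with h0
      · rw [abs_of_nonneg h0]; ring
      · rw [abs_of_neg (not_le.1 h0)]; ring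
    have h2 := hψ j hj (fun l => (if 0 ≤ ψ j l then 1 else -1) * σ l)
    have h3 : N (rs U (fun l => (if 0 ≤ ψ j l then 1 else -1) * σ l)) ≤ C * N (rs U σ) := by
      apply h.uncond
      intro i _
      rw [abs_mul]
      have : |(if 0 ≤ ψ j i then (1 : ℝ) else -1)| = 1 := by split_ifs <;> simp
      rw [this, one_mul]
    rw [h1]
    exact (le_abs_self _).trans (h2.trans (mul_le_mul_of_nonneg_left h3 hK1))
  have step4 : N (rs U σ) ≤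
      2 * C ^ 2 * avgOn I (fun ε => N (rs U (fun l => ∑ i ∈ I, ε i * b i l))) := by
    rw [hσ]
    exact h.square_le_avg U I b
  calc ∑ i ∈ I, ∑ l ∈ U, ψ i l * b i l = ∑ l ∈ U, ∑ i ∈ I, ψ i l * b i l := Finset.sum_comm
    _ ≤ ∑ l ∈ U, Real.sqrt κ * ((∑ j ∈ I, |ψ j l|) * σ l) := Finset.sum_le_sum step1
    _ = Real.sqrt κ * ∑ j ∈ I, ∑ l ∈ U, |ψ j l| * σ l := by
        rw [← Finset.mul_sum, Finset.sum_comm]
        congr 1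
        apply Finset.sum_congr rfl
        intro l _
        rw [Finset.sum_mul]
    _ ≤ Real.sqrt κ * ∑ j ∈ I, K1 * (C * N (rs U σ)) :=
        mul_le_mul_of_nonneg_left (Finset.sum_le_sum step3) hκs
    _ = Real.sqrt κ * (I.card * (K1 * (C * N (rs U σ)))) := by
        rw [Finset.sum_const, nsmul_eq_mul]
    _ ≤ Real.sqrt κ * (I.card * (K1 * (C * (2 * C ^ 2 *
          avgOn I (fun ε => N (rs U (fun l => ∑ i ∈ I, ε i * b i l))))))) := by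
        gcongr
    _ = _ := by ring

end Pool.Agent.Helper52.CS
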