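import Pool.Agent.Helper52.CS.ExtBound
import Pool.Agent.Helper52.CS.TraceIneq
import Pool.Agent.Helper52.CS.AvgProj

/-! CS-20. The part of a factorisation through the blocks after `n`.
PROOF. Let `K1, G1` from ext_bound, `K3, G3` from avg_proj, `G0 = max G1 G3`. Apply ext_bound to `z j / K` (Dual by h1): `S`. Put `U = bu s M`,
`ψ j l = ∑_{m ∈ M} ∑_{i ∈ bl s m} z j i · rop (bl s m) (q m) S (δ_l) i` (`δ_l` = unit vector; only the block of `l` contributes). By rop_expand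
`∑_{l ∈ U} ψ j l x l = ∑_m ∑_i z j i rop x i`, so `|∑ ψ j l x l| ≤ K K1 N (rs U x)`. For `l ∈ U`, `l ∈ bl s m`, the vector `y = rs (bl s m) (rop δ_l)` is in
`Yalg s q B` (rop_mem, `m ∈ M ⊆ B`), so (h2) `ap (bl s n) (q n) (ψ · l) = 0` on `bl s n`. Since `b i` is killed by all `ap`, rop_id gives
`∑_{l ∈ U} ψ i l b i l = ∑_{l ∈ U} z i l b i l`. trace_ineq with `κ = C0 (1 + log (N_n/d)) / d`: the sum is at most `2 C³ K K1 sqrt κ N_n avg N (rs U ∑ ε_i b_i)`.
`rs U` of `∑ ε_i • b i` is a restriction of it: `≤ C N (∑ ε_i • b i) ≤ C (K N (rs (bl s n) (ε - Qε)) + η N_n)`, average `≤ C (K K3 φ + η N_n)`.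
`sqrt κ ≤ sqrt (29 C0 g^29 / N_n)` (log_le, d_lo); `N_n sqrt κ φ ≤ sqrt (29 C0) g^(29/2) sqrt N_n φ ≤ sqrt (29 C0) g^(29/2 - 16) N_n ≤ sqrt(29 C0) N_n / g` (f_lo);
`N_n sqrt κ η N_n ≤ sqrt (29 C0) g^(29/2) sqrt (N_n) η N_n ≤ ... N_n / g · C^6` using `η ≤ 1 / N_n` and `sqrt N_n ≥ g^16 / C³` (Nlow). -/

set_option autoImplicit false

namespace Pool.Agent.Helper52.CS

open Finset

variable {N : F0 → ℝ} {C C0 Λ : ℝ} {L0 : ℕ}

private theorem LargePart_disj {s : ℕ → ℕ} (hs : StrictMono s) {m m' : ℕ} (hne : m ≠ m') :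
    Disjoint (bl s m) (bl s m') := by
  rw [Finset.disjoint_left]
  intro i hi hi'
  unfold bl at hi hi'
  rw [Finset.mem_Ico] at hi hi'
  rcases lt_or_gt_of_ne hne with hlt | hlt
  · have h1 : s (m + 1) ≤ s m' := hs.monotone (by omega)
    omega
  · have h1 : s (m' + 1) ≤ s m := hs.monotone (by omega)
    omega

private theorem LargePart_sum {s : ℕ → ℕ} (hs : StrictMono s) (M : Finset ℕ) (f : ℕ → ℝ) :
    ∑ l ∈ bu s M, f l = ∑ m ∈ M, ∑ l ∈ bl s m, f l := by
  unfold bu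
  exact Finset.sum_biUnion fun m _ m' _ hne => LargePart_disj hs hne

private theorem LargePart_rop_zero {q : ℕ → ℕ → ℝ} (I S : Finset ℕ) (l i : ℕ)
    (hl : l ∉ I) (hi : i ∈ I) : rop I q S (fun j => if j = l then 1 else 0) i = 0 := by
  have h0 : ∀ i', ap I q (fun j => if j = l then (1 : ℝ) else 0) i' = 0 := by
    intro i'
    unfold ap
    refine Finset.sum_eq_zero fun j hj => ?_
    have : j ≠ l := by rintro rfl; exact hl hj
    simp [this]
  have h1 : i ≠ l := by rintro rfl; exact hl hi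
  unfold rop
  have h2 : (fun l' => if l' ∈ S then ap I q (fun j => if j = l then (1 : ℝ) else 0) l' else 0) =
      fun _ => 0 := by
    funext l'
    rw [h0]
    simp
  rw [h2, h0]
  unfold ap
  simp [h1]

private theorem LargePart_avg (I : Finset ℕ) (F G : (ℕ → ℝ) → ℝ) (a c : ℝ)
    (hFG : ∀ T ∈ I.powerset, F (sgn T) ≤ a * G (sgn T) + c) : avgOn I F ≤ a * avgOn I G + c := by
  unfold avgOn
  have hpos : (0 : ℝ) < 2 ^ I.card := by positivity
  have h1 : ∑ T ∈ I.powerset, F (sgn T) ≤ ∑ T ∈ I.powerset, (a * G (sgn T) + c) :=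
    Finset.sum_le_sum hFG
  have h2 : ∑ T ∈ I.powerset, (a * G (sgn T) + c) =
      a * ∑ T ∈ I.powerset, G (sgn T) + 2 ^ I.card * c := by
    rw [Finset.sum_add_distrib, ← Finset.mul_sum, Finset.sum_const, Finset.card_powerset]
    simp
  rw [h2] at h1
  calc (∑ T ∈ I.powerset, F (sgn T)) / 2 ^ I.card
      ≤ (a * ∑ T ∈ I.powerset, G (sgn T) + 2 ^ I.card * c) / 2 ^ I.card :=
        div_le_div_of_nonneg_right h1 hpos.le
    _ = _ := by field_simp

private theorem LargePart_sgn (T : Finset ℕ) (i : ℕ) : |sgn T i| = 1 := by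
  unfold sgn
  split_ifs <;> simp

theorem LNorm.large_part (h : LNorm N C) (hL : Low N C L0) (hC0 : 1 ≤ C0) (hΛ : 1 ≤ Λ) :
    ∃ (K5 : ℝ) (G0 : ℕ), 0 ≤ K5 ∧
    ∀ (s g d : ℕ → ℕ) (q : ℕ → ℕ → ℕ → ℝ), Par N C0 Λ s g d q → (∀ m, G0 ≤ g m) →
      ∀ (n : ℕ) (B : Set ℕ) (K : ℝ), 1 ≤ K → ∀ z : ℕ → ℕ → ℝ,
      (∀ j ∈ bl s n, ∀ (J : Finset ℕ) (x : ℕ → ℝ), |∑ i ∈ J, z j i * x i| ≤ K * N (rs J x)) →
      (∀ y ∈ Yalg s q B, ∀ i ∈ bl s n,
        ap (bl s n) (q n) (fun j => ∑ l ∈ y.support, z j l * y l) i = 0) →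
      ∀ (η : ℝ), 0 < η → η * (bl s n).card ≤ 1 →
      ∀ (b : ℕ → F0), (∀ i ∈ bl s n, b i ∈ Yalg s q B) →
      (∀ a : ℕ → ℝ, N (∑ i ∈ bl s n, a i • b i) ≤
        K * N (rs (bl s n) (fun i => a i - ap (bl s n) (q n) a i)) + η * ∑ i ∈ bl s n, |a i|) →
      ∀ M : Finset ℕ, (∀ m ∈ M, n < m ∧ m ∈ B) →
        ∑ i ∈ bl s n, ∑ l ∈ bu s M, z i l * b i l ≤ K5 * K ^ 2 * ((bl s n).card / g n) := by
  obtain ⟨K1, G1, hK1, hext⟩ := h.ext_bound hL hC0 hΛ
  obtain ⟨K3, G3, hK3, havg⟩ := h.avg_proj hC0 hΛ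
  have hC1 : 1 ≤ C := h.one_le
  have hC0' : 0 ≤ C := by linarith
  refine ⟨2 * C ^ 4 * K1 * Real.sqrt (29 * C0) * (K3 + C ^ 3), max G1 G3, by positivity, ?_⟩
  intro s g d q hP hG n B K hK z h1 h2 η hη hη1 b hb h3 M hM
  have hs := hP.mono
  have hK0 : 0 < K := by linarith
  obtain ⟨S, hS⟩ := hext s g d q hP (fun m => (le_max_left _ _).trans (hG m)) n M
    (fun m hm => (hM m hm).1) (fun j i => z j i / K) (by
      intro j hj J x
      have h4 := h1 j hj J x
      have h5 : ∑ i ∈ J, z j i / K * x i = (∑ i ∈ J, z j i * x i) / K := by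
        rw [Finset.sum_div]
        exact Finset.sum_congr rfl fun i _ => by ring
      rw [h5, abs_div, abs_of_pos hK0, div_le_iff₀ hK0, mul_comm]
      exact h4)
  have hS' : ∀ j ∈ bl s n, ∀ x : ℕ → ℝ,
      |∑ m ∈ M, ∑ i ∈ bl s m, z j i * rop (bl s m) (q m) S x i| ≤
        K * K1 * N (rs (bu s M) x) := by
    intro j hj x
    have h4 := hS j hj x
    have h5 : ∑ m ∈ M, ∑ i ∈ bl s m, z j i / K * rop (bl s m) (q m) S x i =
        (∑ m ∈ M, ∑ i ∈ bl s m, z j i * rop (bl s m) (q m) S x i) / K := by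
      rw [Finset.sum_div]
      refine Finset.sum_congr rfl fun m _ => ?_
      rw [Finset.sum_div]
      exact Finset.sum_congr rfl fun i _ => by ring
    rw [h5, abs_div, abs_of_pos hK0, div_le_iff₀ hK0] at h4
    calc _ ≤ _ := h4
      _ = _ := by ring
  -- the modified functionals
  set ψm : ℕ → ℕ → ℕ → ℝ := fun m j l => ∑ i ∈ bl s m, z j i *
    rop (bl s m) (q m) S (fun j' => if j' = l then 1 else 0) i with hψm
  set ψ : ℕ → ℕ → ℝ := fun j l => ∑ m ∈ M, ψm m j l with hψ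
  have hψm0 : ∀ m j l, l ∉ bl s m → ψm m j l = 0 := by
    intro m j l hl
    refine Finset.sum_eq_zero fun i hi => ?_
    rw [LargePart_rop_zero (bl s m) S l i hl hi, mul_zero]
  have hψeq : ∀ m ∈ M, ∀ j, ∀ l ∈ bl s m, ψ j l = ψm m j l := by
    intro m hm j l hl
    refine Finset.sum_eq_single_of_mem m hm fun m' _ hne => ?_
    exact hψm0 m' j l fun hl' => (Finset.disjoint_left.1 (LargePart_disj hs hne)) hl' hl
  have hexp : ∀ (j : ℕ) (x : ℕ → ℝ), ∑ l ∈ bu s M, ψ j l * x l =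
      ∑ m ∈ M, ∑ i ∈ bl s m, z j i * rop (bl s m) (q m) S x i := by
    intro j x
    rw [LargePart_sum hs]
    refine Finset.sum_congr rfl fun m hm => ?_
    have h4 : ∑ i ∈ bl s m, z j i * rop (bl s m) (q m) S x i =
        ∑ i ∈ bl s m, ∑ l ∈ bl s m, z j i * (x l *
          rop (bl s m) (q m) S (fun j' => if j' = l then 1 else 0) i) := by
      refine Finset.sum_congr rfl fun i hi => ?_
      rw [rop_expand S x i hi, Finset.mul_sum]
    rw [h4, Finset.sum_comm]
    refine Finset.sum_congr rfl fun l hl => ?_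
    rw [hψeq m hm j l hl, hψm]
    simp only
    rw [Finset.sum_mul]
    exact Finset.sum_congr rfl fun i _ => by ring
  have hψK : ∀ j ∈ bl s n, ∀ x : ℕ → ℝ, |∑ l ∈ bu s M, ψ j l * x l| ≤
      K * K1 * N (rs (bu s M) x) := by
    intro j hj x
    rw [hexp]
    exact hS' j hj x
  -- the image of a unit vector
  have hE : ∀ l ∈ bu s M, ∀ i ∈ bl s n, ap (bl s n) (q n) (fun j => ψ j l) i = 0 := by
    intro l hl i hi
    obtain ⟨m, hm, hlm⟩ : ∃ m ∈ M, l ∈ bl s m := by
      unfold bu at hl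
      simpa using hl
    set r : ℕ → ℝ := rop (bl s m) (q m) S (fun j' => if j' = l then 1 else 0) with hr
    set y : F0 := rs (bl s m) r with hy
    have hyap : ∀ i', y i' = if i' ∈ bl s m then r i' else 0 := fun i' => rs_apply _ _ _
    have hyY : y ∈ Yalg s q B := by
      refine ⟨?_, ?_⟩
      · intro i' hi'
        refine ⟨m, (hM m hm).2, ?_⟩
        by_contra hnot
        rw [hyap, if_neg hnot] at hi'
        exact hi' rfl
      · intro m' i' hi'
        by_cases hmm : m' = m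
        · subst hmm
          have h4 : ap (bl s m') (q m') y i' = ap (bl s m') (q m') r i' := by
            unfold ap
            refine Finset.sum_congr rfl fun j hj => ?_
            rw [hyap, if_pos hj]
          rw [h4]
          exact (hP.good m').rop_mem S _ i' hi'
        · unfold ap
          refine Finset.sum_eq_zero fun j hj => ?_
          rw [hyap, if_neg fun hj' => (Finset.disjoint_left.1 (LargePart_disj hs hmm)) hj hj',
            mul_zero]
    have h4 := h2 y hyY i hi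
    have h5 : (fun j => ∑ l' ∈ y.support, z j l' * y l') = fun j => ψ j l := by
      funext j
      rw [hψeq m hm j l hlm]
      have hsub : y.support ⊆ bl s m := by
        intro i' hi'
        rw [Finsupp.mem_support_iff] at hi'
        by_contra hnot
        rw [hyap, if_neg hnot] at hi'
        exact hi' rfl
      rw [Finset.sum_subset hsub (fun i' _ hi' => by
        rw [Finsupp.notMem_support_iff.1 hi', mul_zero])]
      refine Finset.sum_congr rfl fun i' hi' => ?_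
      rw [hyap, if_pos hi']
    rw [h5] at h4
    exact h4
  -- numbers
  set Nn : ℝ := ((bl s n).card : ℝ) with hNn
  set φ : ℝ := N (rs (bl s n) (fun _ => 1)) with hφ
  have hNn0 : 0 < Nn := by
    have := hP.card_pos n
    rw [hNn]
    exact_mod_cast this
  have hg1 : (1 : ℝ) ≤ g n := hP.g_pos n
  have hg0 : (0 : ℝ) < g n := by linarith
  have hd0 : (0 : ℝ) < d n := by
    have := hP.d_big n
    exact_mod_cast (by omega : 0 < d n)
  obtain ⟨hlog0, hlog1⟩ := hP.log_le n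
  have hφ0 : 0 ≤ φ := h.nonneg _
  set κ : ℝ := C0 * (1 + Real.log (Nn / d n)) / d n with hκ
  have hκ0 : 0 ≤ κ := by
    have : 0 ≤ 1 + Real.log (Nn / d n) := by linarith
    positivity
  have hκ1 : κ * Nn ≤ 29 * C0 * (g n : ℝ) ^ 29 := by
    have h4 : Nn ≤ d n * (g n : ℝ) ^ 28 := by
      have := hP.d_lo n
      rw [hNn]
      exact_mod_cast this
    have h5 : κ * Nn ≤ κ * (d n * (g n : ℝ) ^ 28) := mul_le_mul_of_nonneg_left h4 hκ0
    have h6 : κ * (d n * (g n : ℝ) ^ 28) = C0 * (1 + Real.log (Nn / d n)) * (g n : ℝ) ^ 28 := by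
      rw [hκ]
      field_simp
    rw [h6] at h5
    have h7 : C0 * (1 + Real.log (Nn / d n)) * (g n : ℝ) ^ 28 ≤
        C0 * (29 * g n) * (g n : ℝ) ^ 28 :=
      mul_le_mul_of_nonneg_right (mul_le_mul_of_nonneg_left hlog1 (by linarith)) (by positivity)
    calc κ * Nn ≤ _ := h5
      _ ≤ _ := h7
      _ = _ := by ring
  have hflo : (g n : ℝ) ^ 32 * φ ^ 2 ≤ Nn := hP.f_lo n
  have hNlow : (g n : ℝ) ^ 32 ≤ C ^ 6 * Nn := hP.Nlow h n
  have hgpow : (g n : ℝ) ^ 31 ≤ (g n : ℝ) ^ 32 := pow_le_pow_right₀ hg1 (by norm_num)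
  -- `sqrt κ φ ≤ sqrt (29 C0) / g`
  have hb1 : Real.sqrt κ * φ ≤ Real.sqrt (29 * C0) / g n := by
    rw [le_div_iff₀ hg0]
    refine (pow_le_pow_iff_left₀ (by positivity) (Real.sqrt_nonneg _) (two_ne_zero)).1 ?_
    rw [mul_pow, mul_pow, Real.sq_sqrt hκ0, Real.sq_sqrt (by positivity)]
    -- κ φ² g² ≤ 29 C0
    have h4 : κ * φ ^ 2 * (g n : ℝ) ^ 2 * ((g n : ℝ) ^ 30) ≤ 29 * C0 * (g n : ℝ) ^ 30 := by
      calc κ * φ ^ 2 * (g n : ℝ) ^ 2 * ((g n : ℝ) ^ 30) = κ * ((g n : ℝ) ^ 32 * φ ^ 2) := by ring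
        _ ≤ κ * Nn := mul_le_mul_of_nonneg_left hflo hκ0
        _ ≤ 29 * C0 * (g n : ℝ) ^ 29 := hκ1
        _ ≤ 29 * C0 * (g n : ℝ) ^ 30 :=
          mul_le_mul_of_nonneg_left (pow_le_pow_right₀ hg1 (by norm_num)) (by positivity)
    exact le_of_mul_le_mul_right h4 (by positivity)
  have hb2 : Real.sqrt κ * (η * Nn) ≤ Real.sqrt (29 * C0) * C ^ 3 / g n := by
    have h5 : Real.sqrt κ ≤ Real.sqrt (29 * C0) * C ^ 3 / g n := by
      rw [le_div_iff₀ hg0]
      refine (pow_le_pow_iff_left₀ (by positivity) (by positivity) (two_ne_zero)).1 ?_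
      rw [mul_pow, mul_pow, Real.sq_sqrt hκ0, Real.sq_sqrt (by positivity)]
      have h4 : κ * (g n : ℝ) ^ 2 * ((g n : ℝ) ^ 30) ≤ 29 * C0 * (C ^ 3) ^ 2 * (g n : ℝ) ^ 30 := by
        calc κ * (g n : ℝ) ^ 2 * ((g n : ℝ) ^ 30) = κ * (g n : ℝ) ^ 32 := by ring
          _ ≤ κ * (C ^ 6 * Nn) := mul_le_mul_of_nonneg_left hNlow hκ0
          _ = C ^ 6 * (κ * Nn) := by ring
          _ ≤ C ^ 6 * (29 * C0 * (g n : ℝ) ^ 29) :=
            mul_le_mul_of_nonneg_left hκ1 (by positivity)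
          _ ≤ C ^ 6 * (29 * C0 * (g n : ℝ) ^ 30) := by
            refine mul_le_mul_of_nonneg_left ?_ (by positivity)
            exact mul_le_mul_of_nonneg_left (pow_le_pow_right₀ hg1 (by norm_num)) (by positivity)
          _ = _ := by ring
      exact le_of_mul_le_mul_right h4 (by positivity)
    calc Real.sqrt κ * (η * Nn) ≤ Real.sqrt κ * 1 :=
          mul_le_mul_of_nonneg_left hη1 (Real.sqrt_nonneg _)
      _ = Real.sqrt κ := mul_one _
      _ ≤ _ := h5
  -- trace inequality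
  have htr := h.trace_ineq (bl s n) (bu s M) (q n) κ (K * K1) hκ0 (by positivity)
    (fun x hx => (hP.good n).kash x hx) ψ hψK hE (fun i l => b i l)
  have hleft : ∑ i ∈ bl s n, ∑ l ∈ bu s M, ψ i l * b i l =
      ∑ i ∈ bl s n, ∑ l ∈ bu s M, z i l * b i l := by
    refine Finset.sum_congr rfl fun i hi => ?_
    rw [hexp, LargePart_sum hs]
    refine Finset.sum_congr rfl fun m hm => ?_
    refine Finset.sum_congr rfl fun i' hi' => ?_
    rw [rop_id S (b i) (fun i'' hi'' => (hb i hi).2 m i'' hi'') i' hi']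
  rw [hleft] at htr
  -- the average
  have havg1 : avgOn (bl s n) (fun ε => N (rs (bu s M) (fun l => ∑ i ∈ bl s n, ε i * b i l))) ≤
      (C * K) * avgOn (bl s n) (fun ε => N (rs (bl s n)
        (fun i => ε i - ap (bl s n) (q n) ε i))) + C * (η * Nn) := by
    refine LargePart_avg _ _ _ _ _ fun T _ => ?_
    set v : F0 := ∑ i ∈ bl s n, sgn T i • b i with hv
    have hvl : ∀ l, v l = ∑ i ∈ bl s n, sgn T i * b i l := by
      intro l
      rw [hv, Finsupp.finsetSum_apply]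
      rfl
    have h4 : rs (bu s M) (fun l => ∑ i ∈ bl s n, sgn T i * b i l) = rs (bu s M) v := by
      congr 1
      funext l
      exact (hvl l).symm
    have h5 : rs (bu s M ∪ v.support) v = v := by
      ext l
      rw [rs_apply]
      split_ifs with hl
      · rfl
      · rw [Finset.mem_union, not_or] at hl
        exact (Finsupp.notMem_support_iff.1 hl.2).symm
    have h6 := h.rs_mono (bu s M) (bu s M ∪ v.support) Finset.subset_union_left v
    rw [h5] at h6
    rw [h4]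
    have h7 := h3 (sgn T)
    have h8 : ∑ i ∈ bl s n, |sgn T i| = Nn := by
      simp only [LargePart_sgn]
      simp [hNn]
    rw [h8] at h7
    calc N (rs (bu s M) v) ≤ C * N v := h6
      _ ≤ C * (K * N (rs (bl s n) (fun i => sgn T i - ap (bl s n) (q n) (sgn T) i)) +
          η * Nn) := mul_le_mul_of_nonneg_left h7 hC0'
      _ = _ := by ring
  have havg2 := havg s g d q hP (fun m => (le_max_right _ _).trans (hG m)) n
  have havg3 : avgOn (bl s n) (fun ε => N (rs (bu s M) (fun l => ∑ i ∈ bl s n, ε i * b i l))) ≤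
      C * K * (K3 * φ) + C * (η * Nn) :=
    havg1.trans (by
      have := mul_le_mul_of_nonneg_left havg2 (by positivity : 0 ≤ C * K)
      linarith)
  -- conclusion
  have hcoef : 0 ≤ 2 * C ^ 3 * (K * K1) * Nn := by positivity
  calc ∑ i ∈ bl s n, ∑ l ∈ bu s M, z i l * b i l
      ≤ 2 * C ^ 3 * (K * K1) * Real.sqrt κ * Nn *
        avgOn (bl s n) (fun ε => N (rs (bu s M) (fun l => ∑ i ∈ bl s n, ε i * b i l))) := htr
    _ ≤ 2 * C ^ 3 * (K * K1) * Real.sqrt κ * Nn * (C * K * (K3 * φ) + C * (η * Nn)) :=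
        mul_le_mul_of_nonneg_left havg3 (by positivity)
    _ = 2 * C ^ 3 * (K * K1) * Nn * (C * K * K3 * (Real.sqrt κ * φ) +
        C * (Real.sqrt κ * (η * Nn))) := by ring
    _ ≤ 2 * C ^ 3 * (K * K1) * Nn * (C * K * K3 * (Real.sqrt (29 * C0) / g n) +
        C * (Real.sqrt (29 * C0) * C ^ 3 / g n)) := by
        refine mul_le_mul_of_nonneg_left ?_ hcoef
        exact add_le_add (mul_le_mul_of_nonneg_left hb1 (by positivity))
          (mul_le_mul_of_nonneg_left hb2 hC0')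
    _ ≤ 2 * C ^ 3 * (K * K1) * Nn * (C * K * K3 * (Real.sqrt (29 * C0) / g n) +
        C * K * (Real.sqrt (29 * C0) * C ^ 3 / g n)) := by
        refine mul_le_mul_of_nonneg_left ?_ hcoef
        refine add_le_add le_rfl (mul_le_mul_of_nonneg_right ?_ (by positivity))
        nlinarith
    _ = _ := by
        rw [hNn]
        ring

end Pool.Agent.Helper52.CS
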