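import Pool.Agent.Helper52.CS.SmallPart
import Pool.Agent.Helper52.CS.LargePart

/-! CS-21. No factorisation.
PROOF. Suppose `Fac N s q n B K`, WLOG `K ≥ 1` (Fac is monotone in `K`; replace `K` by `max K 1`). Take `η = 1 / N_n`, `N_n = card (bl s n)`, and `b`. `Σ = ∑_{i ∈ bl s n} ∑_{l ∈ support} z i l b i l ≥
∑_i (1 - q n i i - η) ≥ N_n - d_n - 1 ≥ N_n / 2`. Let `M` be the finite set of `m > n`, `m ∈ B`, whose block meets the support of some `b i`. As `n ∉ B`, every `l` with `b i l ≠ 0` is either `< s n`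
or in `bu s M`. So `Σ = small + large`, `small ≤ s n (C^11 K² sqrt N_n + C^7 K) ≤ 2 C^11 K² g sqrt N_n` (`s n ≤ g n`), `sqrt N_n ≤ C³ N_n / g^16` (Nlow), so small `≤ 2 C^14 K² N_n / g`;
large `≤ K5 K² N_n / g`. Contradiction when `g n > 2 K² (2 C^14 + K5)`; `g n ≥ 16^(n+1)`. -/

set_option autoImplicit false

namespace Pool.Agent.Helper52.CS

open Finset

variable {N : F0 → ℝ} {C C0 Λ : ℝ} {L0 : ℕ}

theorem LNorm.no_factor (h : LNorm N C) (hL : Low N C L0) (hC0 : 1 ≤ C0) (hΛ : 1 ≤ Λ) :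
    ∃ G0 : ℕ, ∀ (s g d : ℕ → ℕ) (q : ℕ → ℕ → ℕ → ℝ), Par N C0 Λ s g d q → (∀ m, G0 ≤ g m) →
      ∀ K : ℝ, ∃ n0 : ℕ, ∀ n, n0 ≤ n → ∀ B : Set ℕ, n ∉ B → ¬ Fac N s q n B K := by
  classical
  obtain ⟨K5, G0, hK5, hlarge⟩ := h.large_part hL hC0 hΛ
  refine ⟨G0, ?_⟩
  intro s g d q hP hg K0
  have hC1 : 1 ≤ C := h.one_le
  set K : ℝ := max K0 1 with hK
  have hK1 : 1 ≤ K := le_max_right _ _
  have hK0K : K0 ≤ K := le_max_left _ _
  obtain ⟨n0, hn0⟩ := exists_nat_ge (2 * ((2 * C ^ 14 + K5) * K ^ 2))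
  refine ⟨n0, ?_⟩
  rintro n hn B hnB ⟨z, h1, h2, h3⟩
  have hs := hP.mono
  set Nn : ℝ := ((bl s n).card : ℝ) with hNn
  have hNpos : 0 < Nn := by
    rw [hNn]
    exact_mod_cast hP.card_pos n
  have hd1 : (100 : ℝ) ≤ d n := by exact_mod_cast hP.d_big n
  have hd2 : 100 * (d n : ℝ) ≤ Nn := by
    rw [hNn]
    exact_mod_cast hP.d_small n
  have hg1 : (1 : ℝ) ≤ g n := hP.g_pos n
  have hg0 : (0 : ℝ) < g n := by linarith
  -- the data at `η = 1 / N_n`
  obtain ⟨b, hb1, hb2, hb3⟩ := h3 (1 / Nn) (by positivity)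
  have h1' : ∀ j ∈ bl s n, ∀ (J : Finset ℕ) (x : ℕ → ℝ), |∑ i ∈ J, z j i * x i| ≤ K * N (rs J x) := by
    intro j hj J x
    refine (h1 j hj J x).trans ?_
    exact mul_le_mul_of_nonneg_right hK0K (h.nonneg _)
  have hb3' : ∀ a : ℕ → ℝ, N (∑ i ∈ bl s n, a i • b i) ≤
      K * N (rs (bl s n) (fun i => a i - ap (bl s n) (q n) a i)) + (1 / Nn) * ∑ i ∈ bl s n, |a i| := by
    intro a
    refine (hb3 a).trans ?_
    have := mul_le_mul_of_nonneg_right hK0K
      (h.nonneg (rs (bl s n) (fun i => a i - ap (bl s n) (q n) a i)))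
    linarith
  -- the trace
  have htr : Nn / 2 ≤ ∑ i ∈ bl s n, ∑ l ∈ (b i).support, z i l * b i l := by
    have e1 : ∀ i ∈ bl s n, 1 - q n i i - 1 / Nn ≤ ∑ l ∈ (b i).support, z i l * b i l := by
      intro i hi
      have e2 := hb2 i hi i hi
      rw [if_pos rfl] at e2
      have e3 := (abs_le.1 e2).1
      linarith
    have e4 := Finset.sum_le_sum e1
    have e5 : ∑ i ∈ bl s n, (1 - q n i i - 1 / Nn) = Nn - (∑ i ∈ bl s n, q n i i) - 1 := by
      rw [Finset.sum_sub_distrib, Finset.sum_sub_distrib, Finset.sum_const, Finset.sum_const,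
        nsmul_eq_mul, nsmul_eq_mul, ← hNn]
      field_simp
    rw [e5] at e4
    have e6 : ∑ i ∈ bl s n, q n i i ≤ d n := (hP.good n).trace
    linarith
  -- the blocks after `n`
  set T : ℕ := ((bl s n).biUnion (fun i => (b i).support)).sup id + 1 with hT
  set M : Finset ℕ := (Finset.range T).filter (fun m => n < m ∧ m ∈ B) with hM
  have hMm : ∀ m ∈ M, n < m ∧ m ∈ B := by
    intro m hm
    exact (Finset.mem_filter.1 hm).2
  have hdisj : Disjoint (Finset.range (s n)) (bu s M) := by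
    rw [Finset.disjoint_left]
    intro l hl hl'
    unfold bu at hl'
    obtain ⟨m, hm, hml⟩ := Finset.mem_biUnion.1 hl'
    have e1 := (hMm m hm).1
    have e2 : s n ≤ s m := hs.monotone e1.le
    unfold bl at hml
    rw [Finset.mem_Ico] at hml
    rw [Finset.mem_range] at hl
    omega
  have hsupp : ∀ i ∈ bl s n, (b i).support ⊆ Finset.range (s n) ∪ bu s M := by
    intro i hi l hl
    obtain ⟨m, hmB, hml⟩ := (hb1 i hi).1 l (Finsupp.mem_support_iff.1 hl)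
    have hmn : m ≠ n := by
      rintro rfl
      exact hnB hmB
    have hml' := hml
    unfold bl at hml'
    rw [Finset.mem_Ico] at hml'
    rw [Finset.mem_union]
    rcases lt_or_gt_of_ne hmn with hlt | hgt
    · left
      rw [Finset.mem_range]
      have : s (m + 1) ≤ s n := hs.monotone hlt
      omega
    · right
      unfold bu
      refine Finset.mem_biUnion.2 ⟨m, ?_, hml⟩
      rw [hM, Finset.mem_filter]
      refine ⟨?_, hgt, hmB⟩
      rw [Finset.mem_range, hT]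
      have e1 : l ≤ ((bl s n).biUnion (fun i => (b i).support)).sup id :=
        Finset.le_sup (f := id) (Finset.mem_biUnion.2 ⟨i, hi, hl⟩)
      have e2 : m ≤ s m := hs.le_apply
      omega
  have hsplit : ∀ i ∈ bl s n, ∑ l ∈ (b i).support, z i l * b i l =
      ∑ l ∈ Finset.range (s n), z i l * b i l + ∑ l ∈ bu s M, z i l * b i l := by
    intro i hi
    rw [← Finset.sum_union hdisj]
    refine Finset.sum_subset (hsupp i hi) ?_
    intro l _ hl
    rw [Finsupp.notMem_support_iff.1 hl, mul_zero]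
  rw [Finset.sum_congr rfl hsplit, Finset.sum_add_distrib] at htr
  have hsmall := h.small_part hP n B K hK1 z h1' h2 (1 / Nn) (by positivity) b hb1 hb3'
  have hlarge' := hlarge s g d q hP hg n B K hK1 z h1' h2 (1 / Nn) (by positivity)
    (by rw [← hNn]; exact le_of_eq (by field_simp)) b hb1 hb3' M hMm
  have hsmall' := le_trans (le_abs_self _) hsmall
  rw [← hNn] at hsmall' hlarge'
  -- the size of the small part
  have hsq1 : 1 ≤ Real.sqrt Nn := by
    rw [Real.one_le_sqrt]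
    linarith
  have hsg : (s n : ℝ) ≤ g n := by exact_mod_cast hP.g_s n
  have hNlow : (g n : ℝ) ^ 16 ≤ C ^ 3 * Real.sqrt Nn := by
    have e1 := hP.Nlow h n
    rw [← hNn] at e1
    have e2 : ((g n : ℝ) ^ 16) ^ 2 ≤ (C ^ 3 * Real.sqrt Nn) ^ 2 := by
      rw [mul_pow, Real.sq_sqrt hNpos.le]
      calc ((g n : ℝ) ^ 16) ^ 2 = (g n : ℝ) ^ 32 := by ring
        _ ≤ C ^ 6 * Nn := e1
        _ = (C ^ 3) ^ 2 * Nn := by ring
    exact le_of_sq_le_sq e2 (by positivity)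
  have hsqN : Real.sqrt Nn * g n ^ 2 ≤ C ^ 3 * Nn := by
    have e1 : (g n : ℝ) ^ 2 ≤ (g n : ℝ) ^ 16 := pow_le_pow_right₀ hg1 (by norm_num)
    calc Real.sqrt Nn * g n ^ 2 ≤ Real.sqrt Nn * (g n : ℝ) ^ 16 := by gcongr
      _ ≤ Real.sqrt Nn * (C ^ 3 * Real.sqrt Nn) := by gcongr
      _ = C ^ 3 * (Real.sqrt Nn) ^ 2 := by ring
      _ = C ^ 3 * Nn := by rw [Real.sq_sqrt hNpos.le]
  have hbd : (s n : ℝ) * (C ^ 11 * K ^ 2 * Real.sqrt Nn + C ^ 7 * K * (1 / Nn) * Nn) ≤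
      2 * C ^ 14 * K ^ 2 * (Nn / g n) := by
    have e1 : C ^ 7 * K * (1 / Nn) * Nn = C ^ 7 * K := by field_simp
    rw [e1]
    have e2 : C ^ 7 * K ≤ C ^ 11 * K ^ 2 * Real.sqrt Nn := by
      have e3 : C ^ 7 ≤ C ^ 11 := pow_le_pow_right₀ hC1 (by norm_num)
      have e4 : K ≤ K ^ 2 := by nlinarith
      calc C ^ 7 * K ≤ C ^ 11 * K ^ 2 := by gcongr
        _ = C ^ 11 * K ^ 2 * 1 := (mul_one _).symm
        _ ≤ C ^ 11 * K ^ 2 * Real.sqrt Nn := by gcongr
    calc (s n : ℝ) * (C ^ 11 * K ^ 2 * Real.sqrt Nn + C ^ 7 * K)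
        ≤ g n * (C ^ 11 * K ^ 2 * Real.sqrt Nn + C ^ 11 * K ^ 2 * Real.sqrt Nn) := by gcongr
      _ = 2 * C ^ 11 * K ^ 2 * (Real.sqrt Nn * g n ^ 2 / g n) := by
          field_simp
          ring
      _ ≤ 2 * C ^ 11 * K ^ 2 * (C ^ 3 * Nn / g n) := by gcongr
      _ = 2 * C ^ 14 * K ^ 2 * (Nn / g n) := by ring
  have hfin : Nn / 2 ≤ (2 * C ^ 14 + K5) * K ^ 2 * (Nn / g n) := by
    have e1 := hsmall'.trans hbd
    nlinarith [htr, e1, hlarge']
  have hgn : (n0 : ℝ) < g n := by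
    have e1 : n0 < 16 ^ (n + 1) := by
      have e2 : n + 1 < 16 ^ (n + 1) := Nat.lt_pow_self (by norm_num)
      omega
    exact_mod_cast lt_of_lt_of_le e1 (hP.g_lo n)
  have hcon : (g n : ℝ) ≤ 2 * ((2 * C ^ 14 + K5) * K ^ 2) := by
    have e1 : Nn / 2 * g n ≤ (2 * C ^ 14 + K5) * K ^ 2 * Nn := by
      calc Nn / 2 * g n ≤ (2 * C ^ 14 + K5) * K ^ 2 * (Nn / g n) * g n := by gcongr
        _ = (2 * C ^ 14 + K5) * K ^ 2 * Nn := by field_simp
    have e2 : Nn * g n ≤ Nn * (2 * ((2 * C ^ 14 + K5) * K ^ 2)) := by linarith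
    exact le_of_mul_le_mul_left e2 hNpos
  linarith

end Pool.Agent.Helper52.CS
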