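import Pool.Agent.Helper52.CS.Shift

/-! CS-18. Choice of the parameters.
PROOF. `Φ k = N (rs (range k) 1)`; `Φ k ≤ C Φ k'` for `k ≤ k'` (rs_mono), `N (rs (Ico a (a+k)) 1)` and `Φ k` differ by at most the factor `C²` (reloc), `Φ k ≥ 1/C³` for `k ≥ 1` (coord).
Given `a = s m` choose `g = g m` as the maximum of `G0`, `16^(m+1)`, `a`, and a constant `G1` (depending on `C`), and let `k` be the least `k ≥ 1` with `C^4 g^32 Φ(k)² ≤ k`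
(exists by hub). Then `g^32 N (rs (Ico a (a+k)) 1)² ≤ g^32 C^4 Φ(k)² ≤ k`: f_lo. `k ≥ 2` (as `C^4 g^32 Φ(1)² > 1` for `g ≥ G1`), minimality: `k - 1 < C^4 g^32 Φ(k-1)² ≤ C^6 g^32 Φ(k)²`,
so `k ≤ 2 (k - 1) ≤ 2 C^6 g^32 Φ(k)² ≤ 2 C^10 g^32 N(rs (Ico a (a+k)) 1)²`: f_hi with `Λ = 2 C^10`. `s (m+1) = a + k`, `d m = ⌈k / g^28⌉` (natural number
`(k + g^28 - 1) / g^28`): `k ≤ d g^28 ≤ k + g^28 ≤ 2 k`, since `k ≥ C^4 g^32 Φ(k)² ≥ g^32 / C^2 ≥ g^28 · 200` for `g ≥ G1`; `d ≥ k / g^28 ≥ 100`;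
`100 d ≤ 200 k / g^28 ≤ k`. Finally BlockExists gives `q m`. Define the sequence by recursion (`s 0 = 0`). -/

set_option autoImplicit false

namespace Pool.Agent.Helper52.CS

open Finset

variable {N : F0 → ℝ} {C C0 : ℝ}

private theorem image_add (a k : ℕ) : (Finset.range k).image (fun i => a + i) = Finset.Ico a (a + k) := by
  ext i
  simp only [Finset.mem_image, Finset.mem_range, Finset.mem_Ico]
  constructor
  · rintro ⟨j, hj, rfl⟩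
    omega
  · intro hi
    exact ⟨i - a, by omega, by omega⟩

private theorem reloc_ico (h : LNorm N C) (a k : ℕ) :
    N (rs (Finset.Ico a (a + k)) (fun _ => 1)) ≤ C ^ 2 * N (rs (Finset.range k) (fun _ => 1)) ∧
    N (rs (Finset.range k) (fun _ => 1)) ≤ C ^ 2 * N (rs (Finset.Ico a (a + k)) (fun _ => 1)) := by
  have h1 := h.reloc (Finset.range k) (fun i => a + i)
    (fun x _ y _ hxy => Nat.add_lt_add_left hxy a) (fun _ => 1) (fun _ => 1) (fun _ _ => rfl)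
  rw [image_add] at h1
  exact h1

private theorem step (h : LNorm N C) (hB : BlockExists C0)
    (hub : ∀ g : ℕ, ∃ k : ℕ, 1 ≤ k ∧ (g : ℝ) * N (rs (Finset.range k) (fun _ => 1)) ^ 2 ≤ k)
    (G0 a m : ℕ) : ∃ (g k d : ℕ) (q : ℕ → ℕ → ℝ), 16 ^ (m + 1) ≤ g ∧ a ≤ g ∧ G0 ≤ g ∧ 1 ≤ k ∧
      (g : ℝ) ^ 32 * N (rs (Finset.Ico a (a + k)) (fun _ => 1)) ^ 2 ≤ k ∧
      (k : ℝ) ≤ (2 * C ^ 10) * (g : ℝ) ^ 32 * N (rs (Finset.Ico a (a + k)) (fun _ => 1)) ^ 2 ∧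
      k ≤ d * g ^ 28 ∧ d * g ^ 28 ≤ 2 * k ∧ 100 ≤ d ∧ 100 * d ≤ k ∧
      Good (Finset.Ico a (a + k)) d C0 q := by
  classical
  have hC := h.one_le
  have hC0 : 0 < C := by linarith
  set Φ : ℕ → ℝ := fun k => N (rs (Finset.range k) (fun _ => 1)) with hΦ
  have hΦ0 : ∀ k, 0 ≤ Φ k := fun k => h.nonneg _
  -- the parameter g
  set g : ℕ := max (max G0 (16 ^ (m + 1))) (max a (⌈C ^ 2⌉₊ + 200)) with hg
  have hg1 : 16 ^ (m + 1) ≤ g := le_trans (le_max_right _ _) (le_max_left _ _)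
  have hg2 : a ≤ g := le_trans (le_max_left _ _) (le_max_right _ _)
  have hg3 : G0 ≤ g := le_trans (le_max_left _ _) (le_max_left _ _)
  have hg4 : ⌈C ^ 2⌉₊ + 200 ≤ g := le_trans (le_max_right _ _) (le_max_right _ _)
  clear_value g
  have hg5 : C ^ 2 ≤ (g : ℝ) := by
    have h1 : C ^ 2 ≤ (⌈C ^ 2⌉₊ : ℝ) := Nat.le_ceil _
    have h2 : ((⌈C ^ 2⌉₊ : ℕ) : ℝ) ≤ (g : ℝ) := by exact_mod_cast (by omega : ⌈C ^ 2⌉₊ ≤ g)
    linarith
  have hg6 : 200 ≤ g := by omega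
  have hgr : (200 : ℝ) ≤ g := by exact_mod_cast hg6
  have hgp : (0 : ℝ) < g := by linarith
  -- the length k
  have hex : ∃ k : ℕ, 1 ≤ k ∧ C ^ 4 * (g : ℝ) ^ 32 * Φ k ^ 2 ≤ k := by
    obtain ⟨k, hk1, hk2⟩ := hub ⌈C ^ 4 * (g : ℝ) ^ 32⌉₊
    refine ⟨k, hk1, le_trans ?_ hk2⟩
    exact mul_le_mul_of_nonneg_right (Nat.le_ceil _) (sq_nonneg _)
  obtain ⟨hk1, hk2⟩ := Nat.find_spec hex
  have hmin := fun j (hj : j < Nat.find hex) => Nat.find_min hex hj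
  set k : ℕ := Nat.find hex with hk
  clear_value k
  obtain ⟨hr1, hr2⟩ := reloc_ico h a k
  have hN0 : 0 ≤ N (rs (Finset.Ico a (a + k)) (fun _ => 1)) := h.nonneg _
  have hΦ1 : 1 ≤ C ^ 6 * Φ k ^ 2 := by
    have h1 := h.coord (Finset.range k) (fun _ => 1) 0 (Finset.mem_range.2 (by omega))
    rw [abs_one] at h1
    have h2 := pow_le_pow_left₀ (by norm_num) h1 2
    rw [one_pow, mul_pow, ← pow_mul] at h2
    exact h2
  have hk3 : (g : ℝ) ^ 31 ≤ k := by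
    refine le_trans ?_ hk2
    have h1 : (g : ℝ) ^ 31 ≤ (g : ℝ) ^ 31 * (C ^ 6 * Φ k ^ 2) :=
      le_mul_of_one_le_right (by positivity) hΦ1
    have h2 : (g : ℝ) ^ 31 * (C ^ 6 * Φ k ^ 2) ≤ C ^ 4 * (g : ℝ) ^ 32 * Φ k ^ 2 := by
      have h3 : 0 ≤ C ^ 4 * (g : ℝ) ^ 31 * Φ k ^ 2 := by positivity
      nlinarith [mul_le_mul_of_nonneg_left hg5 h3]
    linarith
  have hk4 : 200 * g ^ 28 ≤ k := by
    have h1 : g ^ 31 ≤ k := by exact_mod_cast hk3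
    have h2 : 200 * g ^ 28 ≤ g ^ 31 := by
      calc 200 * g ^ 28 ≤ g * g ^ 28 := Nat.mul_le_mul_right _ hg6
        _ = g ^ 29 := by ring
        _ ≤ g ^ 31 := Nat.pow_le_pow_right (by omega) (by norm_num)
    omega
  have hg28 : 200 ≤ g ^ 28 := le_trans hg6 (Nat.le_self_pow (by norm_num) g)
  have hk5 : 2 ≤ k := by omega
  -- the upper bound
  have hup : (k : ℝ) ≤ 2 * C ^ 6 * (g : ℝ) ^ 32 * Φ k ^ 2 := by
    have h1 := hmin (k - 1) (by omega)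
    have h2 : ((k - 1 : ℕ) : ℝ) < C ^ 4 * (g : ℝ) ^ 32 * Φ (k - 1) ^ 2 := by
      by_contra hcon
      exact h1 ⟨by omega, not_lt.1 hcon⟩
    have h3 : Φ (k - 1) ≤ C * Φ k :=
      h.rs_mono (Finset.range (k - 1)) (Finset.range k) (Finset.range_mono (by omega)) _
    have h4 : Φ (k - 1) ^ 2 ≤ C ^ 2 * Φ k ^ 2 := by
      rw [← mul_pow]; exact pow_le_pow_left₀ (hΦ0 _) h3 2
    have h5 : C ^ 4 * (g : ℝ) ^ 32 * Φ (k - 1) ^ 2 ≤ C ^ 4 * (g : ℝ) ^ 32 * (C ^ 2 * Φ k ^ 2) :=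
      mul_le_mul_of_nonneg_left h4 (by positivity)
    have h6 : (k : ℝ) ≤ 2 * ((k - 1 : ℕ) : ℝ) := by exact_mod_cast (by omega : k ≤ 2 * (k - 1))
    have h7 : C ^ 4 * (g : ℝ) ^ 32 * (C ^ 2 * Φ k ^ 2) = C ^ 6 * (g : ℝ) ^ 32 * Φ k ^ 2 := by ring
    rw [h7] at h5
    linarith
  -- the dimension d
  have hgn : 0 < g ^ 28 := by omega
  obtain ⟨d, hd⟩ : ∃ d, d = (k + g ^ 28 - 1) / g ^ 28 := ⟨_, rfl⟩
  have hd1 : k ≤ d * g ^ 28 := by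
    have h1 := Nat.lt_div_mul_add (a := k + g ^ 28 - 1) hgn
    rw [← hd] at h1
    omega
  have hd2 : d * g ^ 28 ≤ k + g ^ 28 - 1 := by
    rw [hd]; exact Nat.div_mul_le_self _ _
  have hd3 : d * g ^ 28 ≤ 2 * k := by omega
  have hd4 : 100 ≤ d := by
    by_contra hcon
    have h1 : d * g ^ 28 ≤ 100 * g ^ 28 := Nat.mul_le_mul_right _ (by omega)
    omega
  have hd5 : 100 * d ≤ k := by
    have h1 : d * 200 ≤ d * g ^ 28 := Nat.mul_le_mul_left _ hg28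
    omega
  obtain ⟨q, hq⟩ := hB a k d hd4 hd5
  refine ⟨g, k, d, q, hg1, hg2, hg3, hk1, ?_, ?_, hd1, hd3, hd4, hd5, hq⟩
  · refine le_trans ?_ hk2
    have h1 : N (rs (Finset.Ico a (a + k)) (fun _ => 1)) ^ 2 ≤ C ^ 4 * Φ k ^ 2 := by
      have := pow_le_pow_left₀ hN0 hr1 2
      rw [mul_pow, ← pow_mul] at this
      exact this
    have h2 := mul_le_mul_of_nonneg_left h1 (by positivity : (0 : ℝ) ≤ (g : ℝ) ^ 32)
    linarith
  · refine le_trans hup ?_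
    have h1 : Φ k ^ 2 ≤ C ^ 4 * N (rs (Finset.Ico a (a + k)) (fun _ => 1)) ^ 2 := by
      have := pow_le_pow_left₀ (hΦ0 k) hr2 2
      rw [mul_pow, ← pow_mul] at this
      exact this
    have h2 := mul_le_mul_of_nonneg_left h1 (by positivity : (0 : ℝ) ≤ 2 * C ^ 6 * (g : ℝ) ^ 32)
    have h3 : 2 * C ^ 6 * (g : ℝ) ^ 32 * (C ^ 4 * N (rs (Finset.Ico a (a + k)) (fun _ => 1)) ^ 2) =
      2 * C ^ 10 * (g : ℝ) ^ 32 * N (rs (Finset.Ico a (a + k)) (fun _ => 1)) ^ 2 := by ring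
    linarith

theorem LNorm.params (h : LNorm N C) (hB : BlockExists C0)
    (hub : ∀ g : ℕ, ∃ k : ℕ, 1 ≤ k ∧ (g : ℝ) * N (rs (Finset.range k) (fun _ => 1)) ^ 2 ≤ k) :
    ∃ Λ : ℝ, 1 ≤ Λ ∧ ∀ G0 : ℕ, ∃ (s g d : ℕ → ℕ) (q : ℕ → ℕ → ℕ → ℝ),
      Par N C0 Λ s g d q ∧ ∀ m, G0 ≤ g m := by
  have hC := h.one_le
  refine ⟨2 * C ^ 10, ?_, fun G0 => ?_⟩
  · have : 1 ≤ C ^ 10 := one_le_pow₀ hC
    linarith
  have hst := fun a m => step h hB hub G0 a m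
  choose gf kf df qf h1 h2 h3 h4 h5 h6 h7 h8 h9 h10 h11 using hst
  let s : ℕ → ℕ := fun n => Nat.rec 0 (fun m a => a + kf a m) n
  have hs : ∀ m, s (m + 1) = s m + kf (s m) m := fun m => rfl
  have hbl : ∀ m, bl s m = Finset.Ico (s m) (s m + kf (s m) m) := by
    intro m
    unfold bl
    rw [hs m]
  have hcard : ∀ m, (bl s m).card = kf (s m) m := by
    intro m
    rw [hbl, Nat.card_Ico]; omega
  refine ⟨s, fun m => gf (s m) m, fun m => df (s m) m, fun m => qf (s m) m, ?_, fun m => h3 _ _⟩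
  refine ⟨?_, fun m => h1 _ _, fun m => h2 _ _, fun m => ?_, fun m => ?_, fun m => ?_, fun m => ?_,
    fun m => h9 _ _, fun m => ?_, fun m => ?_⟩
  · refine strictMono_nat_of_lt_succ (fun m => ?_)
    rw [hs]
    have := h4 (s m) m
    omega
  · rw [hcard, hbl]; exact h5 _ _
  · rw [hcard, hbl]; exact h6 _ _
  · rw [hcard]; exact h7 _ _
  · rw [hcard]; exact h8 _ _
  · rw [hcard]; exact h10 _ _
  · rw [hbl]; exact h11 _ _

end Pool.Agent.Helper52.CS
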