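import Pool.Agent.Helper52.CS.Lnorm
import Pool.Agent.Helper52.CS.L2iso
import Pool.Agent.Helper52.CS.Family
import Pool.Agent.Helper52.CS.FacOfIso
import Pool.Agent.Helper52.CS.NoFactor
import Pool.Agent.Helper52.CS.Params
import Pool.Agent.Helper52.CS.BlockEx

/-! CS-27. The main theorem (helper52). -/

set_option autoImplicit false

namespace Pool.Agent.Helper52.CS

open Finset

variable {X : Type*} [NormedAddCommGroup X] [NormedSpace ℝ X] [CompleteSpace X]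

theorem ysub_mono (e : ℕ → X) (s : ℕ → ℕ) (q : ℕ → ℕ → ℕ → ℝ) {A B : Set ℕ} (h : A ⊆ B) :
    Ysub e s q A ≤ Ysub e s q B := by
  unfold Ysub
  apply Submodule.topologicalClosure_mono
  apply Submodule.span_mono
  apply Set.image_mono
  rintro a ⟨h1, h2⟩
  refine ⟨fun i hi => ?_, h2⟩
  obtain ⟨m, hm, him⟩ := h1 i hi
  exact ⟨m, h hm, him⟩

theorem main_sets (e : ℕ → X) (C T : ℝ) (he : Subsym e C)
    (ht : Type2 (Submodule.span ℝ (Set.range e)) T)
    (hne : IsEmpty ((Submodule.span ℝ (Set.range e)).topologicalClosure ≃L[ℝ]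
      lp (fun _ : ℕ => ℝ) 2)) :
    ∃ Y : Set ℕ → Submodule ℝ X, (∀ A, IsClosed (Y A : Set X)) ∧
      (∀ A : Set ℕ, A.Infinite → ¬ FiniteDimensional ℝ (Y A)) ∧
      ∀ A B : Set ℕ, Nonempty (Y A ≃L[ℝ] Y B) → (A \ B).Finite ∧ (B \ A).Finite := by
  obtain ⟨C', h⟩ := lnorm_of e C T he ht
  obtain ⟨L0, hL⟩ := h.exists_low
  obtain ⟨C0, hC0, hB⟩ := block_exists
  have hub : ∀ g : ℕ, ∃ k : ℕ, 1 ≤ k ∧
      (g : ℝ) * nrm e (rs (Finset.range k) (fun _ => 1)) ^ 2 ≤ k := by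
    intro g
    by_contra hcon
    push Not at hcon
    obtain ⟨Ψ⟩ := l2_iso e C' h g (fun k hk => hcon k hk)
    exact hne.false Ψ
  obtain ⟨Λ, hΛ, hpar⟩ := h.params hB hub
  obtain ⟨G0, hG0⟩ := h.no_factor hL hC0 hΛ
  obtain ⟨s, g, d, q, hP, hg⟩ := hpar G0
  have key : ∀ A B : Set ℕ, Nonempty (Ysub e s q A ≃L[ℝ] Ysub e s q B) → (A \ B).Finite := by
    rintro A B ⟨Φ⟩
    obtain ⟨K, hK⟩ := fac_of_iso e C' h s d hP.mono C0 q hP.good A B Φ
    obtain ⟨n0, hn0⟩ := hG0 s g d q hP hg K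
    by_contra hinf
    obtain ⟨n, hn, hnn⟩ := Set.Infinite.exists_gt hinf n0
    exact hn0 n hnn.le B hn.2 (hK n hn.1)
  refine ⟨fun A => Ysub e s q A, fun A => Submodule.isClosed_topologicalClosure _, ?_, ?_⟩
  · intro A hA hfin
    obtain ⟨F, hF⟩ := family
    -- an enumeration of `A`
    let ι : ℕ → ℕ := fun n => (Set.Infinite.natEmbedding A hA n : ℕ)
    have hι : Function.Injective ι := fun a b hab =>
      (Set.Infinite.natEmbedding A hA).injective (Subtype.ext hab)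
    have hιA : ∀ n, ι n ∈ A := fun n => (Set.Infinite.natEmbedding A hA n).2
    let G : ℝ → Set ℕ := fun r => ι '' F r
    have hGA : ∀ r, G r ⊆ A := by
      rintro r _ ⟨n, _, rfl⟩
      exact hιA n
    have hG : ∀ r t, r ≠ t → (G r \ G t).Infinite := by
      intro r t hrt
      have h1 : ι '' (F r \ F t) ⊆ G r \ G t := by
        rw [Set.image_diff hι]
      exact Set.Infinite.mono h1 ((hF r t hrt).image hι.injOn)
    have hfd : ∀ r, FiniteDimensional ℝ (Ysub e s q (G r)) := fun r =>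
      Submodule.finiteDimensional_of_le (ysub_mono e s q (hGA r))
    have hnot : ¬ Function.Injective (fun r : ℝ => Module.finrank ℝ (Ysub e s q (G r))) := by
      intro hinj
      exact not_countable (α := ℝ) (hinj.countable)
    rw [Function.Injective] at hnot
    push Not at hnot
    obtain ⟨r, t, hrt, hne'⟩ := hnot
    have := hfd r
    have := hfd t
    have h2 : Nonempty (Ysub e s q (G r) ≃L[ℝ] Ysub e s q (G t)) :=
      FiniteDimensional.nonempty_continuousLinearEquiv_of_finrank_eq hrt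
    exact (hG r t hne') (key _ _ h2)
  · intro A B hAB
    exact ⟨key A B hAB, key B A ⟨hAB.some.symm⟩⟩

theorem main (e : ℕ → X) (C T : ℝ) (he : Subsym e C)
    (ht : Type2 (Submodule.span ℝ (Set.range e)) T)
    (hne : IsEmpty ((Submodule.span ℝ (Set.range e)).topologicalClosure ≃L[ℝ]
      lp (fun _ : ℕ => ℝ) 2)) :
    ∃ Y : Set ℕ → Submodule ℝ X, (∀ A, IsClosed (Y A : Set X)) ∧
      (∀ A : Set ℕ, A.Infinite → ¬ FiniteDimensional ℝ (Y A)) ∧
      (∀ A B : Set ℕ, Nonempty (Y A ≃L[ℝ] Y B) → (A \ B).Finite ∧ (B \ A).Finite) ∧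
      ∃ A : ℝ → Set ℕ, ∀ r t : ℝ, r ≠ t →
        ¬ FiniteDimensional ℝ (Y (A r)) ∧ IsEmpty (Y (A r) ≃L[ℝ] Y (A t)) := by
  obtain ⟨Y, hY, hYd, hYY⟩ := main_sets e C T he ht hne
  obtain ⟨A, hA⟩ := family
  refine ⟨Y, hY, hYd, hYY, A, ?_⟩
  intro r t hrt
  refine ⟨hYd _ ((hA r t hrt).mono Set.diff_subset), ⟨fun Φ => ?_⟩⟩
  exact (hA r t hrt) (hYY (A r) (A t) ⟨Φ⟩).1

end Pool.Agent.Helper52.CS
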