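import Pool.Agent.Helper52.CS.LowBase

/-! CS-6. Iteration of the lower estimate.
PROOF. First, for `K.card = L0 ^ r` exactly (`L0 = 2^n`) show `2^r ≤ N (rs (K.biUnion J) x)` by induction on `r`: split `K` (card `L0^(r+1)`) into `L0` parts of
card `L0^r`; each part has sum of norm at least `2^r`; apply the base case to the `L0` new disjoint sets and the function `2^{-r} x`. For `L0^r ≤ K.card` take a subset
(`Finset.exists_subset_card_eq`) and use rs_mono. -/

set_option autoImplicit false

namespace Pool.Agent.Helper52.CS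

open Finset

variable {N : F0 → ℝ} {C : ℝ}

private lemma split_parts (k : ℕ) : ∀ (m : ℕ) (K : Finset ℕ), K.card = m * k →
    ∃ P : ℕ → Finset ℕ, (∀ a ∈ range m, (P a).card = k ∧ P a ⊆ K) ∧
      (∀ a ∈ range m, ∀ a' ∈ range m, a ≠ a' → Disjoint (P a) (P a')) ∧
      (range m).biUnion P = K := by
  intro m
  induction m with
  | zero =>
    intro K hK
    rw [zero_mul, card_eq_zero] at hK
    exact ⟨fun _ => ∅, by simp, by simp, by simp [hK]⟩
  | succ m ih =>
    intro K hK
    obtain ⟨K', hK', hcard⟩ := exists_subset_card_eq (s := K) (n := k) (by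
      rw [hK, add_mul, one_mul]; exact Nat.le_add_left _ _)
    obtain ⟨P, hP1, hP2, hP3⟩ := ih (K \ K') (by
      rw [card_sdiff_of_subset hK', hK, hcard, add_mul, one_mul, Nat.add_sub_cancel])
    refine ⟨fun a => if a = m then K' else P a, ?_, ?_, ?_⟩
    · intro a ha
      by_cases h : a = m
      · simp only [h, if_true]
        exact ⟨hcard, hK'⟩
      · simp only [h, if_false]
        have ha' : a ∈ range m := by
          rw [mem_range] at ha ⊢; omega
        exact ⟨(hP1 a ha').1, (hP1 a ha').2.trans sdiff_subset⟩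
    · have key : ∀ a ∈ range (m + 1), a ≠ m → Disjoint (P a) K' := by
        intro a ha h
        have ha' : a ∈ range m := by
          rw [mem_range] at ha ⊢; omega
        exact disjoint_of_subset_left (hP1 a ha').2 disjoint_sdiff_self_left
      intro a ha a' ha' hne
      by_cases h : a = m
      · by_cases h' : a' = m
        · exact absurd (h.trans h'.symm) hne
        · simp only [h, h', if_true, if_false]
          exact (key a' ha' h').symm
      · by_cases h' : a' = m
        · simp only [h, h', if_true, if_false]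
          exact key a ha h
        · simp only [h, h', if_false]
          rw [mem_range] at ha ha'
          exact hP2 a (by rw [mem_range]; omega) a' (by rw [mem_range]; omega) hne
    · rw [range_add_one, biUnion_insert]
      simp only [if_true]
      have h1 : (range m).biUnion (fun a => if a = m then K' else P a) = (range m).biUnion P := by
        apply biUnion_congr rfl
        intro a ha
        rw [mem_range] at ha
        rw [if_neg (by omega)]
      rw [h1, hP3, union_sdiff_of_subset hK']

private lemma rs_smul (t : ℝ) (J : Finset ℕ) (x : ℕ → ℝ) :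
    rs J (fun i => t * x i) = t • rs J x := by
  rw [rs, rs, smul_sum]
  refine sum_congr rfl fun i _ => ?_
  rw [Finsupp.smul_single, smul_eq_mul]

theorem LNorm.low_of_base (h : LNorm N C) (n : ℕ) (hn : 2 ≤ n)
    (hb : ∀ (K : Finset ℕ) (J : ℕ → Finset ℕ) (x : ℕ → ℝ), K.card = 2 ^ n →
      (∀ l ∈ K, ∀ l' ∈ K, l ≠ l' → Disjoint (J l) (J l')) →
      (∀ l ∈ K, 1 ≤ N (rs (J l) x)) → 2 ≤ N (rs (K.biUnion J) x)) : Low N C (2 ^ n) := by
  have key : ∀ (r : ℕ) (K : Finset ℕ) (J : ℕ → Finset ℕ) (x : ℕ → ℝ),
      K.card = (2 ^ n) ^ r → (∀ l ∈ K, ∀ l' ∈ K, l ≠ l' → Disjoint (J l) (J l')) →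
      (∀ l ∈ K, 1 ≤ N (rs (J l) x)) → 2 ^ r ≤ N (rs (K.biUnion J) x) := by
    intro r
    induction r with
    | zero =>
      intro K J x hK _ h1
      rw [pow_zero, card_eq_one] at hK
      obtain ⟨l, rfl⟩ := hK
      rw [singleton_biUnion, pow_zero]
      exact h1 l (mem_singleton_self l)
    | succ r ih =>
      intro K J x hK hd h1
      obtain ⟨P, hP1, hP2, hP3⟩ := split_parts ((2 ^ n) ^ r) (2 ^ n) K (by rw [hK]; ring)
      have hpow : (0 : ℝ) < 2 ^ r := by positivity
      have h2 : ∀ a ∈ range (2 ^ n), 1 ≤ N (rs ((P a).biUnion J) (fun i => (2 ^ r)⁻¹ * x i)) := by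
        intro a ha
        have h3 : 2 ^ r ≤ N (rs ((P a).biUnion J) x) := by
          refine ih (P a) J x (hP1 a ha).1 ?_ ?_
          · intro l hl l' hl' hne
            exact hd l ((hP1 a ha).2 hl) l' ((hP1 a ha).2 hl') hne
          · intro l hl
            exact h1 l ((hP1 a ha).2 hl)
        rw [rs_smul, h.smul, abs_of_pos (inv_pos.2 hpow), ← div_eq_inv_mul, one_le_div hpow]
        exact h3
      have h4 := hb (range (2 ^ n)) (fun a => (P a).biUnion J) (fun i => (2 ^ r)⁻¹ * x i)
        (card_range _) (by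
          intro a ha a' ha' hne
          rw [disjoint_biUnion_left]
          intro l hl
          rw [disjoint_biUnion_right]
          intro l' hl'
          refine hd l ((hP1 a ha).2 hl) l' ((hP1 a' ha').2 hl') ?_
          rintro rfl
          exact disjoint_left.1 (hP2 a ha a' ha' hne) hl hl') h2
      have h5 : (range (2 ^ n)).biUnion (fun a => (P a).biUnion J) = K.biUnion J := by
        rw [← hP3, biUnion_biUnion]
      rw [h5, rs_smul, h.smul, abs_of_pos (inv_pos.2 hpow), ← div_eq_inv_mul,
        le_div_iff₀ hpow] at h4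
      calc (2 : ℝ) ^ (r + 1) = 2 * 2 ^ r := by ring
        _ ≤ _ := h4
  refine ⟨?_, ?_⟩
  · calc 4 = 2 ^ 2 := by norm_num
      _ ≤ 2 ^ n := Nat.pow_le_pow_right (by norm_num) hn
  · intro r K J x hK hd h1
    obtain ⟨K', hK', hcard⟩ := exists_subset_card_eq hK
    have h2 := key r K' J x hcard (fun l hl l' hl' hne => hd l (hK' hl) l' (hK' hl') hne)
      (fun l hl => h1 l (hK' hl))
    exact h2.trans (h.rs_mono _ _ (biUnion_subset_biUnion_of_subset_left _ hK') x)

theorem LNorm.exists_low (h : LNorm N C) : ∃ L0 : ℕ, Low N C L0 := by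
  obtain ⟨n, hn, hb⟩ := h.low_base
  exact ⟨2 ^ n, h.low_of_base n hn hb⟩

end Pool.Agent.Helper52.CS
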