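import Pool.Agent.Helper52.CS.Reloc
import Pool.Agent.Helper52.CS.LowIter

/-! CS-7. Small subsets of the blocks carry little norm.
PROOF. Let `k_m = (F m).card`, `L = L0^r`. For `l < L` let `J l = ⋃_{m ∈ M} [s m + l k_m, s m + (l+1) k_m)`, pairwise disjoint subsets of `bu s M` (since
`k_m L ≤ card (bl s m)`). The increasing bijection of `⋃ F m` onto `J l` (block by block) and `β` constant on blocks give, by reloc,
`N (rs (M.biUnion F) β) ≤ C² N (rs (J l) β)`. Put `ν = N (rs (M.biUnion F) β) / C²`. If `ν = 0` done. Otherwise apply Low to `β / ν`: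
`2^r ν ≤ C N (rs (⋃ J l) β) ≤ C² N (rs (bu s M) β)`. -/

set_option autoImplicit false

namespace Pool.Agent.Helper52.CS

open Finset

variable {N : F0 → ℝ} {C : ℝ} {L0 : ℕ}

private theorem rs_const_mul (J : Finset ℕ) (c : ℝ) (x : ℕ → ℝ) :
    rs J (fun i => c * x i) = c • rs J x := by
  ext i
  rw [Finsupp.smul_apply, rs_apply, rs_apply]
  split_ifs <;> simp

/-- index of the block of `i` -/
private def blk (s : ℕ → ℕ) (i : ℕ) : ℕ := Nat.findGreatest (fun m => s m ≤ i) i

private theorem blk_eq {s : ℕ → ℕ} (hs : StrictMono s) {m i : ℕ} (hi : i ∈ bl s m) :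
    blk s i = m := by
  rw [bl, Finset.mem_Ico] at hi
  have hmi : m ≤ i := (hs.id_le m).trans hi.1
  apply le_antisymm
  · by_contra hcon
    push Not at hcon
    have h0 : 0 < blk s i := by omega
    have h1 : s (blk s i) ≤ i := Nat.findGreatest_of_ne_zero (m := blk s i) rfl (by omega)
    have h2 : s (m + 1) ≤ s (blk s i) := hs.monotone hcon
    omega
  · exact Nat.le_findGreatest hmi hi.1

theorem LNorm.flats (h : LNorm N C) (hL : Low N C L0) (s : ℕ → ℕ) (hs : StrictMono s)
    (M : Finset ℕ) (r : ℕ) (F : ℕ → Finset ℕ) (hF : ∀ m ∈ M, F m ⊆ bl s m)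
    (hc : ∀ m ∈ M, (F m).card * L0 ^ r ≤ (bl s m).card) (β : ℕ → ℝ)
    (hβ : ∀ m ∈ M, ∀ i ∈ bl s m, ∀ j ∈ bl s m, β i = β j) :
    2 ^ r * N (rs (M.biUnion F) β) ≤ C ^ 4 * N (rs (bu s M) β) := by
  have hC1 := h.one_le
  have hC0 : 0 < C := by linarith
  set U := M.biUnion F with hU
  set θ : ℕ → ℕ → ℕ := fun l i => s (blk s i) + l * (F (blk s i)).card
    + ((F (blk s i)).filter (· < i)).card with hθ
  -- the value of theta on a block
  have hval : ∀ m ∈ M, ∀ i ∈ F m, ∀ l, θ l i = s m + l * (F m).card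
      + ((F m).filter (· < i)).card := by
    intro m hm i hi l
    simp only [hθ, blk_eq hs (hF m hm hi)]
  have hrank : ∀ m, ∀ i ∈ F m, ((F m).filter (· < i)).card < (F m).card := by
    intro m i hi
    refine Finset.card_lt_card ⟨Finset.filter_subset _ _, fun hcon => ?_⟩
    have := (Finset.mem_filter.1 (hcon hi)).2
    exact lt_irrefl _ this
  have hblock : ∀ m ∈ M, ∀ i ∈ F m, ∀ l, l < L0 ^ r → θ l i ∈ bl s m := by
    intro m hm i hi l hl
    rw [hval m hm i hi l, bl, Finset.mem_Ico]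
    have h1 := hrank m i hi
    have h2 := hc m hm
    have h3 : (bl s m).card = s (m + 1) - s m := by simp [bl]
    have h4 : (l + 1) * (F m).card ≤ L0 ^ r * (F m).card := Nat.mul_le_mul_right _ hl
    have h5 : s m ≤ s (m + 1) := hs.monotone (Nat.le_succ m)
    have h6 : (l + 1) * (F m).card = l * (F m).card + (F m).card := by ring
    have h7 : (F m).card * L0 ^ r = L0 ^ r * (F m).card := Nat.mul_comm _ _
    omega
  have hmono : ∀ l, l < L0 ^ r → StrictMonoOn (θ l) (U : Set ℕ) := by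
    intro l hl i hi j hj hij
    obtain ⟨m, hm, him⟩ := Finset.mem_biUnion.1 (Finset.mem_coe.1 hi)
    obtain ⟨m', hm', hjm'⟩ := Finset.mem_biUnion.1 (Finset.mem_coe.1 hj)
    have hib := hF m hm him
    have hjb := hF m' hm' hjm'
    rw [bl, Finset.mem_Ico] at hib hjb
    have hmm' : m ≤ m' := by
      by_contra hcon
      push Not at hcon
      have : s (m' + 1) ≤ s m := hs.monotone hcon
      omega
    rcases hmm'.eq_or_lt with heq | hlt
    · subst heq
      rw [hval m hm i him l, hval m hm j hjm' l]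
      have : ((F m).filter (· < i)).card < ((F m).filter (· < j)).card := by
        refine Finset.card_lt_card ⟨?_, fun hcon => ?_⟩
        · intro x hx
          rw [Finset.mem_filter] at hx ⊢
          exact ⟨hx.1, hx.2.trans hij⟩
        · have := (Finset.mem_filter.1 (hcon (Finset.mem_filter.2 ⟨him, hij⟩))).2
          exact lt_irrefl _ this
      omega
    · have h1 := hblock m hm i him l hl
      have h2 := hblock m' hm' j hjm' l hl
      rw [bl, Finset.mem_Ico] at h1 h2
      have : s (m + 1) ≤ s m' := hs.monotone hlt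
      omega
  have hβθ : ∀ l, l < L0 ^ r → ∀ i ∈ U, β (θ l i) = β i := by
    intro l hl i hi
    obtain ⟨m, hm, him⟩ := Finset.mem_biUnion.1 hi
    exact hβ m hm _ (hblock m hm i him l hl) _ (hF m hm him)
  have hdisj : ∀ l ∈ range (L0 ^ r), ∀ l' ∈ range (L0 ^ r), l ≠ l' →
      Disjoint (U.image (θ l)) (U.image (θ l')) := by
    intro l hl l' hl' hne
    rw [Finset.mem_range] at hl hl'
    rw [Finset.disjoint_left]
    intro x hx hx'
    obtain ⟨i, hi, hix⟩ := Finset.mem_image.1 hx
    obtain ⟨j, hj, hjx⟩ := Finset.mem_image.1 hx'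
    obtain ⟨m, hm, him⟩ := Finset.mem_biUnion.1 hi
    obtain ⟨m', hm', hjm'⟩ := Finset.mem_biUnion.1 hj
    have h1 := hblock m hm i him l hl
    have h2 := hblock m' hm' j hjm' l' hl'
    rw [hix] at h1
    rw [hjx] at h2
    have h3 : m = m' := (blk_eq hs h1).symm.trans (blk_eq hs h2)
    subst h3
    rw [hval m hm i him l] at hix
    rw [hval m hm j hjm' l'] at hjx
    have h4 := hrank m i him
    have h5 := hrank m j hjm'
    have h6 : l * (F m).card + ((F m).filter (· < i)).card =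
        l' * (F m).card + ((F m).filter (· < j)).card := by omega
    have hk : 0 < (F m).card := by omega
    have h7 : (l * (F m).card + ((F m).filter (· < i)).card) / (F m).card = l := by
      rw [Nat.mul_comm, Nat.mul_add_div hk, Nat.div_eq_of_lt h4, Nat.add_zero]
    have h8 : (l' * (F m).card + ((F m).filter (· < j)).card) / (F m).card = l' := by
      rw [Nat.mul_comm, Nat.mul_add_div hk, Nat.div_eq_of_lt h5, Nat.add_zero]
    exact hne (by rw [← h7, ← h8, h6])
  have hsub : (range (L0 ^ r)).biUnion (fun l => U.image (θ l)) ⊆ bu s M := by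
    intro x hx
    obtain ⟨l, hl, hxl⟩ := Finset.mem_biUnion.1 hx
    obtain ⟨i, hi, hix⟩ := Finset.mem_image.1 hxl
    obtain ⟨m, hm, him⟩ := Finset.mem_biUnion.1 hi
    exact Finset.mem_biUnion.2 ⟨m, hm, hix ▸ hblock m hm i him l (Finset.mem_range.1 hl)⟩
  have hNU : 0 ≤ N (rs U β) := h.nonneg _
  have hNB : 0 ≤ N (rs (bu s M) β) := h.nonneg _
  rcases hNU.eq_or_lt with h0 | hpos
  · rw [← h0, mul_zero]
    positivity
  set ν := N (rs U β) / C ^ 2 with hν
  have hνpos : 0 < ν := by positivity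
  have hone : ∀ l ∈ range (L0 ^ r), 1 ≤ N (rs (U.image (θ l)) (fun i => ν⁻¹ * β i)) := by
    intro l hl
    rw [Finset.mem_range] at hl
    rw [rs_const_mul, h.smul, abs_of_pos (inv_pos.2 hνpos)]
    have h1 := (h.reloc U (θ l) (hmono l hl) β β (hβθ l hl)).2
    have h2 : ν ≤ N (rs (U.image (θ l)) β) := by
      rw [hν, div_le_iff₀ (by positivity), mul_comm]
      exact h1
    rw [inv_mul_eq_div, le_div_iff₀ hνpos, one_mul]
    exact h2
  have h3 := hL.2 r (range (L0 ^ r)) (fun l => U.image (θ l)) (fun i => ν⁻¹ * β i)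
    (by rw [Finset.card_range]) hdisj hone
  have h4 := h.rs_mono _ _ hsub (fun i => ν⁻¹ * β i)
  have h5 : (2 : ℝ) ^ r ≤ C * (C * (ν⁻¹ * N (rs (bu s M) β))) := by
    refine h3.trans (mul_le_mul_of_nonneg_left (h4.trans (le_of_eq ?_)) hC0.le)
    rw [rs_const_mul, h.smul, abs_of_pos (inv_pos.2 hνpos)]
  have h6 : (2 : ℝ) ^ r * ν ≤ C ^ 2 * N (rs (bu s M) β) := by
    have h7 := mul_le_mul_of_nonneg_right h5 hνpos.le
    have h8 : C * (C * (ν⁻¹ * N (rs (bu s M) β))) * ν = C ^ 2 * N (rs (bu s M) β) := by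
      field_simp
    rwa [h8] at h7
  have h9 : N (rs U β) = ν * C ^ 2 := by
    rw [hν]; field_simp
  calc 2 ^ r * N (rs U β) = (2 ^ r * ν) * C ^ 2 := by rw [h9]; ring
    _ ≤ (C ^ 2 * N (rs (bu s M) β)) * C ^ 2 := mul_le_mul_of_nonneg_right h6 (by positivity)
    _ = C ^ 4 * N (rs (bu s M) β) := by ring

end Pool.Agent.Helper52.CS
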