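import Pool.Agent.Helper52.CS.Basic

/-! CS-22. A subsymmetric sequence whose span has type 2 defines an `LNorm`.
PROOF. `C' = max (max C T) (max ‖e 0‖ ‖e 0‖⁻¹)` and `≥ 1`. linearCombination of `rs J x` is `∑_{i ∈ J} x i • e i`, of `single (p l) (c l)` is `c l • e (p l)`. uncond: for `|x| ≤ |y|` on `J`, by homogeneity in each coordinate
`x i = t i y i`, `|t i| ≤ 1`, and the map `t ↦ ‖∑ t i y i e i‖` is convex on `[-1,1]^J`, so bounded by its maximum over sign vectors (induction on `J`, replacing the coordinates one by one by signs: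
`t i = (1 + t i)/2 · 1 + (1 - t i)/2 · (-1)`). type2: apply Type2 with `x l := linearCombination (x l)`, in the span; `avgOn` unfolds to the same sum. -/

set_option autoImplicit false

namespace Pool.Agent.Helper52.CS

open Finset

variable {X : Type*} [NormedAddCommGroup X] [NormedSpace ℝ X]

theorem lc_rs (e : ℕ → X) (J : Finset ℕ) (x : ℕ → ℝ) :
    Finsupp.linearCombination ℝ e (rs J x) = ∑ i ∈ J, x i • e i := by
  unfold rs
  rw [map_sum]
  exact Finset.sum_congr rfl fun i _ => Finsupp.linearCombination_single ℝ _ _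

theorem subsym_contr (e : ℕ → X) (C : ℝ) (he : Subsym e C) (J : Finset ℕ) (y : ℕ → ℝ)
    (K : Finset ℕ) : ∀ t : ℕ → ℝ, (∀ i, |t i| ≤ 1) → (∀ i, i ∉ K → t i = 1 ∨ t i = -1) →
      ‖∑ i ∈ J, (t i * y i) • e i‖ ≤ C * ‖∑ i ∈ J, y i • e i‖ := by
  classical
  induction K using Finset.induction_on with
  | empty =>
    intro t _ ht
    exact he.uncond J y t fun i => ht i (Finset.notMem_empty i)
  | insert a K ha ih =>
    intro t h1 ht
    have hta := abs_le.mp (h1 a)
    have hu : ∀ s : ℝ, s = 1 ∨ s = -1 →
        ‖∑ i ∈ J, (Function.update t a s i * y i) • e i‖ ≤ C * ‖∑ i ∈ J, y i • e i‖ := by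
      intro s hs
      apply ih
      · intro i
        by_cases hi : i = a
        · subst hi
          rw [Function.update_self]
          rcases hs with hs | hs <;> rw [hs] <;> norm_num
        · rw [Function.update_of_ne hi]
          exact h1 i
      · intro i hi
        by_cases hia : i = a
        · subst hia
          rw [Function.update_self]
          exact hs
        · rw [Function.update_of_ne hia]
          exact ht i (by
            rw [Finset.mem_insert, not_or]
            exact ⟨hia, hi⟩)
    have hdec : ∑ i ∈ J, (t i * y i) • e i =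
        ((1 + t a) / 2) • ∑ i ∈ J, (Function.update t a 1 i * y i) • e i +
        ((1 - t a) / 2) • ∑ i ∈ J, (Function.update t a (-1) i * y i) • e i := by
      rw [Finset.smul_sum, Finset.smul_sum, ← Finset.sum_add_distrib]
      refine Finset.sum_congr rfl fun i _ => ?_
      rw [smul_smul, smul_smul, ← add_smul]
      congr 1
      by_cases hi : i = a
      · subst hi
        rw [Function.update_self, Function.update_self]
        ring
      · rw [Function.update_of_ne hi, Function.update_of_ne hi]
        ring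
    rw [hdec]
    have p1 : 0 ≤ (1 + t a) / 2 := by linarith [hta.1]
    have p2 : 0 ≤ (1 - t a) / 2 := by linarith [hta.2]
    calc _ ≤ ‖((1 + t a) / 2) • ∑ i ∈ J, (Function.update t a 1 i * y i) • e i‖ +
        ‖((1 - t a) / 2) • ∑ i ∈ J, (Function.update t a (-1) i * y i) • e i‖ := norm_add_le _ _
      _ = (1 + t a) / 2 * ‖∑ i ∈ J, (Function.update t a 1 i * y i) • e i‖ +
        (1 - t a) / 2 * ‖∑ i ∈ J, (Function.update t a (-1) i * y i) • e i‖ := by
          rw [norm_smul, norm_smul, Real.norm_of_nonneg p1, Real.norm_of_nonneg p2]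
      _ ≤ (1 + t a) / 2 * (C * ‖∑ i ∈ J, y i • e i‖) +
        (1 - t a) / 2 * (C * ‖∑ i ∈ J, y i • e i‖) :=
          add_le_add (mul_le_mul_of_nonneg_left (hu 1 (Or.inl rfl)) p1)
            (mul_le_mul_of_nonneg_left (hu (-1) (Or.inr rfl)) p2)
      _ = C * ‖∑ i ∈ J, y i • e i‖ := by ring

theorem lnorm_of (e : ℕ → X) (C T : ℝ) (he : Subsym e C)
    (ht : Type2 (Submodule.span ℝ (Set.range e)) T) : ∃ C' : ℝ, LNorm (nrm e) C' := by
  classical
  have h0 : 0 < ‖e 0‖ := norm_pos_iff.mpr he.ne_zero
  have h0i : 0 < ‖e 0‖⁻¹ := inv_pos.mpr h0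
  set D : ℝ := 1 + |C| + |T| + ‖e 0‖ + ‖e 0‖⁻¹ with hD
  have hCD : C ≤ D := by
    have := le_abs_self C
    have := abs_nonneg T
    linarith
  have hTD : |T| ≤ D := by
    have := abs_nonneg C
    linarith
  have hD1 : 1 ≤ D := by
    have := abs_nonneg T
    have := abs_nonneg C
    linarith
  have heD : ‖e 0‖ ≤ D := by
    have := abs_nonneg T
    have := abs_nonneg C
    linarith
  have hiD : ‖e 0‖⁻¹ ≤ D := by
    have := abs_nonneg T
    have := abs_nonneg C
    linarith
  have hsum : ∀ (k : ℕ) (p : Fin k → ℕ) (c : Fin k → ℝ),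
      Finsupp.linearCombination ℝ e (∑ l, Finsupp.single (p l) (c l)) = ∑ l, c l • e (p l) := by
    intro k p c
    rw [map_sum]
    exact Finset.sum_congr rfl fun i _ => Finsupp.linearCombination_single ℝ _ _
  refine ⟨D, ⟨hD1, ?_, ?_, ?_, ?_, ?_, ?_, ?_⟩⟩
  · intro a b
    unfold nrm
    rw [map_add]
    exact norm_add_le _ _
  · intro t a
    unfold nrm
    rw [map_smul, norm_smul, Real.norm_eq_abs]
  · intro J x y hxy
    unfold nrm
    rw [lc_rs, lc_rs]
    set t : ℕ → ℝ := fun i => if i ∈ J then (if y i = 0 then 1 else x i / y i) else 1 with htdef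
    have ht1 : ∀ i, |t i| ≤ 1 := by
      intro i
      rw [htdef]
      by_cases hi : i ∈ J
      · by_cases hy : y i = 0
        · simp [hi, hy]
        · simp only [hi, hy, if_true, if_false]
          rw [abs_div]
          exact div_le_one_of_le₀ (hxy i hi) (abs_nonneg _)
      · simp [hi]
    have ht2 : ∀ i, i ∉ J → t i = 1 ∨ t i = -1 := by
      intro i hi
      left
      rw [htdef]
      simp [hi]
    have hx : ∑ i ∈ J, x i • e i = ∑ i ∈ J, (t i * y i) • e i := by
      refine Finset.sum_congr rfl fun i hi => ?_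
      congr 1
      rw [htdef]
      by_cases hy : y i = 0
      · have := hxy i hi
        rw [hy, abs_zero] at this
        have hx0 : x i = 0 := abs_nonpos_iff.mp this
        simp [hi, hy, hx0]
      · simp only [hi, hy, if_true, if_false]
        field_simp
    rw [hx]
    exact (subsym_contr e C he J y J t ht1 ht2).trans
      (mul_le_mul_of_nonneg_right hCD (norm_nonneg _))
  · intro k p hp c
    unfold nrm
    rw [hsum k p c, hsum k (fun l => (l : ℕ)) c]
    obtain ⟨a1, a2⟩ := he.spread k p hp c
    exact ⟨a1.trans (mul_le_mul_of_nonneg_right hCD (norm_nonneg _)),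
      a2.trans (mul_le_mul_of_nonneg_right hCD (norm_nonneg _))⟩
  · unfold nrm
    rw [Finsupp.linearCombination_single, one_smul]
    exact heD
  · unfold nrm
    rw [Finsupp.linearCombination_single, one_smul]
    calc (1 : ℝ) = ‖e 0‖⁻¹ * ‖e 0‖ := (inv_mul_cancel₀ h0.ne').symm
      _ ≤ D * ‖e 0‖ := mul_le_mul_of_nonneg_right hiD h0.le
  · intro I x
    have key := ht I (fun l => Finsupp.linearCombination ℝ e (x l)) (fun l => by
      rw [Finsupp.mem_span_range_iff_exists_finsupp]
      exact ⟨x l, rfl⟩)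
    unfold avgOn nrm
    have e1 : ∀ S ∈ I.powerset,
        ‖Finsupp.linearCombination ℝ e (∑ l ∈ I, sgn S l • x l)‖ ^ 2 =
        ‖∑ l ∈ I, (if l ∈ S then (1 : ℝ) else -1) • Finsupp.linearCombination ℝ e (x l)‖ ^ 2 := by
      intro S _
      rw [map_sum]
      congr 2
      refine Finset.sum_congr rfl fun l _ => ?_
      rw [map_smul]
      rfl
    rw [Finset.sum_congr rfl e1]
    refine key.trans ?_
    refine mul_le_mul_of_nonneg_right ?_ (Finset.sum_nonneg fun i _ => sq_nonneg _)
    rw [← sq_abs T]
    exact pow_le_pow_left₀ (abs_nonneg T) hTD 2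

end Pool.Agent.Helper52.CS
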