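import Pool.Agent.Helper52.CS.Basic

/-! CS-5. Among `2^n` disjoint vectors of norm at least one the sum has norm at least 2, if `n ≥ 4 C⁶`.
PROOF. Let `n` be a natural number with `2 ≤ n` and `4 C⁶ ≤ n`. Index the `2^n` vectors `u_l = rs (J l) x` by the subsets `T` of `range n` (any bijection
`K ≃ (range n).powerset`, e.g. `Finset.equivOfCardEq`): `u_T`. `U = ∑ u_T = rs (K.biUnion J) x`. For `i < n` let `x_i = ∑_T sgn T i • u_T` (also of the form
`rs (biUnion) (± x)`), so `N x_i ≤ C N U` by uncond. For a sign pattern `sgn S`, `S ⊆ range n`: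
`∑_{i<n} sgn S i • x_i = ∑_T (∑_i sgn S i sgn T i) • u_T`, whose `T = S` part is `n • u_S`; by rs_mono `n ≤ n N (u_S) ≤ C N (∑_i sgn S i • x_i)`.
Type 2 gives `n² / C² ≤ avg N (∑ ε_i x_i)² ≤ C² n C² N(U)²`, so `N(U)² ≥ n / C⁶ ≥ 4`. -/

set_option autoImplicit false

namespace Pool.Agent.Helper52.CS

open Finset

variable {N : F0 → ℝ} {C : ℝ}

/-- a combination of disjoint vectors -/
theorem lb_sum_smul_rs (K : Finset ℕ) (J : ℕ → Finset ℕ) (x : ℕ → ℝ)
    (hdis : ∀ l ∈ K, ∀ l' ∈ K, l ≠ l' → Disjoint (J l) (J l')) (θ : ℕ → ℝ) :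
    ∃ y : ℕ → ℝ, (∀ l ∈ K, ∀ m ∈ J l, y m = θ l * x m) ∧
      ∑ l ∈ K, θ l • rs (J l) x = rs (K.biUnion J) y := by
  classical
  set y : ℕ → ℝ := fun m => ∑ l ∈ K, if m ∈ J l then θ l * x m else 0 with hy
  have h1 : ∀ l ∈ K, ∀ m ∈ J l, y m = θ l * x m := by
    intro l hl m hm
    simp only [hy]
    rw [Finset.sum_eq_single_of_mem l hl]
    · rw [if_pos hm]
    · intro l' hl' hne
      rw [if_neg]
      intro hm'
      exact Finset.disjoint_left.1 (hdis l' hl' l hl hne) hm' hm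
  refine ⟨y, h1, ?_⟩
  unfold rs
  rw [Finset.sum_biUnion]
  · refine Finset.sum_congr rfl fun l hl => ?_
    rw [Finset.smul_sum]
    refine Finset.sum_congr rfl fun m hm => ?_
    rw [h1 l hl m hm, Finsupp.smul_single, smul_eq_mul]
  · intro l hl l' hl' hne
    exact hdis l hl l' hl' hne

theorem lb_sgn_mul_self (S : Finset ℕ) (i : ℕ) : sgn S i * sgn S i = 1 := by
  unfold sgn
  split_ifs <;> norm_num

theorem lb_abs_sgn (S : Finset ℕ) (i : ℕ) : |sgn S i| = 1 := by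
  unfold sgn
  split_ifs <;> norm_num

theorem LNorm.low_base (h : LNorm N C) : ∃ n : ℕ, 2 ≤ n ∧ ∀ (K : Finset ℕ) (J : ℕ → Finset ℕ)
    (x : ℕ → ℝ), K.card = 2 ^ n → (∀ l ∈ K, ∀ l' ∈ K, l ≠ l' → Disjoint (J l) (J l')) →
    (∀ l ∈ K, 1 ≤ N (rs (J l) x)) → 2 ≤ N (rs (K.biUnion J) x) := by
  classical
  have hC1 := h.one_le
  have hC0 : 0 < C := one_pos.trans_le hC1
  refine ⟨max 2 ⌈4 * C ^ 6⌉₊, le_max_left _ _, fun K J x hK hdis hN => ?_⟩
  set n := max 2 ⌈4 * C ^ 6⌉₊ with hn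
  have hn2 : 4 * C ^ 6 ≤ n := (Nat.le_ceil _).trans (by exact_mod_cast le_max_right _ _)
  have hn0 : (0 : ℝ) < n := lt_of_lt_of_le (by positivity) hn2
  -- labels
  have hcard : K.card = (Finset.range n).powerset.card := by
    rw [Finset.card_powerset, Finset.card_range, hK]
  set e := Finset.equivOfCardEq hcard with he
  set T : ℕ → Finset ℕ := fun l => if hl : l ∈ K then (e ⟨l, hl⟩ : Finset ℕ) else ∅ with hT
  have hTs : ∀ S ∈ (Finset.range n).powerset, ∃ l ∈ K, T l = S := by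
    intro S hS
    refine ⟨e.symm ⟨S, hS⟩, (e.symm ⟨S, hS⟩).2, ?_⟩
    simp only [hT]
    rw [dif_pos (e.symm ⟨S, hS⟩).2]
    simp
  set U := N (rs (K.biUnion J) x) with hU
  set X : ℕ → F0 := fun i => ∑ l ∈ K, sgn (T l) i • rs (J l) x with hX
  have hXU : ∀ i, N (X i) ≤ C * U := by
    intro i
    obtain ⟨y, hy1, hy2⟩ := lb_sum_smul_rs K J x hdis (fun l => sgn (T l) i)
    have e1 : X i = rs (K.biUnion J) y := hy2
    rw [e1]
    refine h.uncond _ _ _ fun m hm => ?_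
    obtain ⟨l, hl, hml⟩ := Finset.mem_biUnion.1 hm
    rw [hy1 l hl m hml, abs_mul, lb_abs_sgn, one_mul]
  have hlow : ∀ S ∈ (Finset.range n).powerset,
      (n : ℝ) / C ≤ N (∑ i ∈ Finset.range n, sgn S i • X i) := by
    intro S hS
    obtain ⟨l0, hl0, hTl0⟩ := hTs S hS
    obtain ⟨y, hy1, hy2⟩ := lb_sum_smul_rs K J x hdis
      (fun l => ∑ i ∈ Finset.range n, sgn S i * sgn (T l) i)
    have e1 : ∑ i ∈ Finset.range n, sgn S i • X i = rs (K.biUnion J) y := by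
      rw [← hy2]
      simp only [hX, Finset.smul_sum]
      rw [Finset.sum_comm]
      refine Finset.sum_congr rfl fun l _ => ?_
      rw [Finset.sum_smul]
      refine Finset.sum_congr rfl fun i _ => ?_
      rw [smul_smul]
    rw [e1]
    have e2 : rs (J l0) y = (n : ℝ) • rs (J l0) x := by
      unfold rs
      rw [Finset.smul_sum]
      refine Finset.sum_congr rfl fun m hm => ?_
      rw [hy1 l0 hl0 m hm, Finsupp.smul_single, smul_eq_mul]
      congr 2
      have : ∀ i ∈ Finset.range n, sgn S i * sgn (T l0) i = 1 := by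
        intro i _
        rw [hTl0, lb_sgn_mul_self]
      rw [Finset.sum_congr rfl this]
      simp
    have h1 := h.rs_mono (J l0) (K.biUnion J) (Finset.subset_biUnion_of_mem J hl0) y
    rw [e2, h.smul, abs_of_pos hn0] at h1
    rw [div_le_iff₀ hC0]
    have h2 := hN l0 hl0
    nlinarith
  have ht := h.type2 (Finset.range n) X
  unfold avgOn at ht
  rw [div_le_iff₀ (by positivity)] at ht
  have hsum : (2 : ℝ) ^ n * ((n : ℝ) / C) ^ 2 ≤
      ∑ S ∈ (Finset.range n).powerset, N (∑ i ∈ Finset.range n, sgn S i • X i) ^ 2 := by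
    have h1 : ∑ S ∈ (Finset.range n).powerset, ((n : ℝ) / C) ^ 2 ≤
        ∑ S ∈ (Finset.range n).powerset, N (∑ i ∈ Finset.range n, sgn S i • X i) ^ 2 :=
      Finset.sum_le_sum fun S hS => pow_le_pow_left₀ (by positivity) (hlow S hS) 2
    rw [Finset.sum_const, Finset.card_powerset, Finset.card_range, nsmul_eq_mul] at h1
    push_cast at h1
    exact h1
  have hU0 : 0 ≤ U := h.nonneg _
  have hup : ∑ i ∈ Finset.range n, N (X i) ^ 2 ≤ n * (C * U) ^ 2 := by
    have h1 : ∑ i ∈ Finset.range n, N (X i) ^ 2 ≤ ∑ i ∈ Finset.range n, (C * U) ^ 2 :=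
      Finset.sum_le_sum fun i _ => pow_le_pow_left₀ (h.nonneg _) (hXU i) 2
    rw [Finset.sum_const, Finset.card_range, nsmul_eq_mul] at h1
    exact h1
  rw [Finset.card_range] at ht
  have h5 : (2 : ℝ) ^ n * ((n : ℝ) / C) ^ 2 ≤ C ^ 2 * (n * (C * U) ^ 2) * 2 ^ n :=
    (hsum.trans ht).trans (mul_le_mul_of_nonneg_right
      (mul_le_mul_of_nonneg_left hup (by positivity)) (by positivity))
  have h2n : (0 : ℝ) < 2 ^ n := by positivity
  have h6 : ((n : ℝ) / C) ^ 2 ≤ C ^ 2 * (n * (C * U) ^ 2) := by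
    have : (2 : ℝ) ^ n * ((n : ℝ) / C) ^ 2 ≤ 2 ^ n * (C ^ 2 * (n * (C * U) ^ 2)) := by linarith
    exact le_of_mul_le_mul_left this h2n
  have h7 : (n : ℝ) ^ 2 ≤ C ^ 6 * n * U ^ 2 := by
    rw [div_pow, div_le_iff₀ (by positivity)] at h6
    calc (n : ℝ) ^ 2 ≤ C ^ 2 * (n * (C * U) ^ 2) * C ^ 2 := h6
      _ = C ^ 6 * n * U ^ 2 := by ring
  have h8 : (n : ℝ) ≤ C ^ 6 * U ^ 2 := by
    have : (n : ℝ) * n ≤ n * (C ^ 6 * U ^ 2) := by nlinarith
    exact le_of_mul_le_mul_left this hn0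
  have h9 : 4 ≤ U ^ 2 := by
    have h10 : C ^ 6 * 4 ≤ C ^ 6 * U ^ 2 := by linarith
    exact le_of_mul_le_mul_left h10 (by positivity)
  nlinarith

end Pool.Agent.Helper52.CS
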