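import Pool.Agent.Helper52.CS.Defs

/-! CS-30. Exponential moment of the square of a Rademacher sum.
PROOF. Average over a standard Gaussian `ξ`: `exp (X²/4) = E exp (ξ X / sqrt 2)`. For fixed `ξ`, the sum over `g` of `exp (ξ X / sqrt 2)`, `X = ∑ sb (g i) v i`, is `∏ 2 cosh (ξ v_i / sqrt 2) ≤ 2^card exp (ξ² ∑ v_i² / 4) ≤ 2^card exp (ξ²/4)`
(`Real.cosh_le_exp_half_sq`). `E exp (ξ²/4) = sqrt 2 ≤ 3/2` (integral_gaussian: `∫ exp (-ξ²/4) = sqrt (4π)`, divided by `sqrt (2π)`). The exchange is a finite sum of integrals. -/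

set_option autoImplicit false

namespace Pool.Agent.Helper52.CS

open Finset

open MeasureTheory in
private lemma gauss_shift (a : ℝ) :
    Integrable (fun x : ℝ => Real.exp (-(1 / 2) * x ^ 2 + a * x)) ∧
      ∫ x : ℝ, Real.exp (-(1 / 2) * x ^ 2 + a * x) = Real.exp (a ^ 2 / 2) * √(2 * Real.pi) := by
  have h1 : ∀ x : ℝ, Real.exp (-(1 / 2) * x ^ 2 + a * x) =
      Real.exp (a ^ 2 / 2) * Real.exp (-(1 / 2) * (x - a) ^ 2) := by
    intro x
    rw [← Real.exp_add]
    congr 1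
    ring
  have h2 : Integrable (fun x : ℝ => Real.exp (-(1 / 2) * x ^ 2)) :=
    integrable_exp_neg_mul_sq (by norm_num)
  constructor
  · simp_rw [h1]
    exact (h2.comp_sub_right a).const_mul _
  · simp_rw [h1]
    rw [integral_const_mul, integral_sub_right_eq_self (fun x : ℝ => Real.exp (-(1 / 2) * x ^ 2)) a,
      integral_gaussian]
    congr 2
    ring

private lemma sum_prod {ι : Type} [Fintype ι] [DecidableEq ι] (F : ι → Bool → ℝ) :
    ∑ g : ι → Bool, ∏ i, F i (g i) = ∏ i, (F i true + F i false) := by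
  have h := Finset.prod_univ_sum (fun _ : ι => (Finset.univ : Finset Bool)) F
  rw [Fintype.piFinset_univ] at h
  rw [← h]
  refine Finset.prod_congr rfl fun i _ => ?_
  rw [Fintype.sum_bool]

private lemma pointwise {ι : Type} [Fintype ι] [DecidableEq ι] (v : ι → ℝ)
    (hv : ∑ i, v i ^ 2 ≤ 1) (x : ℝ) :
    ∑ g : ι → Bool, Real.exp (-(1 / 2) * x ^ 2 + (∑ i, sb (g i) * v i) / √2 * x) ≤
      2 ^ Fintype.card ι * Real.exp (-(1 / 4) * x ^ 2) := by
  have h1 : ∀ g : ι → Bool, Real.exp (-(1 / 2) * x ^ 2 + (∑ i, sb (g i) * v i) / √2 * x) =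
      Real.exp (-(1 / 2) * x ^ 2) * ∏ i, Real.exp (sb (g i) * v i / √2 * x) := by
    intro g
    rw [Real.exp_add, ← Real.exp_sum]
    congr 2
    rw [Finset.sum_div, Finset.sum_mul]
  simp_rw [h1]
  rw [← Finset.mul_sum, sum_prod (fun i b => Real.exp (sb b * v i / √2 * x))]
  have h2 : ∀ i, Real.exp (sb true * v i / √2 * x) + Real.exp (sb false * v i / √2 * x) ≤
      2 * Real.exp (v i ^ 2 * x ^ 2 / 4) := by
    intro i
    have h3 := Real.cosh_le_exp_half_sq (v i / √2 * x)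
    rw [Real.cosh_eq] at h3
    have h4 : (v i / √2 * x) ^ 2 / 2 = v i ^ 2 * x ^ 2 / 4 := by
      rw [mul_pow, div_pow, Real.sq_sqrt (by norm_num)]
      ring
    rw [h4] at h3
    have h5 : sb true * v i / √2 * x = v i / √2 * x := by simp [sb]
    have h6 : sb false * v i / √2 * x = -(v i / √2 * x) := by simp [sb]; ring
    rw [h5, h6]
    linarith
  have h3 : ∏ i, (Real.exp (sb true * v i / √2 * x) + Real.exp (sb false * v i / √2 * x)) ≤
      ∏ i, (2 * Real.exp (v i ^ 2 * x ^ 2 / 4)) :=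
    Finset.prod_le_prod (fun i _ => by positivity) (fun i _ => h2 i)
  have h4 : ∏ i, (2 * Real.exp (v i ^ 2 * x ^ 2 / 4)) ≤
      2 ^ Fintype.card ι * Real.exp (x ^ 2 / 4) := by
    rw [Finset.prod_mul_distrib, Finset.prod_const, Finset.card_univ, ← Real.exp_sum]
    refine mul_le_mul_of_nonneg_left (Real.exp_le_exp.2 ?_) (by positivity)
    rw [← Finset.sum_div, ← Finset.sum_mul]
    have : (∑ i, v i ^ 2) * x ^ 2 ≤ 1 * x ^ 2 := mul_le_mul_of_nonneg_right hv (sq_nonneg x)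
    linarith
  calc Real.exp (-(1 / 2) * x ^ 2) *
        ∏ i, (Real.exp (sb true * v i / √2 * x) + Real.exp (sb false * v i / √2 * x))
      ≤ Real.exp (-(1 / 2) * x ^ 2) * (2 ^ Fintype.card ι * Real.exp (x ^ 2 / 4)) :=
        mul_le_mul_of_nonneg_left (h3.trans h4) (Real.exp_pos _).le
    _ = 2 ^ Fintype.card ι * (Real.exp (-(1 / 2) * x ^ 2) * Real.exp (x ^ 2 / 4)) := by ring
    _ = 2 ^ Fintype.card ι * Real.exp (-(1 / 4) * x ^ 2) := by
        rw [← Real.exp_add]
        congr 2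
        ring

theorem mgf {ι : Type} [Fintype ι] [DecidableEq ι] (v : ι → ℝ) (hv : ∑ i, v i ^ 2 ≤ 1) :
    ∑ g : ι → Bool, Real.exp ((∑ i, sb (g i) * v i) ^ 2 / 4) ≤ 3 / 2 * 2 ^ Fintype.card ι := by
  have hpi : 0 < √(2 * Real.pi) := Real.sqrt_pos.2 (by positivity)
  have h1 : ∀ g : ι → Bool, Real.exp ((∑ i, sb (g i) * v i) ^ 2 / 4) * √(2 * Real.pi) =
      ∫ x : ℝ, Real.exp (-(1 / 2) * x ^ 2 + (∑ i, sb (g i) * v i) / √2 * x) := by
    intro g
    rw [(gauss_shift _).2]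
    congr 2
    rw [div_pow, Real.sq_sqrt (by norm_num)]
    ring
  have h2 : (∑ g : ι → Bool, Real.exp ((∑ i, sb (g i) * v i) ^ 2 / 4)) * √(2 * Real.pi) ≤
      2 ^ Fintype.card ι * √(4 * Real.pi) := by
    rw [Finset.sum_mul]
    simp_rw [h1]
    rw [← MeasureTheory.integral_finsetSum _ (fun g _ => (gauss_shift _).1)]
    have h3 : ∫ x : ℝ, 2 ^ Fintype.card ι * Real.exp (-(1 / 4) * x ^ 2) =
        2 ^ Fintype.card ι * √(4 * Real.pi) := by
      rw [MeasureTheory.integral_const_mul, integral_gaussian]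
      congr 2
      ring
    rw [← h3]
    refine MeasureTheory.integral_mono
      (MeasureTheory.integrable_finsetSum _ (fun g _ => (gauss_shift _).1))
      ((integrable_exp_neg_mul_sq (by norm_num)).const_mul _) ?_
    intro x
    exact pointwise v hv x
  have h3 : √(4 * Real.pi) = √2 * √(2 * Real.pi) := by
    rw [← Real.sqrt_mul (by norm_num)]
    congr 1
    ring
  rw [h3, ← mul_assoc] at h2
  have h4 := le_of_mul_le_mul_right h2 hpi
  refine h4.trans ?_
  have h5 : √2 ≤ 3 / 2 := by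
    rw [Real.sqrt_le_left (by norm_num)]
    norm_num
  rw [mul_comm]
  exact mul_le_mul_of_nonneg_right h5 (by positivity)

end Pool.Agent.Helper52.CS
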