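import Pool.Agent.Helper52.CS.Shift

/-! CS-12. First consequences of the choice of the parameters. Write `N_m = card (bl s m)`, `g = g m`, `φ = N (rs (bl s m) 1)`, `d = d m`.
PROOF. phi_pos: coord gives `1 ≤ C³ φ` (the block is not empty, `s` is strictly increasing). c_le: from d_hi. log_le: `N_m / d ≤ g^28` (d_lo), so
`1 + log (N_m/d) ≤ 1 + 28 log g ≤ 29 g` (`log g ≤ g - 1`). l2: l2_le and f_hi (`N_m ≤ Λ g^32 φ²`): `sqrt (nsq x) φ ≤ 4 C^7 sqrt N_m N(x) ≤ 4 C^7 sqrt Λ g^16 φ N(x)`.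
flat_small: `nsq F z ≤ N (rs F z)` (Dual with `x = z`), on `F`: `|z i| ≤ τ = sqrt (g^20 / N_m)`, so `N (rs F z) ≤ C N (rs F τ) ≤ C² τ φ` and
`τ φ = sqrt (g^20 φ² / N_m) ≤ sqrt (g^20 / g^32) = g^{-6}` (f_lo). peaks: Chebyshev and `nsq z ≤ C^8` (dual). Nlow: `N_m ≥ g^32 φ² ≥ g^32 / C^6`. -/

set_option autoImplicit false

namespace Pool.Agent.Helper52.CS

open Finset

variable {N : F0 → ℝ} {C C0 Λ : ℝ} {s g d : ℕ → ℕ} {q : ℕ → ℕ → ℕ → ℝ}

theorem Par.g_pos (hP : Par N C0 Λ s g d q) (m : ℕ) : (1 : ℝ) ≤ g m := by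
  have h := hP.g_lo m
  have h1 : 1 ≤ 16 ^ (m + 1) := Nat.one_le_pow _ _ (by norm_num)
  exact_mod_cast h1.trans h

theorem Par.card_pos (hP : Par N C0 Λ s g d q) (m : ℕ) : 0 < (bl s m).card := by
  unfold bl
  rw [Nat.card_Ico]
  have := hP.mono (Nat.lt_succ_self m)
  simp only [Nat.succ_eq_add_one] at this
  omega

theorem Par.phi_pos (h : LNorm N C) (hP : Par N C0 Λ s g d q) (m : ℕ) :
    1 ≤ C ^ 3 * N (rs (bl s m) (fun _ => 1)) := by
  have hmem : s m ∈ bl s m := by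
    unfold bl
    rw [Finset.mem_Ico]
    exact ⟨le_refl _, hP.mono (Nat.lt_succ_self m)⟩
  have := h.coord (bl s m) (fun _ => 1) (s m) hmem
  simpa using this

theorem Par.Nlow (h : LNorm N C) (hP : Par N C0 Λ s g d q) (m : ℕ) :
    (g m : ℝ) ^ 32 ≤ C ^ 6 * (bl s m).card := by
  have h1 := hP.phi_pos h m
  have h2 := hP.f_lo m
  set φ := N (rs (bl s m) (fun _ => 1)) with hφ
  have h3 : 1 ≤ (C ^ 3 * φ) ^ 2 := one_le_pow₀ h1
  have h4 : (0 : ℝ) ≤ (g m : ℝ) ^ 32 := by positivity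
  have h5 : (0 : ℝ) ≤ C ^ 6 := by
    have : C ^ 6 = (C ^ 3) ^ 2 := by ring
    rw [this]; positivity
  calc (g m : ℝ) ^ 32 ≤ (g m : ℝ) ^ 32 * (C ^ 3 * φ) ^ 2 := le_mul_of_one_le_right h4 h3
    _ = C ^ 6 * ((g m : ℝ) ^ 32 * φ ^ 2) := by ring
    _ ≤ C ^ 6 * (bl s m).card := mul_le_mul_of_nonneg_left h2 h5

theorem Par.c_le (hP : Par N C0 Λ s g d q) (m : ℕ) :
    (d m : ℝ) / (bl s m).card * (g m : ℝ) ^ 28 ≤ 2 := by
  have h1 : (0 : ℝ) < (bl s m).card := by exact_mod_cast hP.card_pos m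
  have h2 : ((d m : ℝ)) * (g m : ℝ) ^ 28 ≤ 2 * (bl s m).card := by exact_mod_cast hP.d_hi m
  rw [div_mul_eq_mul_div, div_le_iff₀ h1]
  exact h2

theorem Par.log_le (hP : Par N C0 Λ s g d q) (m : ℕ) :
    0 ≤ Real.log (((bl s m).card : ℝ) / d m) ∧
      1 + Real.log (((bl s m).card : ℝ) / d m) ≤ 29 * g m := by
  have hd : (0 : ℝ) < d m := by
    have := hP.d_big m
    exact_mod_cast (by omega : 0 < d m)
  have hc : (d m : ℝ) ≤ (bl s m).card := by
    have := hP.d_small m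
    exact_mod_cast (by omega : d m ≤ (bl s m).card)
  have hlo : ((bl s m).card : ℝ) ≤ d m * (g m : ℝ) ^ 28 := by exact_mod_cast hP.d_lo m
  have hg := hP.g_pos m
  have hg0 : (0 : ℝ) < g m := by linarith
  have h1 : 1 ≤ ((bl s m).card : ℝ) / d m := by rw [le_div_iff₀ hd]; linarith
  refine ⟨Real.log_nonneg h1, ?_⟩
  have h2 : ((bl s m).card : ℝ) / d m ≤ (g m : ℝ) ^ 28 := by
    rw [div_le_iff₀ hd]; linarith
  have h3 : Real.log (((bl s m).card : ℝ) / d m) ≤ Real.log ((g m : ℝ) ^ 28) :=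
    Real.log_le_log (by linarith) h2
  rw [Real.log_pow] at h3
  have h4 : Real.log (g m : ℝ) ≤ g m - 1 := Real.log_le_sub_one_of_pos hg0
  push_cast at h3
  linarith

theorem Par.l2 (h : LNorm N C) (hΛ : 1 ≤ Λ) (hP : Par N C0 Λ s g d q) (m : ℕ) (x : ℕ → ℝ) :
    Real.sqrt (nsq (bl s m) x) ≤ 4 * C ^ 7 * Real.sqrt Λ * (g m : ℝ) ^ 16 * N (rs (bl s m) x) := by
  have hφ1 := hP.phi_pos h m
  have hk : s m + (bl s m).card = s (m + 1) := by
    unfold bl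
    rw [Nat.card_Ico]
    have := hP.mono (Nat.lt_succ_self m)
    simp only [Nat.succ_eq_add_one] at this
    omega
  have hbl : Finset.Ico (s m) (s m + (bl s m).card) = bl s m := by rw [hk]; rfl
  have h1 := h.l2_le (s m) (bl s m).card x
  rw [hbl] at h1
  set φ := N (rs (bl s m) (fun _ => 1)) with hφ
  have hC : 1 ≤ C := h.one_le
  have hφpos : 0 < φ := by
    by_contra hneg
    push Not at hneg
    have : C ^ 3 * φ ≤ 0 := mul_nonpos_of_nonneg_of_nonpos (by positivity) hneg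
    linarith
  have hNx : 0 ≤ N (rs (bl s m) x) := h.nonneg _
  have h2 : Real.sqrt (bl s m).card ≤ Real.sqrt Λ * (g m : ℝ) ^ 16 * φ := by
    have hg : (0 : ℝ) ≤ (g m : ℝ) ^ 16 * φ := by positivity
    calc Real.sqrt (bl s m).card ≤ Real.sqrt (Λ * ((g m : ℝ) ^ 16 * φ) ^ 2) := by
          apply Real.sqrt_le_sqrt
          have := hP.f_hi m
          calc ((bl s m).card : ℝ) ≤ Λ * (g m : ℝ) ^ 32 * φ ^ 2 := this
            _ = Λ * ((g m : ℝ) ^ 16 * φ) ^ 2 := by ring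
      _ = Real.sqrt Λ * ((g m : ℝ) ^ 16 * φ) := by
          rw [Real.sqrt_mul (by linarith), Real.sqrt_sq hg]
      _ = Real.sqrt Λ * (g m : ℝ) ^ 16 * φ := by ring
  have h3 : Real.sqrt (nsq (bl s m) x) * φ ≤
      (4 * C ^ 7 * Real.sqrt Λ * (g m : ℝ) ^ 16 * N (rs (bl s m) x)) * φ := by
    calc Real.sqrt (nsq (bl s m) x) * φ ≤
        4 * C ^ 7 * Real.sqrt (bl s m).card * N (rs (bl s m) x) := h1
      _ ≤ 4 * C ^ 7 * (Real.sqrt Λ * (g m : ℝ) ^ 16 * φ) * N (rs (bl s m) x) := by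
          apply mul_le_mul_of_nonneg_right _ hNx
          exact mul_le_mul_of_nonneg_left h2 (by positivity)
      _ = (4 * C ^ 7 * Real.sqrt Λ * (g m : ℝ) ^ 16 * N (rs (bl s m) x)) * φ := by ring
  exact le_of_mul_le_mul_right h3 hφpos

theorem Par.flat_small (h : LNorm N C) (hP : Par N C0 Λ s g d q) (m : ℕ) (z : ℕ → ℝ)
    (hz : Dual N z) (F : Finset ℕ) (hF : F ⊆ bl s m)
    (hF2 : ∀ i ∈ F, z i ^ 2 * (bl s m).card ≤ (g m : ℝ) ^ 20) :
    nsq F z * (g m : ℝ) ^ 6 ≤ C ^ 2 := by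
  have hφ1 := hP.phi_pos h m
  have hC : 1 ≤ C := h.one_le
  have hlo := hP.f_lo m
  set φ := N (rs (bl s m) (fun _ => 1)) with hφ
  have hφpos : 0 < φ := by
    by_contra hneg
    push Not at hneg
    have : C ^ 3 * φ ≤ 0 := mul_nonpos_of_nonneg_of_nonpos (by positivity) hneg
    linarith
  have hc : (0 : ℝ) < (bl s m).card := by exact_mod_cast hP.card_pos m
  have hg := hP.g_pos m
  set w : ℝ := Real.sqrt (bl s m).card with hw
  have hw0 : 0 < w := Real.sqrt_pos.2 hc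
  have hw2 : w ^ 2 = (bl s m).card := Real.sq_sqrt hc.le
  set τ : ℝ := (g m : ℝ) ^ 10 / w with hτ
  have hτ0 : 0 ≤ τ := by positivity
  have hwφ : (g m : ℝ) ^ 16 * φ ≤ w := by
    apply Real.le_sqrt_of_sq_le
    calc ((g m : ℝ) ^ 16 * φ) ^ 2 = (g m : ℝ) ^ 32 * φ ^ 2 := by ring
      _ ≤ ((bl s m).card : ℝ) := hlo
  have hz1 : ∀ i ∈ F, |z i| ≤ |τ| := by
    intro i hi
    rw [abs_of_nonneg hτ0]
    have h1 := hF2 i hi
    rw [← hw2] at h1
    have h2 : (|z i| * w) ^ 2 ≤ ((g m : ℝ) ^ 10) ^ 2 := by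
      calc (|z i| * w) ^ 2 = z i ^ 2 * w ^ 2 := by rw [mul_pow, sq_abs]
        _ ≤ (g m : ℝ) ^ 20 := h1
        _ = ((g m : ℝ) ^ 10) ^ 2 := by ring
    have h3 : |z i| * w ≤ (g m : ℝ) ^ 10 := by
      exact le_of_sq_le_sq h2 (by positivity)
    rw [hτ, le_div_iff₀ hw0]
    exact h3
  have hd : nsq F z ≤ N (rs F z) := by
    have h1 := hz F z
    have h2 : ∑ i ∈ F, z i * z i = nsq F z := by
      unfold nsq
      apply Finset.sum_congr rfl
      intro i _; ring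
    rw [h2] at h1
    exact (le_abs_self _).trans h1
  have hconst : N (rs (bl s m) (fun _ => τ)) = τ * φ := by
    have : rs (bl s m) (fun _ => τ) = τ • rs (bl s m) (fun _ => 1) := by
      unfold rs
      rw [Finset.smul_sum]
      apply Finset.sum_congr rfl
      intro i _
      rw [Finsupp.smul_single, smul_eq_mul, mul_one]
    rw [this, h.smul, abs_of_nonneg hτ0]
  have h2 : N (rs F z) ≤ C * (C * (τ * φ)) := by
    calc N (rs F z) ≤ C * N (rs F (fun _ => τ)) := h.uncond F z (fun _ => τ) hz1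
      _ ≤ C * (C * N (rs (bl s m) (fun _ => τ))) :=
          mul_le_mul_of_nonneg_left (h.rs_mono F (bl s m) hF _) (by linarith)
      _ = C * (C * (τ * φ)) := by rw [hconst]
  have h3 : τ * φ * (g m : ℝ) ^ 6 ≤ 1 := by
    have : τ * φ * (g m : ℝ) ^ 6 = ((g m : ℝ) ^ 16 * φ) / w := by
      rw [hτ]; field_simp
    rw [this, div_le_one hw0]
    exact hwφ
  calc nsq F z * (g m : ℝ) ^ 6 ≤ (C * (C * (τ * φ))) * (g m : ℝ) ^ 6 :=
        mul_le_mul_of_nonneg_right (hd.trans h2) (by positivity)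
    _ = C ^ 2 * (τ * φ * (g m : ℝ) ^ 6) := by ring
    _ ≤ C ^ 2 * 1 := mul_le_mul_of_nonneg_left h3 (by positivity)
    _ = C ^ 2 := by ring

theorem Par.peaks (h : LNorm N C) (hP : Par N C0 Λ s g d q) (m : ℕ) (z : ℕ → ℝ)
    (hz : Dual N z) :
    (((bl s m).filter (fun i => (g m : ℝ) ^ 20 < z i ^ 2 * (bl s m).card)).card : ℝ) *
      (g m : ℝ) ^ 20 ≤ C ^ 8 * (bl s m).card := by
  set P := (bl s m).filter (fun i => (g m : ℝ) ^ 20 < z i ^ 2 * (bl s m).card) with hPdef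
  have h1 : (P.card : ℝ) * (g m : ℝ) ^ 20 ≤ ∑ i ∈ P, z i ^ 2 * (bl s m).card := by
    have : ∑ i ∈ P, (g m : ℝ) ^ 20 ≤ ∑ i ∈ P, z i ^ 2 * (bl s m).card := by
      apply Finset.sum_le_sum
      intro i hi
      exact (Finset.mem_filter.1 hi).2.le
    simpa using this
  have h2 : ∑ i ∈ P, z i ^ 2 * ((bl s m).card : ℝ) ≤ nsq (bl s m) z * (bl s m).card := by
    unfold nsq
    rw [← Finset.sum_mul]
    apply mul_le_mul_of_nonneg_right _ (by positivity)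
    exact Finset.sum_le_sum_of_subset_of_nonneg (Finset.filter_subset _ _)
      (fun i _ _ => sq_nonneg _)
  have h3 : nsq (bl s m) z * ((bl s m).card : ℝ) ≤ C ^ 8 * (bl s m).card :=
    mul_le_mul_of_nonneg_right (h.dual z hz (bl s m)) (by positivity)
  linarith

end Pool.Agent.Helper52.CS
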