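import Pool.Agent.Helper52.CS.Basic

/-! CS-4. Order preserving relocation.
PROOF. Enumerate `F` increasingly (`Finset.orderEmbOfFin`), `p : Fin k → ℕ`, `c l = x (p l)`; then `rs F x = ∑ single (p l) (c l)` and
`rs (F.image θ) y = ∑ single (θ (p l)) (c l)` with `θ ∘ p` strictly increasing. Compare both with `∑ single l (c l)` by spread. -/

set_option autoImplicit false

namespace Pool.Agent.Helper52.CS

open Finset

variable {N : F0 → ℝ} {C : ℝ}

theorem LNorm.reloc (h : LNorm N C) (F : Finset ℕ) (θ : ℕ → ℕ) (hθ : StrictMonoOn θ (F : Set ℕ))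
    (x y : ℕ → ℝ) (hxy : ∀ i ∈ F, y (θ i) = x i) :
    N (rs (F.image θ) y) ≤ C ^ 2 * N (rs F x) ∧ N (rs F x) ≤ C ^ 2 * N (rs (F.image θ) y) := by
  have hC : (0 : ℝ) ≤ C := le_trans zero_le_one h.one_le
  have hsum : ∀ g : ℕ → F0, ∑ i ∈ F, g i = ∑ l : Fin F.card, g (F.orderEmbOfFin rfl l) := by
    intro g
    rw [← Finset.sum_coe_sort F g]
    exact (Equiv.sum_comp (F.orderIsoOfFin rfl).toEquiv (fun i : F => g i)).symm
  have hinj : Set.InjOn θ (F : Set ℕ) := hθ.injOn
  have h1 : rs F x = ∑ l : Fin F.card,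
      Finsupp.single (F.orderEmbOfFin rfl l) (x (F.orderEmbOfFin rfl l)) := by
    unfold rs
    exact hsum (fun i => Finsupp.single i (x i))
  have h2 : rs (F.image θ) y = ∑ l : Fin F.card,
      Finsupp.single (θ (F.orderEmbOfFin rfl l)) (x (F.orderEmbOfFin rfl l)) := by
    unfold rs
    rw [Finset.sum_image hinj, hsum (fun i => Finsupp.single (θ i) (y (θ i)))]
    refine Finset.sum_congr rfl fun l _ => ?_
    rw [hxy _ (Finset.orderEmbOfFin_mem F rfl l)]
  have hp : StrictMono (fun l : Fin F.card => F.orderEmbOfFin rfl l) :=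
    (F.orderEmbOfFin rfl).strictMono
  have hq : StrictMono (fun l : Fin F.card => θ (F.orderEmbOfFin rfl l)) := by
    intro a b hab
    exact hθ (Finset.orderEmbOfFin_mem F rfl a) (Finset.orderEmbOfFin_mem F rfl b) (hp hab)
  obtain ⟨a1, a2⟩ := h.spread F.card _ hp (fun l => x (F.orderEmbOfFin rfl l))
  obtain ⟨b1, b2⟩ := h.spread F.card _ hq (fun l => x (F.orderEmbOfFin rfl l))
  rw [h1, h2]
  constructor
  · calc _ ≤ _ := b1
      _ ≤ C * _ := mul_le_mul_of_nonneg_left a2 hC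
      _ = _ := by ring
  · calc _ ≤ _ := a1
      _ ≤ C * _ := mul_le_mul_of_nonneg_left b2 hC
      _ = _ := by ring

end Pool.Agent.Helper52.CS
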