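import Pool.Agent.Helper52.CS.ParBasics
import Pool.Agent.Helper52.CS.Proj

/-! CS-19. The part of a factorisation through the blocks before `n`.
PROOF. Let `b i ∈ Yalg s q B` for `i ∈ bl s n`. A coordinate `l < s n` with `b i l ≠ 0` lies in some `bl s m`, `m < n`, `m ∈ B`. For `m < n`, `m ∈ B`, `l' ∈ bl s m` put
`ζ_j(l') = ∑_{l ∈ bl s m} z j l (δ_{l l'} - q m l l')`. As `b i l = ∑_{l' ∈ bl s m} (δ_{l l'} - q m l l') b i l'`: `∑_{l ∈ bl s m} z i l b i l = ∑_{l' ∈ bl s m} ζ_i(l') b i l'`.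
The vector `y = rs (bl s m) (l ↦ δ_{l l'} - q m l l')` is in `Yalg s q B` (symm, idem), `nsq ≤ 1`, so `|ζ_j(l')| ≤ K C^4` for `j ∈ bl s n` and by (h2) `ap (bl s n) (q n) ζ(l') = 0` on `bl s n`.
`∑_i ζ_i(l') b i l'` is the coordinate `l'` of `∑_i ζ_i(l') • b i`, so (coord) at most `C³ N (∑ ζ_i • b i) ≤ C³ (K N (rs (bl s n) ζ) + η ∑ |ζ_i|) ≤ C³ (K C^4 sqrt(N_n) K C^4 + η N_n K C^4)`.
Sum over the at most `s n` indices `l'`. -/

set_option autoImplicit false

namespace Pool.Agent.Helper52.CS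

open Finset

variable {N : F0 → ℝ} {C C0 Λ : ℝ} {s g d : ℕ → ℕ} {q : ℕ → ℕ → ℕ → ℝ}

private lemma rs_self (a : F0) (J : Finset ℕ) (hJ : a.support ⊆ J) : rs J a = a := by
  ext i
  rw [rs_apply]
  split_ifs with h
  · rfl
  · symm
    by_contra hne
    exact h (hJ (Finsupp.mem_support_iff.2 hne))

private lemma coordF (h : LNorm N C) (a : F0) (i : ℕ) : |a i| ≤ C ^ 3 * N a := by
  have h1 := h.coord (insert i a.support) a i (Finset.mem_insert_self _ _)
  rwa [rs_self a _ (Finset.subset_insert _ _)] at h1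

private lemma bl_uniq (hs : StrictMono s) {m m' i : ℕ} (hi : i ∈ bl s m) (hi' : i ∈ bl s m') :
    m = m' := by
  unfold bl at hi hi'
  rw [Finset.mem_Ico] at hi hi'
  have h1 : s m < s (m' + 1) := lt_of_le_of_lt hi.1 hi'.2
  have h2 : s m' < s (m + 1) := lt_of_le_of_lt hi'.1 hi.2
  have h3 := hs.lt_iff_lt.1 h1
  have h4 := hs.lt_iff_lt.1 h2
  omega

/-- Columns of the projection onto the kernel of `q`. -/
private lemma col_facts {I : Finset ℕ} {D : ℕ} {Q : ℕ → ℕ → ℝ} (h : Good I D C0 Q) (l' : ℕ)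
    (hl' : l' ∈ I) :
    (∀ i ∈ I, ap I Q (fun l => (if l = l' then 1 else 0) - Q l l') i = 0) ∧
      nsq I (fun l => (if l = l' then 1 else 0) - Q l l') ≤ 1 := by
  classical
  have hδ : ∀ f : ℕ → ℝ, ∑ j ∈ I, f j * (if j = l' then (1 : ℝ) else 0) = f l' := by
    intro f
    simp [Finset.sum_ite_eq', hl']
  constructor
  · intro i hi
    unfold ap
    have h1 : ∑ j ∈ I, Q i j * ((if j = l' then (1 : ℝ) else 0) - Q j l') =
        ∑ j ∈ I, Q i j * (if j = l' then (1 : ℝ) else 0) - ∑ j ∈ I, Q i j * Q j l' := by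
      rw [← Finset.sum_sub_distrib]
      exact Finset.sum_congr rfl fun j _ => by ring
    rw [h1, hδ (fun j => Q i j), h.idem i hi l' hl', sub_self]
  · unfold nsq
    have hdiag : ∑ l ∈ I, Q l l' ^ 2 = Q l' l' := by
      rw [← h.idem l' hl' l' hl']
      refine Finset.sum_congr rfl fun l hl => ?_
      rw [h.symm l' hl' l hl]
      ring
    have h1 : ∑ l ∈ I, ((if l = l' then (1 : ℝ) else 0) - Q l l') ^ 2 =
        ∑ l ∈ I, (1 : ℝ) * (if l = l' then (1 : ℝ) else 0) -
          2 * ∑ l ∈ I, Q l l' * (if l = l' then (1 : ℝ) else 0) + ∑ l ∈ I, Q l l' ^ 2 := by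
      rw [Finset.mul_sum, ← Finset.sum_sub_distrib, ← Finset.sum_add_distrib]
      refine Finset.sum_congr rfl fun l _ => ?_
      split_ifs <;> ring
    rw [h1, hδ (fun _ => 1), hδ (fun l => Q l l'), hdiag]
    have h2 : 0 ≤ Q l' l' := by
      rw [← hdiag]
      exact Finset.sum_nonneg fun l _ => sq_nonneg _
    linarith

theorem LNorm.small_part (h : LNorm N C) (hP : Par N C0 Λ s g d q) (n : ℕ) (B : Set ℕ) (K : ℝ)
    (hK : 1 ≤ K) (z : ℕ → ℕ → ℝ)
    (h1 : ∀ j ∈ bl s n, ∀ (J : Finset ℕ) (x : ℕ → ℝ), |∑ i ∈ J, z j i * x i| ≤ K * N (rs J x))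
    (h2 : ∀ y ∈ Yalg s q B, ∀ i ∈ bl s n,
      ap (bl s n) (q n) (fun j => ∑ l ∈ y.support, z j l * y l) i = 0)
    (η : ℝ) (hη : 0 < η) (b : ℕ → F0) (hb : ∀ i ∈ bl s n, b i ∈ Yalg s q B)
    (hb2 : ∀ a : ℕ → ℝ, N (∑ i ∈ bl s n, a i • b i) ≤
      K * N (rs (bl s n) (fun i => a i - ap (bl s n) (q n) a i)) + η * ∑ i ∈ bl s n, |a i|) :
    |∑ i ∈ bl s n, ∑ l ∈ Finset.range (s n), z i l * b i l| ≤
      s n * (C ^ 11 * K ^ 2 * Real.sqrt (bl s n).card + C ^ 7 * K * η * (bl s n).card) := by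
  classical
  have hs := hP.mono
  have hC0 : (0 : ℝ) ≤ C := le_trans zero_le_one h.one_le
  have hK0 : (0 : ℝ) ≤ K := le_trans zero_le_one hK
  set M : Finset ℕ := (Finset.range n).filter (fun m => m ∈ B) with hM
  have hdisj : (M : Set ℕ).PairwiseDisjoint (bl s) := by
    intro m _ m' _ hmm
    rw [Function.onFun, Finset.disjoint_left]
    intro i hi hi'
    exact hmm (bl_uniq hs hi hi')
  have hsub : M.biUnion (bl s) ⊆ Finset.range (s n) := by
    intro i hi
    rw [Finset.mem_biUnion] at hi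
    obtain ⟨m, hm, him⟩ := hi
    rw [hM, Finset.mem_filter, Finset.mem_range] at hm
    unfold bl at him
    rw [Finset.mem_Ico] at him
    rw [Finset.mem_range]
    exact lt_of_lt_of_le him.2 (hs.monotone hm.1)
  set ζ : ℕ → ℕ → ℕ → ℝ := fun m l' j =>
    ∑ l ∈ bl s m, z j l * ((if l = l' then 1 else 0) - q m l l') with hζ
  -- step 1: only the blocks with index in `M` matter
  have step1 : ∀ i ∈ bl s n, ∑ l ∈ Finset.range (s n), z i l * b i l =
      ∑ m ∈ M, ∑ l ∈ bl s m, z i l * b i l := by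
    intro i hi
    rw [← Finset.sum_biUnion hdisj]
    symm
    refine Finset.sum_subset hsub fun l hl hl' => ?_
    have hzero : b i l = 0 := by
      by_contra hne
      obtain ⟨m, hmB, hlm⟩ := (hb i hi).1 l hne
      refine hl' (Finset.mem_biUnion.2 ⟨m, ?_, hlm⟩)
      rw [hM, Finset.mem_filter, Finset.mem_range]
      refine ⟨?_, hmB⟩
      unfold bl at hlm
      rw [Finset.mem_Ico] at hlm
      rw [Finset.mem_range] at hl
      exact hs.lt_iff_lt.1 (lt_of_le_of_lt hlm.1 hl)
    rw [hzero, mul_zero]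
  -- step 2: insert the projection
  have step2 : ∀ i ∈ bl s n, ∀ m, ∑ l ∈ bl s m, z i l * b i l =
      ∑ l' ∈ bl s m, ζ m l' i * b i l' := by
    intro i hi m
    have e1 : ∑ l' ∈ bl s m, ζ m l' i * b i l' =
        ∑ l ∈ bl s m, z i l * ∑ l' ∈ bl s m, ((if l = l' then 1 else 0) - q m l l') * b i l' := by
      simp only [hζ]
      calc ∑ l' ∈ bl s m, (∑ l ∈ bl s m, z i l * ((if l = l' then 1 else 0) - q m l l')) * b i l'
          = ∑ l' ∈ bl s m, ∑ l ∈ bl s m,
              z i l * ((if l = l' then 1 else 0) - q m l l') * b i l' :=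
            Finset.sum_congr rfl fun l' _ => by rw [Finset.sum_mul]
        _ = ∑ l ∈ bl s m, ∑ l' ∈ bl s m,
              z i l * ((if l = l' then 1 else 0) - q m l l') * b i l' := Finset.sum_comm
        _ = _ := by
            refine Finset.sum_congr rfl fun l _ => ?_
            rw [Finset.mul_sum]
            exact Finset.sum_congr rfl fun l' _ => by ring
    rw [e1]
    refine Finset.sum_congr rfl fun l hl => ?_
    congr 1
    have e2 : ∑ l' ∈ bl s m, ((if l = l' then 1 else 0) - q m l l') * b i l' =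
        ∑ l' ∈ bl s m, (if l = l' then b i l' else 0) - ap (bl s m) (q m) (b i) l := by
      unfold ap
      rw [← Finset.sum_sub_distrib]
      refine Finset.sum_congr rfl fun l' _ => ?_
      split_ifs <;> ring
    rw [e2, (hb i hi).2 m l hl, sub_zero, Finset.sum_ite_eq, if_pos hl]
  -- the bound for one pair `(m, l')`
  have hR : ∀ m ∈ M, ∀ l' ∈ bl s m, |∑ i ∈ bl s n, ζ m l' i * b i l'| ≤
      C ^ 11 * K ^ 2 * Real.sqrt (bl s n).card + C ^ 7 * K * η * (bl s n).card := by
    intro m hm l' hl'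
    rw [hM, Finset.mem_filter, Finset.mem_range] at hm
    obtain ⟨hap0, hn1⟩ := col_facts (hP.good m) l' hl'
    set y : ℕ → ℝ := fun l => (if l = l' then 1 else 0) - q m l l' with hy
    -- bound for `ζ`
    have hζb : ∀ j ∈ bl s n, |ζ m l' j| ≤ K * C ^ 4 := by
      intro j hj
      refine (h1 j hj (bl s m) y).trans (mul_le_mul_of_nonneg_left ?_ hK0)
      refine (h.upper2 (bl s m) y).trans ?_
      have : Real.sqrt (nsq (bl s m) y) ≤ 1 := by
        rw [Real.sqrt_le_one]
        exact hn1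
      calc C ^ 4 * Real.sqrt (nsq (bl s m) y) ≤ C ^ 4 * 1 :=
            mul_le_mul_of_nonneg_left this (pow_nonneg hC0 4)
        _ = C ^ 4 := mul_one _
    -- the vector is in `Yalg`
    have hyY : rs (bl s m) y ∈ Yalg s q B := by
      refine ⟨?_, ?_⟩
      · intro i hi
        rw [rs_apply] at hi
        split_ifs at hi with him
        · exact ⟨m, hm.2, him⟩
        · exact absurd rfl hi
      · intro m' i hi
        by_cases hmm : m' = m
        · subst hmm
          rw [← hap0 i hi]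
          unfold ap
          refine Finset.sum_congr rfl fun j hj => ?_
          rw [rs_apply, if_pos hj]
        · unfold ap
          refine Finset.sum_eq_zero fun j hj => ?_
          rw [rs_apply, if_neg, mul_zero]
          intro hj'
          exact hmm (bl_uniq hs hj hj')
    have hsum : ∀ j, ∑ l ∈ (rs (bl s m) y).support, z j l * rs (bl s m) y l = ζ m l' j := by
      intro j
      have hsup : (rs (bl s m) y).support ⊆ bl s m := by
        intro l hl
        rw [Finsupp.mem_support_iff, rs_apply] at hl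
        by_contra hne
        rw [if_neg hne] at hl
        exact hl rfl
      have e1 : ∑ l ∈ (rs (bl s m) y).support, z j l * rs (bl s m) y l =
          ∑ l ∈ bl s m, z j l * rs (bl s m) y l := by
        refine Finset.sum_subset hsup fun l _ hl => ?_
        rw [Finsupp.notMem_support_iff.1 hl, mul_zero]
      rw [e1]
      refine Finset.sum_congr rfl fun l hl => ?_
      rw [rs_apply, if_pos hl]
    have hapz : ∀ i ∈ bl s n, ap (bl s n) (q n) (ζ m l') i = 0 := by
      intro i hi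
      have := h2 _ hyY i hi
      simp only [hsum] at this
      exact this
    -- the coordinate
    have e3 : ∑ i ∈ bl s n, ζ m l' i * b i l' = (∑ i ∈ bl s n, ζ m l' i • b i) l' := by
      rw [Finsupp.finsetSum_apply]
      exact Finset.sum_congr rfl fun i _ => by rw [Finsupp.smul_apply, smul_eq_mul]
    rw [e3]
    have hN1 : N (rs (bl s n) (fun i => ζ m l' i - ap (bl s n) (q n) (ζ m l') i)) ≤
        C ^ 8 * K * Real.sqrt (bl s n).card := by
      have e4 : rs (bl s n) (fun i => ζ m l' i - ap (bl s n) (q n) (ζ m l') i) =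
          rs (bl s n) (ζ m l') := by
        unfold rs
        refine Finset.sum_congr rfl fun i hi => ?_
        simp only [hapz i hi, sub_zero]
      rw [e4]
      refine (h.upper2 _ _).trans ?_
      have e5 : nsq (bl s n) (ζ m l') ≤ (K * C ^ 4) ^ 2 * (bl s n).card := by
        unfold nsq
        calc ∑ i ∈ bl s n, ζ m l' i ^ 2 ≤ ∑ i ∈ bl s n, (K * C ^ 4) ^ 2 := by
              refine Finset.sum_le_sum fun i hi => ?_
              rw [← sq_abs]
              exact pow_le_pow_left₀ (abs_nonneg _) (hζb i hi) 2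
          _ = (K * C ^ 4) ^ 2 * (bl s n).card := by
              rw [Finset.sum_const, nsmul_eq_mul, mul_comm]
      have hKC : 0 ≤ K * C ^ 4 := mul_nonneg hK0 (pow_nonneg hC0 4)
      calc C ^ 4 * Real.sqrt (nsq (bl s n) (ζ m l'))
          ≤ C ^ 4 * Real.sqrt ((K * C ^ 4) ^ 2 * (bl s n).card) :=
            mul_le_mul_of_nonneg_left (Real.sqrt_le_sqrt e5) (pow_nonneg hC0 4)
        _ = C ^ 8 * K * Real.sqrt (bl s n).card := by
            rw [Real.sqrt_mul (sq_nonneg _), Real.sqrt_sq hKC]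
            ring
    have hS1 : ∑ i ∈ bl s n, |ζ m l' i| ≤ K * C ^ 4 * (bl s n).card := by
      calc ∑ i ∈ bl s n, |ζ m l' i| ≤ ∑ i ∈ bl s n, K * C ^ 4 :=
            Finset.sum_le_sum fun i hi => hζb i hi
        _ = K * C ^ 4 * (bl s n).card := by
            rw [Finset.sum_const, nsmul_eq_mul, mul_comm]
    calc |(∑ i ∈ bl s n, ζ m l' i • b i) l'| ≤ C ^ 3 * N (∑ i ∈ bl s n, ζ m l' i • b i) :=
          coordF h _ _
      _ ≤ C ^ 3 * (K * N (rs (bl s n) (fun i => ζ m l' i - ap (bl s n) (q n) (ζ m l') i)) +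
            η * ∑ i ∈ bl s n, |ζ m l' i|) :=
          mul_le_mul_of_nonneg_left (hb2 _) (pow_nonneg hC0 3)
      _ ≤ C ^ 3 * (K * (C ^ 8 * K * Real.sqrt (bl s n).card) +
            η * (K * C ^ 4 * (bl s n).card)) := by
          refine mul_le_mul_of_nonneg_left ?_ (pow_nonneg hC0 3)
          exact add_le_add (mul_le_mul_of_nonneg_left hN1 hK0)
            (mul_le_mul_of_nonneg_left hS1 hη.le)
      _ = _ := by ring
  -- assembly
  set R : ℝ := C ^ 11 * K ^ 2 * Real.sqrt (bl s n).card + C ^ 7 * K * η * (bl s n).card with hRdef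
  have hR0 : 0 ≤ R := by positivity
  have e6 : ∑ i ∈ bl s n, ∑ l ∈ Finset.range (s n), z i l * b i l =
      ∑ m ∈ M, ∑ l' ∈ bl s m, ∑ i ∈ bl s n, ζ m l' i * b i l' := by
    calc ∑ i ∈ bl s n, ∑ l ∈ Finset.range (s n), z i l * b i l
        = ∑ i ∈ bl s n, ∑ m ∈ M, ∑ l' ∈ bl s m, ζ m l' i * b i l' := by
          refine Finset.sum_congr rfl fun i hi => ?_
          rw [step1 i hi]
          exact Finset.sum_congr rfl fun m _ => step2 i hi m
      _ = ∑ m ∈ M, ∑ i ∈ bl s n, ∑ l' ∈ bl s m, ζ m l' i * b i l' := Finset.sum_comm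
      _ = _ := Finset.sum_congr rfl fun m _ => Finset.sum_comm
  rw [e6]
  calc |∑ m ∈ M, ∑ l' ∈ bl s m, ∑ i ∈ bl s n, ζ m l' i * b i l'|
      ≤ ∑ m ∈ M, |∑ l' ∈ bl s m, ∑ i ∈ bl s n, ζ m l' i * b i l'| := Finset.abs_sum_le_sum_abs _ _
    _ ≤ ∑ m ∈ M, ∑ l' ∈ bl s m, |∑ i ∈ bl s n, ζ m l' i * b i l'| :=
        Finset.sum_le_sum fun m _ => Finset.abs_sum_le_sum_abs _ _
    _ ≤ ∑ m ∈ M, ∑ l' ∈ bl s m, R :=
        Finset.sum_le_sum fun m hm => Finset.sum_le_sum fun l' hl' => hR m hm l' hl'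
    _ = ((M.biUnion (bl s)).card : ℝ) * R := by
        rw [← Finset.sum_biUnion hdisj, Finset.sum_const, nsmul_eq_mul]
    _ ≤ s n * R := by
        refine mul_le_mul_of_nonneg_right ?_ hR0
        have := Finset.card_le_card hsub
        rw [Finset.card_range] at this
        exact_mod_cast this

end Pool.Agent.Helper52.CS
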