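import Pool.Agent.Helper52.CS.Defs

/-! CS-32. Lower tail for `|G v|²`.
PROOF. `exp (-y) ≤ 1 - y + y²/2` for `y ≥ 0`, with `y = X²/4`; moments of `X = ∑ sb (g i) v i`: average of `X²` is 1, of `X⁴` at most 3, so `∑_g exp (-X²/4) ≤ (27/32) 2^card ι`. Markov:
`1 ≤ exp (card κ / 16 - GV/4)` on the set; `exp (1/16) · 27/32 ≤ exp (-1/10)` (i.e. `27/32 ≤ exp (-13/80)`). -/

set_option autoImplicit false

namespace Pool.Agent.Helper52.CS

open Finset

private lemma sum_prod_rows {κ ι : Type} [Fintype κ] [DecidableEq κ] [Fintype ι] [DecidableEq ι]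
    (F : (ι → Bool) → ℝ) :
    ∑ G : κ → ι → Bool, ∏ l, F (G l) = (∑ g : ι → Bool, F g) ^ Fintype.card κ := by
  have h := Finset.prod_univ_sum (fun _ : κ => (Finset.univ : Finset (ι → Bool))) (fun _ g => F g)
  rw [Fintype.piFinset_univ] at h
  rw [← h, Finset.prod_const, Finset.card_univ]

/-- flip one bit -/
private def flip {ι : Type} [DecidableEq ι] (a : ι) (g : ι → Bool) : ι → Bool :=
  Function.update g a (!(g a))

private lemma flip_invol {ι : Type} [DecidableEq ι] (a : ι) :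
    Function.Involutive (flip a : (ι → Bool) → (ι → Bool)) := by
  intro g
  funext i
  by_cases h : i = a
  · subst h
    simp [flip]
  · simp [flip, h]

private lemma sum_sb {ι : Type} [Fintype ι] [DecidableEq ι] (a : ι) (F : (ι → Bool) → ℝ)
    (hF : ∀ g, F (flip a g) = F g) : ∑ g : ι → Bool, sb (g a) * F g = 0 := by
  have h1 : ∑ g : ι → Bool, sb (g a) * F g = ∑ g : ι → Bool, sb (flip a g a) * F (flip a g) :=
    (Equiv.sum_comp (flip_invol a).toPerm (fun g => sb (g a) * F g)).symm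
  have h2 : ∀ g : ι → Bool, sb (flip a g a) = - sb (g a) := by
    intro g
    unfold flip sb
    rw [Function.update_self]
    cases g a <;> simp
  simp_rw [hF, h2, neg_mul] at h1
  rw [Finset.sum_neg_distrib] at h1
  linarith

private lemma moments {ι : Type} [Fintype ι] [DecidableEq ι] (v : ι → ℝ) (I : Finset ι) :
    ∑ g : ι → Bool, (∑ i ∈ I, sb (g i) * v i) ^ 2 = 2 ^ Fintype.card ι * ∑ i ∈ I, v i ^ 2 ∧
    ∑ g : ι → Bool, (∑ i ∈ I, sb (g i) * v i) ^ 4 ≤
      2 ^ Fintype.card ι * (3 * (∑ i ∈ I, v i ^ 2) ^ 2) := by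
  induction I using Finset.induction_on with
  | empty => simp
  | insert a I ha ih =>
    obtain ⟨ih2, ih4⟩ := ih
    set X : (ι → Bool) → ℝ := fun g => ∑ i ∈ I, sb (g i) * v i with hX
    have hXf : ∀ g, X (flip a g) = X g := by
      intro g
      refine Finset.sum_congr rfl fun i hi => ?_
      have : i ≠ a := fun h => ha (h ▸ hi)
      rw [flip, Function.update_of_ne this]
    have hs : ∀ g : ι → Bool, sb (g a) ^ 2 = 1 := by
      intro g
      unfold sb
      cases g a <;> simp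
    have hcard : ∑ _g : ι → Bool, (1 : ℝ) = 2 ^ Fintype.card ι := by
      simp
    have e1 : ∑ g : ι → Bool, sb (g a) * X g = 0 := sum_sb a X hXf
    have e3 : ∑ g : ι → Bool, sb (g a) * X g ^ 3 = 0 :=
      sum_sb a (fun g => X g ^ 3) (fun g => by rw [hXf])
    constructor
    · have h1 : ∀ g : ι → Bool, (∑ i ∈ insert a I, sb (g i) * v i) ^ 2 =
          X g ^ 2 + 2 * v a * (sb (g a) * X g) + v a ^ 2 * 1 := by
        intro g
        rw [Finset.sum_insert ha]
        have := hs g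
        calc (sb (g a) * v a + X g) ^ 2 = X g ^ 2 + 2 * v a * (sb (g a) * X g) +
              v a ^ 2 * sb (g a) ^ 2 := by ring
          _ = _ := by rw [this]
      simp_rw [h1]
      rw [Finset.sum_add_distrib, Finset.sum_add_distrib, ← Finset.mul_sum, ← Finset.mul_sum, e1,
        hcard, ih2, Finset.sum_insert ha]
      ring
    · have h1 : ∀ g : ι → Bool, (∑ i ∈ insert a I, sb (g i) * v i) ^ 4 =
          X g ^ 4 + 4 * v a * (sb (g a) * X g ^ 3) + 6 * v a ^ 2 * X g ^ 2 +
            4 * v a ^ 3 * (sb (g a) * X g) + v a ^ 4 * 1 := by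
        intro g
        rw [Finset.sum_insert ha]
        have h2 := hs g
        have h3 : sb (g a) ^ 3 = sb (g a) := by
          calc sb (g a) ^ 3 = sb (g a) ^ 2 * sb (g a) := by ring
            _ = _ := by rw [h2, one_mul]
        have h4 : sb (g a) ^ 4 = 1 := by
          calc sb (g a) ^ 4 = (sb (g a) ^ 2) ^ 2 := by ring
            _ = _ := by rw [h2, one_pow]
        calc (sb (g a) * v a + X g) ^ 4 = X g ^ 4 + 4 * v a * (sb (g a) * X g ^ 3) +
              6 * v a ^ 2 * (sb (g a) ^ 2) * X g ^ 2 + 4 * v a ^ 3 * (sb (g a) ^ 3 * X g) +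
              v a ^ 4 * sb (g a) ^ 4 := by ring
          _ = _ := by rw [h2, h3, h4]; ring
      simp_rw [h1]
      rw [Finset.sum_add_distrib, Finset.sum_add_distrib, Finset.sum_add_distrib,
        Finset.sum_add_distrib, ← Finset.mul_sum, ← Finset.mul_sum, ← Finset.mul_sum,
        ← Finset.mul_sum, e1, e3, hcard, ih2, Finset.sum_insert ha]
      have hp : (0 : ℝ) < 2 ^ Fintype.card ι := by positivity
      have hq : 0 ≤ 2 ^ Fintype.card ι * v a ^ 4 := by positivity
      nlinarith [ih4]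

private lemma exp_neg_le {y : ℝ} (hy : 0 ≤ y) : Real.exp (-y) ≤ 1 - y + y ^ 2 / 2 := by
  have h1 := Real.quadratic_le_exp_of_nonneg hy
  have h2 : 0 < 1 + y + y ^ 2 / 2 := by positivity
  have h3 : 1 ≤ (1 - y + y ^ 2 / 2) * (1 + y + y ^ 2 / 2) := by
    have : (1 - y + y ^ 2 / 2) * (1 + y + y ^ 2 / 2) = 1 + y ^ 4 / 4 := by ring
    rw [this]
    have : 0 ≤ y ^ 4 := by positivity
    linarith
  have h4 : 0 ≤ 1 - y + y ^ 2 / 2 := by nlinarith [sq_nonneg (y - 1)]
  rw [Real.exp_neg, inv_le_iff_one_le_mul₀ (Real.exp_pos y)]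
  exact h3.trans (mul_le_mul_of_nonneg_left h1 h4)

private lemma mgf_neg {ι : Type} [Fintype ι] [DecidableEq ι] (v : ι → ℝ)
    (hv : ∑ i, v i ^ 2 = 1) :
    ∑ g : ι → Bool, Real.exp (-((∑ i, sb (g i) * v i) ^ 2 / 4)) ≤
      27 / 32 * 2 ^ Fintype.card ι := by
  obtain ⟨h2, h4⟩ := moments v Finset.univ
  rw [hv] at h2 h4
  have h1 : ∀ g : ι → Bool, Real.exp (-((∑ i, sb (g i) * v i) ^ 2 / 4)) ≤
      1 - 1 / 4 * (∑ i, sb (g i) * v i) ^ 2 + 1 / 32 * (∑ i, sb (g i) * v i) ^ 4 := by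
    intro g
    refine (exp_neg_le (by positivity)).trans (le_of_eq ?_)
    ring
  refine (Finset.sum_le_sum fun g _ => h1 g).trans ?_
  have hcard : ∑ _g : ι → Bool, (1 : ℝ) = 2 ^ Fintype.card ι := by
    simp
  rw [Finset.sum_add_distrib, Finset.sum_sub_distrib, ← Finset.mul_sum, ← Finset.mul_sum, hcard, h2]
  linarith

private lemma num_bound : Real.exp (1 / 16) * (27 / 32) ≤ Real.exp (-(1 / 10)) := by
  have h1 : (147 / 160 : ℝ) ≤ Real.exp (-(13 / 160)) := by
    have := Real.add_one_le_exp (-(13 / 160 : ℝ))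
    linarith
  have h2 : (27 / 32 : ℝ) ≤ Real.exp (-(13 / 80)) := by
    have h3 : Real.exp (-(13 / 80)) = Real.exp (-(13 / 160)) * Real.exp (-(13 / 160)) := by
      rw [← Real.exp_add]
      congr 1
      ring
    rw [h3]
    have := mul_le_mul h1 h1 (by norm_num) (Real.exp_pos _).le
    linarith
  calc Real.exp (1 / 16) * (27 / 32) ≤ Real.exp (1 / 16) * Real.exp (-(13 / 80)) :=
        mul_le_mul_of_nonneg_left h2 (Real.exp_pos _).le
    _ = Real.exp (-(1 / 10)) := by
        rw [← Real.exp_add]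
        congr 1
        ring

theorem tail_lo {κ ι : Type} [Fintype κ] [DecidableEq κ] [Fintype ι] [DecidableEq ι] (v : ι → ℝ)
    (hv : ∑ i, v i ^ 2 = 1) :
    (({G : κ → ι → Bool | GV G v ≤ Fintype.card κ / 4} : Set (κ → ι → Bool)).ncard : ℝ) ≤
      Real.exp (-(Fintype.card κ / 10)) * 2 ^ (Fintype.card κ * Fintype.card ι) := by
  classical
  set k := Fintype.card κ with hk
  have h1 : (({G : κ → ι → Bool | GV G v ≤ k / 4} : Set (κ → ι → Bool)).ncard : ℝ) =
      ∑ G : κ → ι → Bool, if GV G v ≤ k / 4 then (1 : ℝ) else 0 := by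
    rw [Finset.sum_ite, Finset.sum_const_zero, add_zero, Finset.sum_const, nsmul_eq_mul, mul_one]
    congr 1
    rw [Set.ncard_eq_toFinset_card']
    congr 1
    ext G
    simp
  have h2 : ∀ G : κ → ι → Bool, (if GV G v ≤ k / 4 then (1 : ℝ) else 0) ≤
      Real.exp (k / 16) * ∏ l, Real.exp (-((∑ i, sb (G l i) * v i) ^ 2 / 4)) := by
    intro G
    have h3 : Real.exp (k / 16) * ∏ l, Real.exp (-((∑ i, sb (G l i) * v i) ^ 2 / 4)) =
        Real.exp (k / 16 - GV G v / 4) := by
      rw [← Real.exp_sum, ← Real.exp_add]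
      congr 1
      unfold GV
      rw [Finset.sum_neg_distrib, Finset.sum_div]
      ring
    rw [h3]
    split_ifs with h4
    · rw [← Real.exp_zero]
      exact Real.exp_le_exp.2 (by linarith)
    · exact (Real.exp_pos _).le
  rw [h1]
  refine (Finset.sum_le_sum fun G _ => h2 G).trans ?_
  rw [← Finset.mul_sum, sum_prod_rows (fun g => Real.exp (-((∑ i, sb (g i) * v i) ^ 2 / 4)))]
  have h4 : (∑ g : ι → Bool, Real.exp (-((∑ i, sb (g i) * v i) ^ 2 / 4))) ^ k ≤
      (27 / 32 * 2 ^ Fintype.card ι) ^ k :=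
    pow_le_pow_left₀ (Finset.sum_nonneg fun g _ => (Real.exp_pos _).le) (mgf_neg v hv) k
  have e1 : Real.exp (k / 16) = Real.exp (1 / 16) ^ k := by
    rw [← Real.exp_nat_mul]
    congr 1
    ring
  have e2 : Real.exp (-(k / 10)) = Real.exp (-(1 / 10)) ^ k := by
    rw [← Real.exp_nat_mul]
    congr 1
    ring
  calc Real.exp (k / 16) * (∑ g : ι → Bool, Real.exp (-((∑ i, sb (g i) * v i) ^ 2 / 4))) ^ k
      ≤ Real.exp (k / 16) * (27 / 32 * 2 ^ Fintype.card ι) ^ k :=
        mul_le_mul_of_nonneg_left h4 (Real.exp_pos _).le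
    _ = (Real.exp (1 / 16) * (27 / 32)) ^ k * 2 ^ (k * Fintype.card ι) := by
        rw [e1, mul_pow, mul_pow, ← pow_mul, mul_comm (Fintype.card ι) k]
        ring
    _ ≤ Real.exp (-(1 / 10)) ^ k * 2 ^ (k * Fintype.card ι) := by
        refine mul_le_mul_of_nonneg_right ?_ (by positivity)
        exact pow_le_pow_left₀ (by positivity) num_bound k
    _ = Real.exp (-(k / 10)) * 2 ^ (k * Fintype.card ι) := by rw [e2]

end Pool.Agent.Helper52.CS
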