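import Pool.Agent.Helper52.CS.Mgf

/-! CS-31. Upper tail for `|G v|²`.
PROOF. Markov: each `G` in the set has `1 ≤ exp (GV G v / 4 - card κ - u)`; `∑_G exp (GV G v / 4) = ∏_l ∑_{g} exp (X²/4) ≤ ((3/2) 2^card ι)^card κ` (Finset.prod_univ_sum / Fintype.piFinset), and `3/2 ≤ e`. -/

set_option autoImplicit false

namespace Pool.Agent.Helper52.CS

open Finset

private lemma sum_prod_rows {κ ι : Type} [Fintype κ] [DecidableEq κ] [Fintype ι] [DecidableEq ι]
    (F : (ι → Bool) → ℝ) :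
    ∑ G : κ → ι → Bool, ∏ l, F (G l) = (∑ g : ι → Bool, F g) ^ Fintype.card κ := by
  have h := Finset.prod_univ_sum (fun _ : κ => (Finset.univ : Finset (ι → Bool))) (fun _ g => F g)
  rw [Fintype.piFinset_univ] at h
  rw [← h, Finset.prod_const, Finset.card_univ]

theorem tail_up {κ ι : Type} [Fintype κ] [DecidableEq κ] [Fintype ι] [DecidableEq ι] (v : ι → ℝ)
    (hv : ∑ i, v i ^ 2 ≤ 1) (u : ℝ) :
    (({G : κ → ι → Bool | 4 * (Fintype.card κ + u) ≤ GV G v} : Set (κ → ι → Bool)).ncard : ℝ) ≤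
      Real.exp (-u) * 2 ^ (Fintype.card κ * Fintype.card ι) := by
  classical
  set k := Fintype.card κ with hk
  have h1 : (({G : κ → ι → Bool | 4 * (k + u) ≤ GV G v} : Set (κ → ι → Bool)).ncard : ℝ) =
      ∑ G : κ → ι → Bool, if 4 * (k + u) ≤ GV G v then (1 : ℝ) else 0 := by
    rw [Finset.sum_ite, Finset.sum_const_zero, add_zero, Finset.sum_const, nsmul_eq_mul, mul_one]
    congr 1
    rw [Set.ncard_eq_toFinset_card']
    congr 1
    ext G
    simp
  have h2 : ∀ G : κ → ι → Bool, (if 4 * (k + u) ≤ GV G v then (1 : ℝ) else 0) ≤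
      Real.exp (-(k + u)) * ∏ l, Real.exp ((∑ i, sb (G l i) * v i) ^ 2 / 4) := by
    intro G
    have h3 : Real.exp (-(k + u)) * ∏ l, Real.exp ((∑ i, sb (G l i) * v i) ^ 2 / 4) =
        Real.exp (GV G v / 4 - (k + u)) := by
      rw [← Real.exp_sum, ← Real.exp_add]
      congr 1
      unfold GV
      rw [Finset.sum_div]
      ring
    rw [h3]
    split_ifs with h4
    · rw [← Real.exp_zero]
      exact Real.exp_le_exp.2 (by linarith)
    · exact (Real.exp_pos _).le
  rw [h1]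
  refine (Finset.sum_le_sum fun G _ => h2 G).trans ?_
  rw [← Finset.mul_sum, sum_prod_rows (fun g => Real.exp ((∑ i, sb (g i) * v i) ^ 2 / 4))]
  have h4 : (∑ g : ι → Bool, Real.exp ((∑ i, sb (g i) * v i) ^ 2 / 4)) ^ k ≤
      (3 / 2 * 2 ^ Fintype.card ι) ^ k :=
    pow_le_pow_left₀ (Finset.sum_nonneg fun g _ => (Real.exp_pos _).le) (mgf v hv) k
  have h5 : (3 / 2 : ℝ) ^ k ≤ Real.exp k := by
    rw [← mul_one (k : ℝ), Real.exp_nat_mul]
    refine pow_le_pow_left₀ (by norm_num) ?_ k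
    have := Real.exp_one_gt_d9
    linarith
  calc Real.exp (-(k + u)) * (∑ g : ι → Bool, Real.exp ((∑ i, sb (g i) * v i) ^ 2 / 4)) ^ k
      ≤ Real.exp (-(k + u)) * (3 / 2 * 2 ^ Fintype.card ι) ^ k :=
        mul_le_mul_of_nonneg_left h4 (Real.exp_pos _).le
    _ = Real.exp (-(k + u)) * (3 / 2 : ℝ) ^ k * 2 ^ (k * Fintype.card ι) := by
        rw [mul_pow, ← pow_mul, mul_comm (Fintype.card ι) k]
        ring
    _ ≤ Real.exp (-(k + u)) * Real.exp k * 2 ^ (k * Fintype.card ι) := by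
        refine mul_le_mul_of_nonneg_right ?_ (by positivity)
        exact mul_le_mul_of_nonneg_left h5 (Real.exp_pos _).le
    _ = Real.exp (-u) * 2 ^ (k * Fintype.card ι) := by
        rw [← Real.exp_add]
        congr 2
        ring

end Pool.Agent.Helper52.CS
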